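import Pool.Agent.Lib.MP_6cd19d_an.HP.A4

/-!
# MP_6cd19d_an, part SH: the sharp inequality in high dimension (definitions)

The space is `E (n+1)`, `σ` is a rotation invariant probability measure on the unit sphere (`SphM σ`).

* `zS`, `z1S`: `∫ exp(κ y_0) dσ`, `∫ y_0 exp(κ y_0) dσ`;
* `eS σ s = ∫ (2 - 2 y_0)^(-s/2) dσ` is the energy `∬ |x-y|^(-s) dσ dσ`, `lS σ s` its logarithmic derivative in `s`;
* `kc s e l Z`, as a function of the squared distance `Z`: the derivative in `s` of `(1/s) (Z^(-s/2)/e_s - 1)` for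
  `e = e_s`, `l = e_s'/e_s`; `kc1`, `kc2`: its first and second derivative in `Z`;
* `Par M θ s e l`: `0 < s ≤ M` and `e`, `l` are `θ`-close to their limits in high dimension;
* `ww s A L v = A v^(s/2-1) (log v - L)`: the Laplace weight of `kc`;
* `gz μ v = ∬ exp(-v |x-y|^2) dμ dμ = h0 + h1 + h2`: the parts of degree `0`, `1`, `≥ 2` in spherical harmonics;
* `he`: the quadratic form of the part of degree `≥ 2` at the function `|x|^2 - 1`;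
* `vE μ = ∫ (|x|^2-1)^2 dμ`, `vI μ = ∬ ⟨x,y⟩^2 dμ dμ`;
* `bS σ v = v ∫ (1-y_0) exp(-2v(1-y_0)) dσ`;
* `Thin δ μ`: a centred probability measure close to the unit sphere.
-/

set_option autoImplicit false

open MeasureTheory Set Filter Topology
open scoped ENNReal NNReal

namespace Pool.Agent.Lib.MP_6cd19d_an.SH

open Pool.Agent.Lib.MP_6cd19d_an.ND Pool.Agent.Lib.MP_6cd19d_an.HP

variable {n : ℕ}

noncomputable def zS (σ : Measure (E (n + 1))) (κ : ℝ) : ℝ := ∫ y, Real.exp (κ * y 0) ∂σ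

noncomputable def z1S (σ : Measure (E (n + 1))) (κ : ℝ) : ℝ := ∫ y, y 0 * Real.exp (κ * y 0) ∂σ

noncomputable def eS (σ : Measure (E (n + 1))) (s : ℝ) : ℝ := ∫ y, (2 - 2 * y 0) ^ (-s / 2) ∂σ

noncomputable def lS (σ : Measure (E (n + 1))) (s : ℝ) : ℝ :=
  -(∫ y, (2 - 2 * y 0) ^ (-s / 2) * Real.log (2 - 2 * y 0) ∂σ) / (2 * eS σ s)

noncomputable def kc (s e l Z : ℝ) : ℝ :=
  (1 - (1 + s * (Real.log Z / 2 + l)) * Z ^ (-s / 2) / e) / s ^ 2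

noncomputable def kc1 (s e l Z : ℝ) : ℝ := Z ^ (-s / 2 - 1) * (Real.log Z / 2 + l) / (2 * e)

noncomputable def kc2 (s e l Z : ℝ) : ℝ :=
  Z ^ (-s / 2 - 2) * (1 / 2 - (s / 2 + 1) * (Real.log Z / 2 + l)) / (2 * e)

structure Par (M θ s e l : ℝ) : Prop where
  s0 : 0 < s
  sM : s ≤ M
  t0 : 0 < θ
  t1 : θ ≤ 1 / 10
  e0 : |(2 : ℝ) ^ (s / 2) * e - 1| ≤ θ
  l0 : |l + Real.log 2 / 2| ≤ θ
  g0 : Real.exp (s * l) / e ≤ 1 + θ * s ^ 2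

noncomputable def ww (s A L v : ℝ) : ℝ := A * v ^ (s / 2 - 1) * (Real.log v - L)

noncomputable def gE (v : ℝ) (x y : E (n + 1)) : ℝ := Real.exp (-v * (‖x‖ ^ 2 + ‖y‖ ^ 2))

noncomputable def Ps (σ : Measure (E (n + 1))) (v : ℝ) (x y : E (n + 1)) : ℝ :=
  Real.exp (2 * v * inner ℝ x y) - zS σ (2 * v * (‖x‖ * ‖y‖)) -
    ((n : ℝ) + 1) * z1S σ (2 * v * (‖x‖ * ‖y‖)) * (inner ℝ x y / (‖x‖ * ‖y‖))

noncomputable def h0 (σ μ : Measure (E (n + 1))) (v : ℝ) : ℝ :=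
  ∫ x, ∫ y, gE v x y * zS σ (2 * v * (‖x‖ * ‖y‖)) ∂μ ∂μ

noncomputable def h1 (σ μ : Measure (E (n + 1))) (v : ℝ) : ℝ :=
  ∫ x, ∫ y, gE v x y * (((n : ℝ) + 1) * z1S σ (2 * v * (‖x‖ * ‖y‖)) * (inner ℝ x y / (‖x‖ * ‖y‖))) ∂μ ∂μ

noncomputable def h2 (σ μ : Measure (E (n + 1))) (v : ℝ) : ℝ := ∫ x, ∫ y, gE v x y * Ps σ v x y ∂μ ∂μ

noncomputable def he (σ μ : Measure (E (n + 1))) (v : ℝ) : ℝ :=
  ∫ x, ∫ y, (‖x‖ ^ 2 - 1) * (‖y‖ ^ 2 - 1) * (gE v x y * Ps σ v x y) ∂μ ∂μ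

noncomputable def vE (μ : Measure (E (n + 1))) : ℝ := ∫ x, (‖x‖ ^ 2 - 1) ^ 2 ∂μ

noncomputable def vI (μ : Measure (E (n + 1))) : ℝ := ∫ x, ∫ y, (inner ℝ x y) ^ 2 ∂μ ∂μ

noncomputable def bS (σ : Measure (E (n + 1))) (v : ℝ) : ℝ :=
  v * ∫ y, (1 - y 0) * Real.exp (-2 * v * (1 - y 0)) ∂σ

/-- The energy of `μ` for the kernel `kc`. -/
noncomputable def qS (s e l : ℝ) (μ : Measure (E (n + 1))) : ℝ := ∫ x, ∫ y, kc s e l (‖x - y‖ ^ 2) ∂μ ∂μ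

structure Thin (δ : ℝ) (μ : Measure (E (n + 1))) : Prop where
  prob : μ univ = 1
  d0 : 0 < δ
  d1 : δ ≤ 1 / 10
  shell : ∀ᵐ x ∂μ, |‖x‖ ^ 2 - 1| ≤ δ
  cent : ∫ x, x ∂μ = 0
  iso : vI μ ≤ δ ^ 2

end Pool.Agent.Lib.MP_6cd19d_an.SH
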