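import Pool.Agent.Lib.MP_6cd19d_an.SH.Defs

section

/-!
# The sphere: integration by parts and moments

`sph_ibp`: for `j ≠ 0` rotate in the plane `(0,j)`: `∫ F(R_θ y) dσ` does not depend on `θ` for `F(y) = y_j f(y_0)`; the
derivative at `θ = 0` is `∫ (y_0 f(y_0) - y_j^2 f'(y_0)) dσ = 0` (all functions are bounded on the sphere); sum over the `n`
indices `j ≠ 0` with `∑_{j ≠ 0} y_j^2 = 1 - y_0^2`.  (The proof of the ODE in `HP/B1.lean` is the case `f = exp(κ t)`; copy its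
private lemmas.)
Moments: `f = 1` gives `∫ y_0 = 0`; `f = t`: `∫ (1-y_0^2) = n ∫ y_0^2`; `f = t^3`: `3 ∫ (1-y_0^2) y_0^2 = n ∫ y_0^4`.
-/

set_option autoImplicit false

open MeasureTheory Set Filter Topology
open scoped ENNReal NNReal

namespace Pool.Agent.Lib.MP_6cd19d_an.SH

open Pool.Agent.Lib.MP_6cd19d_an.ND Pool.Agent.Lib.MP_6cd19d_an.HP

variable {n : ℕ}

section aux

variable {σ : Measure (E (n + 1))}

private theorem S1_ae (hσ : SphM σ) : ∀ᵐ y ∂σ, ‖y‖ = 1 := by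
  rw [ae_iff]
  have h := hσ.2.1
  convert! h using 2
  ext y
  simp

private theorem S1_coord {y : E (n + 1)} (hy : ‖y‖ = 1) (j : Fin (n + 1)) : |y j| ≤ 1 := by
  have h := PiLp.norm_apply_le y j
  rw [hy, Real.norm_eq_abs] at h
  exact h

private theorem S1_inv (hσ : SphM σ) (T : E (n + 1) ≃ₗᵢ[ℝ] E (n + 1)) (f : E (n + 1) → ℝ) :
    ∫ y, f (T y) ∂σ = ∫ y, f y ∂σ := by
  conv_rhs => rw [← hσ.2.2 T]
  exact (T.toHomeomorph.measurableEmbedding.integral_map f).symm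

private theorem S1_int [IsFiniteMeasure σ] (hσ : SphM σ) {f : E (n + 1) → ℝ} (hf : Continuous f)
    (C : ℝ) (hC : ∀ y : E (n + 1), ‖y‖ = 1 → |f y| ≤ C) : Integrable f σ := by
  refine Integrable.of_bound hf.aestronglyMeasurable C ?_
  filter_upwards [S1_ae hσ] with y hy
  rw [Real.norm_eq_abs]
  exact hC y hy

private theorem S1_c (j : Fin (n + 1)) : Continuous fun y : E (n + 1) => y j :=
  (PiLp.continuous_apply 2 (fun _ => ℝ) j)

private theorem S1_refl (j : Fin (n + 1)) (hj : j ≠ 0) (φ : ℝ) :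
    ∃ T : E (n + 1) ≃ₗᵢ[ℝ] E (n + 1), ∀ y : E (n + 1),
      (T y) 0 = Real.cos φ * y 0 + Real.sin φ * y j ∧
      (T y) j = Real.sin φ * y 0 - Real.cos φ * y j := by
  set u : E (n + 1) := EuclideanSpace.single 0 (Real.cos (φ / 2)) +
    EuclideanSpace.single j (Real.sin (φ / 2)) with hu
  have hu0 : u 0 = Real.cos (φ / 2) := by
    simp [hu, hj.symm]
  have huj : u j = Real.sin (φ / 2) := by
    simp [hu, hj]
  have hui : ∀ y : E (n + 1), inner ℝ u y = Real.cos (φ / 2) * y 0 + Real.sin (φ / 2) * y j := by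
    intro y
    rw [hu, inner_add_left, EuclideanSpace.inner_single_left, EuclideanSpace.inner_single_left]
    simp
  have hun : ‖u‖ ^ 2 = 1 := by
    rw [← real_inner_self_eq_norm_sq, hui, hu0, huj]
    have := Real.cos_sq_add_sin_sq (φ / 2)
    nlinarith
  refine ⟨(Submodule.span ℝ {u}).reflection, fun y => ?_⟩
  have hT : (Submodule.span ℝ {u}).reflection y = (2 * inner ℝ u y) • u - y := by
    rw [Submodule.reflection_singleton_apply]
    simp only [RCLike.ofReal_real_eq_id, id_eq, hun, div_one]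
    rw [two_smul, ← add_smul, ← two_mul]
  have hc : Real.cos φ = 2 * Real.cos (φ / 2) ^ 2 - 1 := by
    rw [← Real.cos_two_mul]
    congr 1
    ring
  have hs : Real.sin φ = 2 * Real.sin (φ / 2) * Real.cos (φ / 2) := by
    rw [← Real.sin_two_mul]
    congr 1
    ring
  have hcs := Real.cos_sq_add_sin_sq (φ / 2)
  rw [hT, hui]
  constructor
  · simp only [PiLp.sub_apply, PiLp.smul_apply, smul_eq_mul, hu0]
    rw [hc, hs]
    ring
  · simp only [PiLp.sub_apply, PiLp.smul_apply, smul_eq_mul, huj]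
    rw [hc, hs]
    have h1 : Real.sin (φ / 2) ^ 2 = 1 - Real.cos (φ / 2) ^ 2 := by linarith
    have h2 : 2 * (Real.cos (φ / 2) * y 0 + Real.sin (φ / 2) * y j) * Real.sin (φ / 2) - y j =
      2 * Real.sin (φ / 2) * Real.cos (φ / 2) * y 0 + (2 * Real.sin (φ / 2) ^ 2 - 1) * y j := by
      ring
    rw [h2, h1]
    ring

private theorem S1_bd {f : ℝ → ℝ} (hf : Continuous f) : ∃ C : ℝ, 0 ≤ C ∧ ∀ t : ℝ, |t| ≤ 2 → |f t| ≤ C := by
  obtain ⟨C, hC⟩ := (isCompact_Icc (a := (-2 : ℝ)) (b := 2)).exists_bound_of_continuousOn hf.continuousOn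
  refine ⟨C, le_trans (norm_nonneg _) (hC 0 ⟨by norm_num, by norm_num⟩), fun t ht => ?_⟩
  rw [← Real.norm_eq_abs]
  exact hC t (abs_le.1 ht)

private theorem S1_ibp [IsFiniteMeasure σ] (hσ : SphM σ) (j : Fin (n + 1)) (hj : j ≠ 0)
    {f f' : ℝ → ℝ} (hf : ∀ t, HasDerivAt f (f' t) t) (hc : Continuous f') :
    ∫ y, (y 0 * f (y 0) - (y j) ^ 2 * f' (y 0)) ∂σ = 0 := by
  have hfc : Continuous f := continuous_iff_continuousAt.2 fun t => (hf t).continuousAt
  obtain ⟨C, hC0, hC⟩ := S1_bd hfc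
  obtain ⟨C', hC'0, hC'⟩ := S1_bd hc
  set F : ℝ → E (n + 1) → ℝ := fun φ y => (Real.sin φ * y 0 - Real.cos φ * y j) *
    f (Real.cos φ * y 0 + Real.sin φ * y j) with hF
  set F' : ℝ → E (n + 1) → ℝ := fun φ y => (Real.cos φ * y 0 + Real.sin φ * y j) *
      f (Real.cos φ * y 0 + Real.sin φ * y j) +
    (Real.sin φ * y 0 - Real.cos φ * y j) *
      (f' (Real.cos φ * y 0 + Real.sin φ * y j) *
        (-Real.sin φ * y 0 + Real.cos φ * y j)) with hF'
  have hconst : ∀ φ, ∫ y, F φ y ∂σ = ∫ y, (y j) * f (y 0) ∂σ := by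
    intro φ
    obtain ⟨T, hT⟩ := S1_refl j hj φ
    rw [← S1_inv hσ T (fun y => (y j) * f (y 0))]
    refine integral_congr_ae (Eventually.of_forall fun y => ?_)
    simp only [hF, (hT y).1, (hT y).2]
  have hb : ∀ (y : E (n + 1)), ‖y‖ = 1 → ∀ φ : ℝ,
      |Real.cos φ * y 0 + Real.sin φ * y j| ≤ 2 ∧ |Real.sin φ * y 0 - Real.cos φ * y j| ≤ 2 ∧
      |-Real.sin φ * y 0 + Real.cos φ * y j| ≤ 2 := by
    intro y hy φ
    have a0 := S1_coord hy 0
    have aj := S1_coord hy j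
    have c1 := Real.abs_cos_le_one φ
    have s1 := Real.abs_sin_le_one φ
    have p1 : |Real.cos φ * y 0| ≤ 1 := by
      rw [abs_mul]; exact mul_le_one₀ c1 (abs_nonneg _) a0
    have p2 : |Real.sin φ * y 0| ≤ 1 := by
      rw [abs_mul]; exact mul_le_one₀ s1 (abs_nonneg _) a0
    have p3 : |Real.cos φ * y j| ≤ 1 := by
      rw [abs_mul]; exact mul_le_one₀ c1 (abs_nonneg _) aj
    have p4 : |Real.sin φ * y j| ≤ 1 := by
      rw [abs_mul]; exact mul_le_one₀ s1 (abs_nonneg _) aj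
    rw [abs_le] at p1 p2 p3 p4
    refine ⟨?_, ?_, ?_⟩ <;> rw [abs_le] <;> constructor <;>
      linarith [p1.1, p1.2, p2.1, p2.2, p3.1, p3.2, p4.1, p4.2]
  have hFc : ∀ φ, Continuous (F φ) := by
    intro φ
    simp only [hF]
    have c0 := S1_c (n := n) 0
    have cj := S1_c (n := n) j
    fun_prop
  have hF'c : ∀ φ, Continuous (F' φ) := by
    intro φ
    simp only [hF']
    have c0 := S1_c (n := n) 0
    have cj := S1_c (n := n) j
    fun_prop
  have hder := (hasDerivAt_integral_of_dominated_loc_of_deriv_le (μ := σ) (F := F) (F' := F')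
    (x₀ := (0 : ℝ)) (s := univ) (bound := fun _ => 2 * C + 2 * (C' * 2)) univ_mem
    (Eventually.of_forall fun φ => (hFc φ).aestronglyMeasurable)
    (S1_int hσ (hFc 0) (2 * C) (fun y hy => by
      simp only [hF]
      rw [abs_mul]
      exact mul_le_mul (hb y hy 0).2.1 (hC _ (hb y hy 0).1) (abs_nonneg _) (by norm_num)))
    (hF'c 0).aestronglyMeasurable ?_ (integrable_const _) ?_).2
  · have h1 : (fun φ => ∫ y, F φ y ∂σ) = fun _ => ∫ y, (y j) * f (y 0) ∂σ :=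
      funext hconst
    rw [h1] at hder
    have h2 := hder.unique (hasDerivAt_const (0 : ℝ) _)
    rw [← h2]
    refine integral_congr_ae (Eventually.of_forall fun y => ?_)
    simp only [hF', Real.cos_zero, Real.sin_zero]
    ring_nf
  · filter_upwards [S1_ae hσ] with y hy φ _
    simp only [hF']
    rw [Real.norm_eq_abs]
    refine (abs_add_le _ _).trans (add_le_add ?_ ?_)
    · rw [abs_mul]
      exact mul_le_mul (hb y hy φ).1 (hC _ (hb y hy φ).1) (abs_nonneg _) (by norm_num)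
    · rw [abs_mul, abs_mul]
      refine mul_le_mul (hb y hy φ).2.1 ?_ (by positivity) (by norm_num)
      exact mul_le_mul (hC' _ (hb y hy φ).1) (hb y hy φ).2.2 (abs_nonneg _) hC'0
  · refine Eventually.of_forall fun y φ _ => ?_
    have e1 : HasDerivAt (fun φ => Real.sin φ * y 0 - Real.cos φ * y j)
        (Real.cos φ * y 0 + Real.sin φ * y j) φ := by
      have := ((Real.hasDerivAt_sin φ).mul_const (y 0)).sub
        ((Real.hasDerivAt_cos φ).mul_const (y j))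
      convert! this using 1
      ring
    have e2 : HasDerivAt (fun φ => Real.cos φ * y 0 + Real.sin φ * y j)
        (-Real.sin φ * y 0 + Real.cos φ * y j) φ :=
      ((Real.hasDerivAt_cos φ).mul_const (y 0)).add
        ((Real.hasDerivAt_sin φ).mul_const (y j))
    exact e1.mul ((hf _).comp φ e2)

private theorem S1_sq {y : E (n + 1)} (hy : ‖y‖ = 1) :
    ∑ j : Fin n, (y j.succ) ^ 2 = 1 - (y 0) ^ 2 := by
  have h := EuclideanSpace.norm_sq_eq y
  rw [hy, Fin.sum_univ_succ] at h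
  simp only [Real.norm_eq_abs, sq_abs] at h
  linarith

private theorem S1_pow [IsFiniteMeasure σ] (hσ : SphM σ) (j : Fin (n + 1)) (k : ℕ) :
    Integrable (fun y : E (n + 1) => (y j) ^ k) σ := by
  have cj := S1_c (n := n) j
  refine S1_int hσ (by fun_prop) 1 (fun y hy => ?_)
  rw [abs_pow]
  exact pow_le_one₀ (abs_nonneg _) (S1_coord hy j)

private theorem S1_neg (hσ : SphM σ) (g : E (n + 1) → ℝ) (hg : ∀ y, g (-y) = -g y) :
    ∫ y, g y ∂σ = 0 := by
  have h := S1_inv hσ (LinearIsometryEquiv.neg ℝ) g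
  have h2 : ∫ y, g ((LinearIsometryEquiv.neg ℝ (E := E (n + 1))) y) ∂σ =
      - ∫ y, g y ∂σ := by
    rw [← integral_neg]
    refine integral_congr_ae (Eventually.of_forall fun y => ?_)
    simpa using hg y
  rw [h2] at h
  linarith

end aux

theorem sph_norm {σ : Measure (E (n + 1))} (hσ : SphM σ) : ∀ᵐ y ∂σ, ‖y‖ = 1 := by
  exact S1_ae hσ

theorem sph_abs {σ : Measure (E (n + 1))} (hσ : SphM σ) : ∀ᵐ y ∂σ, |y 0| ≤ 1 := by
  filter_upwards [S1_ae hσ] with y hy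
  exact S1_coord hy 0

theorem sph_ibp (hn : 1 ≤ n) {σ : Measure (E (n + 1))} (hσ : SphM σ) {f f' : ℝ → ℝ}
    (hf : ∀ t, HasDerivAt f (f' t) t) (hc : Continuous f') :
    ∫ y, (1 - (y 0) ^ 2) * f' (y 0) ∂σ = n * ∫ y, y 0 * f (y 0) ∂σ := by
  have : IsProbabilityMeasure σ := ⟨hσ.1⟩
  have hfc : Continuous f := continuous_iff_continuousAt.2 fun t => (hf t).continuousAt
  obtain ⟨C, hC0, hC⟩ := S1_bd hfc
  obtain ⟨C', hC'0, hC'⟩ := S1_bd hc
  have c0 := S1_c (n := n) 0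
  have i1 : Integrable (fun y : E (n + 1) => y 0 * f (y 0)) σ := by
    refine S1_int hσ (by fun_prop) (1 * C) (fun y hy => ?_)
    rw [abs_mul]
    exact mul_le_mul (S1_coord hy 0) (hC _ ((S1_coord hy 0).trans (by norm_num))) (abs_nonneg _)
      zero_le_one
  have ij : ∀ j : Fin (n + 1), Integrable (fun y : E (n + 1) => (y j) ^ 2 * f' (y 0)) σ := by
    intro j
    have cj := S1_c (n := n) j
    refine S1_int hσ (by fun_prop) (1 * C') (fun y hy => ?_)
    rw [abs_mul]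
    refine mul_le_mul ?_ (hC' _ ((S1_coord hy 0).trans (by norm_num))) (abs_nonneg _) zero_le_one
    rw [abs_pow]
    exact pow_le_one₀ (abs_nonneg _) (S1_coord hy j)
  have hj : ∀ j : Fin n, ∫ y, (y j.succ) ^ 2 * f' (y 0) ∂σ = ∫ y, y 0 * f (y 0) ∂σ := by
    intro j
    have h := S1_ibp hσ j.succ (Fin.succ_ne_zero j) hf hc
    rw [integral_sub i1 (ij j.succ)] at h
    linarith
  have hs : ∑ j : Fin n, ∫ y, (y j.succ) ^ 2 * f' (y 0) ∂σ = n * ∫ y, y 0 * f (y 0) ∂σ := by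
    rw [Finset.sum_congr rfl fun j _ => hj j, Finset.sum_const, Finset.card_univ,
      Fintype.card_fin, nsmul_eq_mul]
  rw [← hs, ← integral_finsetSum _ (fun j _ => ij j.succ)]
  refine integral_congr_ae ?_
  filter_upwards [S1_ae hσ] with y hy
  rw [← Finset.sum_mul, S1_sq hy]

theorem sph_m1 {σ : Measure (E (n + 1))} (hσ : SphM σ) : ∫ y, y 0 ∂σ = 0 := by
  exact S1_neg hσ (fun y => y 0) (fun y => by simp)

theorem sph_m3 {σ : Measure (E (n + 1))} (hσ : SphM σ) : ∫ y, (y 0) ^ 3 ∂σ = 0 := by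
  exact S1_neg hσ (fun y => (y 0) ^ 3) (fun y => by simp; ring)

theorem sph_m2 {σ : Measure (E (n + 1))} (hσ : SphM σ) : ∫ y, (y 0) ^ 2 ∂σ = 1 / ((n : ℝ) + 1) := by
  have : IsProbabilityMeasure σ := ⟨hσ.1⟩
  rcases Nat.eq_zero_or_pos n with h0 | hn
  · subst h0
    have h : ∫ y, (y 0) ^ 2 ∂σ = ∫ y : E (0 + 1), (1 : ℝ) ∂σ := by
      refine integral_congr_ae ?_
      filter_upwards [S1_ae hσ] with y hy
      have := S1_sq hy
      simp at this
      linarith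
    rw [h]
    simp
  · have h := sph_ibp hn hσ (f := fun t => t) (f' := fun _ => 1) (fun t => hasDerivAt_id t)
      continuous_const
    have h1 : ∫ y, (1 - (y 0) ^ 2) * (1 : ℝ) ∂σ = 1 - ∫ y, (y 0) ^ 2 ∂σ := by
      simp only [mul_one]
      rw [integral_sub (integrable_const _) (S1_pow hσ 0 2)]
      simp
    have h2 : ∫ y, y 0 * y 0 ∂σ = ∫ y, (y 0) ^ 2 ∂σ := by
      refine integral_congr_ae (Eventually.of_forall fun y => ?_)
      simp only
      ring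
    simp only [] at h
    rw [h1, h2] at h
    rw [eq_div_iff (by positivity)]
    linarith

theorem sph_m4 (hn : 1 ≤ n) {σ : Measure (E (n + 1))} (hσ : SphM σ) :
    ∫ y, (y 0) ^ 4 ∂σ ≤ 3 / ((n : ℝ) + 1) ^ 2 := by
  have : IsProbabilityMeasure σ := ⟨hσ.1⟩
  have hn0 : (0 : ℝ) < n := by exact_mod_cast hn
  have h := sph_ibp hn hσ (f := fun t => t ^ 3) (f' := fun t => 3 * t ^ 2)
    (fun t => by simpa using hasDerivAt_pow 3 t) (by fun_prop)
  have h1 : ∫ y, (1 - (y 0) ^ 2) * (3 * (y 0) ^ 2) ∂σ =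
      3 * ∫ y, (y 0) ^ 2 ∂σ - 3 * ∫ y, (y 0) ^ 4 ∂σ := by
    rw [← integral_const_mul, ← integral_const_mul,
      ← integral_sub ((S1_pow hσ 0 2).const_mul 3) ((S1_pow hσ 0 4).const_mul 3)]
    refine integral_congr_ae (Eventually.of_forall fun y => ?_)
    simp only
    ring
  have h2 : ∫ y, y 0 * (y 0) ^ 3 ∂σ = ∫ y, (y 0) ^ 4 ∂σ := by
    refine integral_congr_ae (Eventually.of_forall fun y => ?_)
    simp only
    ring
  simp only [] at h
  rw [h1, h2, sph_m2 hσ] at h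
  have h3 : ((n : ℝ) + 3) * ∫ y, (y 0) ^ 4 ∂σ = 3 * (1 / ((n : ℝ) + 1)) := by linarith
  have h4 : ∫ y, (y 0) ^ 4 ∂σ = 3 * (1 / ((n : ℝ) + 1)) / ((n : ℝ) + 3) := by
    rw [eq_div_iff (by positivity)]
    linarith
  rw [h4, mul_one_div, div_div]
  refine div_le_div_of_nonneg_left (by norm_num) (by positivity) ?_
  nlinarith

end Pool.Agent.Lib.MP_6cd19d_an.SH
end

section

/-!
# The kernel

`y = log Z/2 + l`, `G = exp(s l)/e`.  `kc = (1 - (1 + s y) exp(-s y) G)/s^2` as `Z^(-s/2) = exp(-s y) exp(s l)`.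
Derivatives: direct.

`kc_lower`: let `ω = (1 - (1+s y) exp(-s y))/s^2 = ∫_0^y t exp(-s t) dt`.  `y ≤ 0`: `ω ≥ y^2/2`; `0 ≤ y ≤ 1`:
`ω ≥ exp(-M) y^2/2`; `y ≥ 1`: `ω ≥ exp(-M)/2`.  So `ω ≥ (exp(-M)/2) min(y^2,1)`.  If `1 + s y ≥ 0`:
`(1+sy) exp(-sy) G ≤ (1+sy) exp(-sy) + θ s^2` (because `(1+x) exp(-x) ≤ 1`), so `kc ≥ ω - θ`.  If `1 + s y < 0`:
`kc ≥ 1/s^2 ≥ 1/M^2 ≥ exp(-M)/144`.  Finally `y = (1/2) log(Z/2) + (l + log 2/2)`, so
`min(y^2,1) ≥ (1/2) min(((1/2) log(Z/2))^2, 1) - θ^2` and `min(((1/2)log(Z/2))^2,1) ≥ (1/36) min((Z-2)^2,1)`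
(`|Z-2| ≤ 1`: `|log(Z/2)| ≥ |Z-2|/3`; `Z ≥ 3`: `(1/2) log(3/2) > 1/6`; `Z ≤ 1`: `(1/2) log 2 > 1/6`).

`kc12_bound` (`k` large, e.g. `k ≥ M/2 + 4`): `|log(Z/2)| ≤ |Z-2| (1/2 + 1/Z)`, `1/(2e) = 2^(s/2-1)/(2^(s/2) e)`,
`kc2 - 1/16` is `((Z/2)^(-s/2) Z^(-2) (1/2) (1/2 - (s/2+1) y) /(2^(s/2) e)) - 1/16`, which is `0` at `Z = 2, y = 0`,
`2^(s/2) e = 1`; each factor is Lipschitz with powers of `1/Z` in the bounds.

`kc_growth`: as `Z → 0` `kc ~ Z^(-s/2) |log Z|/(2 s e)`; on compact parts of `(0,∞)` everything is bounded.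
-/

set_option autoImplicit false

open MeasureTheory Set Filter Topology
open scoped ENNReal NNReal

namespace Pool.Agent.Lib.MP_6cd19d_an.SH

open Pool.Agent.Lib.MP_6cd19d_an.ND Pool.Agent.Lib.MP_6cd19d_an.HP

variable {n : ℕ}


private theorem rp {Z : ℝ} (hZ : 0 < Z) (p : ℝ) : HasDerivAt (fun Z : ℝ => Z ^ p) (p * Z ^ (p - 1)) Z :=
  Real.hasDerivAt_rpow_const (Or.inl hZ.ne')

private theorem ly {l Z : ℝ} (hZ : 0 < Z) :
    HasDerivAt (fun Z : ℝ => Real.log Z / 2 + l) (Z⁻¹ / 2) Z :=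
  ((Real.hasDerivAt_log hZ.ne').div_const 2).add_const l

theorem hasDerivAt_kc {s e l Z : ℝ} (hs : 0 < s) (he : 0 < e) (hZ : 0 < Z) :
    HasDerivAt (kc s e l) (kc1 s e l Z) Z := by
  have h1 := (((ly (l := l) hZ).const_mul s).const_add 1).mul (rp hZ (-s / 2))
  have h2 := ((h1.div_const e).const_sub 1).div_const (s ^ 2)
  have h3 : HasDerivAt (kc s e l)
      (-((s * (Z⁻¹ / 2) * Z ^ (-s / 2) +
        (1 + s * (Real.log Z / 2 + l)) * (-s / 2 * Z ^ (-s / 2 - 1))) / e) / s ^ 2) Z := h2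
  refine h3.congr_deriv ?_
  have h4 : Z ^ (-s / 2) = Z ^ (-s / 2 - 1) * Z := by
    rw [Real.rpow_sub_one hZ.ne']
    field_simp
  rw [h4]
  unfold kc1
  field_simp
  ring

theorem hasDerivAt_kc1 {s e l Z : ℝ} (hs : 0 < s) (he : 0 < e) (hZ : 0 < Z) :
    HasDerivAt (kc1 s e l) (kc2 s e l Z) Z := by
  have h1 := ((rp hZ (-s / 2 - 1)).mul (ly (l := l) hZ)).div_const (2 * e)
  have h3 : HasDerivAt (kc1 s e l)
      (((-s / 2 - 1) * Z ^ (-s / 2 - 1 - 1) * (Real.log Z / 2 + l) + Z ^ (-s / 2 - 1) * (Z⁻¹ / 2)) / (2 * e)) Z :=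
    h1
  refine h3.congr_deriv ?_
  have h5 : -s / 2 - 1 - 1 = -s / 2 - 2 := by ring
  have h4 : Z ^ (-s / 2 - 1) = Z ^ (-s / 2 - 2) * Z := by
    rw [← h5, Real.rpow_sub_one hZ.ne' (-s / 2 - 1)]
    field_simp
  rw [h5, h4]
  unfold kc2
  field_simp
  ring

theorem par_e {M θ s e l : ℝ} (h : Par M θ s e l) : 0 < e := by
  have h1 := h.e0
  have h2 := h.t1
  have h3 : 0 < (2 : ℝ) ^ (s / 2) := Real.rpow_pos_of_pos (by norm_num) _
  have h4 : 0 < (2 : ℝ) ^ (s / 2) * e := by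
    have := (abs_le.mp h1).1
    linarith
  exact (pos_iff_pos_of_mul_pos h4).mp h3

/-! ## `kc_lower` -/

private theorem hF (x : ℝ) : HasDerivAt (fun x : ℝ => 1 - (1 + x) * Real.exp (-x)) (x * Real.exp (-x)) x := by
  have h1 := ((hasDerivAt_id x).const_add 1).mul ((hasDerivAt_neg x).exp)
  have h2 := h1.const_sub 1
  refine h2.congr_deriv ?_
  simp
  ring

private theorem F_neg {x : ℝ} (hx : x ≤ 0) : x ^ 2 / 2 ≤ 1 - (1 + x) * Real.exp (-x) := by
  have h1 : ∀ t : ℝ, HasDerivAt (fun x : ℝ => 1 - (1 + x) * Real.exp (-x) - x ^ 2 / 2)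
      (t * Real.exp (-t) - t) t := by
    intro t
    have h := (hF t).sub (((hasDerivAt_id t).pow 2).div_const 2)
    refine h.congr_deriv ?_
    simp
  have h2 : AntitoneOn (fun x : ℝ => 1 - (1 + x) * Real.exp (-x) - x ^ 2 / 2) (Iic 0) := by
    apply antitoneOn_of_deriv_nonpos (convex_Iic 0)
    · exact fun t _ => (h1 t).continuousAt.continuousWithinAt
    · exact fun t _ => (h1 t).differentiableAt.differentiableWithinAt
    · intro t ht
      rw [(h1 t).deriv]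
      rw [interior_Iic] at ht
      have h3 : 1 ≤ Real.exp (-t) := Real.one_le_exp (by linarith [mem_Iio.mp ht])
      have h4 : t < 0 := ht
      nlinarith
  have h3 := h2 (mem_Iic.mpr hx) (mem_Iic.mpr le_rfl) hx
  simp at h3
  linarith

private theorem F_pos {s x : ℝ} (hx : 0 ≤ x) (hs : x ≤ s) :
    Real.exp (-s) * x ^ 2 / 2 ≤ 1 - (1 + x) * Real.exp (-x) := by
  have h1 : ∀ t : ℝ, HasDerivAt (fun x : ℝ => 1 - (1 + x) * Real.exp (-x) - Real.exp (-s) * (x ^ 2 / 2))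
      (t * Real.exp (-t) - Real.exp (-s) * t) t := by
    intro t
    have h := (hF t).sub ((((hasDerivAt_id t).pow 2).div_const 2).const_mul (Real.exp (-s)))
    refine h.congr_deriv ?_
    simp
  have h2 : MonotoneOn (fun x : ℝ => 1 - (1 + x) * Real.exp (-x) - Real.exp (-s) * (x ^ 2 / 2)) (Icc 0 s) := by
    apply monotoneOn_of_deriv_nonneg (convex_Icc 0 s)
    · exact fun t _ => (h1 t).continuousAt.continuousWithinAt
    · exact fun t _ => (h1 t).differentiableAt.differentiableWithinAt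
    · intro t ht
      rw [(h1 t).deriv]
      rw [interior_Icc] at ht
      have h3 : Real.exp (-s) ≤ Real.exp (-t) := Real.exp_le_exp.mpr (by linarith [ht.2])
      have h4 : 0 < t := ht.1
      nlinarith
  have h3 := h2 (mem_Icc.mpr ⟨le_rfl, hx.trans hs⟩) (mem_Icc.mpr ⟨hx, hs⟩) hx
  simp at h3
  linarith

private theorem F_mono {x y : ℝ} (hx : 0 ≤ x) (hy : x ≤ y) :
    1 - (1 + x) * Real.exp (-x) ≤ 1 - (1 + y) * Real.exp (-y) := by
  have h2 : MonotoneOn (fun x : ℝ => 1 - (1 + x) * Real.exp (-x)) (Ici 0) := by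
    apply monotoneOn_of_deriv_nonneg (convex_Ici 0)
    · exact fun t _ => (hF t).continuousAt.continuousWithinAt
    · exact fun t _ => (hF t).differentiableAt.differentiableWithinAt
    · intro t ht
      rw [(hF t).deriv]
      rw [interior_Ici] at ht
      have h4 : 0 < t := ht
      positivity
  exact h2 (mem_Ici.mpr hx) (mem_Ici.mpr (hx.trans hy)) hy

private theorem F_low {M s y : ℝ} (hs : 0 < s) (hM : s ≤ M) :
    s ^ 2 * (Real.exp (-M) / 2 * min (y ^ 2) 1) ≤ 1 - (1 + s * y) * Real.exp (-(s * y)) := by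
  have hE : Real.exp (-M) ≤ 1 := Real.exp_le_one_iff.mpr (by linarith)
  have hE0 := Real.exp_pos (-M)
  have hEs : Real.exp (-M) ≤ Real.exp (-s) := Real.exp_le_exp.mpr (by linarith)
  rcases le_total y 0 with hy | hy
  · have h1 := F_neg (x := s * y) (by nlinarith)
    have h2 : min (y ^ 2) 1 ≤ y ^ 2 := min_le_left _ _
    have h3 : Real.exp (-M) / 2 * min (y ^ 2) 1 ≤ y ^ 2 / 2 := by
      have h4 : 0 ≤ y ^ 2 := sq_nonneg y
      have h5 : 0 ≤ min (y ^ 2) 1 := le_min h4 zero_le_one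
      nlinarith
    have h6 : 0 ≤ s ^ 2 := sq_nonneg s
    nlinarith [mul_le_mul_of_nonneg_left h3 h6]
  · rcases le_total y 1 with hy1 | hy1
    · have h1 := F_pos (s := s) (x := s * y) (by positivity) (by nlinarith)
      have h2 : min (y ^ 2) 1 ≤ y ^ 2 := min_le_left _ _
      have h3 : Real.exp (-M) / 2 * min (y ^ 2) 1 ≤ Real.exp (-s) * y ^ 2 / 2 := by
        have h4 : 0 ≤ y ^ 2 := sq_nonneg y
        nlinarith
      have h6 : 0 ≤ s ^ 2 := sq_nonneg s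
      nlinarith [mul_le_mul_of_nonneg_left h3 h6]
    · have h1 := F_mono (x := s * 1) (y := s * y) (by linarith) (by nlinarith)
      have h2 := F_pos (s := s) (x := s * 1) (by linarith) (by linarith)
      have h3 : Real.exp (-M) / 2 * min (y ^ 2) 1 ≤ Real.exp (-s) / 2 := by
        have h4 : min (y ^ 2) 1 ≤ 1 := min_le_right _ _
        nlinarith
      have h6 : 0 ≤ s ^ 2 := sq_nonneg s
      nlinarith [mul_le_mul_of_nonneg_left h3 h6]

private theorem F_le_one (x : ℝ) : (1 + x) * Real.exp (-x) ≤ 1 := by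
  have h1 := Real.add_one_le_exp x
  have h2 := Real.exp_pos (-x)
  have h3 : Real.exp x * Real.exp (-x) = 1 := by rw [← Real.exp_add]; simp
  nlinarith

private theorem zy {s l Z : ℝ} (hZ : 0 < Z) :
    Z ^ (-s / 2) = Real.exp (-(s * (Real.log Z / 2 + l))) * Real.exp (s * l) := by
  rw [Real.rpow_def_of_pos hZ, ← Real.exp_add]
  congr 1
  ring

private theorem logZ {Z : ℝ} (hZ : 0 < Z) :
    min ((Z - 2) ^ 2) 1 ≤ 36 * min ((Real.log (Z / 2) / 2) ^ 2) 1 := by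
  have hm1 : min ((Z - 2) ^ 2) 1 ≤ 1 := min_le_right _ _
  have hm2 : min ((Z - 2) ^ 2) 1 ≤ (Z - 2) ^ 2 := min_le_left _ _
  have key : min ((Z - 2) ^ 2) 1 ≤ 36 * (Real.log (Z / 2) / 2) ^ 2 := by
    rcases le_total 2 Z with h2 | h2
    · have h3 : 1 - (Z / 2)⁻¹ ≤ Real.log (Z / 2) := Real.one_sub_inv_le_log_of_pos (by positivity)
      rcases le_total Z 3 with h4 | h4
      · have h5 : (Z - 2) / 3 ≤ 1 - (Z / 2)⁻¹ := by
          rw [inv_div]
          have : (Z - 2) / 3 ≤ (Z - 2) / Z := by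
            apply div_le_div_of_nonneg_left (by linarith) hZ h4
          have h6 : (Z - 2) / Z = 1 - 2 / Z := by field_simp
          linarith
        nlinarith [sq_nonneg (Z - 2), sq_nonneg (Real.log (Z / 2))]
      · have h5 : (1 : ℝ) / 3 ≤ 1 - (Z / 2)⁻¹ := by
          rw [inv_div]
          have : 2 / Z ≤ 2 / 3 := by
            apply div_le_div_of_nonneg_left (by norm_num) (by norm_num) h4
          linarith
        nlinarith [sq_nonneg (Real.log (Z / 2))]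
    · have h3 : 1 - (2 / Z)⁻¹ ≤ Real.log (2 / Z) := Real.one_sub_inv_le_log_of_pos (by positivity)
      have h4 : Real.log (2 / Z) = -Real.log (Z / 2) := by
        rw [← Real.log_inv, inv_div]
      rw [h4, inv_div] at h3
      have h5 : (2 - Z) / 2 ≤ -Real.log (Z / 2) := by linarith
      nlinarith [sq_nonneg (Z - 2), sq_nonneg (Real.log (Z / 2))]
  rcases le_total ((Real.log (Z / 2) / 2) ^ 2) 1 with h | h
  · rw [min_eq_left h]; exact key
  · rw [min_eq_right h]; linarith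

theorem kc_lower {M θ s e l : ℝ} (hM : 1 ≤ M) (h : Par M θ s e l) {Z : ℝ} (hZ : 0 < Z) :
    Real.exp (-M) / 144 * min ((Z - 2) ^ 2) 1 - 2 * θ ≤ kc s e l Z := by
  have he := par_e h
  have hs := h.s0
  have hsM := h.sM
  have ht0 := h.t0
  have ht1 := h.t1
  have hE0 := Real.exp_pos (-M)
  have hE1 : Real.exp (-M) ≤ 1 := Real.exp_le_one_iff.mpr (by linarith)
  obtain ⟨y, hy⟩ : ∃ y, y = Real.log Z / 2 + l := ⟨_, rfl⟩
  obtain ⟨G, hG⟩ : ∃ G, G = Real.exp (s * l) / e := ⟨_, rfl⟩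
  have hG0 : 0 < G := by rw [hG]; positivity
  have hG1 : G ≤ 1 + θ * s ^ 2 := by rw [hG]; exact h.g0
  have hk : kc s e l Z = (1 - (1 + s * y) * Real.exp (-(s * y)) * G) / s ^ 2 := by
    unfold kc
    rw [zy (l := l) hZ, ← hy, hG]
    ring
  have hs2 : 0 < s ^ 2 := by positivity
  have hm0 : 0 ≤ min ((Z - 2) ^ 2) 1 := le_min (sq_nonneg _) zero_le_one
  have hm1 : min ((Z - 2) ^ 2) 1 ≤ 1 := min_le_right _ _
  rw [hk, le_div_iff₀ hs2]
  rcases le_total 0 (1 + s * y) with h1 | h1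
  · have h2 := F_low (M := M) (y := y) hs hsM
    have h3 := F_le_one (s * y)
    have h4 : 0 ≤ (1 + s * y) * Real.exp (-(s * y)) := mul_nonneg h1 (Real.exp_pos _).le
    have h5 : (1 + s * y) * Real.exp (-(s * y)) * G ≤ (1 + s * y) * Real.exp (-(s * y)) + θ * s ^ 2 := by
      have h6 : 0 ≤ θ * s ^ 2 := by positivity
      nlinarith [mul_le_mul_of_nonneg_left hG1 h4]
    have hb := h.l0
    have h7 : y = Real.log (Z / 2) / 2 + (l + Real.log 2 / 2) := by
      rw [Real.log_div hZ.ne' two_ne_zero, hy]; ring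
    have h8 : (1 / 2) * min ((Real.log (Z / 2) / 2) ^ 2) 1 - θ ^ 2 ≤ min (y ^ 2) 1 := by
      apply le_min
      · have h9 : min ((Real.log (Z / 2) / 2) ^ 2) 1 ≤ (Real.log (Z / 2) / 2) ^ 2 := min_le_left _ _
        have h10 : (l + Real.log 2 / 2) ^ 2 ≤ θ ^ 2 := by
          rw [← sq_abs]; exact pow_le_pow_left₀ (abs_nonneg _) hb 2
        rw [h7]
        nlinarith [sq_nonneg (Real.log (Z / 2) / 2 + 2 * (l + Real.log 2 / 2))]
      · have h9 : min ((Real.log (Z / 2) / 2) ^ 2) 1 ≤ 1 := min_le_right _ _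
        nlinarith [sq_nonneg θ]
    have h11 := logZ hZ
    have h12 : Real.exp (-M) / 144 * min ((Z - 2) ^ 2) 1 - 2 * θ + θ ≤
        Real.exp (-M) / 2 * min (y ^ 2) 1 := by
      have h13 : min ((Z - 2) ^ 2) 1 / 72 - θ ^ 2 ≤ min (y ^ 2) 1 := by linarith
      have h14 := mul_le_mul_of_nonneg_left h13 (show 0 ≤ Real.exp (-M) / 2 by positivity)
      have h15 : Real.exp (-M) / 2 * θ ^ 2 ≤ θ := by nlinarith [sq_nonneg θ]
      nlinarith
    have h16 := mul_le_mul_of_nonneg_left h12 hs2.le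
    nlinarith
  · have h2 : (1 + s * y) * Real.exp (-(s * y)) * G ≤ 0 := by
      apply mul_nonpos_of_nonpos_of_nonneg _ hG0.le
      exact mul_nonpos_of_nonpos_of_nonneg h1 (Real.exp_pos _).le
    have h3 : Real.exp (-M) * M ^ 2 ≤ 2 := by
      have h4 := Real.quadratic_le_exp_of_nonneg (show 0 ≤ M by linarith)
      have h5 : Real.exp M * Real.exp (-M) = 1 := by rw [← Real.exp_add]; simp
      nlinarith [mul_le_mul_of_nonneg_right h4 hE0.le]
    have h4 : s ^ 2 ≤ M ^ 2 := pow_le_pow_left₀ hs.le hsM 2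
    have h5 : Real.exp (-M) * s ^ 2 ≤ 2 := (mul_le_mul_of_nonneg_left h4 hE0.le).trans h3
    have h6 : Real.exp (-M) / 144 * min ((Z - 2) ^ 2) 1 * s ^ 2 ≤ 1 := by
      have h7 : Real.exp (-M) * min ((Z - 2) ^ 2) 1 * s ^ 2 ≤ Real.exp (-M) * s ^ 2 := by
        have h8 : 0 ≤ Real.exp (-M) * s ^ 2 := by positivity
        nlinarith
      nlinarith
    nlinarith [mul_nonneg ht0.le hs2.le]

/-! ## bounds for the derivatives -/

private theorem rpow_up {q Z : ℝ} {K : ℕ} (hq : 0 ≤ q) (hK : q ≤ K) (hZ : 0 < Z) :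
    Z ^ (-q) ≤ 1 + (Z⁻¹) ^ K := by
  have hi : 0 < Z⁻¹ := inv_pos.mpr hZ
  rw [Real.rpow_neg hZ.le, ← Real.inv_rpow hZ.le]
  rcases le_total (Z⁻¹) 1 with h | h
  · have h1 : (Z⁻¹) ^ q ≤ 1 := Real.rpow_le_one hi.le h hq
    have h2 : 0 ≤ (Z⁻¹) ^ K := by positivity
    linarith
  · have h1 : (Z⁻¹) ^ q ≤ (Z⁻¹) ^ (K : ℝ) := Real.rpow_le_rpow_of_exponent_le h hK
    rw [Real.rpow_natCast] at h1
    linarith

private theorem log_up {Z : ℝ} (hZ : 0 < Z) : |Real.log (Z / 2)| ≤ |Z - 2| * (1 + Z⁻¹) := by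
  have hi : 0 < Z⁻¹ := inv_pos.mpr hZ
  have h1 : Real.log (Z / 2) ≤ Z / 2 - 1 := Real.log_le_sub_one_of_pos (by positivity)
  have h2 : 1 - (Z / 2)⁻¹ ≤ Real.log (Z / 2) := Real.one_sub_inv_le_log_of_pos (by positivity)
  rw [inv_div] at h2
  have h3 : 1 - 2 / Z = (Z - 2) * Z⁻¹ := by field_simp
  rw [h3] at h2
  have h4 := abs_nonneg (Z - 2)
  have h5 := le_abs_self (Z - 2)
  have h6 := neg_abs_le (Z - 2)
  rw [abs_le]
  constructor
  · nlinarith
  · nlinarith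

private theorem y_up {M θ s e l : ℝ} (h : Par M θ s e l) {Z : ℝ} (hZ : 0 < Z) :
    |Real.log Z / 2 + l| ≤ (|Z - 2| + θ) * (1 + Z⁻¹) := by
  have hi : 0 < Z⁻¹ := inv_pos.mpr hZ
  have h7 : Real.log Z / 2 + l = Real.log (Z / 2) / 2 + (l + Real.log 2 / 2) := by
    rw [Real.log_div hZ.ne' two_ne_zero]; ring
  have h1 := log_up hZ
  have h2 := h.l0
  have ht := h.t0
  rw [h7]
  refine (abs_add_le _ _).trans ?_
  rw [abs_div, abs_two]
  nlinarith [abs_nonneg (Z - 2), abs_nonneg (Real.log (Z / 2)), mul_nonneg (abs_nonneg (Z - 2)) hi.le]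

private theorem e_up {M θ s e l : ℝ} (h : Par M θ s e l) : 1 / (2 * e) ≤ (2 : ℝ) ^ (M / 2) := by
  have he := par_e h
  have h1 := h.e0
  have h2 := h.t1
  have h3 : 0 < (2 : ℝ) ^ (s / 2) := Real.rpow_pos_of_pos (by norm_num) _
  have h4 := (abs_le.mp h1).1
  have h5 : (2 : ℝ) ^ (s / 2) ≤ (2 : ℝ) ^ (M / 2) :=
    Real.rpow_le_rpow_of_exponent_le one_le_two (by linarith [h.sM])
  rw [div_le_iff₀ (by positivity)]
  have h6 : (2 : ℝ) ^ (s / 2) * e ≤ (2 : ℝ) ^ (M / 2) * e := mul_le_mul_of_nonneg_right h5 he.le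
  linarith

private theorem pow_comb {a : ℝ} (ha : 0 < a) (K : ℕ) : (1 + a) * (1 + a ^ K) ≤ 4 * (1 + a ^ (K + 1)) := by
  have h1 : a ≤ 1 + a ^ (K + 1) := by
    rcases le_total a 1 with h | h
    · have : 0 ≤ a ^ (K + 1) := by positivity
      linarith
    · have : a ^ 1 ≤ a ^ (K + 1) := pow_le_pow_right₀ h (by omega)
      linarith [pow_one a]
  have h2 : a ^ K ≤ 1 + a ^ (K + 1) := by
    rcases le_total a 1 with h | h
    · have h3 : a ^ K ≤ 1 := pow_le_one₀ ha.le h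
      have : 0 ≤ a ^ (K + 1) := by positivity
      linarith
    · have : a ^ K ≤ a ^ (K + 1) := pow_le_pow_right₀ h (by omega)
      linarith
  have h3 : a * a ^ K = a ^ (K + 1) := (pow_succ' a K).symm
  nlinarith [pow_pos ha (K + 1)]

private theorem exp_abs (t : ℝ) : |Real.exp t - 1| ≤ |t| * (1 + Real.exp t) := by
  have h1 := Real.add_one_le_exp t
  have h2 := Real.add_one_le_exp (-t)
  have h3 : Real.exp t * Real.exp (-t) = 1 := by rw [← Real.exp_add]; simp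
  have h4 := Real.exp_pos t
  have h5 : Real.exp t - 1 ≤ t * Real.exp t := by nlinarith
  have h6 := le_abs_self t
  have h7 := neg_abs_le t
  have h8 := abs_nonneg t
  rw [abs_le]
  constructor
  · nlinarith
  · nlinarith

private theorem first_part {M θ s e l : ℝ} (hM : 1 ≤ M) (h : Par M θ s e l) {Z : ℝ} (hZ : 0 < Z) {K : ℕ}
    (hK : M / 2 + 2 ≤ K) :
    |Z ^ (-s / 2 - 2) / (4 * e) - 1 / 16| ≤
      (M + 4) * 2 ^ (K + 1) * ((|Z - 2| + θ) * ((1 + Z⁻¹) * (1 + (Z⁻¹) ^ K))) := by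
  have he := par_e h
  have hs := h.s0
  have hsM := h.sM
  have ht0 := h.t0
  have ht1 := h.t1
  have hi : 0 < Z⁻¹ := inv_pos.mpr hZ
  obtain ⟨E, hE⟩ : ∃ E, E = (2 : ℝ) ^ (s / 2) * e := ⟨_, rfl⟩
  have hE1 : |E - 1| ≤ θ := by rw [hE]; exact h.e0
  have hE2 := abs_le.mp hE1
  have hE0 : 0 < E := by linarith [hE2.1]
  obtain ⟨t, ht⟩ : ∃ t, t = -(s / 2 + 2) * Real.log (Z / 2) := ⟨_, rfl⟩
  have h1 : Z ^ (-s / 2 - 2) / (4 * e) = Real.exp t / (16 * E) := by
    have h2 : Z ^ (-s / 2 - 2) = (Z / 2) ^ (-s / 2 - 2) * 2 ^ (-s / 2 - 2) := by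
      rw [← Real.mul_rpow (by positivity) (by norm_num)]
      congr 1
      field_simp
    have h3 : (Z / 2) ^ (-s / 2 - 2) = Real.exp t := by
      rw [Real.rpow_def_of_pos (by positivity), ht]
      congr 1
      ring
    have h4 : (2 : ℝ) ^ (-s / 2 - 2) = ((2 : ℝ) ^ (s / 2))⁻¹ / 4 := by
      rw [show -s / 2 - 2 = -(s / 2) - 2 by ring, Real.rpow_sub (by norm_num), Real.rpow_neg (by norm_num)]
      norm_num
    rw [h2, h3, h4, hE]
    have h5 : 0 < (2 : ℝ) ^ (s / 2) := Real.rpow_pos_of_pos (by norm_num) _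
    field_simp
    norm_num
  have h6 : |Real.exp t - 1| ≤ |t| * (1 + Real.exp t) := exp_abs t
  have h7 : Real.exp t ≤ 2 ^ K * (1 + (Z⁻¹) ^ K) := by
    have h3 : Real.exp t = Z ^ (-(s / 2 + 2)) * 2 ^ (s / 2 + 2) := by
      have h8 : Real.exp t = (Z / 2) ^ (-(s / 2 + 2)) := by
        rw [Real.rpow_def_of_pos (by positivity), ht]
        congr 1
        ring
      rw [h8, Real.div_rpow hZ.le (by norm_num), Real.rpow_neg (show (0 : ℝ) ≤ 2 by norm_num), div_inv_eq_mul]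
    have h4 : Z ^ (-(s / 2 + 2)) ≤ 1 + (Z⁻¹) ^ K := rpow_up (by positivity) (by linarith) hZ
    have h5 : (2 : ℝ) ^ (s / 2 + 2) ≤ 2 ^ K := by
      rw [← Real.rpow_natCast]
      exact Real.rpow_le_rpow_of_exponent_le one_le_two (by linarith)
    rw [h3]
    have h9 : 0 < Z ^ (-(s / 2 + 2)) := Real.rpow_pos_of_pos hZ _
    calc Z ^ (-(s / 2 + 2)) * 2 ^ (s / 2 + 2) ≤ (1 + (Z⁻¹) ^ K) * 2 ^ K :=
          mul_le_mul h4 h5 (by positivity) (by positivity)
      _ = _ := by ring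
  have h8 : |t| ≤ (M / 2 + 2) * (|Z - 2| * (1 + Z⁻¹)) := by
    rw [ht, abs_mul, abs_neg, abs_of_pos (show 0 < s / 2 + 2 by positivity)]
    exact mul_le_mul (by linarith) (log_up hZ) (abs_nonneg _) (by linarith)
  have hP : (1 : ℝ) ≤ 2 ^ K := one_le_pow₀ (by norm_num)
  have hq : 0 ≤ (Z⁻¹) ^ K := by positivity
  have h9 : |Real.exp t - 1| ≤ (M / 2 + 2) * (|Z - 2| * (1 + Z⁻¹)) * (2 ^ (K + 1) * (1 + (Z⁻¹) ^ K)) := by
    refine h6.trans (mul_le_mul h8 ?_ (by positivity) (by positivity))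
    rw [pow_succ]
    nlinarith [mul_nonneg (show (0:ℝ) ≤ 2 ^ K by positivity) hq]
  rw [h1]
  have h10 : Real.exp t / (16 * E) - 1 / 16 = ((Real.exp t - 1) - (E - 1)) / (16 * E) := by
    field_simp
    ring
  rw [h10, abs_div, abs_of_pos (show 0 < 16 * E by positivity), div_le_iff₀ (by positivity)]
  have h11 : |Real.exp t - 1 - (E - 1)| ≤ |Real.exp t - 1| + |E - 1| := abs_sub _ _
  have h12 : 9 / 10 ≤ E := by linarith [hE2.1]
  obtain ⟨W, hW⟩ : ∃ W, W = (1 + Z⁻¹) * (1 + (Z⁻¹) ^ K) := ⟨_, rfl⟩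
  have hW1 : 1 ≤ W := by rw [hW]; nlinarith
  obtain ⟨d, hd⟩ : ∃ d, d = |Z - 2| := ⟨_, rfl⟩
  have hd0 : 0 ≤ d := by rw [hd]; exact abs_nonneg _
  obtain ⟨P, hPd⟩ : ∃ P : ℝ, P = 2 ^ (K + 1) := ⟨_, rfl⟩
  have hP1 : 1 ≤ P := by rw [hPd]; exact one_le_pow₀ (by norm_num)
  have h13 : |Real.exp t - 1| ≤ (M / 2 + 2) * (P * (d * W)) := by
    rw [hPd, hd, hW]
    refine h9.trans (le_of_eq ?_)
    ring
  rw [← hW, ← hPd, ← hd]
  have h14 : 0 ≤ P * (d * W) := by positivity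
  have h15 : 0 ≤ P * (θ * W) := by positivity
  have h16 : θ ≤ P * (θ * W) := by
    have : 1 ≤ P * W := by nlinarith
    nlinarith
  have h17 : (M / 2 + 2) * (P * (d * W)) + P * (θ * W) ≤ (M + 4) * P * ((d + θ) * W) := by
    nlinarith
  have h18 : 0 ≤ (M + 4) * P * ((d + θ) * W) := by positivity
  nlinarith

theorem kc12_bound (M : ℝ) (hM : 1 ≤ M) : ∃ C : ℝ, 0 < C ∧ ∃ k : ℕ, ∀ θ s e l : ℝ, Par M θ s e l →
    ∀ Z : ℝ, 0 < Z → Z ≤ 10 →
      |kc1 s e l Z| ≤ C * (|Z - 2| + θ) * (1 + (Z⁻¹) ^ k) ∧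
      |kc2 s e l Z - 1 / 16| ≤ C * (|Z - 2| + θ) * (1 + (Z⁻¹) ^ k) := by
  obtain ⟨K, hK⟩ := exists_nat_ge (M / 2 + 2)
  obtain ⟨Q, hQ⟩ : ∃ Q : ℝ, Q = 2 ^ (M / 2) := ⟨_, rfl⟩
  have hQ0 : 0 < Q := by rw [hQ]; positivity
  refine ⟨4 * ((M + 4) * 2 ^ (K + 1) + (M / 2 + 1) * Q + Q), by positivity, K + 1, ?_⟩
  intro θ s e l h Z hZ _
  have he := par_e h
  have hs := h.s0
  have hsM := h.sM
  have ht0 := h.t0
  have hi : 0 < Z⁻¹ := inv_pos.mpr hZ
  have hcomb := pow_comb hi K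
  have hy := y_up h hZ
  have heu := e_up h
  rw [← hQ] at heu
  have hd0 : 0 ≤ |Z - 2| := abs_nonneg _
  have hfp := first_part hM h hZ hK
  obtain ⟨W, hW⟩ : ∃ W, W = (1 + Z⁻¹) * (1 + (Z⁻¹) ^ K) := ⟨_, rfl⟩
  rw [← hW] at hfp hcomb
  have hW0 : 0 ≤ W := by rw [hW]; positivity
  have he2 : 0 < 1 / (2 * e) := by positivity
  have gen : ∀ q : ℝ, 0 ≤ q → q ≤ K →
      |Z ^ (-q) * (Real.log Z / 2 + l) / (2 * e)| ≤ Q * ((|Z - 2| + θ) * W) := by
    intro q hq0 hqK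
    have h1 := rpow_up hq0 hqK hZ
    have h2 : 0 < Z ^ (-q) := Real.rpow_pos_of_pos hZ _
    have h3 : |Z ^ (-q) * (Real.log Z / 2 + l) / (2 * e)| =
        1 / (2 * e) * (Z ^ (-q) * |Real.log Z / 2 + l|) := by
      rw [abs_div, abs_mul, abs_of_pos h2, abs_of_pos (show 0 < 2 * e by positivity)]
      ring
    rw [h3]
    refine mul_le_mul heu ?_ (by positivity) hQ0.le
    calc Z ^ (-q) * |Real.log Z / 2 + l| ≤ (1 + (Z⁻¹) ^ K) * ((|Z - 2| + θ) * (1 + Z⁻¹)) :=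
          mul_le_mul h1 hy (abs_nonneg _) (by positivity)
      _ = _ := by rw [hW]; ring
  have hD : 0 ≤ |Z - 2| + θ := by linarith
  have hDW : 0 ≤ (|Z - 2| + θ) * W := mul_nonneg hD hW0
  have hfin : ∀ A : ℝ, 0 ≤ A → A ≤ (M + 4) * 2 ^ (K + 1) + (M / 2 + 1) * Q + Q →
      A * ((|Z - 2| + θ) * W) ≤
        4 * ((M + 4) * 2 ^ (K + 1) + (M / 2 + 1) * Q + Q) * (|Z - 2| + θ) * (1 + (Z⁻¹) ^ (K + 1)) := by
    intro A hA0 hA
    obtain ⟨B, hB⟩ : ∃ B, B = (M + 4) * 2 ^ (K + 1) + (M / 2 + 1) * Q + Q := ⟨_, rfl⟩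
    rw [← hB] at hA ⊢
    calc A * ((|Z - 2| + θ) * W) ≤ B * ((|Z - 2| + θ) * (4 * (1 + (Z⁻¹) ^ (K + 1)))) :=
          mul_le_mul hA (mul_le_mul_of_nonneg_left hcomb hD) hDW (hA0.trans hA)
      _ = _ := by ring
  have hp1 : 0 ≤ (M + 4) * (2 : ℝ) ^ (K + 1) := by positivity
  have hp2 : 0 ≤ (M / 2 + 1) * Q := by positivity
  constructor
  · have h1 := gen (s / 2 + 1) (by positivity) (by linarith)
    have h2 : kc1 s e l Z = Z ^ (-(s / 2 + 1)) * (Real.log Z / 2 + l) / (2 * e) := by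
      unfold kc1
      rw [show -s / 2 - 1 = -(s / 2 + 1) by ring]
    rw [h2]
    exact h1.trans (hfin Q hQ0.le (by linarith))
  · have h1 := gen (s / 2 + 2) (by positivity) (by linarith)
    have h2 : kc2 s e l Z - 1 / 16 = (Z ^ (-s / 2 - 2) / (4 * e) - 1 / 16) -
        (s / 2 + 1) * (Z ^ (-(s / 2 + 2)) * (Real.log Z / 2 + l) / (2 * e)) := by
      unfold kc2
      rw [show -(s / 2 + 2) = -s / 2 - 2 by ring]
      field_simp
      ring
    rw [h2]
    refine (abs_sub _ _).trans ?_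
    rw [abs_mul, abs_of_pos (show 0 < s / 2 + 1 by positivity)]
    have h3 : (s / 2 + 1) * |Z ^ (-(s / 2 + 2)) * (Real.log Z / 2 + l) / (2 * e)| ≤
        (M / 2 + 1) * (Q * ((|Z - 2| + θ) * W)) :=
      mul_le_mul (by linarith) h1 (abs_nonneg _) (by positivity)
    have h4 := hfin ((M + 4) * 2 ^ (K + 1) + (M / 2 + 1) * Q) (by positivity) (by linarith)
    have h5 : ((M + 4) * 2 ^ (K + 1) + (M / 2 + 1) * Q) * ((|Z - 2| + θ) * W) =
        (M + 4) * 2 ^ (K + 1) * ((|Z - 2| + θ) * W) + (M / 2 + 1) * (Q * ((|Z - 2| + θ) * W)) := by ring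
    linarith

/-! ## behaviour at `0` -/

private theorem kc_ge {s e l Z : ℝ} (hs : 0 < s) (he : 0 < e) (hZ : 0 < Z) (hZ1 : Z ≤ 1)
    (hy : 1 + s * (Real.log Z / 2 + l) ≤ 0) :
    (-(1 + s * (Real.log Z / 2 + l))) / (e * s ^ 2) ≤ kc s e l Z := by
  unfold kc
  have h1 : 1 ≤ Z ^ (-s / 2) := by
    rw [show -s / 2 = -(s / 2) by ring]
    exact Real.one_le_rpow_of_pos_of_le_one_of_nonpos hZ hZ1 (by linarith)
  rw [div_le_div_iff₀ (by positivity) (by positivity)]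
  have h2 : (-(1 + s * (Real.log Z / 2 + l))) ≤ (-(1 + s * (Real.log Z / 2 + l))) * Z ^ (-s / 2) := by
    nlinarith
  have h3 : (1 - (1 + s * (Real.log Z / 2 + l)) * Z ^ (-s / 2) / e) * (e * s ^ 2) =
      (e + (-(1 + s * (Real.log Z / 2 + l))) * Z ^ (-s / 2)) * s ^ 2 := by
    field_simp
    ring
  rw [h3]
  apply mul_le_mul_of_nonneg_right _ (by positivity)
  linarith

theorem kc_tendsto {s e l : ℝ} (hs : 0 < s) (he : 0 < e) : Tendsto (kc s e l) (𝓝[>] 0) atTop := by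
  have h1 : Tendsto (fun Z : ℝ => (-(1 + s * (Real.log Z / 2 + l))) / (e * s ^ 2)) (𝓝[>] 0) atTop := by
    apply Tendsto.atTop_div_const (by positivity)
    apply tendsto_neg_atBot_atTop.comp
    apply tendsto_atBot_add_const_left
    apply Tendsto.const_mul_atBot hs
    apply tendsto_atBot_add_const_right
    exact Real.tendsto_log_nhdsGT_zero.atBot_div_const (by norm_num)
  refine tendsto_atTop_mono' _ ?_ h1
  have h2 : ∀ᶠ Z : ℝ in 𝓝[>] 0, 0 < Z := eventually_mem_nhdsWithin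
  have h3 : ∀ᶠ Z : ℝ in 𝓝[>] 0, Z ≤ 1 :=
    (eventually_le_nhds (show (0 : ℝ) < 1 by norm_num)).filter_mono nhdsWithin_le_nhds
  have h4 : ∀ᶠ Z : ℝ in 𝓝[>] 0, 0 ≤ (-(1 + s * (Real.log Z / 2 + l))) / (e * s ^ 2) :=
    h1.eventually_ge_atTop 0
  filter_upwards [h2, h3, h4] with Z ha hb hc
  apply kc_ge hs he ha hb
  have h5 : 0 < e * s ^ 2 := by positivity
  have h6 := (le_div_iff₀ h5).mp hc
  linarith

theorem kc_growth {s e l : ℝ} (hs : 0 < s) (he : 0 < e) (R : ℝ) : ∃ C : ℝ, 0 < C ∧ ∀ Z : ℝ, 0 < Z → Z ≤ R →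
    Z ^ (-s / 2) * (1 + |Real.log Z|) ≤ C * (kc s e l Z + C) ∧
    |kc s e l Z| ≤ C * (Z ^ (-s / 2) * (1 + |Real.log Z|)) := by
  obtain ⟨S, hS⟩ : ∃ S, S = max R 1 := ⟨_, rfl⟩
  have hS1 : 1 ≤ S := by rw [hS]; exact le_max_right _ _
  have hSR : R ≤ S := by rw [hS]; exact le_max_left _ _
  obtain ⟨T, hT⟩ : ∃ T, T = 4 * (1 + s * |l|) / s + 1 := ⟨_, rfl⟩
  have hT1 : 1 ≤ T := by
    rw [hT]
    have : 0 ≤ 4 * (1 + s * |l|) / s := by positivity
    linarith
  obtain ⟨P, hP⟩ : ∃ P, P = S ^ (s / 2) := ⟨_, rfl⟩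
  have hP0 : 0 < P := by rw [hP]; positivity
  obtain ⟨C1, hC1⟩ : ∃ C1, C1 = (P + (1 + s * (1 + |l|)) / e) / s ^ 2 := ⟨_, rfl⟩
  have hC10 : 0 < C1 := by rw [hC1]; positivity
  obtain ⟨B, hB⟩ : ∃ B, B = Real.exp (T * (s / 2)) * (1 + T + Real.log S) := ⟨_, rfl⟩
  have hlS : 0 ≤ Real.log S := Real.log_nonneg hS1
  have hB0 : 0 < B := by rw [hB]; positivity
  obtain ⟨C, hC⟩ : ∃ C, C = 8 * e * s + C1 * B + B + 1 + C1 := ⟨_, rfl⟩
  have hCB : 0 < C1 * B := by positivity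
  have hes : 0 < e * s := by positivity
  have hC0 : 0 < C := by rw [hC]; linarith
  have up : ∀ Z : ℝ, 0 < Z → Z ≤ R → |kc s e l Z| ≤ C1 * (Z ^ (-s / 2) * (1 + |Real.log Z|)) := by
    intro Z hZ hZR
    have hz : 0 < Z ^ (-s / 2) := Real.rpow_pos_of_pos hZ _
    have h1 : 1 ≤ P * Z ^ (-s / 2) := by
      have h2 : Z ^ (-s / 2) = (Z ^ (s / 2))⁻¹ := by
        rw [show -s / 2 = -(s / 2) by ring, Real.rpow_neg hZ.le]
      have h3 : Z ^ (s / 2) ≤ P := by
        rw [hP]; exact Real.rpow_le_rpow hZ.le (hZR.trans hSR) (by positivity)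
      have h4 : 0 < Z ^ (s / 2) := Real.rpow_pos_of_pos hZ _
      rw [h2, ← div_eq_mul_inv, one_le_div h4]
      exact h3
    obtain ⟨z, hzd⟩ : ∃ z, z = Z ^ (-s / 2) := ⟨_, rfl⟩
    rw [← hzd] at h1 hz
    have h5 : |1 + s * (Real.log Z / 2 + l)| ≤ (1 + s * (1 + |l|)) * (1 + |Real.log Z|) := by
      have h6 : |1 + s * (Real.log Z / 2 + l)| ≤ 1 + s * (|Real.log Z| / 2 + |l|) := by
        refine (abs_add_le _ _).trans ?_
        rw [abs_one, abs_mul, abs_of_pos hs]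
        have h7 : |Real.log Z / 2 + l| ≤ |Real.log Z| / 2 + |l| := by
          refine (abs_add_le _ _).trans ?_
          rw [abs_div, abs_two]
        nlinarith
      refine h6.trans ?_
      have h8 := abs_nonneg (Real.log Z)
      have h9 := abs_nonneg l
      nlinarith [mul_nonneg hs.le h8, mul_nonneg (mul_nonneg hs.le h9) h8]
    unfold kc
    rw [abs_div, abs_of_pos (show 0 < s ^ 2 by positivity), hC1, ← hzd]
    have h10 : |1 - (1 + s * (Real.log Z / 2 + l)) * z / e| ≤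
        1 + (1 + s * (1 + |l|)) * (1 + |Real.log Z|) * z / e := by
      refine (abs_sub _ _).trans ?_
      rw [abs_one, abs_div, abs_mul, abs_of_pos hz, abs_of_pos he]
      have := div_le_div_of_nonneg_right (mul_le_mul_of_nonneg_right h5 hz.le) he.le
      linarith
    have h11 : 1 ≤ P * (z * (1 + |Real.log Z|)) := by
      have := abs_nonneg (Real.log Z)
      nlinarith [mul_pos hP0 hz, mul_nonneg (mul_pos hP0 hz).le this]
    have h12 : 1 + (1 + s * (1 + |l|)) * (1 + |Real.log Z|) * z / e ≤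
        (P + (1 + s * (1 + |l|)) / e) * (z * (1 + |Real.log Z|)) := by
      have : (1 + s * (1 + |l|)) * (1 + |Real.log Z|) * z / e =
          (1 + s * (1 + |l|)) / e * (z * (1 + |Real.log Z|)) := by ring
      rw [this]
      linarith
    rw [div_mul_eq_mul_div]
    exact div_le_div_of_nonneg_right (h10.trans h12) (by positivity)
  refine ⟨C, hC0, ?_⟩
  intro Z hZ hZR
  have hu := up Z hZ hZR
  have hz : 0 < Z ^ (-s / 2) := Real.rpow_pos_of_pos hZ _
  have hL : 0 < Z ^ (-s / 2) * (1 + |Real.log Z|) := by positivity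
  have hlast : |kc s e l Z| ≤ C * (Z ^ (-s / 2) * (1 + |Real.log Z|)) := by
    refine hu.trans (mul_le_mul_of_nonneg_right ?_ hL.le)
    rw [hC]
    linarith
  refine ⟨?_, hlast⟩
  rcases le_total (Real.log Z) (-T) with hlog | hlog
  · have habs : |Real.log Z| = -Real.log Z := abs_of_nonpos (by linarith)
    have hZ1 : Z ≤ 1 := by
      by_contra hcon
      have := Real.log_pos (not_le.mp hcon)
      linarith
    have h1 : s * (T - 1) = 4 * (1 + s * |l|) := by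
      rw [hT]
      field_simp
      ring
    have h2 : s * |Real.log Z| / 4 ≤ -(1 + s * (Real.log Z / 2 + l)) := by
      rw [habs]
      have h3 : s * T ≤ s * (-Real.log Z) := mul_le_mul_of_nonneg_left (by linarith) hs.le
      have h4 := mul_le_mul_of_nonneg_left (le_abs_self l) hs.le
      nlinarith
    have h5 : s * (1 + |Real.log Z|) / 8 ≤ -(1 + s * (Real.log Z / 2 + l)) := by
      have h6 : 1 ≤ |Real.log Z| := by rw [habs]; linarith
      nlinarith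
    have h7 : s ^ 2 * kc s e l Z = 1 + (-(1 + s * (Real.log Z / 2 + l))) * Z ^ (-s / 2) / e := by
      unfold kc
      field_simp
      ring
    have h8 : s * (1 + |Real.log Z|) / 8 * Z ^ (-s / 2) / e ≤ s ^ 2 * kc s e l Z := by
      rw [h7]
      have := div_le_div_of_nonneg_right (mul_le_mul_of_nonneg_right h5 hz.le) he.le
      linarith
    have h9 : Z ^ (-s / 2) * (1 + |Real.log Z|) ≤ 8 * e * s * kc s e l Z := by
      have h10 : Z ^ (-s / 2) * (1 + |Real.log Z|) =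
          (s * (1 + |Real.log Z|) / 8 * Z ^ (-s / 2) / e) * (8 * e / s) := by
        field_simp
      have h11 : 8 * e * s * kc s e l Z = s ^ 2 * kc s e l Z * (8 * e / s) := by
        field_simp
      rw [h10, h11]
      exact mul_le_mul_of_nonneg_right h8 (by positivity)
    have h12 : 0 ≤ kc s e l Z := by
      have h13 : 0 < 8 * e * s * kc s e l Z := lt_of_lt_of_le hL h9
      have h14 : 0 < 8 * e * s := by positivity
      exact ((mul_pos_iff_of_pos_left h14).mp h13).le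
    have h15 : 8 * e * s * kc s e l Z ≤ C * kc s e l Z := by
      apply mul_le_mul_of_nonneg_right _ h12
      rw [hC]; linarith
    nlinarith
  · have h1 : |Real.log Z| ≤ T + Real.log S := by
      rw [abs_le]
      constructor
      · linarith
      · have : Real.log Z ≤ Real.log S := Real.log_le_log hZ (hZR.trans hSR)
        linarith
    have h2 : Z ^ (-s / 2) ≤ Real.exp (T * (s / 2)) := by
      rw [Real.rpow_def_of_pos hZ]
      apply Real.exp_le_exp.mpr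
      nlinarith
    have h3 : Z ^ (-s / 2) * (1 + |Real.log Z|) ≤ B := by
      rw [hB]
      exact mul_le_mul h2 (by linarith) (by positivity) (Real.exp_pos _).le
    have h4 : -(C1 * B) ≤ kc s e l Z := by
      have h5 := neg_abs_le (kc s e l Z)
      have h6 := mul_le_mul_of_nonneg_left h3 hC10.le
      linarith
    have h7 : B + 1 ≤ kc s e l Z + C := by
      rw [hC]; linarith
    have h8 : 1 ≤ C := by rw [hC]; linarith
    nlinarith

end Pool.Agent.Lib.MP_6cd19d_an.SH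
end
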