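import Pool.Agent.Lib.MP_6cd19d_an.SH.Defs
import Pool.Agent.Lib.MP_6cd19d_an.SH.S04

section

/-!
# The sphere: negative moments

`t = y_0`.  For `η > 0` use `sph_ibp` with `f(t) = (1 + η - t)^(-k)` on `|t| ≤ 1` (extend `f` to the line in a smooth way,
e.g. take `f(t) = ∫_0^t` of a continuous extension of the derivative, or use `f = ((1+η-t)^2+...)`; any way to justify
it is fine): with `X_k = ∫ (1+η-t)^(-k)`, `k ∫ (1-t^2)(1+η-t)^(-k-1) = n ∫ t (1+η-t)^(-k) = n (1+η) X_k - n X_{k-1}`, and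
`1 - t^2 ≤ 2 (1+η-t)`, so `n X_k ≤ n X_{k-1} + 2k X_k`, `X_k ≤ n/(n-2k) X_{k-1}`, `X_0 = 1`.  For `n` large (depending on `k`)
all `X_j ≤ 2`, `j ≤ 2k`; monotone convergence `η → 0` gives integrability and the bound `2`.  The last two: Cauchy-Schwarz
with `∫ t^4 ≤ 3/(n+1)^2`, `∫ t^2 = 1/(n+1)` and `∫ (1-t)^(-2k) ≤ 2`.
-/

set_option autoImplicit false

open MeasureTheory Set Filter Topology
open scoped ENNReal NNReal

namespace Pool.Agent.Lib.MP_6cd19d_an.SH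

open Pool.Agent.Lib.MP_6cd19d_an.ND Pool.Agent.Lib.MP_6cd19d_an.HP

variable {n : ℕ}

private theorem S02_f (η : ℝ) (hη : 0 < η) (k : ℕ) : ∃ f f' : ℝ → ℝ,
    (∀ t, HasDerivAt f (f' t) t) ∧ Continuous f' ∧
    ∀ t ≤ 1, f t = ((1 + η - t)⁻¹) ^ k ∧ f' t = k * ((1 + η - t)⁻¹) ^ (k + 1) := by
  set g : ℝ → ℝ := fun u => k * ((max (1 + η - u) η)⁻¹) ^ (k + 1) with hg
  have hgc : Continuous g := by
    have h0 : ∀ u : ℝ, max (1 + η - u) η ≠ 0 := fun u => (lt_of_lt_of_le hη (le_max_right _ _)).ne'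
    have h1 : Continuous fun u : ℝ => max (1 + η - u) η := by fun_prop
    exact continuous_const.mul ((h1.inv₀ h0).pow _)
  have hg1 : ∀ u ≤ 1, g u = k * ((1 + η - u)⁻¹) ^ (k + 1) := by
    intro u hu
    simp only [hg]
    rw [max_eq_left (by linarith)]
  refine ⟨fun t => ((1 + η)⁻¹) ^ k + ∫ u in (0:ℝ)..t, g u, g, ?_, hgc, ?_⟩
  · intro t
    exact ((hgc.integral_hasStrictDerivAt 0 t).hasDerivAt).const_add _
  · intro t ht
    refine ⟨?_, hg1 t ht⟩
    have h := intervalIntegral.integral_eq_sub_of_hasDerivAt (f := fun u => ((1 + η - u)⁻¹) ^ k)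
      (f' := g) (a := 0) (b := t) ?_ (hgc.intervalIntegrable _ _)
    · simp only at h ⊢
      rw [h]
      simp
    · intro u hu
      have hu1 : u ≤ 1 := by
        rw [mem_uIcc] at hu
        rcases hu with h | h <;> linarith [h.1, h.2]
      have hpos : 0 < 1 + η - u := by linarith
      have h1 : HasDerivAt (fun u : ℝ => 1 + η - u) (-1) u := by
        simpa using (hasDerivAt_id u).const_sub (1 + η)
      have h2 := (h1.inv hpos.ne').pow k
      rw [hg1 u hu1]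
      refine h2.congr_deriv ?_
      rcases k with _ | k
      · simp
      · simp only [Nat.add_sub_cancel, neg_neg, inv_pow, Pi.inv_apply]
        field_simp
        ring

private theorem S02_int {σ : Measure (E (n + 1))} (hσ : SphM σ) (η : ℝ) (hη : 0 < η) (k : ℕ) :
    Integrable (fun y => ((1 + η - y 0)⁻¹) ^ k) σ := by
  have : IsProbabilityMeasure σ := ⟨hσ.1⟩
  have hm : Measurable fun y : E (n + 1) => ((1 + η - y 0)⁻¹) ^ k := by
    have h0 : Measurable fun y : E (n + 1) => y 0 :=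
      (PiLp.continuous_apply 2 (fun _ => ℝ) (0 : Fin (n + 1))).measurable
    exact ((measurable_const.sub h0).inv).pow_const _
  refine Integrable.of_bound hm.aestronglyMeasurable ((η⁻¹) ^ k) ?_
  filter_upwards [sph_abs hσ] with y hy
  have h1 := (abs_le.1 hy).2
  have hpos : 0 < 1 + η - y 0 := by linarith
  rw [Real.norm_eq_abs, abs_of_pos (pow_pos (inv_pos.2 hpos) _)]
  refine pow_le_pow_left₀ (inv_pos.2 hpos).le ?_ _
  exact inv_anti₀ hη (by linarith)

private theorem S02_step (hn : 1 ≤ n) {σ : Measure (E (n + 1))} (hσ : SphM σ) (η : ℝ) (hη : 0 < η)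
    (k : ℕ) : ((n : ℝ) - 2 * ((k : ℝ) + 1)) * ∫ y, ((1 + η - y 0)⁻¹) ^ (k + 1) ∂σ ≤
      n * ∫ y, ((1 + η - y 0)⁻¹) ^ k ∂σ := by
  have : IsProbabilityMeasure σ := ⟨hσ.1⟩
  obtain ⟨f, f', hd, hc, hff⟩ := S02_f η hη (k + 1)
  have h := sph_ibp hn hσ hd hc
  set X1 := ∫ y, ((1 + η - y 0)⁻¹) ^ (k + 1) ∂σ with hX1
  set X0 := ∫ y, ((1 + η - y 0)⁻¹) ^ k ∂σ with hX0
  have i1 := S02_int hσ η hη (k + 1)
  have i0 := S02_int hσ η hη k
  have hR : ∫ y, y 0 * f (y 0) ∂σ = (1 + η) * X1 - X0 := by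
    rw [hX1, hX0, ← integral_const_mul, ← integral_sub (i1.const_mul _) i0]
    refine integral_congr_ae ?_
    filter_upwards [sph_abs hσ] with y hy
    have h1 := (abs_le.1 hy).2
    have hpos : 0 < 1 + η - y 0 := by linarith
    rw [(hff (y 0) h1).1, pow_succ]
    have h2 : (1 + η - y 0)⁻¹ * (1 + η - y 0) = 1 := inv_mul_cancel₀ hpos.ne'
    have h3 : y 0 = (1 + η) - (1 + η - y 0) := by ring
    calc y 0 * (((1 + η - y 0)⁻¹) ^ k * (1 + η - y 0)⁻¹)
        = ((1 + η) - (1 + η - y 0)) * (((1 + η - y 0)⁻¹) ^ k * (1 + η - y 0)⁻¹) := by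
          rw [← h3]
      _ = (1 + η) * (((1 + η - y 0)⁻¹) ^ k * (1 + η - y 0)⁻¹) -
          ((1 + η - y 0)⁻¹) ^ k * ((1 + η - y 0)⁻¹ * (1 + η - y 0)) := by ring
      _ = _ := by rw [h2, mul_one]
  have hL : ∫ y, (1 - (y 0) ^ 2) * f' (y 0) ∂σ ≤ (2 * ((k : ℝ) + 1)) * X1 := by
    rw [hX1, ← integral_const_mul]
    refine integral_mono_of_nonneg ?_ (i1.const_mul _) ?_
    · filter_upwards [sph_abs hσ] with y hy
      have h1 := abs_le.1 hy
      have hpos : 0 < 1 + η - y 0 := by linarith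
      rw [(hff (y 0) h1.2).2]
      have h4 : 0 ≤ 1 - (y 0) ^ 2 := by nlinarith [h1.1, h1.2]
      have h5 : (0 : ℝ) < (1 + η - y 0)⁻¹ := inv_pos.2 hpos
      simp only [Pi.zero_apply]
      positivity
    · filter_upwards [sph_abs hσ] with y hy
      have h1 := abs_le.1 hy
      have hpos : 0 < 1 + η - y 0 := by linarith
      rw [(hff (y 0) h1.2).2]
      have h5 : (0 : ℝ) < (1 + η - y 0)⁻¹ := inv_pos.2 hpos
      have h2 : (1 + η - y 0)⁻¹ * (1 + η - y 0) = 1 := inv_mul_cancel₀ hpos.ne'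
      have h4 : 1 - (y 0) ^ 2 ≤ 2 * (1 + η - y 0) := by nlinarith [h1.1, h1.2]
      push_cast
      calc (1 - (y 0) ^ 2) * (((k : ℝ) + 1) * ((1 + η - y 0)⁻¹) ^ (k + 1 + 1))
          ≤ (2 * (1 + η - y 0)) * (((k : ℝ) + 1) * ((1 + η - y 0)⁻¹) ^ (k + 1 + 1)) :=
            mul_le_mul_of_nonneg_right h4 (by positivity)
        _ = 2 * ((k : ℝ) + 1) * (((1 + η - y 0)⁻¹) ^ (k + 1)) * ((1 + η - y 0)⁻¹ * (1 + η - y 0)) := by
            rw [pow_succ _ (k + 1)]; ring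
        _ = 2 * ((k : ℝ) + 1) * ((1 + η - y 0)⁻¹) ^ (k + 1) := by rw [h2, mul_one]
  have hX1n : 0 ≤ X1 := by
    rw [hX1]
    refine integral_nonneg_of_ae ?_
    filter_upwards [sph_abs hσ] with y hy
    have h1 := abs_le.1 hy
    have hpos : 0 < 1 + η - y 0 := by linarith
    exact (pow_pos (inv_pos.2 hpos) _).le
  rw [hR] at h
  have hn0 : (0 : ℝ) ≤ n := Nat.cast_nonneg _
  nlinarith [mul_nonneg (mul_nonneg hn0 hη.le) hX1n]

private theorem S02_X (K : ℕ) (hK : 1 ≤ K) (hn : 4 * K ^ 2 + 1 ≤ n) {σ : Measure (E (n + 1))}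
    (hσ : SphM σ) (η : ℝ) (hη : 0 < η) (j : ℕ) (hj : j ≤ K) :
    ∫ y, ((1 + η - y 0)⁻¹) ^ j ∂σ ≤ 1 + (j : ℝ) / K := by
  have : IsProbabilityMeasure σ := ⟨hσ.1⟩
  have hK0 : (0 : ℝ) < K := by exact_mod_cast hK
  have hn1 : 4 * (K : ℝ) ^ 2 + 1 ≤ n := by exact_mod_cast hn
  have hn2 : 1 ≤ n := by
    refine le_trans ?_ hn
    exact Nat.le_add_left 1 _
  induction j with
  | zero => simp
  | succ j ih =>
    have ih' := ih (by omega)
    have hs := S02_step hn2 hσ η hη j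
    set X1 := ∫ y, ((1 + η - y 0)⁻¹) ^ (j + 1) ∂σ
    set X0 := ∫ y, ((1 + η - y 0)⁻¹) ^ j ∂σ
    have hjK : ((j : ℝ) + 1) ≤ K := by exact_mod_cast hj
    have hj0 : (0 : ℝ) ≤ j := Nat.cast_nonneg _
    have hK1 : (1 : ℝ) ≤ K := by exact_mod_cast hK
    have hpos : 0 < (n : ℝ) - 2 * ((j : ℝ) + 1) := by nlinarith
    have h1 : ((n : ℝ) - 2 * ((j : ℝ) + 1)) * X1 ≤ ((n : ℝ) - 2 * ((j : ℝ) + 1)) *
        (1 + ((j : ℝ) + 1) / K) := by
      refine hs.trans ?_
      have hn0 : (0 : ℝ) ≤ n := Nat.cast_nonneg _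
      refine (mul_le_mul_of_nonneg_left ih' hn0).trans ?_
      have e1 : (n : ℝ) * (1 + (j : ℝ) / K) = (n * K + n * j) / K := by
        field_simp
      have e2 : ((n : ℝ) - 2 * ((j : ℝ) + 1)) * (1 + ((j : ℝ) + 1) / K) =
          (((n : ℝ) - 2 * ((j : ℝ) + 1)) * (K + ((j : ℝ) + 1))) / K := by
        field_simp
      rw [e1, e2]
      refine div_le_div_of_nonneg_right ?_ hK0.le
      nlinarith [mul_le_mul hjK hjK (by positivity) hK0.le]
    have h2 := le_of_mul_le_mul_left h1 hpos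
    push_cast
    exact h2

private theorem S02_lim (K : ℕ) (hK : 1 ≤ K) (hn : 4 * K ^ 2 + 1 ≤ n) {σ : Measure (E (n + 1))}
    (hσ : SphM σ) (j : ℕ) (hj : j ≤ K) :
    Integrable (fun y => ((1 - y 0)⁻¹) ^ j) σ ∧ (∫ y, ((1 - y 0)⁻¹) ^ j ∂σ) ≤ 2 := by
  have : IsProbabilityMeasure σ := ⟨hσ.1⟩
  have hK0 : (0 : ℝ) < K := by exact_mod_cast hK
  have h0 : Measurable fun y : E (n + 1) => y 0 :=
    (PiLp.continuous_apply 2 (fun _ => ℝ) (0 : Fin (n + 1))).measurable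
  have hm : Measurable fun y : E (n + 1) => ((1 - y 0)⁻¹) ^ j :=
    ((measurable_const.sub h0).inv).pow_const _
  have hmη : ∀ η : ℝ, Measurable fun y : E (n + 1) => ((1 + η - y 0)⁻¹) ^ j := fun η =>
    ((measurable_const.sub h0).inv).pow_const _
  have hnn : 0 ≤ᵐ[σ] fun y => ((1 - y 0)⁻¹) ^ j := by
    filter_upwards [sph_abs hσ] with y hy
    have h1 := abs_le.1 hy
    have : 0 ≤ 1 - y 0 := by linarith
    exact pow_nonneg (inv_nonneg.2 this) _
  have hjK : (j : ℝ) / K ≤ 1 := by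
    rw [div_le_one hK0]
    exact_mod_cast hj
  have key : ∫⁻ y, ENNReal.ofReal (((1 - y 0)⁻¹) ^ j) ∂σ ≤ ENNReal.ofReal 2 := by
    set F : ℕ → E (n + 1) → ℝ≥0∞ := fun m y =>
      ENNReal.ofReal (((1 + 1 / ((m : ℝ) + 1) - y 0)⁻¹) ^ j) with hF
    have hFm : ∀ m, Measurable (F m) := fun m => (hmη _).ennreal_ofReal
    have hFb : ∀ m, ∫⁻ y, F m y ∂σ ≤ ENNReal.ofReal 2 := by
      intro m
      have hη : (0 : ℝ) < 1 / ((m : ℝ) + 1) := by positivity
      simp only [hF]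
      rw [← ofReal_integral_eq_lintegral_ofReal (S02_int hσ _ hη j)]
      · exact ENNReal.ofReal_le_ofReal ((S02_X K hK hn hσ _ hη j hj).trans (by linarith))
      · filter_upwards [sph_abs hσ] with y hy
        have h1 := abs_le.1 hy
        have : 0 ≤ 1 + 1 / ((m : ℝ) + 1) - y 0 := by linarith
        exact pow_nonneg (inv_nonneg.2 this) _
    have h1 : ∫⁻ y, ENNReal.ofReal (((1 - y 0)⁻¹) ^ j) ∂σ ≤
        ∫⁻ y, liminf (fun m => F m y) atTop ∂σ := by
      refine lintegral_mono_ae ?_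
      filter_upwards [sph_abs hσ] with y hy
      have h2 := (abs_le.1 hy).2
      rcases eq_or_lt_of_le h2 with h3 | h3
      · rcases j with _ | j
        · simp [hF]
        · rw [h3]
          simp
      · have ht : Tendsto (fun m : ℕ => F m y) atTop
            (𝓝 (ENNReal.ofReal (((1 - y 0)⁻¹) ^ j))) := by
          simp only [hF]
          refine ENNReal.tendsto_ofReal ?_
          refine Tendsto.pow (Tendsto.inv₀ ?_ (by linarith : (1 : ℝ) - y 0 ≠ 0)) _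
          have h4 := ((tendsto_one_div_add_atTop_nhds_zero_nat (𝕜 := ℝ)).const_add 1).sub_const (y 0)
          simpa using h4
        exact ht.liminf_eq.ge
    refine h1.trans ((lintegral_liminf_le hFm).trans ?_)
    refine (liminf_le_liminf (Eventually.of_forall hFb)).trans ?_
    simp
  have hint : Integrable (fun y => ((1 - y 0)⁻¹) ^ j) σ := by
    refine ⟨hm.aestronglyMeasurable, ?_⟩
    rw [hasFiniteIntegral_iff_ofReal hnn]
    exact lt_of_le_of_lt key ENNReal.ofReal_lt_top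
  refine ⟨hint, ?_⟩
  rw [← ofReal_integral_eq_lintegral_ofReal hint hnn] at key
  exact (ENNReal.ofReal_le_ofReal_iff (by norm_num)).1 key

theorem neg_mom (k : ℕ) : ∃ C : ℝ, 0 < C ∧ ∃ n1 : ℕ, ∀ n ≥ n1, ∀ σ : Measure (E (n + 1)), SphM σ →
    Integrable (fun y => ((1 - y 0)⁻¹) ^ k) σ ∧ (∫ y, ((1 - y 0)⁻¹) ^ k ∂σ) ≤ 2 ∧
    (∫ y, (y 0) ^ 2 * ((1 - y 0)⁻¹) ^ k ∂σ) ≤ C / ((n : ℝ) + 1) ∧
    (∫ y, |y 0| * ((1 - y 0)⁻¹) ^ k ∂σ) ≤ C / Real.sqrt ((n : ℝ) + 1) := by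
  refine ⟨3, by norm_num, 4 * (2 * k + 1) ^ 2 + 1, fun n hn σ hσ => ?_⟩
  have : IsProbabilityMeasure σ := ⟨hσ.1⟩
  obtain ⟨i1, b1⟩ := S02_lim (2 * k + 1) (by omega) hn hσ k (by omega)
  obtain ⟨i2, b2⟩ := S02_lim (2 * k + 1) (by omega) hn hσ (2 * k) (by omega)
  have hn1 : 1 ≤ n := le_trans (Nat.le_add_left 1 _) hn
  have hnp : (0 : ℝ) < (n : ℝ) + 1 := by positivity
  have hsp : (0 : ℝ) < Real.sqrt ((n : ℝ) + 1) := Real.sqrt_pos.2 hnp
  have hss : Real.sqrt ((n : ℝ) + 1) * Real.sqrt ((n : ℝ) + 1) = (n : ℝ) + 1 :=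
    Real.mul_self_sqrt hnp.le
  have h0 : Measurable fun y : E (n + 1) => y 0 :=
    (PiLp.continuous_apply 2 (fun _ => ℝ) (0 : Fin (n + 1))).measurable
  have im : ∀ m : ℕ, Integrable (fun y : E (n + 1) => (y 0) ^ m) σ := by
    intro m
    refine Integrable.of_bound (h0.pow_const m).aestronglyMeasurable 1 ?_
    filter_upwards [sph_abs hσ] with y hy
    rw [Real.norm_eq_abs, abs_pow]
    exact pow_le_one₀ (abs_nonneg _) hy
  have hw2 : ∀ y : E (n + 1), ((1 - y 0)⁻¹) ^ (2 * k) = (((1 - y 0)⁻¹) ^ k) ^ 2 := by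
    intro y
    rw [← pow_mul, mul_comm]
  refine ⟨i1, b1, ?_, ?_⟩
  · have h1 : (∫ y, (y 0) ^ 2 * ((1 - y 0)⁻¹) ^ k ∂σ) ≤
        ∫ y, (((n : ℝ) + 1) / 2 * (y 0) ^ 4 + 1 / (2 * ((n : ℝ) + 1)) * ((1 - y 0)⁻¹) ^ (2 * k)) ∂σ := by
      refine integral_mono_of_nonneg ?_ (((im 4).const_mul _).add (i2.const_mul _)) ?_
      · filter_upwards [sph_abs hσ] with y hy
        have h1 := abs_le.1 hy
        have : 0 ≤ 1 - y 0 := by linarith
        exact mul_nonneg (sq_nonneg _) (pow_nonneg (inv_nonneg.2 this) _)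
      · refine Eventually.of_forall fun y => ?_
        simp only
        rw [hw2]
        set w := ((1 - y 0)⁻¹) ^ k
        have h2 : ((n : ℝ) + 1) / 2 * (y 0) ^ 4 + 1 / (2 * ((n : ℝ) + 1)) * w ^ 2 - (y 0) ^ 2 * w =
            (((n : ℝ) + 1) * (y 0) ^ 2 - w) ^ 2 / (2 * ((n : ℝ) + 1)) := by
          field_simp
          ring
        have h3 : 0 ≤ (((n : ℝ) + 1) * (y 0) ^ 2 - w) ^ 2 / (2 * ((n : ℝ) + 1)) := by positivity
        linarith
    refine h1.trans ?_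
    rw [integral_add ((im 4).const_mul _) (i2.const_mul _), integral_const_mul, integral_const_mul]
    have h4 := sph_m4 hn1 hσ
    have h5 : ((n : ℝ) + 1) / 2 * ∫ y, (y 0) ^ 4 ∂σ ≤ ((n : ℝ) + 1) / 2 * (3 / ((n : ℝ) + 1) ^ 2) :=
      mul_le_mul_of_nonneg_left h4 (by positivity)
    have h6 : 1 / (2 * ((n : ℝ) + 1)) * ∫ y, ((1 - y 0)⁻¹) ^ (2 * k) ∂σ ≤
        1 / (2 * ((n : ℝ) + 1)) * 2 := mul_le_mul_of_nonneg_left b2 (by positivity)
    refine (add_le_add h5 h6).trans ?_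
    have h7 : ((n : ℝ) + 1) / 2 * (3 / ((n : ℝ) + 1) ^ 2) + 1 / (2 * ((n : ℝ) + 1)) * 2 =
        (5 / 2) / ((n : ℝ) + 1) := by
      field_simp
      norm_num
    rw [h7]
    exact div_le_div_of_nonneg_right (by norm_num) hnp.le
  · set s := Real.sqrt ((n : ℝ) + 1) with hs
    have h1 : (∫ y, |y 0| * ((1 - y 0)⁻¹) ^ k ∂σ) ≤
        ∫ y, (s / 2 * (y 0) ^ 2 + 1 / (2 * s) * ((1 - y 0)⁻¹) ^ (2 * k)) ∂σ := by
      refine integral_mono_of_nonneg ?_ (((im 2).const_mul _).add (i2.const_mul _)) ?_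
      · filter_upwards [sph_abs hσ] with y hy
        have h1 := abs_le.1 hy
        have : 0 ≤ 1 - y 0 := by linarith
        exact mul_nonneg (abs_nonneg _) (pow_nonneg (inv_nonneg.2 this) _)
      · refine Eventually.of_forall fun y => ?_
        simp only
        rw [hw2]
        set w := ((1 - y 0)⁻¹) ^ k
        have h2 : s / 2 * (y 0) ^ 2 + 1 / (2 * s) * w ^ 2 - |y 0| * w =
            (s * |y 0| - w) ^ 2 / (2 * s) := by
          rw [← sq_abs (y 0)]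
          field_simp
          ring
        have h3 : 0 ≤ (s * |y 0| - w) ^ 2 / (2 * s) := by positivity
        linarith
    refine h1.trans ?_
    rw [integral_add ((im 2).const_mul _) (i2.const_mul _), integral_const_mul, integral_const_mul,
      sph_m2 hσ]
    have h6 : 1 / (2 * s) * ∫ y, ((1 - y 0)⁻¹) ^ (2 * k) ∂σ ≤
        1 / (2 * s) * 2 := mul_le_mul_of_nonneg_left b2 (by positivity)
    refine (add_le_add_right h6 _).trans ?_
    have h7 : s / 2 * (1 / ((n : ℝ) + 1)) + 1 / (2 * s) * 2 = (3 / 2) / s := by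
      rw [← hss]
      field_simp
      norm_num
    rw [h7]
    exact div_le_div_of_nonneg_right (by norm_num) hsp.le

/-- `y_0 < 1` almost everywhere (`n ≥ 1`): for instance because every point has measure `0` (rotation invariance: a point
mass would be repeated at infinitely many points of the sphere). -/
theorem sph_lt (hn : 1 ≤ n) {σ : Measure (E (n + 1))} (hσ : SphM σ) : ∀ᵐ y ∂σ, y 0 < 1 := by
  have : IsProbabilityMeasure σ := ⟨hσ.1⟩
  set e0 : E (n + 1) := EuclideanSpace.single 0 1 with he0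
  have hne : ‖e0‖ = 1 := by
    rw [he0, EuclideanSpace.norm_single]
    simp
  have hin : ∀ y : E (n + 1), inner ℝ e0 y = y 0 := by
    intro y
    rw [he0, EuclideanSpace.inner_single_left]
    simp
  have hpt : ∀ x : E (n + 1), ‖x‖ = 1 → σ {e0} ≤ σ {x} := by
    intro x hx
    obtain ⟨T, hT⟩ := A.exists_isometry (x := e0) (y := x) (by rw [hne, hx])
    have h1 : σ {x} = σ (T ⁻¹' {x}) := by
      conv_lhs => rw [← hσ.2.2 T]
      exact T.toHomeomorph.measurableEmbedding.map_apply σ {x}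
    rw [h1]
    refine measure_mono ?_
    intro y hy
    rw [mem_singleton_iff] at hy
    rw [mem_preimage, mem_singleton_iff, hy, hT]
  have hinf : (Metric.sphere (0 : E (n + 1)) 1).Infinite := by
    have hr : 1 < Module.rank ℝ (E (n + 1)) := by
      rw [← Module.finrank_eq_rank, finrank_euclideanSpace_fin]
      exact_mod_cast (by omega : 1 < n + 1)
    refine (isPreconnected_sphere hr 0 1).infinite_of_nontrivial ?_
    refine ⟨e0, by simp [hne], -e0, by simp [hne], ?_⟩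
    intro h
    have h1 : (2 : ℝ) • e0 = 0 := by
      rw [two_smul]
      nth_rewrite 2 [h]
      simp
    have h2 : e0 = 0 := (smul_eq_zero.1 h1).resolve_left (by norm_num)
    rw [h2] at hne
    simp at hne
  have hz : σ {e0} = 0 := by
    by_contra hc
    have h1 := hinf.meas_eq_top (μ := σ) ⟨σ {e0}, hc, fun x hx => hpt x (by simpa using hx)⟩
    exact (measure_ne_top σ _) h1
  have hae : ∀ᵐ y ∂σ, y ≠ e0 := by
    rw [ae_iff]
    simpa using hz
  filter_upwards [hae, sph_norm hσ, sph_abs hσ] with y hy1 hy2 hy3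
  refine lt_of_le_of_ne (abs_le.1 hy3).2 fun h => hy1 ?_
  rw [← hin] at h
  exact ((inner_eq_one_iff_of_norm_eq_one hne hy2).1 h).symm

end Pool.Agent.Lib.MP_6cd19d_an.SH
end

section

/-!
# The constants of the sphere

`t = y_0`, `W = (1-t)^(-s/2)`, so `2^(s/2) eS = ∫ W =: X` and `lS = -(1/2) log 2 - (1/2) (∫ W log(1-t))/X`.  Fix `M`, let `k` be
large (`k ≥ M + 4`).  By Taylor at `t = 0`, for `t < 1`, `|t| ≤ 1`, `0 < s ≤ M`:
`|W - 1 - (s/2) t| ≤ C t^2 (1 + (1-t)^(-k))`, `|W log(1-t) + t| ≤ C t^2 (1 + (1-t)^(-k))`,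
`(W-1)^2 ≤ C s^2 t^2 (1 + (1-t)^(-k))` [`|log(1-t)| ≤ |t| (1 + (1-t)^(-1))`, `|W - 1| ≤ (s/2)|log(1-t)| max(1,W)`].  With
`∫ t = 0` and `neg_mom`: `|X - 1| ≤ C/(n+1)`, `|∫ W log(1-t)| ≤ C/(n+1)`, `∫ (W-1)^2 ≤ C s^2/(n+1)`.  `X ≥ 1` (Jensen, or
`W ≥ 1 + (s/2) t`).
`g0`: `exp(s lS)/eS = exp(∫ W log W/X)/X`, and by Jensen (`exp` convex, probability `W dσ/X`) it is `≤ ∫ W^2/X^2 =
1 + Var(W)/X^2 ≤ 1 + ∫ (W-1)^2`.
`stat_sphere`: by the definitions of `eS`, `lS` (`∫ Z^(-s/2) = e`, `∫ Z^(-s/2) log Z/2 = - e l` for `Z = 2 - 2 y_0`).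
`eS_deriv`: differentiation under the integral, dominated by `C (1-t)^(-k)`.
-/

set_option autoImplicit false

open MeasureTheory Set Filter Topology
open scoped ENNReal NNReal

namespace Pool.Agent.Lib.MP_6cd19d_an.SH

open Pool.Agent.Lib.MP_6cd19d_an.ND Pool.Agent.Lib.MP_6cd19d_an.HP

variable {n : ℕ}

/-! ### Pointwise bounds -/

private theorem S03_pow {v : ℝ} (hv : 0 < v) {j k : ℕ} (h : j ≤ k) : v ^ j ≤ 1 + v ^ k := by
  rcases le_total v 1 with h1 | h1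
  · have h2 : v ^ j ≤ 1 := pow_le_one₀ hv.le h1
    have h3 : 0 ≤ v ^ k := by positivity
    linarith
  · have h2 : v ^ j ≤ v ^ k := pow_le_pow_right₀ h1 h
    linarith

private theorem S03_rpow {u r : ℝ} (hu : 0 < u) (hu2 : u ≤ 2) {K : ℕ} (hr : |r| ≤ K) :
    u ^ r ≤ 2 ^ K + (u⁻¹) ^ K := by
  have hr' := abs_le.1 hr
  have p1 : (0 : ℝ) ≤ 2 ^ K := by positivity
  have p2 : (0 : ℝ) ≤ (u⁻¹) ^ K := by positivity
  rcases le_total u 1 with h1 | h1
  · have h2 : u ^ r ≤ u ^ (-(K : ℝ)) := Real.rpow_le_rpow_of_exponent_ge hu h1 hr'.1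
    rw [Real.rpow_neg hu.le, Real.rpow_natCast, ← inv_pow] at h2
    linarith
  · have h2 : u ^ r ≤ u ^ (K : ℝ) := Real.rpow_le_rpow_of_exponent_le h1 hr'.2
    rw [Real.rpow_natCast] at h2
    have h3 : u ^ K ≤ 2 ^ K := pow_le_pow_left₀ hu.le hu2 K
    linarith

private theorem S03_log {u : ℝ} (hu : 0 < u) :
    (1 - u) ≤ -Real.log u ∧ -Real.log u ≤ (1 - u) * u⁻¹ := by
  constructor
  · have := Real.log_le_sub_one_of_pos hu
    linarith
  · have h := Real.log_le_sub_one_of_pos (inv_pos.2 hu)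
    rw [Real.log_inv] at h
    have e : (1 - u) * u⁻¹ = u⁻¹ - 1 := by
      rw [sub_mul, one_mul, mul_inv_cancel₀ hu.ne']
    rw [e]
    exact h

private theorem S03_abslog {u : ℝ} (hu : 0 < u) : |Real.log u| ≤ |1 - u| * (1 + u⁻¹) := by
  obtain ⟨h1, h2⟩ := S03_log hu
  have hv : 0 < u⁻¹ := inv_pos.2 hu
  have a0 : 0 ≤ |1 - u| := abs_nonneg _
  have a1 : 1 - u ≤ |1 - u| := le_abs_self _
  have a2 : -(1 - u) ≤ |1 - u| := neg_le_abs _
  have a3 : (1 - u) * u⁻¹ ≤ |1 - u| * u⁻¹ := mul_le_mul_of_nonneg_right a1 hv.le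
  have a4 : 0 ≤ |1 - u| * u⁻¹ := mul_nonneg a0 hv.le
  rw [abs_le]
  constructor
  · linarith
  · linarith

private theorem S03_logrem {u : ℝ} (hu : 0 < u) :
    0 ≤ -Real.log u - (1 - u) ∧ -Real.log u - (1 - u) ≤ (1 - u) ^ 2 * u⁻¹ := by
  obtain ⟨h1, h2⟩ := S03_log hu
  refine ⟨by linarith, ?_⟩
  have e : (1 - u) ^ 2 * u⁻¹ = (1 - u) * u⁻¹ - (1 - u) := by
    have h3 : u * u⁻¹ = 1 := mul_inv_cancel₀ hu.ne'
    linear_combination (u - 1) * h3
  rw [e]
  linarith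

private theorem S03_exp1 (x : ℝ) : |Real.exp x - 1| ≤ |x| * (1 + Real.exp x) := by
  have h1 : x + 1 ≤ Real.exp x := Real.add_one_le_exp x
  have h2 : -x + 1 ≤ Real.exp (-x) := Real.add_one_le_exp (-x)
  have h3 : Real.exp x - 1 ≤ x * Real.exp x := by
    have := mul_le_mul_of_nonneg_right h2 (Real.exp_pos x).le
    rw [← Real.exp_add, neg_add_cancel, Real.exp_zero] at this
    linarith
  have a1 : x ≤ |x| := le_abs_self _
  have a2 : -x ≤ |x| := neg_le_abs _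
  have e0 := Real.exp_pos x
  rw [abs_le]
  constructor
  · nlinarith [mul_nonneg (abs_nonneg x) e0.le]
  · have : x * Real.exp x ≤ |x| * Real.exp x := mul_le_mul_of_nonneg_right a1 e0.le
    nlinarith [abs_nonneg x]

private theorem S03_exp2 (x : ℝ) : |Real.exp x - 1 - x| ≤ x ^ 2 * (1 + Real.exp x) := by
  have h1 : x + 1 ≤ Real.exp x := Real.add_one_le_exp x
  have h2 : -x + 1 ≤ Real.exp (-x) := Real.add_one_le_exp (-x)
  have h3 : Real.exp x - 1 ≤ x * Real.exp x := by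
    have := mul_le_mul_of_nonneg_right h2 (Real.exp_pos x).le
    rw [← Real.exp_add, neg_add_cancel, Real.exp_zero] at this
    linarith
  have e0 := Real.exp_pos x
  rw [abs_of_nonneg (by linarith)]
  -- exp x - 1 - x ≤ x (exp x - 1)
  have h4 : Real.exp x - 1 - x ≤ x * (Real.exp x - 1) := by linarith
  have h5 : x * (Real.exp x - 1) ≤ |x| * |Real.exp x - 1| := by
    rw [← abs_mul]
    exact le_abs_self _
  have h6 := mul_le_mul_of_nonneg_left (S03_exp1 x) (abs_nonneg x)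
  have e1 : |x| * (|x| * (1 + Real.exp x)) = x ^ 2 * (1 + Real.exp x) := by
    rw [← mul_assoc, ← sq, sq_abs]
  linarith

/-- All pointwise bounds. -/
private theorem S03_pt (M : ℝ) (hM : 1 ≤ M) : ∃ C : ℝ, 0 < C ∧ ∃ k : ℕ, ∀ s u : ℝ, 0 < s → s ≤ M →
    0 < u → u ≤ 2 →
      |u ^ (-s / 2) - 1 - s / 2 * (1 - u)| ≤ C * ((1 - u) ^ 2 * (1 + (u⁻¹) ^ k)) ∧
      |u ^ (-s / 2) * Real.log u + (1 - u)| ≤ C * ((1 - u) ^ 2 * (1 + (u⁻¹) ^ k)) ∧
      (u ^ (-s / 2) - 1) ^ 2 ≤ C * s ^ 2 * ((1 - u) ^ 2 * (1 + (u⁻¹) ^ k)) := by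
  obtain ⟨K, hK⟩ := exists_nat_ge M
  set D : ℝ := 2 ^ K + 1 with hD
  have hD1 : 1 ≤ D := by
    have : (0 : ℝ) ≤ 2 ^ K := by positivity
    linarith
  refine ⟨16 * D ^ 2 * M ^ 2 + 1, by positivity, 2 * K + 2, fun s u hs hsM hu hu2 => ?_⟩
  set v : ℝ := u⁻¹ with hv
  have hv0 : 0 < v := inv_pos.2 hu
  set t : ℝ := 1 - u with ht
  set x : ℝ := -(s / 2) * Real.log u with hx
  have hW : u ^ (-s / 2) = Real.exp x := by
    rw [Real.rpow_def_of_pos hu, hx]
    congr 1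
    ring
  set P : ℝ := 1 + v ^ (2 * K + 2) with hP
  have hP0 : 1 ≤ P := by
    have : 0 ≤ v ^ (2 * K + 2) := by positivity
    linarith
  -- bound of exp x
  have hE : 1 + Real.exp x ≤ D * (1 + v ^ K) := by
    have h := S03_rpow hu hu2 (K := K) (r := -s / 2) (by
      rw [abs_of_nonpos (by linarith)]
      linarith)
    rw [hW] at h
    have h7 : (0 : ℝ) ≤ 2 ^ K * v ^ K := by positivity
    have h8 : (0 : ℝ) ≤ v ^ K := by positivity
    rw [hD]
    linarith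
  have hlog : |Real.log u| ≤ |t| * (1 + v) := S03_abslog hu
  have habs : |x| ≤ s / 2 * (|t| * (1 + v)) := by
    rw [hx, abs_mul, abs_neg, abs_of_pos (by linarith : (0:ℝ) < s / 2)]
    exact mul_le_mul_of_nonneg_left hlog (by linarith)
  have ht0 : 0 ≤ |t| := abs_nonneg _
  have hT : |t| ^ 2 = t ^ 2 := sq_abs t
  -- polynomial bounds
  have q1 : v ≤ P := by
    have := S03_pow hv0 (j := 1) (k := 2 * K + 2) (by omega)
    rwa [pow_one] at this
  have hpoly : (1 + v) ^ 2 * (1 + v ^ K) ^ 2 ≤ 16 * P := by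
    have a1 : (1 + v) ^ 2 ≤ 2 * (1 + v ^ 2) := by nlinarith [sq_nonneg (1 - v)]
    have a2 : (1 + v ^ K) ^ 2 ≤ 2 * (1 + v ^ (2 * K)) := by
      have : v ^ (2 * K) = (v ^ K) ^ 2 := by rw [mul_comm, pow_mul]
      rw [this]
      nlinarith [sq_nonneg (1 - v ^ K)]
    have a3 : (1 + v) ^ 2 * (1 + v ^ K) ^ 2 ≤ (2 * (1 + v ^ 2)) * (2 * (1 + v ^ (2 * K))) :=
      mul_le_mul a1 a2 (by positivity) (by positivity)
    have a4 : (2 * (1 + v ^ 2)) * (2 * (1 + v ^ (2 * K))) =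
        4 * (1 + v ^ 2 + v ^ (2 * K) + v ^ (2 * K + 2)) := by
      rw [pow_add]
      ring
    have b1 := S03_pow hv0 (j := 2) (k := 2 * K + 2) (by omega)
    have b2 := S03_pow hv0 (j := 2 * K) (k := 2 * K + 2) (by omega)
    have b3 : v ^ (2 * K + 2) ≤ P := by rw [hP]; linarith
    rw [a4] at a3
    rw [hP] at b3 ⊢
    linarith
  have hpoly1 : (1 + v) ^ 2 * (1 + v ^ K) ≤ 16 * P := by
    have c1 : (1 + v ^ K) ≤ (1 + v ^ K) ^ 2 := by
      have : (0 : ℝ) ≤ v ^ K := by positivity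
      nlinarith
    have c2 := mul_le_mul_of_nonneg_left c1 (by positivity : (0:ℝ) ≤ (1 + v) ^ 2)
    linarith
  -- |W - 1|
  have hW1 : |Real.exp x - 1| ≤ (s / 2 * (|t| * (1 + v))) * (D * (1 + v ^ K)) := by
    refine (S03_exp1 x).trans ?_
    exact mul_le_mul habs hE (by positivity) (by positivity)
  have ht2 : 0 ≤ t ^ 2 := sq_nonneg t
  have hD2 : D ≤ D ^ 2 := by nlinarith
  have hM2 : M ≤ M ^ 2 := by nlinarith
  rw [hW]
  refine ⟨?_, ?_, ?_⟩
  · obtain ⟨r1, r2⟩ := S03_logrem hu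
    have e : Real.exp x - 1 - s / 2 * t = (Real.exp x - 1 - x) + s / 2 * (-Real.log u - (1 - u)) := by
      rw [hx, ht]
      ring
    rw [e]
    refine (abs_add_le _ _).trans ?_
    have h1 : |Real.exp x - 1 - x| ≤ M ^ 2 / 4 * D * (t ^ 2 * (16 * P)) := by
      refine (S03_exp2 x).trans ?_
      have hx2 : x ^ 2 ≤ M ^ 2 / 4 * (t ^ 2 * (1 + v) ^ 2) := by
        rw [← sq_abs x]
        have : |x| ^ 2 ≤ (s / 2 * (|t| * (1 + v))) ^ 2 := pow_le_pow_left₀ (abs_nonneg _) habs 2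
        have e3 : (s / 2 * (|t| * (1 + v))) ^ 2 = s ^ 2 / 4 * (t ^ 2 * (1 + v) ^ 2) := by
          rw [mul_pow, mul_pow, hT]
          ring
        rw [e3] at this
        have hsM2 : s ^ 2 ≤ M ^ 2 := pow_le_pow_left₀ hs.le hsM 2
        have : s ^ 2 / 4 * (t ^ 2 * (1 + v) ^ 2) ≤ M ^ 2 / 4 * (t ^ 2 * (1 + v) ^ 2) :=
          mul_le_mul_of_nonneg_right (by linarith) (by positivity)
        linarith
      calc x ^ 2 * (1 + Real.exp x) ≤ (M ^ 2 / 4 * (t ^ 2 * (1 + v) ^ 2)) * (D * (1 + v ^ K)) :=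
            mul_le_mul hx2 hE (by positivity) (by positivity)
        _ = M ^ 2 / 4 * D * t ^ 2 * ((1 + v) ^ 2 * (1 + v ^ K)) := by ring
        _ ≤ M ^ 2 / 4 * D * t ^ 2 * (16 * P) := mul_le_mul_of_nonneg_left hpoly1 (by positivity)
        _ = _ := by ring
    have h2 : |s / 2 * (-Real.log u - (1 - u))| ≤ M / 2 * (t ^ 2 * P) := by
      rw [abs_mul, abs_of_pos (by linarith : (0:ℝ) < s / 2), abs_of_nonneg r1]
      have : (1 - u) ^ 2 * u⁻¹ ≤ t ^ 2 * P := by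
        exact mul_le_mul_of_nonneg_left q1 ht2
      calc s / 2 * (-Real.log u - (1 - u)) ≤ M / 2 * (t ^ 2 * P) := by
            refine mul_le_mul (by linarith) (r2.trans this) r1 (by linarith)
        _ = _ := rfl
    have h3 : 0 ≤ t ^ 2 * P := by positivity
    have h4 : M ^ 2 / 4 * D * (t ^ 2 * (16 * P)) = 4 * M ^ 2 * D * (t ^ 2 * P) := by ring
    have h5 : M / 2 * (t ^ 2 * P) ≤ M ^ 2 * D ^ 2 * (t ^ 2 * P) := by
      refine mul_le_mul_of_nonneg_right ?_ h3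
      have : M ^ 2 * 1 ≤ M ^ 2 * D ^ 2 := mul_le_mul_of_nonneg_left (by linarith) (sq_nonneg M)
      linarith
    have h6 : 4 * M ^ 2 * D * (t ^ 2 * P) ≤ 4 * M ^ 2 * D ^ 2 * (t ^ 2 * P) := by
      refine mul_le_mul_of_nonneg_right ?_ h3
      exact mul_le_mul_of_nonneg_left hD2 (by positivity)
    have h7 : 0 ≤ M ^ 2 * D ^ 2 * (t ^ 2 * P) := by positivity
    rw [h4] at h1
    linarith
  · obtain ⟨r1, r2⟩ := S03_logrem hu
    have e : Real.exp x * Real.log u + t = (Real.exp x - 1) * Real.log u - (-Real.log u - (1 - u)) := by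
      rw [ht]
      ring
    rw [e]
    refine (abs_sub _ _).trans ?_
    have h1 : |(Real.exp x - 1) * Real.log u| ≤ M / 2 * D * (t ^ 2 * (16 * P)) := by
      rw [abs_mul]
      calc |Real.exp x - 1| * |Real.log u| ≤
            ((s / 2 * (|t| * (1 + v))) * (D * (1 + v ^ K))) * (|t| * (1 + v)) :=
            mul_le_mul hW1 hlog (abs_nonneg _) (by positivity)
        _ = s / 2 * D * |t| ^ 2 * ((1 + v) ^ 2 * (1 + v ^ K)) := by ring
        _ = s / 2 * D * t ^ 2 * ((1 + v) ^ 2 * (1 + v ^ K)) := by rw [hT]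
        _ ≤ M / 2 * D * t ^ 2 * (16 * P) := by
            refine mul_le_mul ?_ hpoly1 (by positivity) (by positivity)
            refine mul_le_mul_of_nonneg_right ?_ ht2
            refine mul_le_mul_of_nonneg_right (by linarith) (by linarith)
        _ = _ := by ring
    have h2 : |-Real.log u - (1 - u)| ≤ t ^ 2 * P := by
      rw [abs_of_nonneg r1]
      exact r2.trans (mul_le_mul_of_nonneg_left q1 ht2)
    have h3 : 0 ≤ t ^ 2 * P := by positivity
    have h4 : M / 2 * D * (t ^ 2 * (16 * P)) = 8 * M * D * (t ^ 2 * P) := by ring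
    have h6 : 8 * M * D * (t ^ 2 * P) ≤ 8 * M ^ 2 * D ^ 2 * (t ^ 2 * P) := by
      refine mul_le_mul_of_nonneg_right ?_ h3
      have : M * D ≤ M ^ 2 * D ^ 2 := mul_le_mul hM2 hD2 (by linarith) (by positivity)
      linarith
    have h7 : 0 ≤ M ^ 2 * D ^ 2 * (t ^ 2 * P) := by positivity
    rw [h4] at h1
    linarith
  · have h1 : (Real.exp x - 1) ^ 2 ≤ ((s / 2 * (|t| * (1 + v))) * (D * (1 + v ^ K))) ^ 2 := by
      rw [← sq_abs]
      exact pow_le_pow_left₀ (abs_nonneg _) hW1 2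
    have e : ((s / 2 * (|t| * (1 + v))) * (D * (1 + v ^ K))) ^ 2 =
        s ^ 2 / 4 * D ^ 2 * t ^ 2 * ((1 + v) ^ 2 * (1 + v ^ K) ^ 2) := by
      rw [← hT]
      ring
    rw [e] at h1
    have h2 := mul_le_mul_of_nonneg_left hpoly (by positivity : 0 ≤ s ^ 2 / 4 * D ^ 2 * t ^ 2)
    have h3 : s ^ 2 / 4 * D ^ 2 * t ^ 2 * (16 * P) = 4 * D ^ 2 * s ^ 2 * (t ^ 2 * P) := by ring
    have h4 : 4 * D ^ 2 * s ^ 2 * (t ^ 2 * P) ≤ (16 * D ^ 2 * M ^ 2 + 1) * s ^ 2 * (t ^ 2 * P) := by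
      refine mul_le_mul_of_nonneg_right ?_ (by positivity)
      refine mul_le_mul_of_nonneg_right ?_ (sq_nonneg s)
      have : D ^ 2 * 1 ≤ D ^ 2 * M ^ 2 :=
        mul_le_mul_of_nonneg_left (by linarith) (by positivity)
      have h8 : 0 ≤ D ^ 2 * M ^ 2 := by positivity
      linarith
    linarith

/-! ### Integrals -/

private theorem S03_ge {s u : ℝ} (hs : 0 ≤ s) (hu : 0 < u) : 1 + s / 2 * (1 - u) ≤ u ^ (-s / 2) := by
  rw [Real.rpow_def_of_pos hu]
  have h1 := Real.add_one_le_exp (Real.log u * (-s / 2))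
  have h2 := (S03_log hu).1
  have h3 : s / 2 * (1 - u) ≤ s / 2 * (-Real.log u) := mul_le_mul_of_nonneg_left h2 (by linarith)
  linarith

private theorem S03_ae (hn : 1 ≤ n) {σ : Measure (E (n + 1))} (hσ : SphM σ) :
    ∀ᵐ y ∂σ, 0 < 1 - y 0 ∧ 1 - y 0 ≤ 2 := by
  have h0 : ∀ᵐ y ∂σ, ‖y‖ = 1 := by
    rw [ae_iff]
    have h := hσ.2.1
    convert! h using 2
    ext y
    simp
  filter_upwards [h0, sph_lt hn hσ] with y hy hy1
  have h := PiLp.norm_apply_le y 0
  rw [hy, Real.norm_eq_abs] at h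
  have h2 := (abs_le.1 h).1
  exact ⟨by linarith, by linarith⟩

private theorem S03_meas : Measurable fun y : E (n + 1) => 1 - y 0 :=
  measurable_const.sub ((PiLp.continuous_apply 2 (fun _ => ℝ) 0).measurable)

private theorem S03_int {σ : Measure (E (n + 1))} [IsProbabilityMeasure σ] {k : ℕ}
    (hk : Integrable (fun y => ((1 - y 0)⁻¹) ^ k) σ) {f : E (n + 1) → ℝ} (hf : Measurable f) (C : ℝ)
    (h : ∀ᵐ y ∂σ, |f y| ≤ C * (1 + ((1 - y 0)⁻¹) ^ k)) : Integrable f σ := by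
  have h1 : Integrable (fun y : E (n + 1) => C * (1 + ((1 - y 0)⁻¹) ^ k)) σ :=
    ((integrable_const (1 : ℝ)).add hk).const_mul C
  refine h1.mono' hf.aestronglyMeasurable ?_
  filter_upwards [h] with y hy
  rw [Real.norm_eq_abs]
  exact hy

private theorem S03_mono {σ : Measure (E (n + 1))} [IsProbabilityMeasure σ] {k j : ℕ} (hjk : j ≤ k)
    (hn : 1 ≤ n) (hσ : SphM σ)
    (hk : Integrable (fun y => ((1 - y 0)⁻¹) ^ k) σ) :
    Integrable (fun y : E (n + 1) => ((1 - y 0)⁻¹) ^ j) σ := by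
  refine S03_int hk (S03_meas.inv.pow_const j) 1 ?_
  filter_upwards [S03_ae hn hσ] with y hy
  have hv : 0 < (1 - y 0)⁻¹ := inv_pos.2 hy.1
  rw [abs_of_nonneg (by positivity), one_mul]
  exact S03_pow hv hjk

private theorem S03_mean (hn : 1 ≤ n) {σ : Measure (E (n + 1))} (hσ : SphM σ) : ∫ y, y 0 ∂σ = 0 := by
  have h := (bes_sphere hn hσ).zero
  simpa using h

/-- The powers. -/
private theorem S03_eS (hn : 1 ≤ n) {σ : Measure (E (n + 1))} (hσ : SphM σ) (s : ℝ) :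
    eS σ s = 2 ^ (-s / 2) * ∫ y, (1 - y 0) ^ (-s / 2) ∂σ := by
  unfold eS
  rw [← integral_const_mul]
  refine integral_congr_ae ?_
  filter_upwards [S03_ae hn hσ] with y hy
  rw [← Real.mul_rpow (by norm_num) hy.1.le]
  congr 1
  ring

private theorem S03_eL (hn : 1 ≤ n) {σ : Measure (E (n + 1))} (hσ : SphM σ) (s : ℝ)
    (h1 : Integrable (fun y => (1 - y 0) ^ (-s / 2)) σ)
    (h2 : Integrable (fun y => (1 - y 0) ^ (-s / 2) * Real.log (1 - y 0)) σ) :
    ∫ y, (2 - 2 * y 0) ^ (-s / 2) * Real.log (2 - 2 * y 0) ∂σ =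
      2 ^ (-s / 2) * (Real.log 2 * ∫ y, (1 - y 0) ^ (-s / 2) ∂σ +
        ∫ y, (1 - y 0) ^ (-s / 2) * Real.log (1 - y 0) ∂σ) := by
  rw [← integral_const_mul, ← integral_add (h1.const_mul _) h2, ← integral_const_mul]
  refine integral_congr_ae ?_
  filter_upwards [S03_ae hn hσ] with y hy
  have e : (2 - 2 * y 0 : ℝ) = 2 * (1 - y 0) := by ring
  rw [e, Real.mul_rpow (by norm_num) hy.1.le, Real.log_mul (by norm_num) hy.1.ne']
  ring

/-- All integral bounds. -/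
private theorem S03_main (M : ℝ) (hM : 1 ≤ M) : ∃ C : ℝ, 0 < C ∧ ∃ n1 : ℕ, ∀ n ≥ n1,
    ∀ σ : Measure (E (n + 1)), SphM σ → 1 ≤ n ∧ ∀ s : ℝ, 0 < s → s ≤ M →
      Integrable (fun y => (1 - y 0) ^ (-s / 2)) σ ∧
      Integrable (fun y => (1 - y 0) ^ (-s / 2) * Real.log (1 - y 0)) σ ∧
      Integrable (fun y => ((1 - y 0) ^ (-s / 2) - 1) ^ 2) σ ∧
      1 ≤ ∫ y, (1 - y 0) ^ (-s / 2) ∂σ ∧
      |∫ y, (1 - y 0) ^ (-s / 2) ∂σ - 1| ≤ C / ((n : ℝ) + 1) ∧
      |∫ y, (1 - y 0) ^ (-s / 2) * Real.log (1 - y 0) ∂σ| ≤ C / ((n : ℝ) + 1) ∧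
      ∫ y, ((1 - y 0) ^ (-s / 2) - 1) ^ 2 ∂σ ≤ C / ((n : ℝ) + 1) * s ^ 2 := by
  obtain ⟨C, hC, k, hpt⟩ := S03_pt M hM
  obtain ⟨C0, hC0, n0, h0⟩ := neg_mom 0
  obtain ⟨C1, hC1, n1, h1⟩ := neg_mom k
  refine ⟨C * (C0 + C1), by positivity, n0 + n1 + 1, fun n hn σ hσ => ⟨by omega, fun s hs hsM => ?_⟩⟩
  have hn1 : 1 ≤ n := by omega
  have hP : IsProbabilityMeasure σ := ⟨hσ.1⟩
  obtain ⟨-, -, m0, -⟩ := h0 n (by omega) σ hσ
  obtain ⟨ik, -, m1, -⟩ := h1 n (by omega) σ hσ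
  have hae := S03_ae hn1 hσ
  have mu := S03_meas (n := n)
  have my : Measurable fun y : E (n + 1) => y 0 := (PiLp.continuous_apply 2 (fun _ => ℝ) 0).measurable
  -- integrability of the dominating function
  have ip : Integrable (fun y : E (n + 1) => (y 0) ^ 2 * ((1 - y 0)⁻¹) ^ k) σ := by
    refine S03_int ik ((my.pow_const 2).mul (mu.inv.pow_const k)) 1 ?_
    filter_upwards [hae] with y hy
    have hv : 0 < (1 - y 0)⁻¹ := inv_pos.2 hy.1
    have p : 0 ≤ ((1 - y 0)⁻¹) ^ k := by positivity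
    have q : (y 0) ^ 2 ≤ 1 := by nlinarith [hy.1, hy.2]
    rw [abs_of_nonneg (by positivity), one_mul]
    nlinarith
  have ip0 : Integrable (fun y : E (n + 1) => (y 0) ^ 2) σ := by
    refine S03_int ik (my.pow_const 2) 1 ?_
    filter_upwards [hae] with y hy
    have hv : 0 < (1 - y 0)⁻¹ := inv_pos.2 hy.1
    have p : 0 ≤ ((1 - y 0)⁻¹) ^ k := by positivity
    have q : (y 0) ^ 2 ≤ 1 := by nlinarith [hy.1, hy.2]
    rw [abs_of_nonneg (by positivity), one_mul]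
    linarith
  have iy : Integrable (fun y : E (n + 1) => y 0) σ := by
    refine S03_int ik my 1 ?_
    filter_upwards [hae] with y hy
    have hv : 0 < (1 - y 0)⁻¹ := inv_pos.2 hy.1
    have p : 0 ≤ ((1 - y 0)⁻¹) ^ k := by positivity
    rw [one_mul, abs_le]
    constructor <;> linarith [hy.1, hy.2]
  have iD : Integrable (fun y : E (n + 1) => (y 0) ^ 2 * (1 + ((1 - y 0)⁻¹) ^ k)) σ := by
    have := ip0.add ip
    refine this.congr (Eventually.of_forall fun y => ?_)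
    simp only [Pi.add_apply]
    ring
  have hD : ∫ y, (y 0) ^ 2 * (1 + ((1 - y 0)⁻¹) ^ k) ∂σ ≤ (C0 + C1) / ((n : ℝ) + 1) := by
    have e : ∫ y, (y 0) ^ 2 * (1 + ((1 - y 0)⁻¹) ^ k) ∂σ =
        ∫ y, (y 0) ^ 2 ∂σ + ∫ y, (y 0) ^ 2 * ((1 - y 0)⁻¹) ^ k ∂σ := by
      rw [← integral_add ip0 ip]
      refine integral_congr_ae (Eventually.of_forall fun y => ?_)
      simp only []
      ring
    rw [e, add_div]
    simp only [pow_zero, mul_one] at m0
    linarith
  have hpt' : ∀ᵐ y ∂σ,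
      |(1 - y 0) ^ (-s / 2) - 1 - s / 2 * y 0| ≤ C * ((y 0) ^ 2 * (1 + ((1 - y 0)⁻¹) ^ k)) ∧
      |(1 - y 0) ^ (-s / 2) * Real.log (1 - y 0) + y 0| ≤ C * ((y 0) ^ 2 * (1 + ((1 - y 0)⁻¹) ^ k)) ∧
      ((1 - y 0) ^ (-s / 2) - 1) ^ 2 ≤ C * s ^ 2 * ((y 0) ^ 2 * (1 + ((1 - y 0)⁻¹) ^ k)) := by
    filter_upwards [hae] with y hy
    have h := hpt s (1 - y 0) hs hsM hy.1 hy.2
    rw [sub_sub_cancel] at h
    exact h
  have mW : Measurable fun y : E (n + 1) => (1 - y 0) ^ (-s / 2) := mu.pow_const _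
  have mL : Measurable fun y : E (n + 1) => (1 - y 0) ^ (-s / 2) * Real.log (1 - y 0) := mW.mul mu.log
  have i1 : Integrable (fun y : E (n + 1) => (1 - y 0) ^ (-s / 2) - 1 - s / 2 * y 0) σ := by
    refine (iD.const_mul C).mono' ((mW.sub_const 1).sub (my.const_mul _)).aestronglyMeasurable ?_
    filter_upwards [hpt'] with y hy
    exact hy.1
  have i2 : Integrable (fun y : E (n + 1) => (1 - y 0) ^ (-s / 2) * Real.log (1 - y 0) + y 0) σ := by
    refine (iD.const_mul C).mono' (mL.add my).aestronglyMeasurable ?_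
    filter_upwards [hpt'] with y hy
    exact hy.2.1
  have i3 : Integrable (fun y : E (n + 1) => ((1 - y 0) ^ (-s / 2) - 1) ^ 2) σ := by
    refine (iD.const_mul (C * s ^ 2)).mono' ((mW.sub_const 1).pow_const 2).aestronglyMeasurable ?_
    filter_upwards [hpt'] with y hy
    rw [Real.norm_eq_abs, abs_of_nonneg (sq_nonneg _)]
    exact hy.2.2
  have iW : Integrable (fun y : E (n + 1) => (1 - y 0) ^ (-s / 2)) σ := by
    have := (i1.add (iy.const_mul (s / 2))).add (integrable_const (1 : ℝ))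
    refine this.congr (Eventually.of_forall fun y => ?_)
    simp only [Pi.add_apply]
    ring
  have iL : Integrable (fun y : E (n + 1) => (1 - y 0) ^ (-s / 2) * Real.log (1 - y 0)) σ := by
    have := i2.sub iy
    refine this.congr (Eventually.of_forall fun y => ?_)
    simp only [Pi.sub_apply]
    ring
  have hy0 := S03_mean hn1 hσ
  have e1 : ∫ y, ((1 - y 0) ^ (-s / 2) - 1 - s / 2 * y 0) ∂σ = ∫ y, (1 - y 0) ^ (-s / 2) ∂σ - 1 := by
    have iA : Integrable (fun y : E (n + 1) => (1 - y 0) ^ (-s / 2) - 1) σ := iW.sub (integrable_const _)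
    rw [integral_sub iA (iy.const_mul _), integral_sub iW (integrable_const _), integral_const_mul, hy0]
    simp
  have e2 : ∫ y, ((1 - y 0) ^ (-s / 2) * Real.log (1 - y 0) + y 0) ∂σ =
      ∫ y, (1 - y 0) ^ (-s / 2) * Real.log (1 - y 0) ∂σ := by
    rw [integral_add iL iy, hy0, add_zero]
  refine ⟨iW, iL, i3, ?_, ?_, ?_, ?_⟩
  · have h : ∫ y, (1 + s / 2 * y 0) ∂σ ≤ ∫ y, (1 - y 0) ^ (-s / 2) ∂σ := by
      refine integral_mono_ae ((integrable_const _).add (iy.const_mul _)) iW ?_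
      filter_upwards [hae] with y hy
      have := S03_ge hs.le hy.1
      rw [sub_sub_cancel] at this
      exact this
    rw [integral_add (integrable_const _) (iy.const_mul _), integral_const_mul, hy0] at h
    simpa using h
  · rw [← e1]
    refine (abs_integral_le_integral_abs).trans ?_
    refine (integral_mono_ae i1.abs (iD.const_mul C) (hpt'.mono fun y hy => hy.1)).trans ?_
    rw [integral_const_mul, mul_div_assoc]
    exact mul_le_mul_of_nonneg_left hD hC.le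
  · rw [← e2]
    refine (abs_integral_le_integral_abs).trans ?_
    refine (integral_mono_ae i2.abs (iD.const_mul C) (hpt'.mono fun y hy => hy.2.1)).trans ?_
    rw [integral_const_mul, mul_div_assoc]
    exact mul_le_mul_of_nonneg_left hD hC.le
  · refine (integral_mono_ae i3 (iD.const_mul (C * s ^ 2)) (hpt'.mono fun y hy => hy.2.2)).trans ?_
    rw [integral_const_mul]
    have := mul_le_mul_of_nonneg_left hD (by positivity : 0 ≤ C * s ^ 2)
    refine this.trans (le_of_eq ?_)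
    ring

theorem par_sphere (M : ℝ) (hM : 1 ≤ M) : ∃ C : ℝ, 0 < C ∧ ∃ n1 : ℕ, ∀ n ≥ n1, ∀ σ : Measure (E (n + 1)), SphM σ →
    ∀ s : ℝ, 0 < s → s ≤ M → Par M (C / ((n : ℝ) + 1)) s (eS σ s) (lS σ s) := by
  obtain ⟨C, hC, n1, h⟩ := S03_main M hM
  obtain ⟨n2, hn2⟩ := exists_nat_ge (10 * C)
  refine ⟨C, hC, n1 + n2, fun n hn σ hσ s hs hsM => ?_⟩
  obtain ⟨hn1, h'⟩ := h n (by omega) σ hσ
  obtain ⟨iW, iL, i3, X1, hX, hL, hG⟩ := h' s hs hsM
  have hP : IsProbabilityMeasure σ := ⟨hσ.1⟩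
  have hn0 : (0 : ℝ) < (n : ℝ) + 1 := by positivity
  set X : ℝ := ∫ y, (1 - y 0) ^ (-s / 2) ∂σ with hXd
  set L : ℝ := ∫ y, (1 - y 0) ^ (-s / 2) * Real.log (1 - y 0) ∂σ with hLd
  set G : ℝ := ∫ y, ((1 - y 0) ^ (-s / 2) - 1) ^ 2 ∂σ with hGd
  have hX0 : 0 < X := by linarith
  have hG0 : 0 ≤ G := integral_nonneg fun y => sq_nonneg _
  have p2 : (0 : ℝ) < 2 ^ (-s / 2) := by positivity
  have he : eS σ s = 2 ^ (-s / 2) * X := S03_eS hn1 hσ s
  have hl : lS σ s = -(Real.log 2 / 2) - L / (2 * X) := by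
    unfold lS
    rw [S03_eL hn1 hσ s iW iL, he, ← hXd, ← hLd]
    have e5 : 2 * (2 ^ (-s / 2) * X) = 2 ^ (-s / 2) * (2 * X) := by ring
    rw [e5, neg_div, mul_div_mul_left _ _ p2.ne', add_div, mul_comm (Real.log 2) X, mul_comm 2 X,
      mul_div_mul_left _ _ hX0.ne', mul_comm X 2]
    ring
  have hθ0 : 0 < C / ((n : ℝ) + 1) := by positivity
  refine ⟨hs, hsM, hθ0, ?_, ?_, ?_, ?_⟩
  · rw [div_le_div_iff₀ hn0 (by norm_num)]
    have : (n2 : ℝ) ≤ n := by exact_mod_cast (by omega : n2 ≤ n)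
    linarith
  · rw [he, ← mul_assoc, ← Real.rpow_add (by norm_num)]
    have e : s / 2 + -s / 2 = 0 := by ring
    rw [e, Real.rpow_zero, one_mul]
    exact hX
  · rw [hl]
    have e : -(Real.log 2 / 2) - L / (2 * X) + Real.log 2 / 2 = -(L / (2 * X)) := by ring
    rw [e, abs_neg, abs_div, abs_of_pos (by positivity : 0 < 2 * X)]
    refine le_trans ?_ hL
    exact div_le_self (abs_nonneg _) (by linarith)
  · -- Jensen
    have e1 : Real.exp (s * lS σ s) / eS σ s = Real.exp (-(s / 2) * L / X) / X := by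
      rw [he, hl]
      have e2 : s * (-(Real.log 2 / 2) - L / (2 * X)) = Real.log 2 * (-s / 2) + -(s / 2) * L / X := by
        field_simp
        ring
      rw [e2, Real.exp_add, ← Real.rpow_def_of_pos (by norm_num : (0:ℝ) < 2)]
      rw [mul_div_mul_left _ _ p2.ne']
    rw [e1]
    set Q : ℝ := G + 2 * X - 1 with hQd
    have hQ : ∫ y, ((1 - y 0) ^ (-s / 2)) ^ 2 ∂σ = Q := by
      have e3 : ∀ y : E (n + 1), ((1 - y 0) ^ (-s / 2)) ^ 2 =
          ((1 - y 0) ^ (-s / 2) - 1) ^ 2 + (2 * (1 - y 0) ^ (-s / 2) - 1) := fun y => by ring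
      have iB : Integrable (fun y : E (n + 1) => 2 * (1 - y 0) ^ (-s / 2) - 1) σ :=
        (iW.const_mul 2).sub (integrable_const _)
      rw [integral_congr_ae (Eventually.of_forall e3), integral_add i3 iB,
        integral_sub (iW.const_mul 2) (integrable_const _), integral_const_mul]
      simp only [integral_const, probReal_univ, smul_eq_mul, mul_one]
      rw [hQd]
      ring
    have iQ : Integrable (fun y : E (n + 1) => ((1 - y 0) ^ (-s / 2)) ^ 2) σ := by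
      have := i3.add ((iW.const_mul 2).sub (integrable_const (1 : ℝ)))
      refine this.congr (Eventually.of_forall fun y => ?_)
      simp only [Pi.add_apply, Pi.sub_apply]
      ring
    have hQ0 : 0 < Q := by
      rw [hQd]
      linarith
    have hm : 0 < Q / X := by positivity
    have key : ∫ y, -(s / 2) * ((1 - y 0) ^ (-s / 2) * Real.log (1 - y 0)) ∂σ ≤
        ∫ y, (((1 - y 0) ^ (-s / 2)) ^ 2 * (Q / X)⁻¹ + (Real.log (Q / X) - 1) * (1 - y 0) ^ (-s / 2)) ∂σ := by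
      refine integral_mono_ae (iL.const_mul _) ((iQ.mul_const _).add (iW.const_mul _)) ?_
      filter_upwards [S03_ae hn1 hσ] with y hy
      set W : ℝ := (1 - y 0) ^ (-s / 2) with hWd
      have hW : 0 < W := Real.rpow_pos_of_pos hy.1 _
      have hlW : Real.log W = -s / 2 * Real.log (1 - y 0) := by
        rw [hWd, Real.log_rpow hy.1]
      have h1 := Real.log_le_sub_one_of_pos (div_pos hW hm)
      rw [Real.log_div hW.ne' hm.ne', hlW] at h1
      have h2 := mul_le_mul_of_nonneg_left h1 hW.le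
      rw [div_eq_mul_inv W] at h2
      linarith
    rw [integral_const_mul, integral_add (iQ.mul_const _) (iW.const_mul _), integral_mul_const, hQ,
      integral_const_mul] at key
    have key2 : -(s / 2) * L / X ≤ Real.log (Q / X) := by
      rw [div_le_iff₀ hX0]
      have e4 : Q * (Q / X)⁻¹ = X := by field_simp
      rw [e4] at key
      linarith
    have key3 : Real.exp (-(s / 2) * L / X) ≤ Q / X := by
      calc Real.exp (-(s / 2) * L / X) ≤ Real.exp (Real.log (Q / X)) := Real.exp_le_exp.2 key2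
        _ = Q / X := Real.exp_log hm
    calc Real.exp (-(s / 2) * L / X) / X ≤ Q / X / X := div_le_div_of_nonneg_right key3 hX0.le
      _ ≤ 1 + G := by
        rw [div_div, div_le_iff₀ (by positivity)]
        have hXX : 1 ≤ X * X := by nlinarith
        rw [hQd]
        nlinarith [sq_nonneg (X - 1), mul_nonneg hG0 (by linarith : 0 ≤ X * X - 1)]
      _ ≤ 1 + C / ((n : ℝ) + 1) * s ^ 2 := by linarith

private theorem S03_iZ (hn : 1 ≤ n) {σ : Measure (E (n + 1))} (hσ : SphM σ) (s : ℝ)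
    (h1 : Integrable (fun y => (1 - y 0) ^ (-s / 2)) σ) :
    Integrable (fun y : E (n + 1) => (2 - 2 * y 0) ^ (-s / 2)) σ := by
  refine (h1.const_mul (2 ^ (-s / 2))).congr ?_
  filter_upwards [S03_ae hn hσ] with y hy
  rw [← Real.mul_rpow (by norm_num) hy.1.le]
  congr 1
  ring

private theorem S03_iZL (hn : 1 ≤ n) {σ : Measure (E (n + 1))} (hσ : SphM σ) (s : ℝ)
    (h1 : Integrable (fun y => (1 - y 0) ^ (-s / 2)) σ)
    (h2 : Integrable (fun y => (1 - y 0) ^ (-s / 2) * Real.log (1 - y 0)) σ) :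
    Integrable (fun y : E (n + 1) => (2 - 2 * y 0) ^ (-s / 2) * Real.log (2 - 2 * y 0)) σ := by
  refine (((h1.const_mul (Real.log 2)).add h2).const_mul (2 ^ (-s / 2))).congr ?_
  filter_upwards [S03_ae hn hσ] with y hy
  have e : (2 - 2 * y 0 : ℝ) = 2 * (1 - y 0) := by ring
  rw [e, Real.mul_rpow (by norm_num) hy.1.le, Real.log_mul (by norm_num) hy.1.ne']
  simp only [Pi.add_apply]
  ring

theorem stat_sphere (M : ℝ) (hM : 1 ≤ M) : ∃ n1 : ℕ, ∀ n ≥ n1, ∀ σ : Measure (E (n + 1)), SphM σ →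
    ∀ s : ℝ, 0 < s → s ≤ M →
      (Integrable (fun y => kc s (eS σ s) (lS σ s) (2 - 2 * y 0)) σ ∧
        ∫ y, kc s (eS σ s) (lS σ s) (2 - 2 * y 0) ∂σ = 0) ∧
      (Integrable (fun y => (1 - y 0) * kc1 s (eS σ s) (lS σ s) (2 - 2 * y 0)) σ ∧
        ∫ y, (1 - y 0) * kc1 s (eS σ s) (lS σ s) (2 - 2 * y 0) ∂σ = 0) := by
  obtain ⟨C, hC, n1, h⟩ := S03_main M hM
  refine ⟨n1, fun n hn σ hσ s hs hsM => ?_⟩
  obtain ⟨hn1, h'⟩ := h n hn σ hσ
  obtain ⟨iW, iL, i3, X1, hX, hL, hG⟩ := h' s hs hsM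
  have hP : IsProbabilityMeasure σ := ⟨hσ.1⟩
  have iZ := S03_iZ hn1 hσ s iW
  have iZL := S03_iZL hn1 hσ s iW iL
  have he : 0 < eS σ s := by
    rw [S03_eS hn1 hσ s]
    have : (0 : ℝ) < 2 ^ (-s / 2) := by positivity
    have : 0 < ∫ y, (1 - y 0) ^ (-s / 2) ∂σ := by linarith
    positivity
  set N1 : ℝ := ∫ y, (2 - 2 * y 0) ^ (-s / 2) * Real.log (2 - 2 * y 0) ∂σ with hN1
  set e : ℝ := eS σ s with hed
  set l : ℝ := lS σ s with hld
  have hl : N1 = -2 * e * l := by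
    rw [hld]
    unfold lS
    rw [← hN1, ← hed]
    field_simp
  have hN0 : ∫ y, (2 - 2 * y 0) ^ (-s / 2) ∂σ = e := rfl
  refine ⟨?_, ?_⟩
  · have e1 : ∀ y : E (n + 1), kc s e l (2 - 2 * y 0) = 1 / s ^ 2 -
        ((1 + s * l) / (e * s ^ 2) * (2 - 2 * y 0) ^ (-s / 2) +
          1 / (2 * e * s) * ((2 - 2 * y 0) ^ (-s / 2) * Real.log (2 - 2 * y 0))) := by
      intro y
      unfold kc
      field_simp
      ring
    have iB : Integrable (fun y : E (n + 1) => (1 + s * l) / (e * s ^ 2) * (2 - 2 * y 0) ^ (-s / 2) +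
          1 / (2 * e * s) * ((2 - 2 * y 0) ^ (-s / 2) * Real.log (2 - 2 * y 0))) σ :=
      (iZ.const_mul ((1 + s * l) / (e * s ^ 2))).add (iZL.const_mul (1 / (2 * e * s)))
    have iA : Integrable (fun y : E (n + 1) => 1 / s ^ 2 -
        ((1 + s * l) / (e * s ^ 2) * (2 - 2 * y 0) ^ (-s / 2) +
          1 / (2 * e * s) * ((2 - 2 * y 0) ^ (-s / 2) * Real.log (2 - 2 * y 0)))) σ :=
      (integrable_const _).sub iB
    refine ⟨iA.congr (Eventually.of_forall fun y => (e1 y).symm), ?_⟩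
    rw [integral_congr_ae (Eventually.of_forall e1), integral_sub (integrable_const _) iB,
      integral_add (iZ.const_mul _) (iZL.const_mul _), integral_const_mul, integral_const_mul, ← hN1, hN0, hl]
    simp only [integral_const, probReal_univ, smul_eq_mul, one_mul]
    field_simp
    ring
  · have e2 : ∀ᵐ y ∂σ, 1 / (4 * e) * (1 / 2 * ((2 - 2 * y 0) ^ (-s / 2) * Real.log (2 - 2 * y 0)) +
        l * (2 - 2 * y 0) ^ (-s / 2)) = (1 - y 0) * kc1 s e l (2 - 2 * y 0) := by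
      filter_upwards [S03_ae hn1 hσ] with y hy
      have hZ : (0 : ℝ) < 2 - 2 * y 0 := by linarith [hy.1]
      unfold kc1
      rw [Real.rpow_sub_one hZ.ne']
      have e3 : (1 - y 0) = (2 - 2 * y 0) / 2 := by ring
      rw [e3]
      generalize (2 - 2 * y 0 : ℝ) ^ (-s / 2) = A
      generalize Real.log (2 - 2 * y 0 : ℝ) = lg
      generalize (2 - 2 * y 0 : ℝ) = Z at hZ
      have hZ' := hZ.ne'
      field_simp
      ring
    have iB := (iZL.const_mul (1 / 2)).add (iZ.const_mul l)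
    refine ⟨(iB.const_mul (1 / (4 * e))).congr e2, ?_⟩
    rw [← integral_congr_ae e2, integral_const_mul, integral_add (iZL.const_mul _) (iZ.const_mul _),
      integral_const_mul, integral_const_mul, ← hN1, hN0, hl]
    ring

private theorem S03_dom {M : ℝ} (hM : 1 ≤ M) {K : ℕ} (hK : M + 1 ≤ K) {s u : ℝ} (hs : |s| ≤ M + 1) (hu : 0 < u)
    (hu2 : u ≤ 2) :
    |(2 * u) ^ (-s / 2) * Real.log (2 * u)| ≤ (4 ^ K * 7) * (1 + (u⁻¹) ^ (K + 1)) ∧
    |(2 * u) ^ (-s / 2)| ≤ (4 ^ K * 7) * (1 + (u⁻¹) ^ (K + 1)) := by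
  have hv : 0 < u⁻¹ := inv_pos.2 hu
  set v : ℝ := u⁻¹ with hvd
  have hr : |-s / 2| ≤ (K : ℝ) := by
    rw [abs_div, abs_neg, abs_of_pos (by norm_num : (0:ℝ) < 2)]
    linarith [abs_nonneg s]
  have h1 := S03_rpow hu hu2 hr
  have h2 : (2 : ℝ) ^ (-s / 2) ≤ 2 ^ K := by
    rw [← Real.rpow_natCast 2 K]
    exact Real.rpow_le_rpow_of_exponent_le (by norm_num) (abs_le.1 hr).2
  have h3 : (2 * u) ^ (-s / 2) ≤ 4 ^ K * (1 + v ^ K) := by
    rw [Real.mul_rpow (by norm_num) hu.le]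
    have e : (4 : ℝ) ^ K = 2 ^ K * 2 ^ K := by rw [← mul_pow]; norm_num
    have p : (1 : ℝ) ≤ 2 ^ K := one_le_pow₀ (by norm_num)
    have q : 0 ≤ v ^ K := by positivity
    calc (2 : ℝ) ^ (-s / 2) * u ^ (-s / 2) ≤ 2 ^ K * (2 ^ K + v ^ K) :=
          mul_le_mul h2 h1 (by positivity) (by positivity)
      _ ≤ 4 ^ K * (1 + v ^ K) := by
          rw [e]
          nlinarith [mul_nonneg (by linarith : (0:ℝ) ≤ 2 ^ K - 1) q,
            mul_nonneg (by linarith : (0:ℝ) ≤ 2 ^ K) (mul_nonneg (by linarith : (0:ℝ) ≤ 2 ^ K - 1) q)]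
  have hlog : |Real.log (2 * u)| ≤ 2 + v := by
    rw [Real.log_mul (by norm_num) hu.ne']
    refine (abs_add_le _ _).trans ?_
    have l2 : |Real.log 2| ≤ 1 := by
      rw [abs_of_nonneg (Real.log_nonneg (by norm_num))]
      linarith [Real.log_two_lt_d9]
    have l3 := S03_abslog hu
    have l4 : |1 - u| ≤ 1 := by
      rw [abs_le]
      constructor <;> linarith
    have l5 : |1 - u| * (1 + u⁻¹) ≤ 1 * (1 + u⁻¹) := mul_le_mul_of_nonneg_right l4 (by positivity)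
    linarith
  have hp : 0 ≤ (2 * u) ^ (-s / 2) := by positivity
  have b1 := S03_pow hv (j := 1) (k := K + 1) (by omega)
  have b2 := S03_pow hv (j := K) (k := K + 1) (by omega)
  rw [pow_one] at b1
  have q : 0 ≤ v ^ (K + 1) := by positivity
  have p4 : (0 : ℝ) < 4 ^ K := by positivity
  have poly : (1 + v ^ K) * (2 + v) ≤ 7 * (1 + v ^ (K + 1)) := by
    have e : (1 + v ^ K) * (2 + v) = 2 + v + 2 * v ^ K + v ^ (K + 1) := by
      rw [pow_succ]
      ring
    rw [e]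
    linarith
  constructor
  · rw [abs_mul, abs_of_nonneg hp]
    calc (2 * u) ^ (-s / 2) * |Real.log (2 * u)| ≤ (4 ^ K * (1 + v ^ K)) * (2 + v) :=
          mul_le_mul h3 hlog (abs_nonneg _) (by positivity)
      _ = 4 ^ K * ((1 + v ^ K) * (2 + v)) := by ring
      _ ≤ 4 ^ K * (7 * (1 + v ^ (K + 1))) := mul_le_mul_of_nonneg_left poly p4.le
      _ = _ := by ring
  · rw [abs_of_nonneg hp]
    refine h3.trans ?_
    have : 1 + v ^ K ≤ 7 * (1 + v ^ (K + 1)) := by linarith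
    calc (4 : ℝ) ^ K * (1 + v ^ K) ≤ 4 ^ K * (7 * (1 + v ^ (K + 1))) := mul_le_mul_of_nonneg_left this p4.le
      _ = _ := by ring

theorem eS_deriv (M : ℝ) (hM : 1 ≤ M) : ∃ n1 : ℕ, ∀ n ≥ n1, ∀ σ : Measure (E (n + 1)), SphM σ →
    eS σ 0 = 1 ∧ (∀ s : ℝ, 0 ≤ s → s ≤ M → 0 < eS σ s) ∧
    (∀ s : ℝ, 0 ≤ s → s ≤ M → HasDerivAt (eS σ) (lS σ s * eS σ s) s) ∧
    ContinuousOn (lS σ) (Icc 0 M) := by
  obtain ⟨C, hC, n0, h⟩ := S03_main M hM
  obtain ⟨K, hK⟩ := exists_nat_ge (M + 1)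
  obtain ⟨C1, hC1, n1, h1⟩ := neg_mom (K + 1)
  refine ⟨n0 + n1, fun n hn σ hσ => ?_⟩
  obtain ⟨hn1, h'⟩ := h n (by omega) σ hσ
  obtain ⟨ik, -, -, -⟩ := h1 n (by omega) σ hσ
  have hP : IsProbabilityMeasure σ := ⟨hσ.1⟩
  have hae := S03_ae hn1 hσ
  have my : Measurable fun y : E (n + 1) => y 0 := (PiLp.continuous_apply 2 (fun _ => ℝ) 0).measurable
  have mZ : Measurable fun y : E (n + 1) => 2 - 2 * y 0 := measurable_const.sub (my.const_mul 2)
  have e0 : eS σ 0 = 1 := by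
    unfold eS
    simp
  have epos : ∀ s : ℝ, 0 ≤ s → s ≤ M → 0 < eS σ s := by
    intro s hs hsM
    rcases hs.eq_or_lt with h2 | h2
    · rw [← h2, e0]
      norm_num
    · rw [S03_eS hn1 hσ s]
      obtain ⟨-, -, -, X1, -⟩ := h' s h2 hsM
      have : (0 : ℝ) < 2 ^ (-s / 2) := by positivity
      have : 0 < ∫ y, (1 - y 0) ^ (-s / 2) ∂σ := by linarith
      positivity
  set B : E (n + 1) → ℝ := fun y => (4 ^ K * 7) * (1 + ((1 - y 0)⁻¹) ^ (K + 1)) with hB
  have iB : Integrable B σ := ((integrable_const (1 : ℝ)).add ik).const_mul _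
  have hdom : ∀ᵐ y ∂σ, ∀ s : ℝ, |s| ≤ M + 1 →
      |(2 - 2 * y 0) ^ (-s / 2) * Real.log (2 - 2 * y 0)| ≤ B y ∧ |(2 - 2 * y 0) ^ (-s / 2)| ≤ B y := by
    filter_upwards [hae] with y hy s hs
    have h3 := S03_dom hM hK hs hy.1 hy.2
    have e : 2 * (1 - y 0) = 2 - 2 * y 0 := by ring
    rw [e] at h3
    exact h3
  have hnb : ∀ s : ℝ, 0 ≤ s → s ≤ M → ∀ᶠ x in 𝓝 s, |x| ≤ M + 1 := by
    intro s hs hsM
    have : Ioo (s - 1) (s + 1) ∈ 𝓝 s := Ioo_mem_nhds (by linarith) (by linarith)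
    filter_upwards [this] with x hx
    rw [abs_le]
    constructor <;> linarith [hx.1, hx.2]
  have hder : ∀ y : E (n + 1), 0 < 2 - 2 * y 0 → ∀ x : ℝ,
      HasDerivAt (fun s : ℝ => (2 - 2 * y 0) ^ (-s / 2))
        (-1 / 2 * ((2 - 2 * y 0) ^ (-x / 2) * Real.log (2 - 2 * y 0))) x := by
    intro y hy x
    have h3 : HasDerivAt (fun s : ℝ => -s / 2) (-1 / 2) x := by
      simpa using ((hasDerivAt_id x).neg.div_const 2)
    refine (h3.const_rpow hy).congr_deriv ?_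
    ring
  have hD : ∀ s : ℝ, 0 ≤ s → s ≤ M → HasDerivAt (eS σ)
      (∫ y, -1 / 2 * ((2 - 2 * y 0) ^ (-s / 2) * Real.log (2 - 2 * y 0)) ∂σ) s := by
    intro s hs hsM
    refine (hasDerivAt_integral_of_dominated_loc_of_deriv_le (μ := σ) (x₀ := s) (s := {x : ℝ | |x| ≤ M + 1})
      (F := fun x y => (2 - 2 * y 0) ^ (-x / 2))
      (F' := fun x y => -1 / 2 * ((2 - 2 * y 0) ^ (-x / 2) * Real.log (2 - 2 * y 0)))
      (bound := B) (hnb s hs hsM) ?_ ?_ ?_ ?_ iB ?_).2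
    · exact Eventually.of_forall fun x => (mZ.pow_const _).aestronglyMeasurable
    · refine iB.mono' (mZ.pow_const _).aestronglyMeasurable ?_
      filter_upwards [hdom] with y hy
      rw [Real.norm_eq_abs]
      refine (hy s ?_).2
      rw [abs_of_nonneg hs]
      linarith
    · exact (((mZ.pow_const _).mul mZ.log).const_mul _).aestronglyMeasurable
    · filter_upwards [hdom] with y hy x hx
      rw [norm_mul, Real.norm_eq_abs, Real.norm_eq_abs]
      have h4 := (hy x hx).1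
      have h5 : |(-1 / 2 : ℝ)| = 1 / 2 := by norm_num
      rw [h5]
      have h6 := abs_nonneg ((2 - 2 * y 0) ^ (-x / 2) * Real.log (2 - 2 * y 0))
      linarith
    · filter_upwards [hae] with y hy x _
      exact hder y (by linarith [hy.1]) x
  refine ⟨e0, epos, fun s hs hsM => ?_, ?_⟩
  · refine (hD s hs hsM).congr_deriv ?_
    have he := epos s hs hsM
    unfold lS
    rw [integral_const_mul]
    field_simp
  · intro s hs
    have c1 : ContinuousAt (fun x : ℝ => ∫ y, (2 - 2 * y 0) ^ (-x / 2) * Real.log (2 - 2 * y 0) ∂σ) s := by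
      refine continuousAt_of_dominated (bound := B) ?_ ?_ iB ?_
      · exact Eventually.of_forall fun x => ((mZ.pow_const _).mul mZ.log).aestronglyMeasurable
      · filter_upwards [hnb s hs.1 hs.2] with x hx
        filter_upwards [hdom] with y hy
        exact (hy x hx).1
      · filter_upwards [hae] with y hy
        exact (hder y (by linarith [hy.1]) s).continuousAt.mul continuousAt_const
    have c2 : ContinuousAt (eS σ) s := (hD s hs.1 hs.2).continuousAt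
    have c3 : ContinuousAt (lS σ) s := by
      have := (c1.neg).div (c2.const_mul 2) (by
        have := epos s hs.1 hs.2
        positivity)
      exact this
    exact c3.continuousWithinAt

end Pool.Agent.Lib.MP_6cd19d_an.SH
end
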