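import Pool.Agent.Lib.MP_6cd19d_an.SH.Defs
import Pool.Agent.Lib.MP_6cd19d_an.SH.S04

/-!
# Tools for S07 and S09

Rotation invariant integrals over the sphere, the kernels `κ_k`, power series of `zS`, `z1S`.
-/

set_option autoImplicit false

open MeasureTheory Set Filter Topology
open scoped ENNReal NNReal

namespace Pool.Agent.Lib.MP_6cd19d_an.SH.T7

open Pool.Agent.Lib.MP_6cd19d_an.ND Pool.Agent.Lib.MP_6cd19d_an.HP

variable {n : ℕ} {σ : Measure (E (n + 1))}

theorem prob (hσ : SphM σ) : IsProbabilityMeasure σ := ⟨hσ.1⟩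

theorem inv (hσ : SphM σ) (T : E (n + 1) ≃ₗᵢ[ℝ] E (n + 1)) (f : E (n + 1) → ℝ) :
    ∫ y, f (T y) ∂σ = ∫ y, f y ∂σ := by
  conv_rhs => rw [← hσ.2.2 T]
  exact (T.toHomeomorph.measurableEmbedding.integral_map f).symm

theorem intC (hσ : SphM σ) {g : E (n + 1) → ℝ} (hg : Continuous g) : Integrable g σ := by
  have := prob hσ
  obtain ⟨C, hC⟩ := (isCompact_sphere (0 : E (n + 1)) 1).exists_bound_of_continuousOn
    hg.continuousOn
  refine Integrable.of_bound hg.aestronglyMeasurable C ?_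
  filter_upwards [sph_norm hσ] with y hy
  exact hC y (by rw [mem_sphere_zero_iff_norm]; exact hy)

theorem cC (j : Fin (n + 1)) : Continuous fun y : E (n + 1) => y j :=
  PiLp.continuous_apply 2 (fun _ => ℝ) j

/-- the first basis vector -/
noncomputable def e0 : E (n + 1) := EuclideanSpace.single 0 1

theorem e0_norm : ‖(e0 : E (n + 1))‖ = 1 := by
  unfold e0
  rw [EuclideanSpace.norm_eq]
  simp [Finset.sum_ite_eq']

theorem e0_inner (y : E (n + 1)) : inner ℝ (e0 : E (n + 1)) y = y 0 := by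
  unfold e0
  rw [EuclideanSpace.inner_single_left]
  simp

theorem inner_e0 (y : E (n + 1)) : inner ℝ y (e0 : E (n + 1)) = y 0 := by
  rw [real_inner_comm, e0_inner]

theorem exT (y : E (n + 1)) : ∃ T : E (n + 1) ≃ₗᵢ[ℝ] E (n + 1), T (‖y‖ • e0) = y := by
  apply A.exists_isometry
  rw [norm_smul, e0_norm, mul_one, norm_norm]

theorem rot0 (hσ : SphM σ) (F : ℝ → ℝ) (y : E (n + 1)) :
    ∫ z, F (inner ℝ z y) ∂σ = ∫ z, F (‖y‖ * z 0) ∂σ := by
  obtain ⟨T, hT⟩ := exT y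
  rw [← inv hσ T]
  refine integral_congr_ae (Eventually.of_forall fun z => ?_)
  show F (inner ℝ (T z) y) = F (‖y‖ * z 0)
  rw [← hT, T.inner_map_map, inner_smul_right, inner_e0, hT]

theorem rot1 (hσ : SphM σ) {F : ℝ → ℝ} (hF : Continuous F) {y : E (n + 1)} (hy : y ≠ 0)
    (x : E (n + 1)) :
    ∫ z, F (inner ℝ z y) * inner ℝ z x ∂σ =
      (∫ z, z 0 * F (‖y‖ * z 0) ∂σ) * (inner ℝ x y / ‖y‖) := by
  obtain ⟨T, hT⟩ := exT y
  set u : E (n + 1) := T.symm x with hu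
  have h1 : ∫ z, F (inner ℝ z y) * inner ℝ z x ∂σ = ∫ z, F (‖y‖ * z 0) * inner ℝ z u ∂σ := by
    rw [← inv hσ T]
    refine integral_congr_ae (Eventually.of_forall fun z => ?_)
    show F (inner ℝ (T z) y) * inner ℝ (T z) x = F (‖y‖ * z 0) * inner ℝ z u
    have e1 : inner ℝ (T z) y = ‖y‖ * z 0 := by
      rw [← hT, T.inner_map_map, inner_smul_right, inner_e0, hT]
    have e2 : inner ℝ (T z) x = inner ℝ z u := by
      rw [hu, ← T.inner_map_map z (T.symm x), T.apply_symm_apply]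
    rw [e1, e2]
  have c0 := cC (n := n) 0
  have i1 : Integrable (fun z : E (n + 1) => F (‖y‖ * z 0) * inner ℝ z u) σ :=
    intC hσ (by fun_prop)
  have i2 : Integrable (fun z : E (n + 1) => z 0 * F (‖y‖ * z 0)) σ := intC hσ (by fun_prop)
  set ρ : E (n + 1) ≃ₗᵢ[ℝ] E (n + 1) := (Submodule.span ℝ {(e0 : E (n + 1))}).reflection with hρ
  have hρz : ∀ z : E (n + 1), ρ z = (2 * z 0) • e0 - z := by
    intro z
    rw [hρ, Submodule.reflection_singleton_apply]
    simp only [RCLike.ofReal_real_eq_id, id_eq, e0_norm, one_pow, div_one, e0_inner]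
    rw [two_smul, ← add_smul, ← two_mul]
  have h2 : ∫ z, F (‖y‖ * z 0) * inner ℝ z u ∂σ =
      2 * u 0 * ∫ z, z 0 * F (‖y‖ * z 0) ∂σ - ∫ z, F (‖y‖ * z 0) * inner ℝ z u ∂σ := by
    conv_lhs => rw [← inv hσ ρ]
    rw [← integral_const_mul, ← integral_sub (i2.const_mul _) i1]
    refine integral_congr_ae (Eventually.of_forall fun z => ?_)
    show F (‖y‖ * (ρ z) 0) * inner ℝ (ρ z) u = _
    have e1 : (ρ z) 0 = z 0 := by
      rw [hρz]
      have : (e0 : E (n + 1)) 0 = 1 := by simp [e0]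
      simp only [PiLp.sub_apply, PiLp.smul_apply, smul_eq_mul, this]
      ring
    rw [e1, hρz, inner_sub_left, inner_smul_left, e0_inner]
    simp only [conj_trivial]
    ring
  have hyn : ‖y‖ ≠ 0 := norm_ne_zero_iff.2 hy
  have h3 : u 0 = inner ℝ x y / ‖y‖ := by
    rw [eq_div_iff hyn, ← e0_inner, hu, ← T.inner_map_map e0 (T.symm x), T.apply_symm_apply]
    conv_rhs => rw [← hT]
    rw [map_smul, inner_smul_right, real_inner_comm x]
    ring
  rw [h1]
  rw [h3] at h2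
  linarith

/-- moments -/
noncomputable def mS (σ : Measure (E (n + 1))) (k : ℕ) : ℝ := ∫ y, (y 0) ^ k ∂σ

theorem mS_zero (hσ : SphM σ) : mS σ 0 = 1 := by
  have := prob hσ
  simp [mS]

theorem mS_one (hσ : SphM σ) : mS σ 1 = 0 := by
  simpa [mS] using sph_m1 hσ

theorem mS_two (hσ : SphM σ) : mS σ 2 = 1 / ((n : ℝ) + 1) := sph_m2 hσ

theorem mS_abs (hσ : SphM σ) (k : ℕ) : |mS σ k| ≤ 1 := by
  have := prob hσ
  unfold mS
  have h := norm_integral_le_of_norm_le_const (μ := σ) (f := fun y : E (n + 1) => (y 0) ^ k)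
    (C := 1) (by
      filter_upwards [sph_abs hσ] with y hy
      rw [Real.norm_eq_abs, abs_pow]
      exact pow_le_one₀ (abs_nonneg _) hy)
  simpa using h

theorem lin0 (hσ : SphM σ) (a : E (n + 1)) : ∫ z, inner ℝ z a ∂σ = 0 := by
  have h := rot0 hσ (fun t => t) a
  rw [h, integral_const_mul]
  have := sph_m1 hσ
  rw [this, mul_zero]

theorem quad (hσ : SphM σ) (a b : E (n + 1)) :
    ∫ z, inner ℝ z a * inner ℝ z b ∂σ = inner ℝ a b / ((n : ℝ) + 1) := by
  by_cases ha : a = 0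
  · subst ha
    simp
  · have h := rot1 hσ (F := fun t => t) continuous_id ha b
    rw [h]
    have h2 : ∫ z : E (n + 1), z 0 * (‖a‖ * z 0) ∂σ = ‖a‖ * (1 / ((n : ℝ) + 1)) := by
      rw [← sph_m2 hσ, ← integral_const_mul]
      refine integral_congr_ae (Eventually.of_forall fun z => ?_)
      show z 0 * (‖a‖ * z 0) = ‖a‖ * (z 0) ^ 2
      ring
    rw [h2, real_inner_comm b a]
    have : ‖a‖ ≠ 0 := norm_ne_zero_iff.2 ha
    field_simp

theorem inner_sum (x y : E (n + 1)) : inner ℝ x y = ∑ i, x i * y i := by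
  rw [PiLp.inner_apply]
  refine Finset.sum_congr rfl fun i _ => ?_
  simp [mul_comm]

/-- weight of the projection to the degrees `0` and `1` -/
noncomputable def wt (x z : E (n + 1)) : ℝ := 1 + ((n : ℝ) + 1) * (inner ℝ z x / ‖x‖)

/-- the projection to the degrees `0` and `1` -/
noncomputable def AA (σ : Measure (E (n + 1))) (g : E (n + 1) → ℝ) (x : E (n + 1)) : ℝ :=
  ∫ z, g (‖x‖ • z) * wt x z ∂σ

/-- monomials -/
noncomputable def mon (k : ℕ) (I : Fin k → Fin (n + 1)) (x : E (n + 1)) : ℝ := ∏ j, x (I j)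

/-- the projected kernel -/
noncomputable def PP (σ : Measure (E (n + 1))) (k : ℕ) (x y : E (n + 1)) : ℝ :=
  (‖x‖ * ‖y‖) ^ k * (mS σ k + ((n : ℝ) + 1) * mS σ (k + 1) * (inner ℝ x y / (‖x‖ * ‖y‖)))

/-- the part of degree at least two of `⟨x,y⟩^k` -/
noncomputable def kap (σ : Measure (E (n + 1))) (k : ℕ) (x y : E (n + 1)) : ℝ :=
  (inner ℝ x y) ^ k - PP σ k x y

theorem mon_sum (k : ℕ) (x y : E (n + 1)) :
    ∑ I : Fin k → Fin (n + 1), mon k I x * mon k I y = (inner ℝ x y) ^ k := by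
  rw [inner_sum, Fintype.sum_pow]
  refine Finset.sum_congr rfl fun I _ => ?_
  unfold mon
  rw [Finset.prod_mul_distrib]

theorem mon_cont (k : ℕ) (I : Fin k → Fin (n + 1)) : Continuous (mon k I) := by
  unfold mon
  exact continuous_finsetProd _ fun j _ => cC (I j)

theorem mon_abs (k : ℕ) (I : Fin k → Fin (n + 1)) (x : E (n + 1)) : |mon k I x| ≤ ‖x‖ ^ k := by
  unfold mon
  rw [Finset.abs_prod]
  calc ∏ j, |x (I j)| ≤ ∏ _j : Fin k, ‖x‖ := by
        refine Finset.prod_le_prod (fun _ _ => abs_nonneg _) fun j _ => ?_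
        have := PiLp.norm_apply_le x (I j)
        rwa [Real.norm_eq_abs] at this
    _ = ‖x‖ ^ k := by simp

theorem wt_cont (x : E (n + 1)) : Continuous (wt x) := by
  unfold wt
  fun_prop

theorem wt_abs (x z : E (n + 1)) (hz : ‖z‖ = 1) : |wt x z| ≤ (n : ℝ) + 2 := by
  have h1 : |inner ℝ z x / ‖x‖| ≤ 1 := by
    have h := abs_real_inner_le_norm z x
    rw [hz, one_mul] at h
    rw [abs_div, abs_norm]
    exact div_le_one_of_le₀ h (norm_nonneg _)
  unfold wt
  have hn : (0 : ℝ) ≤ (n : ℝ) + 1 := by positivity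
  calc |1 + ((n : ℝ) + 1) * (inner ℝ z x / ‖x‖)| ≤ |(1 : ℝ)| + |((n : ℝ) + 1) * (inner ℝ z x / ‖x‖)| :=
        abs_add_le _ _
    _ ≤ 1 + ((n : ℝ) + 1) * 1 := by
        rw [abs_one, abs_mul, abs_of_nonneg hn]
        exact add_le_add le_rfl (mul_le_mul_of_nonneg_left h1 hn)
    _ = (n : ℝ) + 2 := by ring

theorem mon_AA (hσ : SphM σ) (k : ℕ) {x y : E (n + 1)} (hx : x ≠ 0) (hy : y ≠ 0) :
    ∑ I : Fin k → Fin (n + 1), mon k I x * AA σ (mon k I) y = PP σ k x y := by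
  have hxn : ‖x‖ ≠ 0 := norm_ne_zero_iff.2 hx
  have hyn : ‖y‖ ≠ 0 := norm_ne_zero_iff.2 hy
  have h1 : ∑ I : Fin k → Fin (n + 1), mon k I x * AA σ (mon k I) y =
      ∫ z, ∑ I : Fin k → Fin (n + 1), mon k I x * (mon k I (‖y‖ • z) * wt y z) ∂σ := by
    rw [integral_finsetSum]
    · refine Finset.sum_congr rfl fun I _ => ?_
      unfold AA
      rw [← integral_const_mul]
    · intro I _
      refine intC hσ ?_
      have c1 : Continuous fun z : E (n + 1) => mon k I (‖y‖ • z) :=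
        (mon_cont k I).comp (by fun_prop)
      exact continuous_const.mul (c1.mul (wt_cont y))
  have h2 : ∀ z : E (n + 1), ∑ I : Fin k → Fin (n + 1), mon k I x * (mon k I (‖y‖ • z) * wt y z) =
      ‖y‖ ^ k * ((inner ℝ z x) ^ k) +
        (‖y‖ ^ k * (((n : ℝ) + 1) / ‖y‖)) * ((inner ℝ z x) ^ k * inner ℝ z y) := by
    intro z
    have e1 : ∑ I : Fin k → Fin (n + 1), mon k I x * (mon k I (‖y‖ • z) * wt y z) =
        (∑ I : Fin k → Fin (n + 1), mon k I x * mon k I (‖y‖ • z)) * wt y z := by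
      rw [Finset.sum_mul]
      exact Finset.sum_congr rfl fun I _ => by ring
    rw [e1, mon_sum, inner_smul_right, mul_pow, real_inner_comm]
    unfold wt
    ring
  have i1 : Integrable (fun z : E (n + 1) => ‖y‖ ^ k * ((inner ℝ z x) ^ k)) σ :=
    intC hσ (by fun_prop)
  have i2 : Integrable (fun z : E (n + 1) =>
      (‖y‖ ^ k * (((n : ℝ) + 1) / ‖y‖)) * ((inner ℝ z x) ^ k * inner ℝ z y)) σ :=
    intC hσ (by fun_prop)
  rw [h1, integral_congr_ae (Eventually.of_forall h2), integral_add i1 i2, integral_const_mul,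
    integral_const_mul, rot0 hσ (fun t => t ^ k) x,
    rot1 hσ (F := fun t => t ^ k) (by fun_prop) hx y]
  have h3 : ∫ z : E (n + 1), (‖x‖ * z 0) ^ k ∂σ = ‖x‖ ^ k * mS σ k := by
    unfold mS
    rw [← integral_const_mul]
    refine integral_congr_ae (Eventually.of_forall fun z => ?_)
    show (‖x‖ * z 0) ^ k = ‖x‖ ^ k * (z 0) ^ k
    rw [mul_pow]
  have h4 : ∫ z : E (n + 1), z 0 * (‖x‖ * z 0) ^ k ∂σ = ‖x‖ ^ k * mS σ (k + 1) := by
    unfold mS
    rw [← integral_const_mul]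
    refine integral_congr_ae (Eventually.of_forall fun z => ?_)
    show z 0 * (‖x‖ * z 0) ^ k = ‖x‖ ^ k * (z 0) ^ (k + 1)
    rw [mul_pow, pow_succ]
    ring
  rw [h3, h4, real_inner_comm x y]
  unfold PP
  field_simp
  rw [mul_pow]
  ring

theorem AA_AA (hσ : SphM σ) (k : ℕ) {x y : E (n + 1)} (hx : x ≠ 0) (hy : y ≠ 0) :
    ∑ I : Fin k → Fin (n + 1), AA σ (mon k I) x * AA σ (mon k I) y = PP σ k x y := by
  have hp := prob hσ
  have hxn : ‖x‖ ≠ 0 := norm_ne_zero_iff.2 hx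
  have hyn : ‖y‖ ≠ 0 := norm_ne_zero_iff.2 hy
  have hn : (n : ℝ) + 1 ≠ 0 := by positivity
  have h1 : ∑ I : Fin k → Fin (n + 1), AA σ (mon k I) x * AA σ (mon k I) y =
      ∫ z, ∑ I : Fin k → Fin (n + 1), (mon k I (‖x‖ • z) * wt x z) * AA σ (mon k I) y ∂σ := by
    rw [integral_finsetSum]
    · refine Finset.sum_congr rfl fun I _ => ?_
      rw [integral_mul_const]
      rfl
    · intro I _
      refine intC hσ ?_
      have c1 : Continuous fun z : E (n + 1) => mon k I (‖x‖ • z) :=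
        (mon_cont k I).comp (by fun_prop)
      exact (c1.mul (wt_cont x)).mul continuous_const
  set a : ℝ := (‖x‖ * ‖y‖) ^ k * mS σ k with ha
  set b : ℝ := (‖x‖ * ‖y‖) ^ k * (((n : ℝ) + 1) * mS σ (k + 1)) / ‖y‖ with hb
  set c : ℝ := ((n : ℝ) + 1) / ‖x‖ with hc
  clear_value a b c
  have h2 : ∀ᵐ z ∂σ, ∑ I : Fin k → Fin (n + 1), (mon k I (‖x‖ • z) * wt x z) * AA σ (mon k I) y =
      a + b * inner ℝ z y + (a * c) * inner ℝ z x + (b * c) * (inner ℝ z y * inner ℝ z x) := by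
    filter_upwards [sph_norm hσ] with z hz
    have hz0 : z ≠ 0 := by
      rw [← norm_ne_zero_iff, hz]
      exact one_ne_zero
    have e1 : ∑ I : Fin k → Fin (n + 1), (mon k I (‖x‖ • z) * wt x z) * AA σ (mon k I) y =
        (∑ I : Fin k → Fin (n + 1), mon k I (‖x‖ • z) * AA σ (mon k I) y) * wt x z := by
      rw [Finset.sum_mul]
      exact Finset.sum_congr rfl fun I _ => by ring
    rw [e1, mon_AA hσ k (smul_ne_zero hxn hz0) hy]
    unfold PP wt
    rw [norm_smul, norm_norm, hz, mul_one, inner_smul_left]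
    simp only [conj_trivial]
    rw [ha, hb, hc]
    field_simp
    ring
  have i1 : Integrable (fun z : E (n + 1) => b * inner ℝ z y) σ := intC hσ (by fun_prop)
  have i2 : Integrable (fun z : E (n + 1) => (a * c) * inner ℝ z x) σ := intC hσ (by fun_prop)
  have i3 : Integrable (fun z : E (n + 1) => (b * c) * (inner ℝ z y * inner ℝ z x)) σ :=
    intC hσ (by fun_prop)
  have i0 : Integrable (fun _ : E (n + 1) => a) σ := integrable_const a
  have i12 : Integrable (fun z : E (n + 1) => a + b * inner ℝ z y) σ := i0.add i1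
  have i123 : Integrable (fun z : E (n + 1) => a + b * inner ℝ z y + (a * c) * inner ℝ z x) σ :=
    i12.add i2
  rw [h1, integral_congr_ae h2, integral_add i123 i3, integral_add i12 i2, integral_add i0 i1,
    integral_const_mul, integral_const_mul, integral_const_mul, lin0 hσ, lin0 hσ, quad hσ]
  simp only [integral_const, probReal_univ, one_smul, mul_zero, add_zero]
  rw [ha, hb, hc, real_inner_comm x y]
  unfold PP
  field_simp
  try ring

theorem kap_eq (hσ : SphM σ) (k : ℕ) {x y : E (n + 1)} (hx : x ≠ 0) (hy : y ≠ 0) :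
    kap σ k x y = ∑ I : Fin k → Fin (n + 1),
      (mon k I x - AA σ (mon k I) x) * (mon k I y - AA σ (mon k I) y) := by
  have e : ∀ I : Fin k → Fin (n + 1),
      (mon k I x - AA σ (mon k I) x) * (mon k I y - AA σ (mon k I) y) =
      mon k I x * mon k I y - mon k I x * AA σ (mon k I) y - mon k I y * AA σ (mon k I) x +
        AA σ (mon k I) x * AA σ (mon k I) y := fun I => by ring
  simp_rw [e]
  rw [Finset.sum_add_distrib, Finset.sum_sub_distrib, Finset.sum_sub_distrib, mon_sum,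
    mon_AA hσ k hx hy, mon_AA hσ k hy hx, AA_AA hσ k hx hy]
  have hs : PP σ k y x = PP σ k x y := by
    unfold PP
    rw [real_inner_comm, mul_comm ‖y‖ ‖x‖]
  rw [hs]
  unfold kap
  ring

theorem AA_meas (hσ : SphM σ) (k : ℕ) (I : Fin k → Fin (n + 1)) : Measurable (AA σ (mon k I)) := by
  have hp := prob hσ
  have hm : StronglyMeasurable (Function.uncurry fun (x z : E (n + 1)) =>
      mon k I (‖x‖ • z) * wt x z) := by
    apply Measurable.stronglyMeasurable
    have c1 : Continuous fun p : E (n + 1) × E (n + 1) => mon k I (‖p.1‖ • p.2) :=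
      (mon_cont k I).comp (by fun_prop)
    have c2 : Measurable fun p : E (n + 1) × E (n + 1) => wt p.1 p.2 := by
      unfold wt
      have c3 : Measurable fun p : E (n + 1) × E (n + 1) => inner ℝ p.2 p.1 := by fun_prop
      have c4 : Measurable fun p : E (n + 1) × E (n + 1) => ‖p.1‖ := by fun_prop
      exact measurable_const.add (measurable_const.mul (c3.div c4))
    exact c1.measurable.mul c2
  exact hm.integral_prod_right.measurable

theorem AA_abs (hσ : SphM σ) (k : ℕ) (I : Fin k → Fin (n + 1)) (x : E (n + 1)) :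
    |AA σ (mon k I) x| ≤ ‖x‖ ^ k * ((n : ℝ) + 2) := by
  have hp := prob hσ
  have h := norm_integral_le_of_norm_le_const (μ := σ)
    (f := fun z : E (n + 1) => mon k I (‖x‖ • z) * wt x z) (C := ‖x‖ ^ k * ((n : ℝ) + 2)) (by
      filter_upwards [sph_norm hσ] with z hz
      rw [Real.norm_eq_abs, abs_mul]
      refine mul_le_mul ?_ (wt_abs x z hz) (abs_nonneg _) (by positivity)
      refine (mon_abs k I _).trans ?_
      rw [norm_smul, norm_norm, hz, mul_one])
  simpa [AA] using h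

section psd

variable {μ : Measure (E (n + 1))} [IsFiniteMeasure μ] {R : ℝ}

omit [IsFiniteMeasure μ] in
theorem ae_prod (hμ : ∀ᵐ x ∂μ, x ≠ 0 ∧ ‖x‖ ≤ R) :
    ∀ᵐ p ∂(μ.prod μ), (p.1 ≠ 0 ∧ ‖p.1‖ ≤ R) ∧ (p.2 ≠ 0 ∧ ‖p.2‖ ≤ R) := by
  have h1 : ∀ᵐ p ∂(μ.prod μ), (p.1 ≠ 0 ∧ ‖p.1‖ ≤ R) :=
    Measure.quasiMeasurePreserving_fst.ae hμ
  have h2 : ∀ᵐ p ∂(μ.prod μ), (p.2 ≠ 0 ∧ ‖p.2‖ ≤ R) :=
    Measure.quasiMeasurePreserving_snd.ae hμ
  filter_upwards [h1, h2] with p a b using ⟨a, b⟩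

omit [IsFiniteMeasure μ] in
theorem ae_prod_f {f : E (n + 1) → ℝ} {B : ℝ} (hB : ∀ᵐ x ∂μ, |f x| ≤ B) :
    ∀ᵐ p ∂(μ.prod μ), |f p.1| ≤ B ∧ |f p.2| ≤ B := by
  have h1 : ∀ᵐ p ∂(μ.prod μ), |f p.1| ≤ B := Measure.quasiMeasurePreserving_fst.ae hB
  have h2 : ∀ᵐ p ∂(μ.prod μ), |f p.2| ≤ B := Measure.quasiMeasurePreserving_snd.ae hB
  filter_upwards [h1, h2] with p a b using ⟨a, b⟩

theorem kap_psd (hσ : SphM σ) (hμ : ∀ᵐ x ∂μ, x ≠ 0 ∧ ‖x‖ ≤ R) {f : E (n + 1) → ℝ}
    (hf : Measurable f) {B : ℝ} (hB : ∀ᵐ x ∂μ, |f x| ≤ B) (k : ℕ) :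
    0 ≤ ∫ p, f p.1 * f p.2 * kap σ k p.1 p.2 ∂(μ.prod μ) := by
  have hI : ∀ I : Fin k → Fin (n + 1),
      Integrable (fun x => f x * (mon k I x - AA σ (mon k I) x)) μ := by
    intro I
    refine Integrable.of_bound
      (hf.mul ((mon_cont k I).measurable.sub (AA_meas hσ k I))).aestronglyMeasurable
      (B * (R ^ k + R ^ k * ((n : ℝ) + 2))) ?_
    filter_upwards [hμ, hB] with x hx hfx
    have hR : 0 ≤ R := (norm_nonneg x).trans hx.2
    have hk : ‖x‖ ^ k ≤ R ^ k := pow_le_pow_left₀ (norm_nonneg _) hx.2 k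
    rw [Real.norm_eq_abs, abs_mul]
    refine mul_le_mul hfx ?_ (abs_nonneg _) ((abs_nonneg _).trans hfx)
    refine (abs_sub _ _).trans (add_le_add ((mon_abs k I x).trans hk)
      ((AA_abs hσ k I x).trans ?_))
    exact mul_le_mul_of_nonneg_right hk (by positivity)
  have h1 : ∫ p, f p.1 * f p.2 * kap σ k p.1 p.2 ∂(μ.prod μ) =
      ∫ p, ∑ I : Fin k → Fin (n + 1), (f p.1 * (mon k I p.1 - AA σ (mon k I) p.1)) *
        (f p.2 * (mon k I p.2 - AA σ (mon k I) p.2)) ∂(μ.prod μ) := by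
    refine integral_congr_ae ?_
    filter_upwards [ae_prod hμ] with p hp
    rw [kap_eq hσ k hp.1.1 hp.2.1, Finset.mul_sum]
    exact Finset.sum_congr rfl fun I _ => by ring
  rw [h1, integral_finsetSum _ (fun I _ => (hI I).mul_prod (hI I))]
  refine Finset.sum_nonneg fun I _ => ?_
  rw [integral_prod_mul (fun x => f x * (mon k I x - AA σ (mon k I) x))
    (fun x => f x * (mon k I x - AA σ (mon k I) x))]
  exact mul_self_nonneg _

theorem kap_zero (hσ : SphM σ) (x y : E (n + 1)) : kap σ 0 x y = 0 := by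
  unfold kap PP
  rw [mS_zero hσ, mS_one hσ]
  simp

theorem kap_one (hσ : SphM σ) {x y : E (n + 1)} (hx : x ≠ 0) (hy : y ≠ 0) : kap σ 1 x y = 0 := by
  have hxn : ‖x‖ ≠ 0 := norm_ne_zero_iff.2 hx
  have hyn : ‖y‖ ≠ 0 := norm_ne_zero_iff.2 hy
  have hn : (n : ℝ) + 1 ≠ 0 := by positivity
  unfold kap PP
  rw [mS_one hσ, mS_two hσ]
  field_simp
  ring

theorem kap_abs (hσ : SphM σ) (k : ℕ) {x y : E (n + 1)} (hx : ‖x‖ ≤ R) (hy : ‖y‖ ≤ R) :
    |kap σ k x y| ≤ ((n : ℝ) + 3) * (R * R) ^ k := by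
  have hxy : ‖x‖ * ‖y‖ ≤ R * R := mul_le_mul hx hy (norm_nonneg _) ((norm_nonneg _).trans hx)
  have hk : (‖x‖ * ‖y‖) ^ k ≤ (R * R) ^ k := pow_le_pow_left₀ (by positivity) hxy k
  have h1 : |(inner ℝ x y) ^ k| ≤ (R * R) ^ k := by
    rw [abs_pow]
    exact (pow_le_pow_left₀ (abs_nonneg _) (abs_real_inner_le_norm x y) k).trans hk
  have hc : |inner ℝ x y / (‖x‖ * ‖y‖)| ≤ 1 := abs_real_inner_div_norm_mul_norm_le_one x y
  have h2 : |PP σ k x y| ≤ (R * R) ^ k * ((n : ℝ) + 2) := by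
    unfold PP
    rw [abs_mul, abs_of_nonneg (show 0 ≤ (‖x‖ * ‖y‖) ^ k by positivity)]
    refine mul_le_mul hk ?_ (abs_nonneg _) (le_trans (by positivity) hk)
    refine (abs_add_le _ _).trans ?_
    have h3 : |((n : ℝ) + 1) * mS σ (k + 1) * (inner ℝ x y / (‖x‖ * ‖y‖))| ≤ (n : ℝ) + 1 := by
      rw [abs_mul, abs_mul, abs_of_nonneg (show (0 : ℝ) ≤ (n : ℝ) + 1 by positivity)]
      calc ((n : ℝ) + 1) * |mS σ (k + 1)| * |inner ℝ x y / (‖x‖ * ‖y‖)|
          ≤ ((n : ℝ) + 1) * 1 * 1 := by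
            refine mul_le_mul ?_ hc (abs_nonneg _) (by positivity)
            exact mul_le_mul_of_nonneg_left (mS_abs hσ _) (by positivity)
        _ = (n : ℝ) + 1 := by ring
    linarith [mS_abs hσ k]
  unfold kap
  refine (abs_sub _ _).trans ?_
  linarith

theorem kap_meas (k : ℕ) : Measurable fun p : E (n + 1) × E (n + 1) => kap σ k p.1 p.2 := by
  unfold kap PP
  have c3 : Measurable fun p : E (n + 1) × E (n + 1) => inner ℝ p.1 p.2 := by fun_prop
  have c4 : Measurable fun p : E (n + 1) × E (n + 1) => ‖p.1‖ * ‖p.2‖ := by fun_prop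
  exact (c3.pow_const k).sub ((c4.pow_const k).mul
    (measurable_const.add (measurable_const.mul (c3.div c4))))

end psd

section series

variable {c : ℕ → ℝ} {F : ℝ → ℝ}

/-- parametric moments -/
noncomputable def zF (σ : Measure (E (n + 1))) (j : ℕ) (F : ℝ → ℝ) (κ : ℝ) : ℝ :=
  ∫ z, (z 0) ^ j * F (κ * z 0) ∂σ

theorem zF_series (hσ : SphM σ) (hc : ∀ T : ℝ, 0 ≤ T → Summable fun k => |c k| * T ^ k)
    (hF : ∀ t, HasSum (fun k => c k * t ^ k) (F t)) (j : ℕ) (κ : ℝ) :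
    HasSum (fun k => c k * κ ^ k * mS σ (k + j)) (zF σ j F κ) := by
  have hp := prob hσ
  have c0 := cC (n := n) 0
  have hint : ∀ k : ℕ, Integrable (fun y : E (n + 1) => c k * κ ^ k * (y 0) ^ (k + j)) σ :=
    fun k => intC hσ (by fun_prop)
  have hb : ∀ k : ℕ, ∫ y : E (n + 1), ‖c k * κ ^ k * (y 0) ^ (k + j)‖ ∂σ ≤ |c k| * |κ| ^ k := by
    intro k
    have h := integral_mono_ae (hint k).norm (integrable_const (|c k| * |κ| ^ k)) (by
      filter_upwards [sph_abs hσ] with y hy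
      rw [Real.norm_eq_abs, abs_mul, abs_mul, abs_pow, abs_pow]
      exact mul_le_of_le_one_right (by positivity) (pow_le_one₀ (abs_nonneg _) hy))
    simpa using h
  have h := hasSum_integral_of_summable_integral_norm hint
    (Summable.of_nonneg_of_le (fun k => integral_nonneg fun _ => norm_nonneg _) hb
      (hc |κ| (abs_nonneg _)))
  have e1 : (fun k => ∫ y : E (n + 1), c k * κ ^ k * (y 0) ^ (k + j) ∂σ) =
      fun k => c k * κ ^ k * mS σ (k + j) := by
    funext k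
    rw [integral_const_mul]
    rfl
  have e2 : ∫ y : E (n + 1), ∑' k, c k * κ ^ k * (y 0) ^ (k + j) ∂σ = zF σ j F κ := by
    unfold zF
    refine integral_congr_ae (Eventually.of_forall fun y => ?_)
    have h3 := (hF (κ * y 0)).mul_left ((y 0) ^ j)
    show ∑' k, c k * κ ^ k * (y 0) ^ (k + j) = (y 0) ^ j * F (κ * y 0)
    rw [← h3.tsum_eq]
    refine tsum_congr fun k => ?_
    rw [mul_pow, pow_add]
    ring
  rw [e1, e2] at h
  exact h

/-- the part of degree at least two of the kernel `F (2 v ⟨x,y⟩)` -/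
noncomputable def KF (σ : Measure (E (n + 1))) (F : ℝ → ℝ) (v : ℝ) (x y : E (n + 1)) : ℝ :=
  F (2 * v * inner ℝ x y) - zF σ 0 F (2 * v * (‖x‖ * ‖y‖)) -
    ((n : ℝ) + 1) * zF σ 1 F (2 * v * (‖x‖ * ‖y‖)) * (inner ℝ x y / (‖x‖ * ‖y‖))

theorem KF_series (hσ : SphM σ) (hc : ∀ T : ℝ, 0 ≤ T → Summable fun k => |c k| * T ^ k)
    (hF : ∀ t, HasSum (fun k => c k * t ^ k) (F t)) (v : ℝ) (x y : E (n + 1)) :
    HasSum (fun k => c k * (2 * v) ^ k * kap σ k x y) (KF σ F v x y) := by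
  have h1 := hF (2 * v * inner ℝ x y)
  have h2 := zF_series hσ hc hF 0 (2 * v * (‖x‖ * ‖y‖))
  have h3 := ((zF_series hσ hc hF 1 (2 * v * (‖x‖ * ‖y‖))).mul_left ((n : ℝ) + 1)).mul_right
    (inner ℝ x y / (‖x‖ * ‖y‖))
  have h4 := (h1.sub h2).sub h3
  have e : (fun k => c k * (2 * v) ^ k * kap σ k x y) = fun k =>
      c k * (2 * v * inner ℝ x y) ^ k - c k * (2 * v * (‖x‖ * ‖y‖)) ^ k * mS σ (k + 0) -
        ((n : ℝ) + 1) * (c k * (2 * v * (‖x‖ * ‖y‖)) ^ k * mS σ (k + 1)) *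
          (inner ℝ x y / (‖x‖ * ‖y‖)) := by
    funext k
    unfold kap PP
    rw [mul_pow (2 * v) (inner ℝ x y), mul_pow (2 * v) (‖x‖ * ‖y‖), add_zero]
    ring
  rw [e]
  exact h4

theorem KF_psd (hσ : SphM σ) (hc : ∀ T : ℝ, 0 ≤ T → Summable fun k => |c k| * T ^ k)
    (hF : ∀ t, HasSum (fun k => c k * t ^ k) (F t)) (hc0 : ∀ k, 2 ≤ k → 0 ≤ c k)
    {μ : Measure (E (n + 1))} [IsFiniteMeasure μ] {R : ℝ} (hμ : ∀ᵐ x ∂μ, x ≠ 0 ∧ ‖x‖ ≤ R)
    {f : E (n + 1) → ℝ} (hf : Measurable f) {B : ℝ} (hB : ∀ᵐ x ∂μ, |f x| ≤ B) {v : ℝ}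
    (hv : 0 ≤ v) : 0 ≤ ∫ p, f p.1 * f p.2 * KF σ F v p.1 p.2 ∂(μ.prod μ) := by
  have hbd : ∀ k : ℕ, ∀ᵐ p ∂(μ.prod μ), ‖f p.1 * f p.2 * (c k * (2 * v) ^ k * kap σ k p.1 p.2)‖ ≤
      (B * B * ((n : ℝ) + 3)) * (|c k| * (2 * v * (R * R)) ^ k) := by
    intro k
    filter_upwards [ae_prod hμ, ae_prod_f hB] with p hp hfp
    have hB0 : 0 ≤ B := (abs_nonneg _).trans hfp.1
    rw [Real.norm_eq_abs, abs_mul, abs_mul, abs_mul, abs_mul,
      abs_of_nonneg (show 0 ≤ (2 * v) ^ k by positivity)]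
    have hk := kap_abs hσ k hp.1.2 hp.2.2
    calc |f p.1| * |f p.2| * (|c k| * (2 * v) ^ k * |kap σ k p.1 p.2|)
        ≤ (B * B) * (|c k| * (2 * v) ^ k * (((n : ℝ) + 3) * (R * R) ^ k)) := by
          refine mul_le_mul (mul_le_mul hfp.1 hfp.2 (abs_nonneg _) hB0) ?_ (by positivity)
            (by positivity)
          exact mul_le_mul_of_nonneg_left hk (by positivity)
      _ = (B * B * ((n : ℝ) + 3)) * (|c k| * (2 * v * (R * R)) ^ k) := by
          rw [mul_pow (2 * v)]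
          ring
  have hms : ∀ k : ℕ, AEStronglyMeasurable (fun p : E (n + 1) × E (n + 1) =>
      f p.1 * f p.2 * (c k * (2 * v) ^ k * kap σ k p.1 p.2)) (μ.prod μ) := by
    intro k
    have h1 : Measurable fun p : E (n + 1) × E (n + 1) => f p.1 := hf.comp measurable_fst
    have h2 : Measurable fun p : E (n + 1) × E (n + 1) => f p.2 := hf.comp measurable_snd
    exact ((h1.mul h2).mul (measurable_const.mul (kap_meas k))).aestronglyMeasurable
  have hint : ∀ k : ℕ, Integrable (fun p : E (n + 1) × E (n + 1) =>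
      f p.1 * f p.2 * (c k * (2 * v) ^ k * kap σ k p.1 p.2)) (μ.prod μ) :=
    fun k => Integrable.of_bound (hms k) _ (hbd k)
  have hnorm : ∀ k : ℕ, ∫ p, ‖f p.1 * f p.2 * (c k * (2 * v) ^ k * kap σ k p.1 p.2)‖ ∂(μ.prod μ) ≤
      ((B * B * ((n : ℝ) + 3)) * (μ.prod μ).real univ) * (|c k| * (2 * v * (R * R)) ^ k) := by
    intro k
    have h := integral_mono_ae (hint k).norm
      (integrable_const ((B * B * ((n : ℝ) + 3)) * (|c k| * (2 * v * (R * R)) ^ k))) (hbd k)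
    refine h.trans (le_of_eq ?_)
    rw [integral_const, smul_eq_mul]
    ring
  have hRR : 0 ≤ R * R := mul_self_nonneg R
  have hs := hasSum_integral_of_summable_integral_norm hint
    (Summable.of_nonneg_of_le (fun k => integral_nonneg fun _ => norm_nonneg _) hnorm
      ((hc (2 * v * (R * R)) (by positivity)).mul_left _))
  have e2 : ∫ p, ∑' k, f p.1 * f p.2 * (c k * (2 * v) ^ k * kap σ k p.1 p.2) ∂(μ.prod μ) =
      ∫ p, f p.1 * f p.2 * KF σ F v p.1 p.2 ∂(μ.prod μ) := by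
    refine integral_congr_ae (Eventually.of_forall fun p => ?_)
    exact ((KF_series hσ hc hF v p.1 p.2).mul_left (f p.1 * f p.2)).tsum_eq
  rw [e2] at hs
  refine hs.nonneg fun k => ?_
  have e3 : ∫ p, f p.1 * f p.2 * (c k * (2 * v) ^ k * kap σ k p.1 p.2) ∂(μ.prod μ) =
      (c k * (2 * v) ^ k) * ∫ p, f p.1 * f p.2 * kap σ k p.1 p.2 ∂(μ.prod μ) := by
    rw [← integral_const_mul]
    refine integral_congr_ae (Eventually.of_forall fun p => ?_)
    show f p.1 * f p.2 * (c k * (2 * v) ^ k * kap σ k p.1 p.2) =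
      c k * (2 * v) ^ k * (f p.1 * f p.2 * kap σ k p.1 p.2)
    ring
  rcases Nat.lt_or_ge k 2 with hk | hk
  · have hz : ∫ p, f p.1 * f p.2 * (c k * (2 * v) ^ k * kap σ k p.1 p.2) ∂(μ.prod μ) = 0 := by
      apply integral_eq_zero_of_ae
      filter_upwards [ae_prod hμ] with p hp
      have hk0 : kap σ k p.1 p.2 = 0 := by
        interval_cases k
        · exact kap_zero hσ _ _
        · exact kap_one hσ hp.1.1 hp.2.1
      rw [hk0]
      simp
    exact hz.ge
  · rw [e3]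
    exact mul_nonneg (mul_nonneg (hc0 k hk) (by positivity)) (kap_psd hσ hμ hf hB k)

theorem zF_cont (hσ : SphM σ) (j : ℕ) (hF : Continuous F) : Continuous (zF σ j F) := by
  have hp := prob hσ
  have hr : σ.restrict (Metric.sphere (0 : E (n + 1)) 1) = σ := by
    apply Measure.restrict_eq_self_of_ae_mem
    filter_upwards [sph_norm hσ] with y hy
    rw [mem_sphere_zero_iff_norm]
    exact hy
  have c0 := cC (n := n) 0
  have hu : Continuous (Function.uncurry fun (κ : ℝ) (z : E (n + 1)) => (z 0) ^ j * F (κ * z 0)) := by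
    have c1 : Continuous fun p : ℝ × E (n + 1) => p.2 0 := c0.comp continuous_snd
    exact (c1.pow j).mul (hF.comp (continuous_fst.mul c1))
  have h := continuous_parametric_integral_of_continuous (μ := σ) hu
    (isCompact_sphere (0 : E (n + 1)) 1)
  rw [hr] at h
  exact h

theorem KF_meas (hσ : SphM σ) (hF : Continuous F) (v : ℝ) :
    Measurable fun p : E (n + 1) × E (n + 1) => KF σ F v p.1 p.2 := by
  unfold KF
  have c3 : Measurable fun p : E (n + 1) × E (n + 1) => inner ℝ p.1 p.2 := by fun_prop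
  have c4 : Measurable fun p : E (n + 1) × E (n + 1) => ‖p.1‖ * ‖p.2‖ := by fun_prop
  have c5 := (zF_cont hσ 0 hF).measurable.comp (c4.const_mul (2 * v))
  have c6 := (zF_cont hσ 1 hF).measurable.comp (c4.const_mul (2 * v))
  exact ((hF.measurable.comp (c3.const_mul (2 * v))).sub c5).sub
    ((measurable_const.mul c6).mul (c3.div c4))

theorem KF_bound (hσ : SphM σ) (hF : Continuous F) (v R : ℝ) :
    ∃ C : ℝ, ∀ x y : E (n + 1), ‖x‖ ≤ R → ‖y‖ ≤ R → |KF σ F v x y| ≤ C := by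
  have hp := prob hσ
  obtain ⟨C, hC⟩ := (isCompact_Icc (a := -(2 * |v| * (R * R))) (b := 2 * |v| * (R * R)))
    |>.exists_bound_of_continuousOn hF.continuousOn
  refine ⟨((n : ℝ) + 3) * C, fun x y hx hy => ?_⟩
  have hxy : ‖x‖ * ‖y‖ ≤ R * R := mul_le_mul hx hy (norm_nonneg _) ((norm_nonneg _).trans hx)
  have hin : |inner ℝ x y| ≤ R * R := (abs_real_inner_le_norm x y).trans hxy
  have hFb : ∀ t : ℝ, |t| ≤ 2 * |v| * (R * R) → |F t| ≤ C := by
    intro t ht
    have := hC t (abs_le.1 ht)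
    rwa [Real.norm_eq_abs] at this
  have h1 : |F (2 * v * inner ℝ x y)| ≤ C := by
    apply hFb
    rw [abs_mul, abs_mul, abs_two]
    exact mul_le_mul_of_nonneg_left hin (by positivity)
  have hj : ∀ j : ℕ, |zF σ j F (2 * v * (‖x‖ * ‖y‖))| ≤ C := by
    intro j
    have h := norm_integral_le_of_norm_le_const (μ := σ)
      (f := fun z : E (n + 1) => (z 0) ^ j * F (2 * v * (‖x‖ * ‖y‖) * z 0)) (C := C) (by
        filter_upwards [sph_abs hσ] with z hz
        rw [Real.norm_eq_abs, abs_mul, abs_pow]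
        have h2 : |F (2 * v * (‖x‖ * ‖y‖) * z 0)| ≤ C := by
          apply hFb
          rw [abs_mul, abs_mul, abs_mul, abs_two, abs_mul, abs_norm, abs_norm]
          calc 2 * |v| * (‖x‖ * ‖y‖) * |z 0| ≤ 2 * |v| * (R * R) * 1 := by
                refine mul_le_mul ?_ hz (abs_nonneg _)
                  (mul_nonneg (by positivity) (mul_self_nonneg R))
                exact mul_le_mul_of_nonneg_left hxy (by positivity)
            _ = 2 * |v| * (R * R) := mul_one _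
        calc |z 0| ^ j * |F (2 * v * (‖x‖ * ‖y‖) * z 0)| ≤ 1 * C :=
              mul_le_mul (pow_le_one₀ (abs_nonneg _) hz) h2 (abs_nonneg _) zero_le_one
          _ = C := one_mul _)
    simpa [zF] using h
  have hC0 : 0 ≤ C := (abs_nonneg _).trans h1
  have hcos : |inner ℝ x y / (‖x‖ * ‖y‖)| ≤ 1 := abs_real_inner_div_norm_mul_norm_le_one x y
  have h3 : |((n : ℝ) + 1) * zF σ 1 F (2 * v * (‖x‖ * ‖y‖)) * (inner ℝ x y / (‖x‖ * ‖y‖))| ≤
      ((n : ℝ) + 1) * C := by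
    rw [abs_mul, abs_mul, abs_of_nonneg (show (0 : ℝ) ≤ (n : ℝ) + 1 by positivity)]
    calc ((n : ℝ) + 1) * |zF σ 1 F (2 * v * (‖x‖ * ‖y‖))| * |inner ℝ x y / (‖x‖ * ‖y‖)|
        ≤ ((n : ℝ) + 1) * C * 1 := by
          refine mul_le_mul ?_ hcos (abs_nonneg _) (by positivity)
          exact mul_le_mul_of_nonneg_left (hj 1) (by positivity)
      _ = ((n : ℝ) + 1) * C := mul_one _
  unfold KF
  refine (abs_sub _ _).trans ?_
  have h4 := abs_sub (F (2 * v * inner ℝ x y)) (zF σ 0 F (2 * v * (‖x‖ * ‖y‖)))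
  have h5 := hj 0
  linarith

theorem KF_int (hσ : SphM σ) (hF : Continuous F)
    {μ : Measure (E (n + 1))} [IsFiniteMeasure μ] {R : ℝ} (hμ : ∀ᵐ x ∂μ, x ≠ 0 ∧ ‖x‖ ≤ R)
    {f : E (n + 1) → ℝ} (hf : Measurable f) {B : ℝ} (hB : ∀ᵐ x ∂μ, |f x| ≤ B) (v : ℝ) :
    Integrable (fun p : E (n + 1) × E (n + 1) => f p.1 * f p.2 * KF σ F v p.1 p.2)
      (μ.prod μ) := by
  obtain ⟨C, hC⟩ := KF_bound hσ hF v R
  have h1 : Measurable fun p : E (n + 1) × E (n + 1) => f p.1 := hf.comp measurable_fst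
  have h2 : Measurable fun p : E (n + 1) × E (n + 1) => f p.2 := hf.comp measurable_snd
  refine Integrable.of_bound ((h1.mul h2).mul (KF_meas hσ hF v)).aestronglyMeasurable
    (B * B * C) ?_
  filter_upwards [ae_prod hμ, ae_prod_f hB] with p hp hfp
  have hB0 : 0 ≤ B := (abs_nonneg _).trans hfp.1
  rw [Real.norm_eq_abs, abs_mul, abs_mul]
  exact mul_le_mul (mul_le_mul hfp.1 hfp.2 (abs_nonneg _) hB0) (hC _ _ hp.1.2 hp.2.2)
    (abs_nonneg _) (mul_nonneg hB0 hB0)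

end series

/-- coefficients of `exp` -/
theorem exp_series : (∀ T : ℝ, 0 ≤ T → Summable fun k : ℕ => |((k.factorial : ℝ))⁻¹| * T ^ k) ∧
    ∀ t : ℝ, HasSum (fun k : ℕ => ((k.factorial : ℝ))⁻¹ * t ^ k) (Real.exp t) := by
  have h1 : ∀ t : ℝ, HasSum (fun k : ℕ => ((k.factorial : ℝ))⁻¹ * t ^ k) (Real.exp t) := by
    intro t
    have h := NormedSpace.expSeries_div_hasSum_exp t
    rw [← Real.exp_eq_exp_ℝ] at h
    have e : (fun k : ℕ => ((k.factorial : ℝ))⁻¹ * t ^ k) = fun k : ℕ => t ^ k / (k.factorial : ℝ) := by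
      funext k
      rw [div_eq_inv_mul]
    rw [e]
    exact h
  refine ⟨fun T hT => ?_, h1⟩
  refine (h1 T).summable.congr fun k => ?_
  rw [abs_of_nonneg (by positivity)]

/-- coefficients of `(t - 2) e^t` -/
theorem exp2_series : (∀ T : ℝ, 0 ≤ T → Summable fun k : ℕ =>
      |((k : ℝ) - 2) * ((k.factorial : ℝ))⁻¹| * T ^ k) ∧
    ∀ t : ℝ, HasSum (fun k : ℕ => ((k : ℝ) - 2) * ((k.factorial : ℝ))⁻¹ * t ^ k)
      ((t - 2) * Real.exp t) := by
  have h1 : ∀ t : ℝ, HasSum (fun k : ℕ => (k : ℝ) * ((k.factorial : ℝ))⁻¹ * t ^ k)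
      (t * Real.exp t) := by
    intro t
    rw [← hasSum_nat_add_iff' 1]
    simp only [Finset.range_one, Finset.sum_singleton, Nat.cast_zero, zero_mul, sub_zero]
    have h := ((exp_series.2 t).mul_left t)
    have e : (fun k : ℕ => ((k + 1 : ℕ) : ℝ) * (((k + 1).factorial : ℝ))⁻¹ * t ^ (k + 1)) =
        fun k : ℕ => t * (((k.factorial : ℝ))⁻¹ * t ^ k) := by
      funext k
      rw [Nat.factorial_succ, Nat.cast_mul, mul_inv, pow_succ]
      have h1 : ((k + 1 : ℕ) : ℝ) ≠ 0 := by positivity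
      field_simp
    rw [e]
    exact h
  have h2 : ∀ t : ℝ, HasSum (fun k : ℕ => ((k : ℝ) - 2) * ((k.factorial : ℝ))⁻¹ * t ^ k)
      ((t - 2) * Real.exp t) := by
    intro t
    have h3 := (h1 t).sub ((exp_series.2 t).mul_left 2)
    have e : (fun k : ℕ => ((k : ℝ) - 2) * ((k.factorial : ℝ))⁻¹ * t ^ k) = fun k : ℕ =>
        (k : ℝ) * ((k.factorial : ℝ))⁻¹ * t ^ k - 2 * (((k.factorial : ℝ))⁻¹ * t ^ k) := by
      funext k
      ring
    rw [e, sub_mul]
    exact h3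
  refine ⟨fun T hT => ?_, h2⟩
  refine Summable.of_nonneg_of_le (fun k => by positivity) (fun k => ?_)
    ((h1 T).summable.add ((exp_series.1 T hT).mul_left 2))
  have hf : (0 : ℝ) ≤ ((k.factorial : ℝ))⁻¹ := by positivity
  rw [abs_mul, abs_of_nonneg hf]
  have h3 : |(k : ℝ) - 2| ≤ k + 2 := by
    rw [abs_le]
    constructor <;> linarith [(Nat.cast_nonneg k : (0 : ℝ) ≤ k)]
  calc |(k : ℝ) - 2| * ((k.factorial : ℝ))⁻¹ * T ^ k
      ≤ ((k : ℝ) + 2) * ((k.factorial : ℝ))⁻¹ * T ^ k := by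
        exact mul_le_mul_of_nonneg_right (mul_le_mul_of_nonneg_right h3 hf) (by positivity)
    _ = (k : ℝ) * ((k.factorial : ℝ))⁻¹ * T ^ k + 2 * (((k.factorial : ℝ))⁻¹ * T ^ k) := by ring

theorem zFexp_abs (hσ : SphM σ) (j : ℕ) (κ : ℝ) : |zF σ j Real.exp κ| ≤ Real.exp |κ| := by
  have hp := prob hσ
  have h := norm_integral_le_of_norm_le_const (μ := σ)
    (f := fun z : E (n + 1) => (z 0) ^ j * Real.exp (κ * z 0)) (C := Real.exp |κ|) (by
      filter_upwards [sph_abs hσ] with z hz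
      rw [Real.norm_eq_abs, abs_mul, abs_pow, abs_of_pos (Real.exp_pos _)]
      calc |z 0| ^ j * Real.exp (κ * z 0) ≤ 1 * Real.exp |κ| := by
            refine mul_le_mul (pow_le_one₀ (abs_nonneg _) hz) ?_ (Real.exp_pos _).le zero_le_one
            apply Real.exp_le_exp.2
            calc κ * z 0 ≤ |κ * z 0| := le_abs_self _
              _ = |κ| * |z 0| := abs_mul _ _
              _ ≤ |κ| * 1 := mul_le_mul_of_nonneg_left hz (abs_nonneg _)
              _ = |κ| := mul_one _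
        _ = Real.exp |κ| := one_mul _)
  simpa [zF] using h

theorem zF_one_exp (σ : Measure (E (n + 1))) : zF σ 1 Real.exp = z1S σ := by
  funext κ
  simp [zF, z1S]

end Pool.Agent.Lib.MP_6cd19d_an.SH.T7
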