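import Pool.Agent.Lib.MP_6cd19d_an.SH.Defs
import Pool.Agent.Lib.MP_6cd19d_an.SH.S04
import Pool.Agent.Lib.MP_6cd19d_an.SH.S07a

section

/-!
# Bounds for `Ps` and `he`

`1/2 ≤ |x|,|y| ≤ 2`, `0 ≤ v ≤ Λ`, `κ = 2v|x||y| ≤ 8Λ`, `t = ⟨x,y⟩/(|x||y|)`, `|t| ≤ 1`.  `|exp a - 1 - a| ≤ a^2 exp|a|/2` with
`a = 2v⟨x,y⟩`; `|zS κ - 1| = |∫ (exp(κ y_0) - 1 - κ y_0)| ≤ κ^2 exp(κ)/2 /(n+1)`; `|(n+1) z1S κ - κ| =
(n+1) |∫ y_0 (exp(κ y_0) - 1 - κ y_0 - κ^2 y_0^2/2)| ≤ (n+1) κ^3 exp(κ)/6 ∫ y_0^4 ≤ C/(n+1)` (`∫ y_0 = ∫ y_0^3 = 0`,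
`(n+1)∫ y_0^2 = 1`).  As `2v⟨x,y⟩ = κ t`, `|Ps| ≤ C (⟨x,y⟩^2 + 1/(n+1))`.

`he_bound`: `|he| ≤ (∬ ε^2 ε'^2)^(1/2) (∬ Ps^2)^(1/2) ≤ vE μ (∬ Ps^2)^(1/2)` (Cauchy-Schwarz, `0 < gE ≤ 1`), and
`∬ Ps^2 ≤ 2C^2 (∬ ⟨x,y⟩^4 + 1/(n+1)^2) ≤ 2C^2 (16 vI μ + 1/(n+1)^2)`, `vI μ ≤ δ^2`.
-/

set_option autoImplicit false

open MeasureTheory Set Filter Topology
open scoped ENNReal NNReal

namespace Pool.Agent.Lib.MP_6cd19d_an.SH

open Pool.Agent.Lib.MP_6cd19d_an.ND Pool.Agent.Lib.MP_6cd19d_an.HP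

variable {n : ℕ}

private theorem s08_exp2 (a : ℝ) : |Real.exp a - 1 - a| ≤ |a| ^ 2 * Real.exp |a| := by
  have h := Complex.norm_exp_sub_sum_le_norm_mul_exp (a : ℂ) 2
  have e : (Complex.exp a - ∑ m ∈ Finset.range 2, (a : ℂ) ^ m / m.factorial)
      = ((Real.exp a - 1 - a : ℝ) : ℂ) := by
    simp only [Finset.sum_range_succ, Finset.sum_range_zero, Nat.factorial]
    push_cast
    ring
  rw [e, Complex.norm_real, Complex.norm_real, Real.norm_eq_abs, Real.norm_eq_abs] at h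
  exact h

private theorem s08_exp3 (a : ℝ) : |Real.exp a - 1 - a - a ^ 2 / 2| ≤ |a| ^ 3 * Real.exp |a| := by
  have h := Complex.norm_exp_sub_sum_le_norm_mul_exp (a : ℂ) 3
  have e : (Complex.exp a - ∑ m ∈ Finset.range 3, (a : ℂ) ^ m / m.factorial)
      = ((Real.exp a - 1 - a - a ^ 2 / 2 : ℝ) : ℂ) := by
    simp only [Finset.sum_range_succ, Finset.sum_range_zero, Nat.factorial]
    push_cast
    ring
  rw [e, Complex.norm_real, Complex.norm_real, Real.norm_eq_abs, Real.norm_eq_abs] at h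
  exact h

private theorem s08_int {σ : Measure (E (n + 1))} (hσ : SphM σ) {g : ℝ → ℝ} (hg : Continuous g) :
    Integrable (fun y : E (n + 1) => g (y 0)) σ := by
  have : IsProbabilityMeasure σ := ⟨hσ.1⟩
  obtain ⟨C, hC⟩ := (isCompact_Icc (a := (-1 : ℝ)) (b := 1)).exists_bound_of_continuousOn
    hg.continuousOn
  refine Integrable.of_bound
    ((hg.comp (PiLp.continuous_apply 2 (fun _ => ℝ) 0)).aestronglyMeasurable) C ?_
  filter_upwards [sph_abs hσ] with y hy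
  exact hC _ (abs_le.mp hy)

private theorem s08_z {σ : Measure (E (n + 1))} (hσ : SphM σ) {κ : ℝ} (hκ : 0 ≤ κ) :
    |zS σ κ - 1| ≤ κ ^ 2 * Real.exp κ / ((n : ℝ) + 1) := by
  have : IsProbabilityMeasure σ := ⟨hσ.1⟩
  have i1 : Integrable (fun y : E (n + 1) => Real.exp (κ * y 0)) σ :=
    s08_int hσ (g := fun t => Real.exp (κ * t)) (by fun_prop)
  have i2 : Integrable (fun y : E (n + 1) => κ * y 0) σ :=
    s08_int hσ (g := fun t => κ * t) (by fun_prop)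
  have i3 : Integrable (fun y : E (n + 1) => κ ^ 2 * Real.exp κ * (y 0) ^ 2) σ :=
    s08_int hσ (g := fun t => κ ^ 2 * Real.exp κ * t ^ 2) (by fun_prop)
  have e1 : ∫ y, (Real.exp (κ * y 0) - 1 - κ * y 0) ∂σ = zS σ κ - 1 := by
    have i12 : Integrable (fun y : E (n + 1) => Real.exp (κ * y 0) - 1) σ :=
      i1.sub (integrable_const _)
    rw [integral_sub i12 i2, integral_sub i1 (integrable_const _),
      integral_const_mul, sph_m1 hσ]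
    simp [zS]
  have e2 : ∫ y, κ ^ 2 * Real.exp κ * (y 0) ^ 2 ∂σ = κ ^ 2 * Real.exp κ / ((n : ℝ) + 1) := by
    rw [integral_const_mul, sph_m2 hσ]
    ring
  rw [← e1, ← e2, ← Real.norm_eq_abs]
  refine norm_integral_le_of_norm_le i3 ?_
  filter_upwards [sph_abs hσ] with y hy
  rw [Real.norm_eq_abs]
  refine (s08_exp2 _).trans ?_
  have h1 : |κ * y 0| ≤ κ := by
    rw [abs_mul, abs_of_nonneg hκ]
    exact mul_le_of_le_one_right hκ hy
  have h2 : |κ * y 0| ^ 2 = κ ^ 2 * (y 0) ^ 2 := by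
    rw [sq_abs]
    ring
  rw [h2]
  have h3 : Real.exp |κ * y 0| ≤ Real.exp κ := Real.exp_le_exp.mpr h1
  calc κ ^ 2 * (y 0) ^ 2 * Real.exp |κ * y 0| ≤ κ ^ 2 * (y 0) ^ 2 * Real.exp κ :=
        mul_le_mul_of_nonneg_left h3 (by positivity)
    _ = _ := by ring

private theorem s08_z1 (hn : 1 ≤ n) {σ : Measure (E (n + 1))} (hσ : SphM σ) {κ : ℝ} (hκ : 0 ≤ κ) :
    |((n : ℝ) + 1) * z1S σ κ - κ| ≤ 3 * κ ^ 3 * Real.exp κ / ((n : ℝ) + 1) := by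
  have : IsProbabilityMeasure σ := ⟨hσ.1⟩
  have hn1 : (0 : ℝ) < (n : ℝ) + 1 := by positivity
  have i1 : Integrable (fun y : E (n + 1) => y 0 * Real.exp (κ * y 0)) σ :=
    s08_int hσ (g := fun t => t * Real.exp (κ * t)) (by fun_prop)
  have i2 : Integrable (fun y : E (n + 1) => y 0) σ :=
    s08_int hσ (g := fun t => t) (by fun_prop)
  have i3 : Integrable (fun y : E (n + 1) => κ * (y 0) ^ 2) σ :=
    s08_int hσ (g := fun t => κ * t ^ 2) (by fun_prop)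
  have i4 : Integrable (fun y : E (n + 1) => κ ^ 2 / 2 * (y 0) ^ 3) σ :=
    s08_int hσ (g := fun t => κ ^ 2 / 2 * t ^ 3) (by fun_prop)
  have i5 : Integrable (fun y : E (n + 1) => κ ^ 3 * Real.exp κ * (y 0) ^ 4) σ :=
    s08_int hσ (g := fun t => κ ^ 3 * Real.exp κ * t ^ 4) (by fun_prop)
  have e1 : ∫ y, (y 0 * Real.exp (κ * y 0) - y 0 - κ * (y 0) ^ 2 - κ ^ 2 / 2 * (y 0) ^ 3) ∂σ
      = z1S σ κ - κ * (1 / ((n : ℝ) + 1)) := by
    have i12 : Integrable (fun y : E (n + 1) => y 0 * Real.exp (κ * y 0) - y 0) σ := i1.sub i2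
    have i123 : Integrable (fun y : E (n + 1) => y 0 * Real.exp (κ * y 0) - y 0 -
      κ * (y 0) ^ 2) σ := i12.sub i3
    rw [integral_sub i123 i4, integral_sub i12 i3, integral_sub i1 i2,
      integral_const_mul, integral_const_mul, sph_m1 hσ, sph_m2 hσ, sph_m3 hσ]
    simp [z1S]
  have e2 : |∫ y, (y 0 * Real.exp (κ * y 0) - y 0 - κ * (y 0) ^ 2 - κ ^ 2 / 2 * (y 0) ^ 3) ∂σ| ≤
      κ ^ 3 * Real.exp κ * (3 / ((n : ℝ) + 1) ^ 2) := by
    have h5 : ∫ y, κ ^ 3 * Real.exp κ * (y 0) ^ 4 ∂σ ≤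
        κ ^ 3 * Real.exp κ * (3 / ((n : ℝ) + 1) ^ 2) := by
      rw [integral_const_mul]
      exact mul_le_mul_of_nonneg_left (sph_m4 hn hσ) (by positivity)
    rw [← Real.norm_eq_abs]
    refine le_trans (norm_integral_le_of_norm_le i5 ?_) h5
    filter_upwards [sph_abs hσ] with y hy
    rw [Real.norm_eq_abs]
    have h0 : y 0 * Real.exp (κ * y 0) - y 0 - κ * (y 0) ^ 2 - κ ^ 2 / 2 * (y 0) ^ 3
        = y 0 * (Real.exp (κ * y 0) - 1 - κ * y 0 - (κ * y 0) ^ 2 / 2) := by ring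
    rw [h0, abs_mul]
    have h1 : |κ * y 0| ≤ κ := by
      rw [abs_mul, abs_of_nonneg hκ]
      exact mul_le_of_le_one_right hκ hy
    have h3 : Real.exp |κ * y 0| ≤ Real.exp κ := Real.exp_le_exp.mpr h1
    calc |y 0| * |Real.exp (κ * y 0) - 1 - κ * y 0 - (κ * y 0) ^ 2 / 2|
        ≤ |y 0| * (|κ * y 0| ^ 3 * Real.exp |κ * y 0|) :=
          mul_le_mul_of_nonneg_left (s08_exp3 _) (abs_nonneg _)
      _ ≤ |y 0| * (|κ * y 0| ^ 3 * Real.exp κ) :=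
          mul_le_mul_of_nonneg_left (mul_le_mul_of_nonneg_left h3 (by positivity)) (abs_nonneg _)
      _ = κ ^ 3 * Real.exp κ * (y 0) ^ 4 := by
          rw [abs_mul, abs_of_nonneg hκ, mul_pow]
          have : |y 0| * |y 0| ^ 3 = (y 0) ^ 4 := by
            rw [← pow_succ', ← abs_pow]
            exact abs_of_nonneg (Even.pow_nonneg (by decide) _)
          rw [← this]
          ring
  have e3 : ((n : ℝ) + 1) * z1S σ κ - κ = ((n : ℝ) + 1) *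
      ∫ y, (y 0 * Real.exp (κ * y 0) - y 0 - κ * (y 0) ^ 2 - κ ^ 2 / 2 * (y 0) ^ 3) ∂σ := by
    rw [e1]
    field_simp
  rw [e3, abs_mul, abs_of_pos hn1]
  calc ((n : ℝ) + 1) * |∫ y, (y 0 * Real.exp (κ * y 0) - y 0 - κ * (y 0) ^ 2 -
        κ ^ 2 / 2 * (y 0) ^ 3) ∂σ|
      ≤ ((n : ℝ) + 1) * (κ ^ 3 * Real.exp κ * (3 / ((n : ℝ) + 1) ^ 2)) :=
        mul_le_mul_of_nonneg_left e2 hn1.le
    _ = _ := by
        field_simp

theorem ps_bound (Λ : ℝ) (hΛ : 0 < Λ) : ∃ C : ℝ, 0 < C ∧ ∀ n : ℕ, 1 ≤ n → ∀ σ : Measure (E (n + 1)), SphM σ →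
    ∀ v : ℝ, 0 ≤ v → v ≤ Λ → ∀ x y : E (n + 1), 1 / 2 ≤ ‖x‖ → ‖x‖ ≤ 2 → 1 / 2 ≤ ‖y‖ → ‖y‖ ≤ 2 →
      |Ps σ v x y| ≤ C * ((inner ℝ x y) ^ 2 + 1 / ((n : ℝ) + 1)) := by
  refine ⟨Real.exp (8 * Λ) * (4 * Λ ^ 2 + 64 * Λ ^ 2 + 1536 * Λ ^ 3), by positivity, ?_⟩
  intro n hn σ hσ v hv0 hvΛ x y hx1 hx2 hy1 hy2
  have hn1 : (0 : ℝ) < (n : ℝ) + 1 := by positivity
  have hx0 : (0 : ℝ) < ‖x‖ := by linarith
  have hy0 : (0 : ℝ) < ‖y‖ := by linarith
  have hxy : (0 : ℝ) < ‖x‖ * ‖y‖ := mul_pos hx0 hy0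
  set κ : ℝ := 2 * v * (‖x‖ * ‖y‖) with hκ
  set t : ℝ := inner ℝ x y / (‖x‖ * ‖y‖) with ht
  have hκ0 : 0 ≤ κ := by positivity
  have hκ8 : κ ≤ 8 * Λ := by
    have h1 : ‖x‖ * ‖y‖ ≤ 2 * 2 := mul_le_mul hx2 hy2 hy0.le (by norm_num)
    have h2 : 2 * v ≤ 2 * Λ := by linarith
    calc κ ≤ 2 * Λ * (2 * 2) := mul_le_mul h2 h1 hxy.le (by positivity)
      _ = 8 * Λ := by ring
  have ht1 : |t| ≤ 1 := by
    rw [ht, abs_div, abs_of_pos hxy, div_le_one hxy]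
    exact abs_real_inner_le_norm x y
  have hκt : κ * t = 2 * v * inner ℝ x y := by
    rw [hκ, ht]
    field_simp
  have hP : Ps σ v x y = (Real.exp (κ * t) - 1 - κ * t) - (zS σ κ - 1) -
      (((n : ℝ) + 1) * z1S σ κ - κ) * t := by
    rw [Ps, hκt, ← hκ, ← ht]
    have : κ * t = 2 * v * inner ℝ x y := hκt
    linear_combination -this
  have b1 : |Real.exp (κ * t) - 1 - κ * t| ≤ Real.exp (8 * Λ) * (4 * Λ ^ 2) * (inner ℝ x y) ^ 2 := by
    refine (s08_exp2 _).trans ?_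
    have h1 : |κ * t| ≤ 8 * Λ := by
      rw [abs_mul, abs_of_nonneg hκ0]
      exact (mul_le_of_le_one_right hκ0 ht1).trans hκ8
    have h2 : |κ * t| ^ 2 ≤ 4 * Λ ^ 2 * (inner ℝ x y) ^ 2 := by
      rw [sq_abs, hκt, mul_pow]
      refine mul_le_mul_of_nonneg_right ?_ (sq_nonneg _)
      nlinarith
    calc |κ * t| ^ 2 * Real.exp |κ * t| ≤ (4 * Λ ^ 2 * (inner ℝ x y) ^ 2) * Real.exp (8 * Λ) :=
          mul_le_mul h2 (Real.exp_le_exp.mpr h1) (Real.exp_pos _).le (by positivity)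
      _ = _ := by ring
  have hex : Real.exp κ ≤ Real.exp (8 * Λ) := Real.exp_le_exp.mpr hκ8
  have b2 : |zS σ κ - 1| ≤ Real.exp (8 * Λ) * (64 * Λ ^ 2) * (1 / ((n : ℝ) + 1)) := by
    refine (s08_z hσ hκ0).trans ?_
    have h1 : κ ^ 2 ≤ 64 * Λ ^ 2 := by nlinarith
    have h2 : κ ^ 2 * Real.exp κ ≤ 64 * Λ ^ 2 * Real.exp (8 * Λ) :=
      mul_le_mul h1 hex (Real.exp_pos _).le (by positivity)
    calc κ ^ 2 * Real.exp κ / ((n : ℝ) + 1) ≤ 64 * Λ ^ 2 * Real.exp (8 * Λ) / ((n : ℝ) + 1) :=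
          div_le_div_of_nonneg_right h2 hn1.le
      _ = _ := by ring
  have b3 : |(((n : ℝ) + 1) * z1S σ κ - κ) * t| ≤
      Real.exp (8 * Λ) * (1536 * Λ ^ 3) * (1 / ((n : ℝ) + 1)) := by
    rw [abs_mul]
    have h0 : |((n : ℝ) + 1) * z1S σ κ - κ| * |t| ≤ |((n : ℝ) + 1) * z1S σ κ - κ| :=
      mul_le_of_le_one_right (abs_nonneg _) ht1
    refine h0.trans ((s08_z1 hn hσ hκ0).trans ?_)
    have h1 : κ ^ 3 ≤ (8 * Λ) ^ 3 := pow_le_pow_left₀ hκ0 hκ8 3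
    have h2 : 3 * κ ^ 3 * Real.exp κ ≤ 3 * (8 * Λ) ^ 3 * Real.exp (8 * Λ) :=
      mul_le_mul (by linarith) hex (Real.exp_pos _).le (by positivity)
    calc 3 * κ ^ 3 * Real.exp κ / ((n : ℝ) + 1) ≤ 3 * (8 * Λ) ^ 3 * Real.exp (8 * Λ) / ((n : ℝ) + 1) :=
          div_le_div_of_nonneg_right h2 hn1.le
      _ = _ := by ring
  have tri : |Ps σ v x y| ≤ |Real.exp (κ * t) - 1 - κ * t| + |zS σ κ - 1| +
      |(((n : ℝ) + 1) * z1S σ κ - κ) * t| := by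
    rw [hP]
    exact (abs_sub _ _).trans (add_le_add_left (abs_sub _ _) _)
  have hpos1 : 0 ≤ (inner ℝ x y) ^ 2 := sq_nonneg _
  have hpos2 : 0 ≤ 1 / ((n : ℝ) + 1) := by positivity
  have hA : 0 ≤ Real.exp (8 * Λ) * (4 * Λ ^ 2) := by positivity
  have hB : 0 ≤ Real.exp (8 * Λ) * (64 * Λ ^ 2) := by positivity
  have hC : 0 ≤ Real.exp (8 * Λ) * (1536 * Λ ^ 3) := by positivity
  have q1 := mul_nonneg hA hpos2
  have q2 := mul_nonneg hB hpos1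
  have q3 := mul_nonneg hC hpos1
  calc |Ps σ v x y| ≤ _ := tri
    _ ≤ Real.exp (8 * Λ) * (4 * Λ ^ 2) * (inner ℝ x y) ^ 2 +
        Real.exp (8 * Λ) * (64 * Λ ^ 2) * (1 / ((n : ℝ) + 1)) +
        Real.exp (8 * Λ) * (1536 * Λ ^ 3) * (1 / ((n : ℝ) + 1)) := by linarith
    _ ≤ _ := by
        have e : Real.exp (8 * Λ) * (4 * Λ ^ 2 + 64 * Λ ^ 2 + 1536 * Λ ^ 3) *
            ((inner ℝ x y) ^ 2 + 1 / ((n : ℝ) + 1)) =
            Real.exp (8 * Λ) * (4 * Λ ^ 2) * (inner ℝ x y) ^ 2 +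
            Real.exp (8 * Λ) * (64 * Λ ^ 2) * (1 / ((n : ℝ) + 1)) +
            Real.exp (8 * Λ) * (1536 * Λ ^ 3) * (1 / ((n : ℝ) + 1)) +
            (Real.exp (8 * Λ) * (4 * Λ ^ 2) * (1 / ((n : ℝ) + 1)) +
            Real.exp (8 * Λ) * (64 * Λ ^ 2) * (inner ℝ x y) ^ 2 +
            Real.exp (8 * Λ) * (1536 * Λ ^ 3) * (inner ℝ x y) ^ 2) := by ring
        rw [e]
        linarith

theorem he_bound (Λ : ℝ) (hΛ : 0 < Λ) : ∃ C : ℝ, 0 < C ∧ ∀ n : ℕ, 1 ≤ n → ∀ σ : Measure (E (n + 1)), SphM σ →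
    ∀ (δ : ℝ) (μ : Measure (E (n + 1))), Thin δ μ → ∀ v : ℝ, 0 ≤ v → v ≤ Λ →
      he σ μ v ≤ C * (δ + 1 / ((n : ℝ) + 1)) * vE μ := by
  obtain ⟨C, hC, hps⟩ := ps_bound Λ hΛ
  refine ⟨6 * C, by positivity, ?_⟩
  intro n hn σ hσ δ μ hμ v hv0 hvΛ
  have : IsProbabilityMeasure μ := ⟨hμ.prob⟩
  have hn1 : (0 : ℝ) < (n : ℝ) + 1 := by positivity
  have hd0 := hμ.d0
  have hd1 := hμ.d1
  -- the shell
  have hsh : ∀ᵐ z ∂(μ.prod μ), |‖z.1‖ ^ 2 - 1| ≤ δ ∧ |‖z.2‖ ^ 2 - 1| ≤ δ := by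
    have h1 : ∀ᵐ z ∂(μ.prod μ), |‖z.1‖ ^ 2 - 1| ≤ δ :=
      Measure.quasiMeasurePreserving_fst.ae hμ.shell
    have h2 : ∀ᵐ z ∂(μ.prod μ), |‖z.2‖ ^ 2 - 1| ≤ δ :=
      Measure.quasiMeasurePreserving_snd.ae hμ.shell
    filter_upwards [h1, h2] with z a b
    exact ⟨a, b⟩
  have hnorm : ∀ x : E (n + 1), |‖x‖ ^ 2 - 1| ≤ δ → 1 / 2 ≤ ‖x‖ ∧ ‖x‖ ≤ 2 := by
    intro x hx
    have h := abs_le.mp hx
    have h0 := norm_nonneg x
    constructor
    · by_contra hc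
      push Not at hc
      nlinarith
    · by_contra hc
      push Not at hc
      nlinarith
  -- measurability
  have hB := bes_sphere hn hσ
  have cz : Continuous (zS σ) := by
    have : Continuous (fun κ => ∫ y, Real.exp (κ * y 0) ∂σ) :=
      continuous_iff_continuousAt.mpr fun κ => (hB.d1 κ).continuousAt
    exact this
  have cz1 : Continuous (z1S σ) := by
    have : Continuous (fun κ => ∫ y, y 0 * Real.exp (κ * y 0) ∂σ) :=
      continuous_iff_continuousAt.mpr fun κ => (hB.d2 κ).continuousAt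
    exact this
  have mP : Measurable (fun z : E (n + 1) × E (n + 1) => Ps σ v z.1 z.2) := by
    unfold Ps
    have c1 : Continuous (fun z : E (n + 1) × E (n + 1) => (inner ℝ z.1 z.2 : ℝ)) := by fun_prop
    have c2 : Continuous (fun z : E (n + 1) × E (n + 1) => ‖z.1‖ * ‖z.2‖) := by fun_prop
    have c3 : Continuous (fun z : E (n + 1) × E (n + 1) => zS σ (2 * v * (‖z.1‖ * ‖z.2‖))) :=
      cz.comp (continuous_const.mul c2)
    have c4 : Continuous (fun z : E (n + 1) × E (n + 1) => z1S σ (2 * v * (‖z.1‖ * ‖z.2‖))) :=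
      cz1.comp (continuous_const.mul c2)
    have c5 : Continuous (fun z : E (n + 1) × E (n + 1) => Real.exp (2 * v * inner ℝ z.1 z.2)) :=
      Real.continuous_exp.comp (continuous_const.mul c1)
    exact (c5.measurable.sub c3.measurable).sub
      ((continuous_const.mul c4).measurable.mul (c1.measurable.div c2.measurable))
  have mg : Measurable (fun z : E (n + 1) × E (n + 1) => gE v z.1 z.2) := by
    unfold gE
    have : Continuous (fun z : E (n + 1) × E (n + 1) => Real.exp (-v * (‖z.1‖ ^ 2 + ‖z.2‖ ^ 2))) := by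
      fun_prop
    exact this.measurable
  have ce : Continuous (fun z : E (n + 1) × E (n + 1) => (‖z.1‖ ^ 2 - 1) * (‖z.2‖ ^ 2 - 1)) := by
    fun_prop
  -- pointwise bounds
  have hg1 : ∀ z : E (n + 1) × E (n + 1), 0 ≤ gE v z.1 z.2 ∧ gE v z.1 z.2 ≤ 1 := by
    intro z
    refine ⟨(Real.exp_pos _).le, ?_⟩
    unfold gE
    rw [Real.exp_le_one_iff]
    have : 0 ≤ ‖z.1‖ ^ 2 + ‖z.2‖ ^ 2 := by positivity
    nlinarith
  set A : ℝ := 1 / ((n : ℝ) + 1) with hA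
  have hA0 : 0 < A := by positivity
  have hPb : ∀ᵐ z ∂(μ.prod μ), |Ps σ v z.1 z.2| ≤ C * ((inner ℝ z.1 z.2) ^ 2 + A) ∧
      |(inner ℝ z.1 z.2 : ℝ)| ≤ 4 := by
    filter_upwards [hsh] with z hz
    obtain ⟨a1, a2⟩ := hnorm _ hz.1
    obtain ⟨b1, b2⟩ := hnorm _ hz.2
    refine ⟨hps n hn σ hσ v hv0 hvΛ z.1 z.2 a1 a2 b1 b2, ?_⟩
    refine (abs_real_inner_le_norm z.1 z.2).trans ?_
    calc ‖z.1‖ * ‖z.2‖ ≤ 2 * 2 := mul_le_mul a2 b2 (norm_nonneg _) (by norm_num)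
      _ = 4 := by norm_num
  -- the integrand of `he`
  set F : E (n + 1) × E (n + 1) → ℝ := fun z =>
    (‖z.1‖ ^ 2 - 1) * (‖z.2‖ ^ 2 - 1) * (gE v z.1 z.2 * Ps σ v z.1 z.2) with hF
  have mF : Measurable F := ce.measurable.mul (mg.mul mP)
  have iF : Integrable F (μ.prod μ) := by
    refine Integrable.of_bound mF.aestronglyMeasurable (δ * δ * (1 * (C * (4 ^ 2 + A)))) ?_
    filter_upwards [hsh, hPb] with z hz hp
    rw [hF, Real.norm_eq_abs, abs_mul, abs_mul, abs_mul]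
    have h1 : |gE v z.1 z.2| ≤ 1 := by
      rw [abs_of_nonneg (hg1 z).1]
      exact (hg1 z).2
    have h2 : |Ps σ v z.1 z.2| ≤ C * (4 ^ 2 + A) := by
      refine hp.1.trans (mul_le_mul_of_nonneg_left ?_ hC.le)
      have : (inner ℝ z.1 z.2 : ℝ) ^ 2 ≤ 4 ^ 2 := by
        rw [← sq_abs]
        exact pow_le_pow_left₀ (abs_nonneg _) hp.2 2
      linarith
    exact mul_le_mul (mul_le_mul hz.1 hz.2 (abs_nonneg _) hd0.le)
      (mul_le_mul h1 h2 (abs_nonneg _) (by norm_num)) (by positivity) (by positivity)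
  have eF : he σ μ v = ∫ z, F z ∂(μ.prod μ) := (integral_prod F iF).symm
  -- the variance terms
  have iE : Integrable (fun x : E (n + 1) => (‖x‖ ^ 2 - 1) ^ 2) μ := by
    refine Integrable.of_bound (by fun_prop) (δ ^ 2) ?_
    filter_upwards [hμ.shell] with x hx
    rw [Real.norm_eq_abs, abs_pow]
    exact pow_le_pow_left₀ (abs_nonneg _) hx 2
  have eE : ∫ z, ((‖z.1‖ ^ 2 - 1) ^ 2 * (‖z.2‖ ^ 2 - 1) ^ 2) ∂(μ.prod μ) = vE μ ^ 2 := by
    rw [integral_prod_mul (fun x : E (n + 1) => (‖x‖ ^ 2 - 1) ^ 2)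
      (fun x : E (n + 1) => (‖x‖ ^ 2 - 1) ^ 2), vE]
    ring
  have iEE : Integrable (fun z : E (n + 1) × E (n + 1) => (‖z.1‖ ^ 2 - 1) ^ 2 * (‖z.2‖ ^ 2 - 1) ^ 2)
      (μ.prod μ) := iE.mul_prod iE
  have iI : Integrable (fun z : E (n + 1) × E (n + 1) => (inner ℝ z.1 z.2 : ℝ) ^ 2) (μ.prod μ) := by
    refine Integrable.of_bound (by fun_prop) (4 ^ 2) ?_
    filter_upwards [hPb] with z hz
    rw [Real.norm_eq_abs, abs_pow]
    exact pow_le_pow_left₀ (abs_nonneg _) hz.2 2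
  have eI : ∫ z, (inner ℝ z.1 z.2 : ℝ) ^ 2 ∂(μ.prod μ) = vI μ := integral_prod _ iI
  have hvE0 : 0 ≤ vE μ := integral_nonneg fun x => sq_nonneg _
  -- AM-GM
  have key : ∀ s : ℝ, 0 < s → he σ μ v ≤ s / 2 * vE μ ^ 2 + 16 * C ^ 2 * (δ + A) ^ 2 / s := by
    intro s hs
    have h1 : ∫ z, F z ∂(μ.prod μ) ≤ ∫ z, (s / 2 * ((‖z.1‖ ^ 2 - 1) ^ 2 * (‖z.2‖ ^ 2 - 1) ^ 2) +
        (C ^ 2 / s * (16 * (inner ℝ z.1 z.2 : ℝ) ^ 2) + C ^ 2 / s * A ^ 2)) ∂(μ.prod μ) := by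
      refine integral_mono_ae iF ((iEE.const_mul _).add (((iI.const_mul 16).const_mul _).add
        (integrable_const _))) ?_
      filter_upwards [hPb] with z hz
      set e := (‖z.1‖ ^ 2 - 1) * (‖z.2‖ ^ 2 - 1) with he'
      set p := gE v z.1 z.2 * Ps σ v z.1 z.2 with hp'
      set w := (inner ℝ z.1 z.2 : ℝ) ^ 2 with hw
      have hw0 : 0 ≤ w := sq_nonneg _
      have hw16 : w ≤ 16 := by
        have : w ≤ 4 ^ 2 := by
          rw [hw, ← sq_abs]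
          exact pow_le_pow_left₀ (abs_nonneg _) hz.2 2
        linarith
      have hp1 : |p| ≤ C * (w + A) := by
        rw [hp', abs_mul, abs_of_nonneg (hg1 z).1]
        exact (mul_le_of_le_one_left (abs_nonneg _) (hg1 z).2).trans hz.1
      have hp2 : p ^ 2 ≤ 2 * (C ^ 2 * (16 * w) + C ^ 2 * A ^ 2) := by
        have h3 : p ^ 2 ≤ (C * (w + A)) ^ 2 := by
          rw [← sq_abs]
          exact pow_le_pow_left₀ (abs_nonneg _) hp1 2
        have h4 : (w + A) ^ 2 ≤ 2 * (16 * w + A ^ 2) := by nlinarith [sq_nonneg (w - A)]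
        calc p ^ 2 ≤ (C * (w + A)) ^ 2 := h3
          _ = C ^ 2 * (w + A) ^ 2 := by ring
          _ ≤ C ^ 2 * (2 * (16 * w + A ^ 2)) := mul_le_mul_of_nonneg_left h4 (by positivity)
          _ = _ := by ring
      have h5 : e * p ≤ s / 2 * e ^ 2 + p ^ 2 / (2 * s) := by
        have : s / 2 * e ^ 2 + p ^ 2 / (2 * s) - e * p = (s * e - p) ^ 2 / (2 * s) := by
          field_simp
          ring
        have h6 : 0 ≤ (s * e - p) ^ 2 / (2 * s) := by positivity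
        linarith
      have h7 : p ^ 2 / (2 * s) ≤ (C ^ 2 / s * (16 * w) + C ^ 2 / s * A ^ 2) := by
        rw [div_le_iff₀ (by positivity)]
        have : (C ^ 2 / s * (16 * w) + C ^ 2 / s * A ^ 2) * (2 * s) =
            2 * (C ^ 2 * (16 * w) + C ^ 2 * A ^ 2) := by
          field_simp
        rw [this]
        exact hp2
      have h8 : e ^ 2 = (‖z.1‖ ^ 2 - 1) ^ 2 * (‖z.2‖ ^ 2 - 1) ^ 2 := by rw [he']; ring
      have h9 : F z = e * p := rfl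
      rw [h9, ← h8]
      linarith
    have h2 : ∫ z, (s / 2 * ((‖z.1‖ ^ 2 - 1) ^ 2 * (‖z.2‖ ^ 2 - 1) ^ 2) +
        (C ^ 2 / s * (16 * (inner ℝ z.1 z.2 : ℝ) ^ 2) + C ^ 2 / s * A ^ 2)) ∂(μ.prod μ) =
        s / 2 * vE μ ^ 2 + (C ^ 2 / s * (16 * vI μ) + C ^ 2 / s * A ^ 2) := by
      have j1 : Integrable (fun z : E (n + 1) × E (n + 1) => C ^ 2 / s *
          (16 * (inner ℝ z.1 z.2 : ℝ) ^ 2)) (μ.prod μ) := (iI.const_mul 16).const_mul _
      have j2 : Integrable (fun z : E (n + 1) × E (n + 1) => C ^ 2 / s *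
          (16 * (inner ℝ z.1 z.2 : ℝ) ^ 2) + C ^ 2 / s * A ^ 2) (μ.prod μ) :=
        j1.add (integrable_const _)
      rw [integral_add (iEE.const_mul _) j2,
        integral_add j1 (integrable_const _), integral_const_mul,
        integral_const_mul, integral_const_mul, eE, eI]
      simp
    rw [eF]
    refine h1.trans ?_
    rw [h2]
    have h3 : C ^ 2 / s * (16 * vI μ) + C ^ 2 / s * A ^ 2 ≤ 16 * C ^ 2 * (δ + A) ^ 2 / s := by
      have h4 : 16 * vI μ + A ^ 2 ≤ 16 * (δ + A) ^ 2 := by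
        have := hμ.iso
        nlinarith
      have h5 : C ^ 2 / s * (16 * vI μ) + C ^ 2 / s * A ^ 2 = C ^ 2 / s * (16 * vI μ + A ^ 2) := by
        ring
      rw [h5]
      calc C ^ 2 / s * (16 * vI μ + A ^ 2) ≤ C ^ 2 / s * (16 * (δ + A) ^ 2) :=
            mul_le_mul_of_nonneg_left h4 (by positivity)
        _ = _ := by ring
    linarith
  rcases hvE0.eq_or_lt with h0 | hpos
  · -- `vE μ = 0`
    rw [← h0]
    simp only [mul_zero]
    by_contra hc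
    push Not at hc
    have hk := key (32 * C ^ 2 * (δ + A) ^ 2 / he σ μ v) (by positivity)
    rw [← h0] at hk
    have : 16 * C ^ 2 * (δ + A) ^ 2 / (32 * C ^ 2 * (δ + A) ^ 2 / he σ μ v) = he σ μ v / 2 := by
      have hδA : δ + A ≠ 0 := by positivity
      field_simp
      ring
    rw [this] at hk
    simp at hk
    linarith
  · have hk := key (4 * C * (δ + A) / vE μ) (by positivity)
    have e : 4 * C * (δ + A) / vE μ / 2 * vE μ ^ 2 + 16 * C ^ 2 * (δ + A) ^ 2 /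
        (4 * C * (δ + A) / vE μ) = 6 * C * (δ + A) * vE μ := by
      have hδA : δ + A ≠ 0 := by positivity
      field_simp
      ring
    rw [e] at hk
    exact hk

end Pool.Agent.Lib.MP_6cd19d_an.SH
end

section

/-!
# Positivity of the part of degree at least two

`m_k = ∫ y_0^k dσ`, `κ_k(x,y) = ⟨x,y⟩^k - m_k (|x||y|)^k - (n+1) m_{k+1} (|x||y|)^(k-1) ⟨x,y⟩` (`k ≥ 1`), `κ_0 = κ_1 = 0`
(`m_0 = 1`, `m_1 = 0`, `(n+1) m_2 = 1`), `m_k = 0` for odd `k`.  Then `Ps σ v x y = ∑_{k ≥ 2} (2v)^k/k! κ_k(x,y)` for `x, y ≠ 0`.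

Each `κ_k` is positive definite: let `τ = f μ - (a + ⟨c, z⟩) dσ(z)` (`a` real, `c` a vector).  `⟨x,y⟩^k` is positive definite
(expand it as `∑` over `i : Fin k → Fin (n+1)` of `∏ x_{i_j} ∏ y_{i_j}`), so `0 ≤ ∬ ⟨x,y⟩^k dτ dτ`.  For even `k` take `c = 0`:
`∫ ⟨x,z⟩^k dσ(z) = m_k |x|^k` (rotation invariance), so `0 ≤ X - 2 a m_k F + a^2 m_k` with `X = ∬ f f ⟨x,y⟩^k dμ dμ`,
`F = ∫ f |x|^k dμ`; `a = F` gives `X ≥ m_k F^2`.  For odd `k` take `a = 0`: `∫ ⟨x,z⟩^k ⟨c,z⟩ dσ(z) = m_{k+1} |x|^(k-1) ⟨x,c⟩`,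
`∬ ⟨z,z'⟩^k ⟨c,z⟩⟨c,z'⟩ = m_{k+1} |c|^2/(n+1)`, so `0 ≤ X - 2 m_{k+1} ⟨c,b⟩ + m_{k+1} |c|^2/(n+1)`, `b = ∫ f |x|^(k-1) x dμ`;
`c = (n+1) b` gives `X ≥ (n+1) m_{k+1} |b|^2`.

`ps_psd`: sum of the series (dominated: `|⟨x,y⟩|, |x||y| ≤ R^2`).
`h2_diff`: `Q(α,v) = ∬ exp(-α(|x|^2+|y|^2)) Ps σ v x y dμ dμ`, `h2(v) = Q(v,v)`.  `v ∂_v Q = ∑ k (2v)^k/k! a_k ≥ 2 Q`
(`a_k ≥ 0` the quadratic form of `κ_k` at `exp(-α|x|^2)`, only `k ≥ 2` occurs); `∂_α Q = -2 ∬ |x|^2 exp(...) Ps`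
(symmetry).  So `v h2' ≥ 2 h2 - 2 v ∬ (1 + ε(x)) exp(..) Ps = (2 - 2v) h2 - 2v ∬ ε(x) exp(..) Ps`, `ε = |x|^2 - 1`, and
Cauchy-Schwarz for the nonnegative quadratic form (`ps_psd` for all `f = a + b ε`): `(∬ ε(x) exp Ps)^2 ≤ he h2`, so
`2 v |∬ ε exp Ps| ≤ h2/2 + 2 v^2 he`.  (`gE v x y = exp(-v|x|^2) exp(-v|y|^2)`.)
-/

set_option autoImplicit false

open MeasureTheory Set Filter Topology
open scoped ENNReal NNReal

namespace Pool.Agent.Lib.MP_6cd19d_an.SH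

open Pool.Agent.Lib.MP_6cd19d_an.ND Pool.Agent.Lib.MP_6cd19d_an.HP

variable {n : ℕ}

private theorem zF0 (σ : Measure (E (n + 1))) : T7.zF σ 0 Real.exp = zS σ := by
  funext κ
  simp [T7.zF, zS]

private theorem zF1 (σ : Measure (E (n + 1))) : T7.zF σ 1 Real.exp = z1S σ := by
  funext κ
  simp [T7.zF, z1S]

private theorem Ps_eq (σ : Measure (E (n + 1))) (v : ℝ) (x y : E (n + 1)) :
    Ps σ v x y = T7.KF σ Real.exp v x y := by
  unfold Ps T7.KF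
  rw [zF0, zF1]

private theorem gE_eq (v : ℝ) (x y : E (n + 1)) :
    gE v x y = Real.exp (-v * ‖x‖ ^ 2) * Real.exp (-v * ‖y‖ ^ 2) := by
  unfold gE
  rw [← Real.exp_add]
  congr 1
  ring

section aux

variable {σ μ : Measure (E (n + 1))} [IsFiniteMeasure μ] {R : ℝ}

private theorem gx_meas (v : ℝ) : Measurable fun x : E (n + 1) => Real.exp (-v * ‖x‖ ^ 2) := by
  fun_prop

omit [IsFiniteMeasure μ] in
private theorem gx_bd (hμ : ∀ᵐ x ∂μ, x ≠ 0 ∧ ‖x‖ ≤ R) (v : ℝ) :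
    ∀ᵐ x ∂μ, |Real.exp (-v * ‖x‖ ^ 2)| ≤ Real.exp (|v| * R ^ 2) := by
  filter_upwards [hμ] with x hx
  rw [abs_of_pos (Real.exp_pos _)]
  apply Real.exp_le_exp.2
  have h1 : ‖x‖ ^ 2 ≤ R ^ 2 := pow_le_pow_left₀ (norm_nonneg _) hx.2 2
  calc -v * ‖x‖ ^ 2 ≤ |v| * ‖x‖ ^ 2 :=
        mul_le_mul_of_nonneg_right (neg_le_abs v) (by positivity)
    _ ≤ |v| * R ^ 2 := mul_le_mul_of_nonneg_left h1 (abs_nonneg _)

omit [IsFiniteMeasure μ] in
private theorem poly_bd (hμ : ∀ᵐ x ∂μ, x ≠ 0 ∧ ‖x‖ ≤ R) (v a b : ℝ) :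
    ∀ᵐ x ∂μ, |(a + b * (‖x‖ ^ 2 - 1)) * Real.exp (-v * ‖x‖ ^ 2)| ≤
      (|a| + |b| * (R ^ 2 + 1)) * Real.exp (|v| * R ^ 2) := by
  filter_upwards [hμ, gx_bd hμ v] with x hx h2
  have h1 : ‖x‖ ^ 2 ≤ R ^ 2 := pow_le_pow_left₀ (norm_nonneg _) hx.2 2
  rw [abs_mul]
  refine mul_le_mul ?_ h2 (abs_nonneg _) (by positivity)
  refine (abs_add_le _ _).trans (add_le_add le_rfl ?_)
  rw [abs_mul]
  refine mul_le_mul_of_nonneg_left ?_ (abs_nonneg _)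
  rw [abs_le]
  have h3 : 0 ≤ ‖x‖ ^ 2 := by positivity
  constructor <;> nlinarith

private theorem poly_meas (v a b : ℝ) :
    Measurable fun x : E (n + 1) => (a + b * (‖x‖ ^ 2 - 1)) * Real.exp (-v * ‖x‖ ^ 2) := by
  fun_prop

private theorem h2_prod (hσ : SphM σ) (hμ : ∀ᵐ x ∂μ, x ≠ 0 ∧ ‖x‖ ≤ R) (v : ℝ) :
    Integrable (fun p : E (n + 1) × E (n + 1) => gE v p.1 p.2 * Ps σ v p.1 p.2) (μ.prod μ) ∧
    h2 σ μ v = ∫ p, gE v p.1 p.2 * Ps σ v p.1 p.2 ∂(μ.prod μ) := by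
  have hi : Integrable (fun p : E (n + 1) × E (n + 1) => gE v p.1 p.2 * Ps σ v p.1 p.2)
      (μ.prod μ) := by
    refine (T7.KF_int hσ Real.continuous_exp hμ (gx_meas v) (gx_bd hμ v) v).congr
      (Eventually.of_forall fun p => ?_)
    show Real.exp (-v * ‖p.1‖ ^ 2) * Real.exp (-v * ‖p.2‖ ^ 2) * T7.KF σ Real.exp v p.1 p.2 =
      gE v p.1 p.2 * Ps σ v p.1 p.2
    rw [gE_eq, Ps_eq]
  refine ⟨hi, ?_⟩
  rw [integral_prod _ hi]
  rfl

private theorem he_prod (hσ : SphM σ) (hμ : ∀ᵐ x ∂μ, x ≠ 0 ∧ ‖x‖ ≤ R) (v : ℝ) :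
    Integrable (fun p : E (n + 1) × E (n + 1) =>
      (‖p.1‖ ^ 2 - 1) * (‖p.2‖ ^ 2 - 1) * (gE v p.1 p.2 * Ps σ v p.1 p.2)) (μ.prod μ) ∧
    he σ μ v = ∫ p, (‖p.1‖ ^ 2 - 1) * (‖p.2‖ ^ 2 - 1) * (gE v p.1 p.2 * Ps σ v p.1 p.2)
      ∂(μ.prod μ) := by
  have hi : Integrable (fun p : E (n + 1) × E (n + 1) =>
      (‖p.1‖ ^ 2 - 1) * (‖p.2‖ ^ 2 - 1) * (gE v p.1 p.2 * Ps σ v p.1 p.2)) (μ.prod μ) := by
    refine (T7.KF_int hσ Real.continuous_exp hμ (poly_meas v 0 1) (poly_bd hμ v 0 1) v).congr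
      (Eventually.of_forall fun p => ?_)
    show (0 + 1 * (‖p.1‖ ^ 2 - 1)) * Real.exp (-v * ‖p.1‖ ^ 2) *
      ((0 + 1 * (‖p.2‖ ^ 2 - 1)) * Real.exp (-v * ‖p.2‖ ^ 2)) * T7.KF σ Real.exp v p.1 p.2 =
      (‖p.1‖ ^ 2 - 1) * (‖p.2‖ ^ 2 - 1) * (gE v p.1 p.2 * Ps σ v p.1 p.2)
    rw [gE_eq, Ps_eq]
    ring
  refine ⟨hi, ?_⟩
  rw [integral_prod _ hi]
  rfl

private theorem exp_psd (hσ : SphM σ) (hμ : ∀ᵐ x ∂μ, x ≠ 0 ∧ ‖x‖ ≤ R) {f : E (n + 1) → ℝ}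
    (hf : Measurable f) {B : ℝ} (hB : ∀ᵐ x ∂μ, |f x| ≤ B) {v : ℝ} (hv : 0 ≤ v) :
    0 ≤ ∫ p, f p.1 * f p.2 * T7.KF σ Real.exp v p.1 p.2 ∂(μ.prod μ) :=
  T7.KF_psd hσ T7.exp_series.1 T7.exp_series.2 (fun k _ => by positivity) hμ hf hB hv

private theorem exp2_psd (hσ : SphM σ) (hμ : ∀ᵐ x ∂μ, x ≠ 0 ∧ ‖x‖ ≤ R) {f : E (n + 1) → ℝ}
    (hf : Measurable f) {B : ℝ} (hB : ∀ᵐ x ∂μ, |f x| ≤ B) {v : ℝ} (hv : 0 ≤ v) :
    0 ≤ ∫ p, f p.1 * f p.2 * T7.KF σ (fun t => (t - 2) * Real.exp t) v p.1 p.2 ∂(μ.prod μ) := by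
  refine T7.KF_psd hσ T7.exp2_series.1 T7.exp2_series.2 (fun k hk => ?_) hμ hf hB hv
  have : (2 : ℝ) ≤ k := by exact_mod_cast hk
  exact mul_nonneg (by linarith) (by positivity)

private theorem zF_abs (hσ : SphM σ) (j : ℕ) (κ : ℝ) : |T7.zF σ j Real.exp κ| ≤ Real.exp |κ| := by
  have hp := T7.prob hσ
  have h := norm_integral_le_of_norm_le_const (μ := σ)
    (f := fun z : E (n + 1) => (z 0) ^ j * Real.exp (κ * z 0)) (C := Real.exp |κ|) (by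
      filter_upwards [sph_abs hσ] with z hz
      rw [Real.norm_eq_abs, abs_mul, abs_pow, abs_of_pos (Real.exp_pos _)]
      calc |z 0| ^ j * Real.exp (κ * z 0) ≤ 1 * Real.exp |κ| := by
            refine mul_le_mul (pow_le_one₀ (abs_nonneg _) hz) ?_ (Real.exp_pos _).le zero_le_one
            apply Real.exp_le_exp.2
            calc κ * z 0 ≤ |κ * z 0| := le_abs_self _
              _ = |κ| * |z 0| := abs_mul _ _
              _ ≤ |κ| * 1 := mul_le_mul_of_nonneg_left hz (abs_nonneg _)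
              _ = |κ| := mul_one _
        _ = Real.exp |κ| := one_mul _)
  simpa [T7.zF] using h

/-- the derivative of `Ps` in `v` -/
private noncomputable def Ps1 (σ : Measure (E (n + 1))) (v : ℝ) (x y : E (n + 1)) : ℝ :=
  2 * inner ℝ x y * Real.exp (2 * v * inner ℝ x y) -
    2 * (‖x‖ * ‖y‖) * T7.zF σ 1 Real.exp (2 * v * (‖x‖ * ‖y‖)) -
    ((n : ℝ) + 1) * (2 * (‖x‖ * ‖y‖) * T7.zF σ 2 Real.exp (2 * v * (‖x‖ * ‖y‖))) *
      (inner ℝ x y / (‖x‖ * ‖y‖))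

private theorem Ps_der (hn : 1 ≤ n) (hσ : SphM σ) (v : ℝ) (x y : E (n + 1)) :
    HasDerivAt (fun v => Ps σ v x y) (Ps1 σ v x y) v := by
  have hb := bes_sphere hn hσ
  have e2 : T7.zF σ 2 Real.exp = fun κ => ∫ y, (y 0) ^ 2 * Real.exp (κ * y 0) ∂σ := rfl
  have l1 : HasDerivAt (fun v : ℝ => 2 * v * inner ℝ x y) (2 * inner ℝ x y) v := by
    have := ((hasDerivAt_id v).const_mul 2).mul_const (inner ℝ x y)
    simpa using this
  have l2 : HasDerivAt (fun v : ℝ => 2 * v * (‖x‖ * ‖y‖)) (2 * (‖x‖ * ‖y‖)) v := by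
    have := ((hasDerivAt_id v).const_mul 2).mul_const (‖x‖ * ‖y‖)
    simpa using this
  have d1 : HasDerivAt (zS σ) (z1S σ (2 * v * (‖x‖ * ‖y‖))) (2 * v * (‖x‖ * ‖y‖)) :=
    hb.d1 (2 * v * (‖x‖ * ‖y‖))
  have d2 : HasDerivAt (z1S σ) (T7.zF σ 2 Real.exp (2 * v * (‖x‖ * ‖y‖)))
      (2 * v * (‖x‖ * ‖y‖)) := hb.d2 (2 * v * (‖x‖ * ‖y‖))
  have a1 := l1.exp
  have a2 := d1.comp v l2
  have a3 := ((d2.comp v l2).const_mul ((n : ℝ) + 1)).mul_const (inner ℝ x y / (‖x‖ * ‖y‖))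
  have h := (a1.sub a2).sub a3
  have e3 : Ps1 σ v x y = Real.exp (2 * v * inner ℝ x y) * (2 * inner ℝ x y) -
      z1S σ (2 * v * (‖x‖ * ‖y‖)) * (2 * (‖x‖ * ‖y‖)) -
      ((n : ℝ) + 1) * (T7.zF σ 2 Real.exp (2 * v * (‖x‖ * ‖y‖)) * (2 * (‖x‖ * ‖y‖))) *
        (inner ℝ x y / (‖x‖ * ‖y‖)) := by
    unfold Ps1
    rw [zF1]
    ring
  rw [e3]
  exact h

private theorem KF2_eq (hσ : SphM σ) (v : ℝ) (x y : E (n + 1)) :
    T7.KF σ (fun t => (t - 2) * Real.exp t) v x y = v * Ps1 σ v x y - 2 * Ps σ v x y := by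
  have c0 := T7.cC (n := n) 0
  have hz : ∀ (j : ℕ) (κ : ℝ), T7.zF σ j (fun t => (t - 2) * Real.exp t) κ =
      κ * T7.zF σ (j + 1) Real.exp κ - 2 * T7.zF σ j Real.exp κ := by
    intro j κ
    unfold T7.zF
    have i1 : Integrable (fun z : E (n + 1) => (z 0) ^ (j + 1) * Real.exp (κ * z 0)) σ :=
      T7.intC hσ (by fun_prop)
    have i2 : Integrable (fun z : E (n + 1) => (z 0) ^ j * Real.exp (κ * z 0)) σ :=
      T7.intC hσ (by fun_prop)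
    rw [← integral_const_mul, ← integral_const_mul, ← integral_sub (i1.const_mul κ)
      (i2.const_mul 2)]
    refine integral_congr_ae (Eventually.of_forall fun z => ?_)
    show (z 0) ^ j * ((κ * z 0 - 2) * Real.exp (κ * z 0)) =
      κ * ((z 0) ^ (j + 1) * Real.exp (κ * z 0)) - 2 * ((z 0) ^ j * Real.exp (κ * z 0))
    ring
  rw [Ps_eq]
  unfold T7.KF Ps1
  rw [hz, hz]
  ring

private theorem Ps1_meas (hσ : SphM σ) (v : ℝ) :
    Measurable fun p : E (n + 1) × E (n + 1) => Ps1 σ v p.1 p.2 := by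
  unfold Ps1
  have c3 : Measurable fun p : E (n + 1) × E (n + 1) => inner ℝ p.1 p.2 := by fun_prop
  have c4 : Measurable fun p : E (n + 1) × E (n + 1) => ‖p.1‖ * ‖p.2‖ := by fun_prop
  have c5 := (T7.zF_cont hσ 1 Real.continuous_exp).measurable.comp (c4.const_mul (2 * v))
  have c6 := (T7.zF_cont hσ 2 Real.continuous_exp).measurable.comp (c4.const_mul (2 * v))
  have c7 : Measurable fun p : E (n + 1) × E (n + 1) => Real.exp (2 * v * inner ℝ p.1 p.2) :=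
    Real.measurable_exp.comp (c3.const_mul (2 * v))
  exact (((c3.const_mul 2).mul c7).sub ((c4.const_mul 2).mul c5)).sub
    ((measurable_const.mul ((c4.const_mul 2).mul c6)).mul (c3.div c4))

private theorem gE_meas (v : ℝ) : Measurable fun p : E (n + 1) × E (n + 1) => gE v p.1 p.2 := by
  unfold gE
  fun_prop

private theorem all_bd (hσ : SphM σ) {V : ℝ} (hR : 0 ≤ R) {v : ℝ} (hv : |v| ≤ V) {x y : E (n + 1)}
    (hx : ‖x‖ ≤ R) (hy : ‖y‖ ≤ R) :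
    |Ps σ v x y| ≤ ((n : ℝ) + 3) * Real.exp (2 * V * (R * R)) ∧
    |Ps1 σ v x y| ≤ 2 * (R * R) * (((n : ℝ) + 3) * Real.exp (2 * V * (R * R))) ∧
    |gE v x y| ≤ Real.exp (2 * V * (R * R)) := by
  have hV : 0 ≤ V := (abs_nonneg _).trans hv
  have hxy : ‖x‖ * ‖y‖ ≤ R * R := mul_le_mul hx hy (norm_nonneg _) hR
  have hxy0 : 0 ≤ ‖x‖ * ‖y‖ := by positivity
  have hin : |inner ℝ x y| ≤ R * R := (abs_real_inner_le_norm x y).trans hxy
  have hcos : |inner ℝ x y / (‖x‖ * ‖y‖)| ≤ 1 := abs_real_inner_div_norm_mul_norm_le_one x y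
  set K : ℝ := Real.exp (2 * V * (R * R)) with hK
  have hK0 : 0 < K := Real.exp_pos _
  have b1 : |Real.exp (2 * v * inner ℝ x y)| ≤ K := by
    rw [abs_of_pos (Real.exp_pos _)]
    apply Real.exp_le_exp.2
    calc 2 * v * inner ℝ x y ≤ |2 * v * inner ℝ x y| := le_abs_self _
      _ = 2 * |v| * |inner ℝ x y| := by rw [abs_mul, abs_mul, abs_two]
      _ ≤ 2 * V * (R * R) := by
          refine mul_le_mul ?_ hin (abs_nonneg _) (by positivity)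
          linarith
  have b2 : ∀ j : ℕ, |T7.zF σ j Real.exp (2 * v * (‖x‖ * ‖y‖))| ≤ K := by
    intro j
    refine (zF_abs hσ j _).trans ?_
    apply Real.exp_le_exp.2
    rw [abs_mul, abs_mul, abs_two, abs_of_nonneg hxy0]
    refine mul_le_mul ?_ hxy hxy0 (by positivity)
    linarith
  have hn1 : (0 : ℝ) ≤ (n : ℝ) + 1 := by positivity
  refine ⟨?_, ?_, ?_⟩
  · rw [Ps_eq]
    unfold T7.KF
    have h3 : |((n : ℝ) + 1) * T7.zF σ 1 Real.exp (2 * v * (‖x‖ * ‖y‖)) *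
        (inner ℝ x y / (‖x‖ * ‖y‖))| ≤ ((n : ℝ) + 1) * K := by
      rw [abs_mul, abs_mul, abs_of_nonneg hn1]
      calc ((n : ℝ) + 1) * |T7.zF σ 1 Real.exp (2 * v * (‖x‖ * ‖y‖))| *
            |inner ℝ x y / (‖x‖ * ‖y‖)| ≤ ((n : ℝ) + 1) * K * 1 := by
            refine mul_le_mul ?_ hcos (abs_nonneg _) (by positivity)
            exact mul_le_mul_of_nonneg_left (b2 1) hn1
        _ = ((n : ℝ) + 1) * K := mul_one _
    refine (abs_sub _ _).trans ?_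
    have h4 := abs_sub (Real.exp (2 * v * inner ℝ x y))
      (T7.zF σ 0 Real.exp (2 * v * (‖x‖ * ‖y‖)))
    have h5 := b2 0
    linarith
  · unfold Ps1
    have q1 : |2 * inner ℝ x y * Real.exp (2 * v * inner ℝ x y)| ≤ 2 * (R * R) * K := by
      rw [abs_mul, abs_mul, abs_two]
      refine mul_le_mul ?_ b1 (abs_nonneg _) (by positivity)
      linarith
    have q2 : ∀ j : ℕ, |2 * (‖x‖ * ‖y‖) * T7.zF σ j Real.exp (2 * v * (‖x‖ * ‖y‖))| ≤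
        2 * (R * R) * K := by
      intro j
      rw [abs_mul, abs_mul, abs_two, abs_of_nonneg hxy0]
      refine mul_le_mul ?_ (b2 j) (abs_nonneg _) (by positivity)
      linarith
    have q3 : |((n : ℝ) + 1) * (2 * (‖x‖ * ‖y‖) * T7.zF σ 2 Real.exp (2 * v * (‖x‖ * ‖y‖))) *
        (inner ℝ x y / (‖x‖ * ‖y‖))| ≤ ((n : ℝ) + 1) * (2 * (R * R) * K) := by
      rw [abs_mul, abs_mul, abs_of_nonneg hn1]
      calc ((n : ℝ) + 1) * |2 * (‖x‖ * ‖y‖) * T7.zF σ 2 Real.exp (2 * v * (‖x‖ * ‖y‖))| *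
            |inner ℝ x y / (‖x‖ * ‖y‖)| ≤ ((n : ℝ) + 1) * (2 * (R * R) * K) * 1 := by
            refine mul_le_mul ?_ hcos (abs_nonneg _) (by positivity)
            exact mul_le_mul_of_nonneg_left (q2 2) hn1
        _ = ((n : ℝ) + 1) * (2 * (R * R) * K) := mul_one _
    refine (abs_sub _ _).trans ?_
    have h4 := abs_sub (2 * inner ℝ x y * Real.exp (2 * v * inner ℝ x y))
      (2 * (‖x‖ * ‖y‖) * T7.zF σ 1 Real.exp (2 * v * (‖x‖ * ‖y‖)))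
    have h5 := q2 1
    nlinarith
  · unfold gE
    rw [abs_of_pos (Real.exp_pos _)]
    apply Real.exp_le_exp.2
    have h1 : ‖x‖ ^ 2 + ‖y‖ ^ 2 ≤ 2 * (R * R) := by
      have := pow_le_pow_left₀ (norm_nonneg _) hx 2
      have := pow_le_pow_left₀ (norm_nonneg _) hy 2
      nlinarith
    calc -v * (‖x‖ ^ 2 + ‖y‖ ^ 2) ≤ |v| * (‖x‖ ^ 2 + ‖y‖ ^ 2) :=
          mul_le_mul_of_nonneg_right (neg_le_abs v) (by positivity)
      _ ≤ V * (2 * (R * R)) := mul_le_mul hv h1 (by positivity) hV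
      _ = 2 * V * (R * R) := by ring

end aux

theorem ps_psd (hn : 1 ≤ n) {σ : Measure (E (n + 1))} (hσ : SphM σ) {μ : Measure (E (n + 1))} [IsFiniteMeasure μ]
    {R : ℝ} (hμ : ∀ᵐ x ∂μ, x ≠ 0 ∧ ‖x‖ ≤ R) {f : E (n + 1) → ℝ} (hf : Measurable f) {B : ℝ}
    (hB : ∀ x, |f x| ≤ B) {v : ℝ} (hv : 0 ≤ v) :
    0 ≤ ∫ x, ∫ y, f x * f y * Ps σ v x y ∂μ ∂μ := by
  have hB' : ∀ᵐ x ∂μ, |f x| ≤ B := Eventually.of_forall hB
  have h := exp_psd hσ hμ hf hB' hv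
  have hi := T7.KF_int hσ Real.continuous_exp hμ hf hB' v
  rw [integral_prod _ hi] at h
  simp only [Ps_eq]
  exact h

theorem h2_nonneg (hn : 1 ≤ n) {σ : Measure (E (n + 1))} (hσ : SphM σ) {μ : Measure (E (n + 1))} [IsFiniteMeasure μ]
    {R : ℝ} (hμ : ∀ᵐ x ∂μ, x ≠ 0 ∧ ‖x‖ ≤ R) {v : ℝ} (hv : 0 ≤ v) : 0 ≤ h2 σ μ v ∧ 0 ≤ he σ μ v := by
  constructor
  · rw [(h2_prod hσ hμ v).2]
    have h := exp_psd hσ hμ (gx_meas v) (gx_bd hμ v) hv
    refine h.trans (le_of_eq (integral_congr_ae (Eventually.of_forall fun p => ?_)))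
    show Real.exp (-v * ‖p.1‖ ^ 2) * Real.exp (-v * ‖p.2‖ ^ 2) * T7.KF σ Real.exp v p.1 p.2 =
      gE v p.1 p.2 * Ps σ v p.1 p.2
    rw [gE_eq, Ps_eq]
  · rw [(he_prod hσ hμ v).2]
    have h := exp_psd hσ hμ (poly_meas v 0 1) (poly_bd hμ v 0 1) hv
    refine h.trans (le_of_eq (integral_congr_ae (Eventually.of_forall fun p => ?_)))
    show (0 + 1 * (‖p.1‖ ^ 2 - 1)) * Real.exp (-v * ‖p.1‖ ^ 2) *
      ((0 + 1 * (‖p.2‖ ^ 2 - 1)) * Real.exp (-v * ‖p.2‖ ^ 2)) * T7.KF σ Real.exp v p.1 p.2 =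
      (‖p.1‖ ^ 2 - 1) * (‖p.2‖ ^ 2 - 1) * (gE v p.1 p.2 * Ps σ v p.1 p.2)
    rw [gE_eq, Ps_eq]
    ring

theorem h2_diff (hn : 1 ≤ n) {σ : Measure (E (n + 1))} (hσ : SphM σ) {μ : Measure (E (n + 1))} [IsFiniteMeasure μ]
    {R : ℝ} (hμ : ∀ᵐ x ∂μ, x ≠ 0 ∧ ‖x‖ ≤ R) {v : ℝ} (hv : 0 < v) :
    ∃ h' : ℝ, HasDerivAt (h2 σ μ) h' v ∧ (3 / 2 - 2 * v) * h2 σ μ v - 2 * v ^ 2 * he σ μ v ≤ v * h' := by
  set P : Measure (E (n + 1) × E (n + 1)) := μ.prod μ with hP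
  set F : ℝ → E (n + 1) × E (n + 1) → ℝ := fun v p => gE v p.1 p.2 * Ps σ v p.1 p.2 with hF
  set F' : ℝ → E (n + 1) × E (n + 1) → ℝ := fun v p =>
    (gE v p.1 p.2 * (-(‖p.1‖ ^ 2 + ‖p.2‖ ^ 2))) * Ps σ v p.1 p.2 + gE v p.1 p.2 * Ps1 σ v p.1 p.2
    with hF'
  have hPsm : ∀ v : ℝ, Measurable fun p : E (n + 1) × E (n + 1) => Ps σ v p.1 p.2 := by
    intro v
    have h := T7.KF_meas hσ Real.continuous_exp v
    simpa only [Ps_eq] using h
  have hnm : Measurable fun p : E (n + 1) × E (n + 1) => -(‖p.1‖ ^ 2 + ‖p.2‖ ^ 2) := by fun_prop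
  have hF'm : Measurable (F' v) :=
    (((gE_meas v).mul hnm).mul (hPsm v)).add ((gE_meas v).mul (Ps1_meas hσ v))
  set K : ℝ := Real.exp (2 * (|v| + 1) * (|R| * |R|)) with hK
  set C : ℝ := (K * (2 * (|R| * |R|))) * (((n : ℝ) + 3) * K) +
    K * (2 * (|R| * |R|) * (((n : ℝ) + 3) * K)) with hC
  have hmain := hasDerivAt_integral_of_dominated_loc_of_deriv_le (μ := P) (F := F) (F' := F')
    (x₀ := v) (s := Metric.ball v 1) (bound := fun _ => C) (Metric.ball_mem_nhds v one_pos)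
    (Eventually.of_forall fun w => (((gE_meas w).mul (hPsm w)).aestronglyMeasurable))
    (h2_prod hσ hμ v).1 hF'm.aestronglyMeasurable ?_ (integrable_const C) ?_
  · obtain ⟨hF'i, hder⟩ := hmain
    have hfun : (h2 σ μ) = fun w => ∫ p, F w p ∂P := by
      funext w
      exact (h2_prod hσ hμ w).2
    refine ⟨∫ p, F' v p ∂P, by rw [hfun]; exact hder, ?_⟩
    have hv0 := hv.le
    have i1 := (h2_prod hσ hμ v).1
    have i2 := (he_prod hσ hμ v).1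
    rw [(h2_prod hσ hμ v).2, (he_prod hσ hμ v).2, ← hP]
    have g2 := exp2_psd hσ hμ (gx_meas v) (gx_bd hμ v) hv0
    have g3 := exp_psd hσ hμ (poly_meas v 1 (-(2 * v))) (poly_bd hμ v 1 (-(2 * v))) hv0
    have j2 := T7.KF_int hσ (F := fun t => (t - 2) * Real.exp t) (by fun_prop) hμ (gx_meas v)
      (gx_bd hμ v) v
    have j3 := T7.KF_int hσ Real.continuous_exp hμ (poly_meas v 1 (-(2 * v)))
      (poly_bd hμ v 1 (-(2 * v))) v
    rw [← hP] at g2 g3 j2 j3 i1 i2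
    have key : v * ∫ p, F' v p ∂P - ((3 / 2 - 2 * v) * ∫ p, gE v p.1 p.2 * Ps σ v p.1 p.2 ∂P -
        2 * v ^ 2 * ∫ p, (‖p.1‖ ^ 2 - 1) * (‖p.2‖ ^ 2 - 1) * (gE v p.1 p.2 * Ps σ v p.1 p.2) ∂P) =
        (∫ p, Real.exp (-v * ‖p.1‖ ^ 2) * Real.exp (-v * ‖p.2‖ ^ 2) *
          T7.KF σ (fun t => (t - 2) * Real.exp t) v p.1 p.2 ∂P) +
        1 / 2 * ∫ p, (1 + -(2 * v) * (‖p.1‖ ^ 2 - 1)) * Real.exp (-v * ‖p.1‖ ^ 2) *
          ((1 + -(2 * v) * (‖p.2‖ ^ 2 - 1)) * Real.exp (-v * ‖p.2‖ ^ 2)) *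
          T7.KF σ Real.exp v p.1 p.2 ∂P := by
      have i4 : Integrable (fun p : E (n + 1) × E (n + 1) =>
          (3 / 2 - 2 * v) * (gE v p.1 p.2 * Ps σ v p.1 p.2) -
          2 * v ^ 2 * ((‖p.1‖ ^ 2 - 1) * (‖p.2‖ ^ 2 - 1) * (gE v p.1 p.2 * Ps σ v p.1 p.2))) P :=
        (i1.const_mul _).sub (i2.const_mul _)
      rw [← integral_const_mul, ← integral_const_mul, ← integral_const_mul, ← integral_const_mul,
        ← integral_sub (i1.const_mul _) (i2.const_mul _),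
        ← integral_sub (hF'i.const_mul _) i4,
        ← integral_add j2 (j3.const_mul _)]
      refine integral_congr_ae (Eventually.of_forall fun p => ?_)
      show v * ((gE v p.1 p.2 * (-(‖p.1‖ ^ 2 + ‖p.2‖ ^ 2))) * Ps σ v p.1 p.2 +
          gE v p.1 p.2 * Ps1 σ v p.1 p.2) - ((3 / 2 - 2 * v) * (gE v p.1 p.2 * Ps σ v p.1 p.2) -
          2 * v ^ 2 * ((‖p.1‖ ^ 2 - 1) * (‖p.2‖ ^ 2 - 1) * (gE v p.1 p.2 * Ps σ v p.1 p.2))) =
        Real.exp (-v * ‖p.1‖ ^ 2) * Real.exp (-v * ‖p.2‖ ^ 2) *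
          T7.KF σ (fun t => (t - 2) * Real.exp t) v p.1 p.2 +
        1 / 2 * ((1 + -(2 * v) * (‖p.1‖ ^ 2 - 1)) * Real.exp (-v * ‖p.1‖ ^ 2) *
          ((1 + -(2 * v) * (‖p.2‖ ^ 2 - 1)) * Real.exp (-v * ‖p.2‖ ^ 2)) *
          T7.KF σ Real.exp v p.1 p.2)
      rw [KF2_eq hσ, ← Ps_eq, gE_eq]
      ring
    linarith
  · filter_upwards [T7.ae_prod hμ] with p hp w hw
    have hw' : |w| ≤ |v| + 1 := by
      have h1 : |w - v| < 1 := by
        rw [← Real.dist_eq]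
        exact hw
      have h2 : |w| ≤ |v| + |w - v| := by
        have := abs_add_le v (w - v)
        rwa [add_sub_cancel] at this
      linarith
    have hR : R ≤ |R| := le_abs_self R
    obtain ⟨b1, b2, b3⟩ := all_bd hσ (abs_nonneg R) hw' (hp.1.2.trans hR) (hp.2.2.trans hR)
    have hK0 : 0 < K := Real.exp_pos _
    have b4 : |(-(‖p.1‖ ^ 2 + ‖p.2‖ ^ 2))| ≤ 2 * (|R| * |R|) := by
      rw [abs_neg, abs_of_nonneg (by positivity)]
      have := pow_le_pow_left₀ (norm_nonneg _) (hp.1.2.trans hR) 2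
      have := pow_le_pow_left₀ (norm_nonneg _) (hp.2.2.trans hR) 2
      nlinarith
    rw [Real.norm_eq_abs]
    refine (abs_add_le _ _).trans (add_le_add ?_ ?_)
    · rw [abs_mul, abs_mul]
      refine mul_le_mul (mul_le_mul b3 b4 (abs_nonneg _) hK0.le) b1 (abs_nonneg _) (by positivity)
    · rw [abs_mul]
      exact mul_le_mul b3 b2 (abs_nonneg _) hK0.le
  · refine Eventually.of_forall fun p w _ => ?_
    have e1 : HasDerivAt (fun w => gE w p.1 p.2) (gE w p.1 p.2 * (-(‖p.1‖ ^ 2 + ‖p.2‖ ^ 2))) w := by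
      unfold gE
      have h1 : HasDerivAt (fun w : ℝ => -w * (‖p.1‖ ^ 2 + ‖p.2‖ ^ 2))
          (-(‖p.1‖ ^ 2 + ‖p.2‖ ^ 2)) w := by
        have := (hasDerivAt_id w).neg.mul_const (‖p.1‖ ^ 2 + ‖p.2‖ ^ 2)
        simpa using this
      exact h1.exp
    exact e1.mul (Ps_der hn hσ w p.1 p.2)

end Pool.Agent.Lib.MP_6cd19d_an.SH
end

section

/-!
# A comparison lemma (real analysis)

`v0 = exp L`, `ρ = h/B`.  On `(0,Λ]`: `v ρ' = v h'/B - ρ v B'/B ≥ ρ/4 - r v^2/B`, so `(v^(-1/4) ρ)' ≥ -v^(-5/4) r v^2/B ≥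
-(r/b) v^(-1/4)`.  Hence for `0 < a ≤ c ≤ Λ`: `c^(-1/4) ρ(c) ≥ a^(-1/4) ρ(a) - (4/3)(r/b) c^(3/4)`, so with
`K = (4/3)(r/b) Λ`: `ρ(v) ≤ ρ(v0) + K` for `v ≤ v0`, and `ρ(v) ≥ (v/v0)^(1/4) ρ(v0) - K` for `v0 ≤ v ≤ Λ`.
`∫ w h = ∫ w B (ρ - ρ(v0))` as `∫ w B = 0`.  On `(0,v0)`: `w ≤ 0`, `w B (ρ-ρ(v0)) ≥ -K |w| B`.  On `(v0,Λ)`:
`w B (ρ - ρ(v0)) ≥ ρ(v0) w B ((v/v0)^(1/4) - 1) - K |w| B`, and `(v/v0)^(1/4) - 1 ≥ 1` for `v ≥ 16 v0`, `≥ 0` for `v ≥ v0`.  On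
`(Λ,∞)`: `≥ -ρ(v0) w B`.  Sum: `≥ ρ(v0) (∫_{16v0}^{32v0} w B - ∫_Λ^∞ w B) - K ∫_0^Λ |w| B ≥ -K ∫_0^Λ |w| B`.
-/

set_option autoImplicit false

open MeasureTheory Set Filter Topology
open scoped ENNReal NNReal

namespace Pool.Agent.Lib.MP_6cd19d_an.SH

open Pool.Agent.Lib.MP_6cd19d_an.ND Pool.Agent.Lib.MP_6cd19d_an.HP

variable {n : ℕ}

/-- Monotonicity of `v^(-1/4) h/B + (4/3)(r/b) v^(3/4)`. -/
private theorem cheb_mono {Λ b r : ℝ} (hb : 0 < b) (hr : 0 ≤ r)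
    {h B : ℝ → ℝ} (hh : ∀ v, 0 < v → 0 ≤ h v) (hB : ∀ v, 0 < v → 0 < B v)
    (hh' : ∀ v, 0 < v → v ≤ Λ → ∃ d, HasDerivAt h d v ∧ (3 / 2 - 2 * v) * h v - r * v ^ 2 ≤ v * d)
    (hB' : ∀ v, 0 < v → v ≤ Λ → ∃ d, HasDerivAt B d v ∧ v * d ≤ (5 / 4 - 2 * v) * B v ∧ b * v ≤ B v) :
    MonotoneOn (fun v : ℝ => v ^ (-(1 / 4) : ℝ) * (h v / B v) + 4 / 3 * (r / b) * v ^ (3 / 4 : ℝ)) (Ioc 0 Λ) := by
  have key : ∀ v, 0 < v → v ≤ Λ → ∃ D, HasDerivAt (fun v : ℝ => v ^ (-(1 / 4) : ℝ) * (h v / B v) +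
      4 / 3 * (r / b) * v ^ (3 / 4 : ℝ)) D v ∧ 0 ≤ D := by
    intro v hv hvΛ
    obtain ⟨d, hd, hd'⟩ := hh' v hv hvΛ
    obtain ⟨e, he, he', hbB⟩ := hB' v hv hvΛ
    have hBv := hB v hv
    have hhv := hh v hv
    have h1 := (Real.hasDerivAt_rpow_const (x := v) (p := -(1 / 4)) (Or.inl hv.ne')).mul (hd.div he hBv.ne')
    have h2 := (Real.hasDerivAt_rpow_const (x := v) (p := 3 / 4) (Or.inl hv.ne')).const_mul (4 / 3 * (r / b))
    refine ⟨_, h1.add h2, ?_⟩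
    have e1 : v ^ (-(1 / 4) - 1 : ℝ) = v ^ (-(1 / 4) : ℝ) / v := by
      rw [Real.rpow_sub hv, Real.rpow_one]
    have e2 : v ^ (3 / 4 - 1 : ℝ) = v ^ (-(1 / 4) : ℝ) := by norm_num
    rw [e1, e2]
    set P := v ^ (-(1 / 4) : ℝ) with hP
    have hPpos : 0 < P := Real.rpow_pos_of_pos hv _
    have hq : 0 ≤ -(1 / 4) / v * (h v / B v) + (d * B v - h v * e) / B v ^ 2 + r / b := by
      have hρ : 0 ≤ h v / B v := div_nonneg hhv hBv.le
      have a1 : ((3 / 2 - 2 * v) * h v - r * v ^ 2) / (v * B v) ≤ d / B v := by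
        rw [div_le_div_iff₀ (by positivity) hBv]
        nlinarith
      have a2 : h v / B v * (e / B v) ≤ h v / B v * ((5 / 4 - 2 * v) / v) := by
        apply mul_le_mul_of_nonneg_left _ hρ
        rw [div_le_div_iff₀ hBv hv]
        nlinarith
      have a3 : r * v ^ 2 / (v * B v) ≤ r / b := by
        rw [div_le_div_iff₀ (by positivity) hb]
        have : r * v ^ 2 * b = r * v * (b * v) := by ring
        rw [this]
        have : r * (v * B v) = r * v * B v := by ring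
        rw [this]
        exact mul_le_mul_of_nonneg_left hbB (by positivity)
      have a4 : (d * B v - h v * e) / B v ^ 2 = d / B v - h v / B v * (e / B v) := by
        field_simp
      have a5 : ((3 / 2 - 2 * v) * h v - r * v ^ 2) / (v * B v) =
          (3 / 2 - 2 * v) / v * (h v / B v) - r * v ^ 2 / (v * B v) := by
        field_simp
      rw [a4]
      have a6 : (3 / 2 - 2 * v) / v * (h v / B v) - h v / B v * ((5 / 4 - 2 * v) / v) + -(1 / 4) / v * (h v / B v) = 0 := by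
        field_simp
        ring
      linarith
    have : -(1 / 4) * (P / v) * (h v / B v) + P * ((d * B v - h v * e) / B v ^ 2) + 4 / 3 * (r / b) * (3 / 4 * P) =
        P * (-(1 / 4) / v * (h v / B v) + (d * B v - h v * e) / B v ^ 2 + r / b) := by
      ring
    have hfin := mul_nonneg hPpos.le hq
    rw [← this] at hfin
    simpa using hfin
  apply monotoneOn_of_deriv_nonneg (convex_Ioc 0 Λ)
  · intro v hv
    obtain ⟨D, hD, _⟩ := key v hv.1 hv.2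
    exact hD.continuousAt.continuousWithinAt
  · intro v hv
    rw [interior_Ioc] at hv
    obtain ⟨D, hD, _⟩ := key v hv.1 hv.2.le
    exact hD.differentiableAt.differentiableWithinAt
  · intro v hv
    rw [interior_Ioc] at hv
    obtain ⟨D, hD, hD0⟩ := key v hv.1 hv.2.le
    rw [hD.deriv]
    exact hD0

theorem cheb {s A L Λ b r : ℝ} (hA : 0 < A) (hΛ : 32 * Real.exp L ≤ Λ) (hb : 0 < b) (hr : 0 ≤ r)
    {h B : ℝ → ℝ} (hh : ∀ v, 0 < v → 0 ≤ h v) (hB : ∀ v, 0 < v → 0 < B v)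
    (hh' : ∀ v, 0 < v → v ≤ Λ → ∃ d, HasDerivAt h d v ∧ (3 / 2 - 2 * v) * h v - r * v ^ 2 ≤ v * d)
    (hB' : ∀ v, 0 < v → v ≤ Λ → ∃ d, HasDerivAt B d v ∧ v * d ≤ (5 / 4 - 2 * v) * B v ∧ b * v ≤ B v)
    (hwh : IntegrableOn (fun v => ww s A L v * h v) (Ioi 0))
    (hwB : IntegrableOn (fun v => ww s A L v * B v) (Ioi 0))
    (hz : ∫ v in Ioi (0 : ℝ), ww s A L v * B v = 0)
    (ht : (∫ v in Ioi Λ, ww s A L v * B v) ≤ ∫ v in Ioc (16 * Real.exp L) (32 * Real.exp L), ww s A L v * B v) :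
    -(4 / 3 * (r / b) * Λ * ∫ v in Ioc 0 Λ, |ww s A L v| * B v) ≤ ∫ v in Ioi (0 : ℝ), ww s A L v * h v := by
  set v0 := Real.exp L with hv0
  have hv0p : 0 < v0 := Real.exp_pos L
  have hmono := cheb_mono hb hr hh hB hh' hB'
  have hΛp : 0 < Λ := by linarith
  set K : ℝ := 4 / 3 * (r / b) * Λ with hK
  have hKc : 0 ≤ 4 / 3 * (r / b) := by positivity
  have hK0 : 0 ≤ K := by positivity
  set R : ℝ := h v0 / B v0 with hR
  have hR0 : 0 ≤ R := div_nonneg (hh v0 hv0p) (hB v0 hv0p).le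
  have hv0Λ : v0 ≤ Λ := by linarith
  -- the two comparison inequalities
  have c1 : ∀ v, 0 < v → v ≤ v0 → h v ≤ (R + K) * B v := by
    intro v hv hvv
    have h1 := hmono ⟨hv, hvv.trans hv0Λ⟩ ⟨hv0p, hv0Λ⟩ hvv
    simp only at h1
    have hv14 : 0 < v ^ (1 / 4 : ℝ) := Real.rpow_pos_of_pos hv _
    have e1 : v ^ (1 / 4 : ℝ) * v ^ (-(1 / 4) : ℝ) = 1 := by
      rw [← Real.rpow_add hv]; norm_num
    have h2 := mul_le_mul_of_nonneg_left h1 hv14.le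
    have e2 : v ^ (1 / 4 : ℝ) * (v ^ (-(1 / 4) : ℝ) * (h v / B v) + 4 / 3 * (r / b) * v ^ (3 / 4 : ℝ)) =
        h v / B v + 4 / 3 * (r / b) * (v ^ (1 / 4 : ℝ) * v ^ (3 / 4 : ℝ)) := by
      calc _ = (v ^ (1 / 4 : ℝ) * v ^ (-(1 / 4) : ℝ)) * (h v / B v) +
            4 / 3 * (r / b) * (v ^ (1 / 4 : ℝ) * v ^ (3 / 4 : ℝ)) := by ring
        _ = _ := by rw [e1, one_mul]
    have e3 : v ^ (1 / 4 : ℝ) * (v0 ^ (-(1 / 4) : ℝ) * R + 4 / 3 * (r / b) * v0 ^ (3 / 4 : ℝ)) =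
        (v ^ (1 / 4 : ℝ) * v0 ^ (-(1 / 4) : ℝ)) * R + 4 / 3 * (r / b) * (v ^ (1 / 4 : ℝ) * v0 ^ (3 / 4 : ℝ)) := by
      ring
    rw [e2, e3] at h2
    have m1 : v ^ (1 / 4 : ℝ) ≤ v0 ^ (1 / 4 : ℝ) := Real.rpow_le_rpow hv.le hvv (by norm_num)
    have m2 : v ^ (1 / 4 : ℝ) * v0 ^ (-(1 / 4) : ℝ) ≤ 1 := by
      have : v0 ^ (1 / 4 : ℝ) * v0 ^ (-(1 / 4) : ℝ) = 1 := by rw [← Real.rpow_add hv0p]; norm_num
      calc _ ≤ v0 ^ (1 / 4 : ℝ) * v0 ^ (-(1 / 4) : ℝ) :=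
            mul_le_mul_of_nonneg_right m1 (Real.rpow_pos_of_pos hv0p _).le
        _ = 1 := this
    have m3 : v ^ (1 / 4 : ℝ) * v0 ^ (3 / 4 : ℝ) ≤ v0 := by
      have : v0 ^ (1 / 4 : ℝ) * v0 ^ (3 / 4 : ℝ) = v0 := by rw [← Real.rpow_add hv0p]; norm_num
      calc _ ≤ v0 ^ (1 / 4 : ℝ) * v0 ^ (3 / 4 : ℝ) := mul_le_mul_of_nonneg_right m1 (Real.rpow_pos_of_pos hv0p _).le
        _ = v0 := this
    have m4 : 0 ≤ v ^ (1 / 4 : ℝ) * v ^ (3 / 4 : ℝ) := by positivity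
    have h3 : h v / B v ≤ R + K := by
      have q1 := mul_le_mul_of_nonneg_right m2 hR0
      have q2 := mul_le_mul_of_nonneg_left (m3.trans hv0Λ) hKc
      have q3 := mul_nonneg hKc m4
      rw [one_mul] at q1
      linarith
    rwa [div_le_iff₀ (hB v hv)] at h3
  have c2 : ∀ v, v0 ≤ v → v ≤ Λ → ((v / v0) ^ (1 / 4 : ℝ) * R - K) * B v ≤ h v := by
    intro v hvv hvΛ
    have hv : 0 < v := lt_of_lt_of_le hv0p hvv
    have h1 := hmono ⟨hv0p, hv0Λ⟩ ⟨hv, hvΛ⟩ hvv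
    simp only at h1
    have hv14 : 0 < v ^ (1 / 4 : ℝ) := Real.rpow_pos_of_pos hv _
    have e1 : v ^ (1 / 4 : ℝ) * v ^ (-(1 / 4) : ℝ) = 1 := by
      rw [← Real.rpow_add hv]; norm_num
    have e4 : v ^ (1 / 4 : ℝ) * v ^ (3 / 4 : ℝ) = v := by
      rw [← Real.rpow_add hv]; norm_num
    have e5 : v ^ (1 / 4 : ℝ) * v0 ^ (-(1 / 4) : ℝ) = (v / v0) ^ (1 / 4 : ℝ) := by
      rw [Real.div_rpow hv.le hv0p.le, Real.rpow_neg hv0p.le]; exact (div_eq_mul_inv _ _).symm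
    have h2 := mul_le_mul_of_nonneg_left h1 hv14.le
    have e2 : v ^ (1 / 4 : ℝ) * (v ^ (-(1 / 4) : ℝ) * (h v / B v) + 4 / 3 * (r / b) * v ^ (3 / 4 : ℝ)) =
        h v / B v + 4 / 3 * (r / b) * v := by
      calc _ = (v ^ (1 / 4 : ℝ) * v ^ (-(1 / 4) : ℝ)) * (h v / B v) +
            4 / 3 * (r / b) * (v ^ (1 / 4 : ℝ) * v ^ (3 / 4 : ℝ)) := by ring
        _ = _ := by rw [e1, one_mul, e4]
    have e3 : v ^ (1 / 4 : ℝ) * (v0 ^ (-(1 / 4) : ℝ) * R + 4 / 3 * (r / b) * v0 ^ (3 / 4 : ℝ)) =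
        (v / v0) ^ (1 / 4 : ℝ) * R + 4 / 3 * (r / b) * (v ^ (1 / 4 : ℝ) * v0 ^ (3 / 4 : ℝ)) := by
      rw [← e5]; ring
    rw [e2, e3] at h2
    have m4 : 0 ≤ v ^ (1 / 4 : ℝ) * v0 ^ (3 / 4 : ℝ) := by positivity
    have h3 : (v / v0) ^ (1 / 4 : ℝ) * R - K ≤ h v / B v := by
      have q2 := mul_le_mul_of_nonneg_left hvΛ hKc
      have q3 := mul_nonneg hKc m4
      linarith
    rwa [le_div_iff₀ (hB v hv)] at h3
  have wneg : ∀ v, 0 < v → v ≤ v0 → ww s A L v ≤ 0 := by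
    intro v hv hvv
    have hl : Real.log v ≤ L := by
      rw [← Real.log_exp L]; exact Real.log_le_log hv hvv
    have : 0 ≤ A * v ^ (s / 2 - 1) := by positivity
    exact mul_nonpos_of_nonneg_of_nonpos this (by linarith)
  have wpos : ∀ v, v0 ≤ v → 0 ≤ ww s A L v := by
    intro v hvv
    have hl : L ≤ Real.log v := by
      rw [← Real.log_exp L]; exact Real.log_le_log hv0p hvv
    have : 0 ≤ A * v ^ (s / 2 - 1) := by
      have : 0 < v := lt_of_lt_of_le hv0p hvv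
      positivity
    exact mul_nonneg this (by linarith)
  -- the lower bound
  have hwB' : IntegrableOn (fun v => R * (ww s A L v * B v)) (Ioi 0) := hwB.const_mul R
  have hsub : Ioc 0 Λ ⊆ Ioi (0 : ℝ) := fun v hv => hv.1
  have habs : IntegrableOn (fun v => K * (|ww s A L v| * B v)) (Ioc 0 Λ) := by
    have h1 : IntegrableOn (fun v => K * |ww s A L v * B v|) (Ioc 0 Λ) := (hwB.mono_set hsub).abs.const_mul K
    refine h1.congr_fun ?_ measurableSet_Ioc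
    intro v hv
    simp only
    rw [abs_mul, abs_of_pos (hB v hv.1)]
  set I1 := Ioc (16 * v0) (32 * v0) with hI1
  have hI1s : I1 ⊆ Ioi (0 : ℝ) := fun v hv => lt_trans (by positivity) hv.1
  have hI2s : Ioi Λ ⊆ Ioi (0 : ℝ) := fun v hv => lt_trans hΛp hv
  let G : ℝ → ℝ := fun v => R * (ww s A L v * B v) + I1.indicator (fun v => R * (ww s A L v * B v)) v -
    (Ioi Λ).indicator (fun v => R * (ww s A L v * B v)) v - (Ioc 0 Λ).indicator (fun v => K * (|ww s A L v| * B v)) v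
  have i1 : IntegrableOn (I1.indicator (fun v => R * (ww s A L v * B v))) (Ioi 0) := hwB'.indicator measurableSet_Ioc
  have i2 : IntegrableOn ((Ioi Λ).indicator (fun v => R * (ww s A L v * B v))) (Ioi 0) :=
    hwB'.indicator measurableSet_Ioi
  have i3 : IntegrableOn ((Ioc 0 Λ).indicator (fun v => K * (|ww s A L v| * B v))) (Ioi 0) := by
    have : Integrable ((Ioc 0 Λ).indicator (fun v => K * (|ww s A L v| * B v))) :=
      (integrable_indicator_iff measurableSet_Ioc).2 habs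
    exact this.integrableOn
  have hG : IntegrableOn G (Ioi 0) := ((hwB'.add i1).sub i2).sub i3
  have hle : ∀ v ∈ Ioi (0 : ℝ), G v ≤ ww s A L v * h v := by
    intro v hv
    have hvp : 0 < v := hv
    have hBv := hB v hvp
    have hhv := hh v hvp
    rcases le_or_gt v v0 with h1 | h1
    · have n1 : v ∉ I1 := fun hx => by have := hx.1; linarith
      have n2 : v ∉ Ioi Λ := fun hx => by have : Λ < v := hx; linarith
      have n3 : v ∈ Ioc 0 Λ := ⟨hvp, by linarith⟩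
      simp only [G, indicator_of_notMem n1, indicator_of_notMem n2, indicator_of_mem n3]
      have w0 := wneg v hvp h1
      have c := c1 v hvp h1
      rw [abs_of_nonpos w0]
      nlinarith
    · rcases le_or_gt v Λ with h2 | h2
      · have n2 : v ∉ Ioi Λ := fun hx => by have : Λ < v := hx; linarith
        have n3 : v ∈ Ioc 0 Λ := ⟨hvp, h2⟩
        have w0 := wpos v h1.le
        have c := c2 v h1.le h2
        have q1 : 1 ≤ (v / v0) ^ (1 / 4 : ℝ) := by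
          apply Real.one_le_rpow _ (by norm_num)
          rw [le_div_iff₀ hv0p]; linarith
        by_cases n1 : v ∈ I1
        · have q2 : 2 ≤ (v / v0) ^ (1 / 4 : ℝ) := by
            have h16 : (16 : ℝ) ≤ v / v0 := by rw [le_div_iff₀ hv0p]; exact n1.1.le
            have : (2 : ℝ) = (16 : ℝ) ^ (1 / 4 : ℝ) := by
              rw [show (16 : ℝ) = 2 ^ (4 : ℝ) by norm_num, ← Real.rpow_mul (by norm_num)]; norm_num
            rw [this]
            exact Real.rpow_le_rpow (by norm_num) h16 (by norm_num)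
          simp only [G, indicator_of_mem n1, indicator_of_notMem n2, indicator_of_mem n3]
          rw [abs_of_nonneg w0]
          have q3 : (2 * R - K) * B v ≤ h v := le_trans (by
            apply mul_le_mul_of_nonneg_right _ hBv.le
            nlinarith) c
          nlinarith [mul_le_mul_of_nonneg_left q3 w0]
        · simp only [G, indicator_of_notMem n1, indicator_of_notMem n2, indicator_of_mem n3]
          rw [abs_of_nonneg w0]
          have q3 : (R - K) * B v ≤ h v := le_trans (by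
            apply mul_le_mul_of_nonneg_right _ hBv.le
            nlinarith) c
          nlinarith [mul_le_mul_of_nonneg_left q3 w0]
      · have n1 : v ∉ I1 := fun hx => by have := hx.2; linarith
        have n2 : v ∈ Ioi Λ := h2
        have n3 : v ∉ Ioc 0 Λ := fun hx => by have := hx.2; linarith
        simp only [G, indicator_of_notMem n1, indicator_of_mem n2, indicator_of_notMem n3]
        have w0 := wpos v h1.le
        have := mul_nonneg w0 hhv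
        linarith
  have hfin := setIntegral_mono_on hG hwh measurableSet_Ioi hle
  have hGint : ∫ v in Ioi (0 : ℝ), G v = R * (∫ v in Ioi (0 : ℝ), ww s A L v * B v) +
      R * (∫ v in I1, ww s A L v * B v) - R * (∫ v in Ioi Λ, ww s A L v * B v) -
      K * ∫ v in Ioc 0 Λ, |ww s A L v| * B v := by
    have s1 : ∫ v in Ioi (0 : ℝ), G v = (∫ v in Ioi (0 : ℝ), R * (ww s A L v * B v)) +
        (∫ v in Ioi (0 : ℝ), I1.indicator (fun v => R * (ww s A L v * B v)) v) -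
        (∫ v in Ioi (0 : ℝ), (Ioi Λ).indicator (fun v => R * (ww s A L v * B v)) v) -
        ∫ v in Ioi (0 : ℝ), (Ioc 0 Λ).indicator (fun v => K * (|ww s A L v| * B v)) v := by
      have t1 : ∫ v in Ioi (0 : ℝ), G v = (∫ v in Ioi (0 : ℝ), (R * (ww s A L v * B v) +
          I1.indicator (fun v => R * (ww s A L v * B v)) v - (Ioi Λ).indicator (fun v => R * (ww s A L v * B v)) v)) -
          ∫ v in Ioi (0 : ℝ), (Ioc 0 Λ).indicator (fun v => K * (|ww s A L v| * B v)) v :=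
        integral_sub ((hwB'.add i1).sub i2) i3
      have t2 : (∫ v in Ioi (0 : ℝ), (R * (ww s A L v * B v) +
          I1.indicator (fun v => R * (ww s A L v * B v)) v - (Ioi Λ).indicator (fun v => R * (ww s A L v * B v)) v)) =
          (∫ v in Ioi (0 : ℝ), (R * (ww s A L v * B v) + I1.indicator (fun v => R * (ww s A L v * B v)) v)) -
          ∫ v in Ioi (0 : ℝ), (Ioi Λ).indicator (fun v => R * (ww s A L v * B v)) v :=
        integral_sub (hwB'.add i1) i2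
      have t3 : (∫ v in Ioi (0 : ℝ), (R * (ww s A L v * B v) + I1.indicator (fun v => R * (ww s A L v * B v)) v)) =
          (∫ v in Ioi (0 : ℝ), R * (ww s A L v * B v)) +
          ∫ v in Ioi (0 : ℝ), I1.indicator (fun v => R * (ww s A L v * B v)) v :=
        integral_add hwB' i1
      rw [t1, t2, t3]
    rw [s1, setIntegral_indicator measurableSet_Ioc, setIntegral_indicator measurableSet_Ioi,
      setIntegral_indicator measurableSet_Ioc, inter_eq_right.2 hI1s, inter_eq_right.2 hI2s, inter_eq_right.2 hsub,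
      integral_const_mul, integral_const_mul, integral_const_mul, integral_const_mul]
  rw [hGint, hz] at hfin
  have := mul_le_mul_of_nonneg_left ht hR0
  linarith

end Pool.Agent.Lib.MP_6cd19d_an.SH
end
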