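import Pool.Agent.Lib.MP_6cd19d_an.SH.Defs
import Pool.Agent.Lib.MP_6cd19d_an.SH.S04
import Pool.Agent.Lib.MP_6cd19d_an.SH.S07a
import Pool.Agent.Lib.MP_6cd19d_an.SH.S03

section

section

/-!
# The part of degree one

`Y(κ) = (n+1) z1S(κ)/κ`, so the kernel of `h1` is `⟨x,y⟩ G(|x|^2,|y|^2)` with `G(a,b) = 2v exp(-v(a+b)) Y(2v sqrt(ab))`.
`h1 ≥ 0`: with power series `(n+1) z1S(κ) = ∑ β_j κ^(2j+1)`, `β_j = (n+1) m_{2j+2}/(2j+1)! ≥ 0`, one has
`h1(v) = ∑_j β_j (2v)^(2j+1) |∫ exp(-v|x|^2) |x|^(2j) x dμ|^2`.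
Upper bound: as `∫ x dμ = 0`, `h1(v) = ∬ ⟨x,y⟩ D(|x|^2,|y|^2)`, `D(a,b) = G(a,b) - G(a,1) - G(1,b) + G(1,1)`, and for
`a, b ∈ [1/2, 3/2]`, `v ≤ Λ`: `|D(a,b)| ≤ C v |a-1| |b-1|` (mixed second derivative of `G`, `Y(κ) = (n+1) ∫_0^1 ∫ y_0^2
exp(κ τ y_0) dσ dτ` has bounded derivatives because `(n+1)∫ y_0^2 = 1`).  Or: with the series, `|∫ (exp(-v|x|^2)|x|^(2j) - exp(-v)) x dμ|^2
≤ ∫ (exp(-v|x|^2)|x|^(2j) - exp(-v))^2 dμ * sup_e ∫ ⟨x,e⟩^2 dμ`, `sup_e ∫⟨x,e⟩^2 dμ ≤ (vI μ)^(1/2)`.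
Then Cauchy-Schwarz: `∬ |ε||ε'||⟨x,y⟩| ≤ vE μ (vI μ)^(1/2) ≤ δ vE μ`.
-/

set_option autoImplicit false

open MeasureTheory Set Filter Topology
open scoped ENNReal NNReal

namespace Pool.Agent.Lib.MP_6cd19d_an.SH

open Pool.Agent.Lib.MP_6cd19d_an.ND Pool.Agent.Lib.MP_6cd19d_an.HP

variable {n : ℕ}

section aux

variable {σ : Measure (E (n + 1))}

private theorem mS_odd (hσ : SphM σ) (k : ℕ) (hk : k % 2 = 1) : T7.mS σ k = 0 := by
  have h := T7.inv hσ (LinearIsometryEquiv.neg ℝ) (fun y => (y 0) ^ k)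
  have h2 : ∫ y, (((LinearIsometryEquiv.neg ℝ (E := E (n + 1))) y) 0) ^ k ∂σ =
      - ∫ y, (y 0) ^ k ∂σ := by
    rw [← integral_neg]
    refine integral_congr_ae (Eventually.of_forall fun y => ?_)
    show ((-y) 0) ^ k = -((y 0) ^ k)
    rw [PiLp.neg_apply, (Nat.odd_iff.2 hk).neg_pow]
  unfold T7.mS
  rw [h2] at h
  linarith

private theorem mS_even (hσ : SphM σ) (j : ℕ) :
    0 ≤ T7.mS σ (2 * j + 2) ∧ T7.mS σ (2 * j + 2) ≤ 1 / ((n : ℝ) + 1) := by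
  have c0 := T7.cC (n := n) 0
  have hnn : ∀ y : E (n + 1), 0 ≤ (y 0) ^ (2 * j + 2) := by
    intro y
    rw [show 2 * j + 2 = 2 * (j + 1) by ring, pow_mul]
    positivity
  refine ⟨integral_nonneg hnn, ?_⟩
  rw [← T7.mS_two hσ]
  refine integral_mono_ae (T7.intC hσ (by fun_prop)) (T7.intC hσ (by fun_prop)) ?_
  filter_upwards [sph_abs hσ] with y hy
  show (y 0) ^ (2 * j + 2) ≤ (y 0) ^ 2
  rw [pow_add, pow_mul]
  have h1 : (y 0) ^ 2 ≤ 1 := by
    rw [← sq_abs]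
    exact pow_le_one₀ (abs_nonneg _) hy
  exact mul_le_of_le_one_left (by positivity) (pow_le_one₀ (by positivity) h1)

private noncomputable def bj (σ : Measure (E (n + 1))) (j : ℕ) : ℝ :=
  ((n : ℝ) + 1) * T7.mS σ (2 * j + 2) * ((2 * j + 1).factorial : ℝ)⁻¹

private theorem bj_bd (hσ : SphM σ) (j : ℕ) :
    0 ≤ bj σ j ∧ bj σ j ≤ ((2 * j + 1).factorial : ℝ)⁻¹ := by
  obtain ⟨h1, h2⟩ := mS_even hσ j
  have hn : (0 : ℝ) < (n : ℝ) + 1 := by positivity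
  have hf : (0 : ℝ) ≤ ((2 * j + 1).factorial : ℝ)⁻¹ := by positivity
  unfold bj
  refine ⟨mul_nonneg (mul_nonneg hn.le h1) hf, ?_⟩
  refine mul_le_of_le_one_left hf ?_
  rw [le_div_iff₀ hn] at h2
  linarith

private theorem z1_series (hσ : SphM σ) (κ : ℝ) :
    HasSum (fun j => bj σ j * κ ^ (2 * j + 1)) (((n : ℝ) + 1) * z1S σ κ) := by
  have h := T7.zF_series hσ T7.exp_series.1 T7.exp_series.2 1 κ
  rw [T7.zF_one_exp] at h
  have hinj : Function.Injective fun j : ℕ => 2 * j + 1 := fun a b hab => by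
    simp only at hab
    omega
  have h2 := (hinj.hasSum_iff (f := fun k : ℕ => ((k.factorial : ℝ))⁻¹ * κ ^ k * T7.mS σ (k + 1))
    (a := z1S σ κ) (fun k hk => by
      have hk2 : k % 2 = 0 := by
        by_contra hcon
        exact hk ⟨k / 2, by simp only; omega⟩
      rw [mS_odd hσ (k + 1) (by omega), mul_zero])).2 h
  have h3 := h2.mul_left ((n : ℝ) + 1)
  have e : (fun j => bj σ j * κ ^ (2 * j + 1)) = fun j : ℕ => ((n : ℝ) + 1) *
      ((fun k : ℕ => ((k.factorial : ℝ))⁻¹ * κ ^ k * T7.mS σ (k + 1)) ∘ fun j : ℕ => 2 * j + 1) j := by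
    funext j
    unfold bj
    simp only [Function.comp_apply]
    ring
  rw [e]
  exact h3

private noncomputable def phi (v : ℝ) (j : ℕ) (x : E (n + 1)) : ℝ :=
  Real.exp (-v * ‖x‖ ^ 2) * (‖x‖ ^ 2) ^ j

private theorem phi_meas (v : ℝ) (j : ℕ) : Measurable (phi (n := n) v j) := by
  unfold phi
  fun_prop

private theorem phi_nonneg (v : ℝ) (j : ℕ) (x : E (n + 1)) : 0 ≤ phi v j x := by
  unfold phi
  positivity

private theorem phi_le {v : ℝ} (hv : 0 ≤ v) (j : ℕ) {x : E (n + 1)} {R : ℝ} (hx : ‖x‖ ≤ R) :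
    phi v j x ≤ (R ^ 2) ^ j := by
  unfold phi
  have h1 : Real.exp (-v * ‖x‖ ^ 2) ≤ 1 := by
    apply Real.exp_le_one_iff.2
    have : 0 ≤ v * ‖x‖ ^ 2 := by positivity
    linarith
  have h2 : (‖x‖ ^ 2) ^ j ≤ (R ^ 2) ^ j :=
    pow_le_pow_left₀ (by positivity) (pow_le_pow_left₀ (norm_nonneg _) hx 2) j
  calc Real.exp (-v * ‖x‖ ^ 2) * (‖x‖ ^ 2) ^ j ≤ 1 * (R ^ 2) ^ j :=
        mul_le_mul h1 h2 (by positivity) zero_le_one
    _ = (R ^ 2) ^ j := one_mul _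

private theorem ker_series (hσ : SphM σ) (v : ℝ) {x y : E (n + 1)} (hx : x ≠ 0) (hy : y ≠ 0) :
    HasSum (fun j => bj σ j * (2 * v) ^ (2 * j + 1) * (phi v j x * phi v j y * inner ℝ x y))
      (gE v x y * (((n : ℝ) + 1) * z1S σ (2 * v * (‖x‖ * ‖y‖)) *
        (inner ℝ x y / (‖x‖ * ‖y‖)))) := by
  have hxn : ‖x‖ ≠ 0 := norm_ne_zero_iff.2 hx
  have hyn : ‖y‖ ≠ 0 := norm_ne_zero_iff.2 hy
  have h := ((z1_series hσ (2 * v * (‖x‖ * ‖y‖))).mul_right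
    (inner ℝ x y / (‖x‖ * ‖y‖))).mul_left (gE v x y)
  have e : (fun j => bj σ j * (2 * v) ^ (2 * j + 1) * (phi v j x * phi v j y * inner ℝ x y)) =
      fun j => gE v x y * (bj σ j * (2 * v * (‖x‖ * ‖y‖)) ^ (2 * j + 1) *
        (inner ℝ x y / (‖x‖ * ‖y‖))) := by
    funext j
    have e1 : gE v x y = Real.exp (-v * ‖x‖ ^ 2) * Real.exp (-v * ‖y‖ ^ 2) := by
      unfold gE
      rw [← Real.exp_add]
      congr 1
      ring
    have e2 : (‖x‖ * ‖y‖) ^ (2 * j + 1) = (‖x‖ ^ 2) ^ j * (‖y‖ ^ 2) ^ j * (‖x‖ * ‖y‖) := by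
      rw [← mul_pow, ← mul_pow, ← pow_mul, ← pow_succ]
    unfold phi
    rw [e1, mul_pow (2 * v) (‖x‖ * ‖y‖), e2]
    field_simp
  rw [e]
  exact h

variable {μ : Measure (E (n + 1))} [IsFiniteMeasure μ] {R : ℝ}

private theorem bd_int {g : E (n + 1) → ℝ} (hg : Measurable g) {B : ℝ}
    (hB : ∀ᵐ x ∂μ, |g x| ≤ B) (hμ : ∀ᵐ x ∂μ, x ≠ 0 ∧ ‖x‖ ≤ R) :
    Integrable (fun p : E (n + 1) × E (n + 1) => g p.1 * g p.2 * inner ℝ p.1 p.2)
      (μ.prod μ) := by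
  have h1 : Measurable fun p : E (n + 1) × E (n + 1) => g p.1 := hg.comp measurable_fst
  have h2 : Measurable fun p : E (n + 1) × E (n + 1) => g p.2 := hg.comp measurable_snd
  have h3 : Measurable fun p : E (n + 1) × E (n + 1) => inner ℝ p.1 p.2 := by fun_prop
  refine Integrable.of_bound ((h1.mul h2).mul h3).aestronglyMeasurable (B * B * (R * R)) ?_
  filter_upwards [T7.ae_prod hμ, T7.ae_prod_f hB] with p hp hfp
  have hB0 : 0 ≤ B := (abs_nonneg _).trans hfp.1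
  rw [Real.norm_eq_abs, abs_mul, abs_mul]
  refine mul_le_mul (mul_le_mul hfp.1 hfp.2 (abs_nonneg _) hB0) ?_ (abs_nonneg _)
    (mul_nonneg hB0 hB0)
  exact (abs_real_inner_le_norm _ _).trans
    (mul_le_mul hp.1.2 hp.2.2 (norm_nonneg _) ((norm_nonneg _).trans hp.1.2))

private theorem coord_int {g : E (n + 1) → ℝ} (hg : Measurable g) {B : ℝ}
    (hB : ∀ᵐ x ∂μ, |g x| ≤ B) (hμ : ∀ᵐ x ∂μ, x ≠ 0 ∧ ‖x‖ ≤ R) (i : Fin (n + 1)) :
    Integrable (fun x : E (n + 1) => g x * x i) μ := by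
  refine Integrable.of_bound (hg.mul (T7.cC i).measurable).aestronglyMeasurable (B * R) ?_
  filter_upwards [hμ, hB] with x hx hfx
  rw [Real.norm_eq_abs, abs_mul]
  refine mul_le_mul hfx ?_ (abs_nonneg _) ((abs_nonneg _).trans hfx)
  have := PiLp.norm_apply_le x i
  rw [Real.norm_eq_abs] at this
  exact this.trans hx.2

/-- the bilinear integral as a sum of squares -/
private theorem bil_eq {g : E (n + 1) → ℝ} (hg : Measurable g) {B : ℝ}
    (hB : ∀ᵐ x ∂μ, |g x| ≤ B) (hμ : ∀ᵐ x ∂μ, x ≠ 0 ∧ ‖x‖ ≤ R) :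
    ∫ p, g p.1 * g p.2 * inner ℝ p.1 p.2 ∂(μ.prod μ) = ∑ i, (∫ x, g x * x i ∂μ) ^ 2 := by
  have h1 : ∫ p, g p.1 * g p.2 * inner ℝ p.1 p.2 ∂(μ.prod μ) =
      ∫ p, ∑ i, (g p.1 * p.1 i) * (g p.2 * p.2 i) ∂(μ.prod μ) := by
    refine integral_congr_ae (Eventually.of_forall fun p => ?_)
    show g p.1 * g p.2 * inner ℝ p.1 p.2 = ∑ i, (g p.1 * p.1 i) * (g p.2 * p.2 i)
    rw [T7.inner_sum, Finset.mul_sum]
    exact Finset.sum_congr rfl fun i _ => by ring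
  rw [h1, integral_finsetSum _ (fun i _ => (coord_int hg hB hμ i).mul_prod
    (coord_int hg hB hμ i))]
  refine Finset.sum_congr rfl fun i _ => ?_
  rw [integral_prod_mul (fun x : E (n + 1) => g x * x i) (fun x : E (n + 1) => g x * x i), sq]

omit [IsFiniteMeasure μ] in
private theorem phi_abs (hμ : ∀ᵐ x ∂μ, x ≠ 0 ∧ ‖x‖ ≤ R) {v : ℝ} (hv : 0 ≤ v) (j : ℕ) :
    ∀ᵐ x ∂μ, |phi v j x| ≤ (R ^ 2) ^ j := by
  filter_upwards [hμ] with x hx
  rw [abs_of_nonneg (phi_nonneg v j x)]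
  exact phi_le hv j hx.2

private theorem h1_hasSum (hσ : SphM σ) (hμ : ∀ᵐ x ∂μ, x ≠ 0 ∧ ‖x‖ ≤ R) {v : ℝ} (hv : 0 ≤ v) :
    HasSum (fun j => bj σ j * (2 * v) ^ (2 * j + 1) *
      ∫ p, phi v j p.1 * phi v j p.2 * inner ℝ p.1 p.2 ∂(μ.prod μ)) (h1 σ μ v) := by
  have hint : ∀ j : ℕ, Integrable (fun p : E (n + 1) × E (n + 1) =>
      bj σ j * (2 * v) ^ (2 * j + 1) * (phi v j p.1 * phi v j p.2 * inner ℝ p.1 p.2))
      (μ.prod μ) := fun j => (bd_int (phi_meas v j) (phi_abs hμ hv j) hμ).const_mul _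
  have hbd : ∀ j : ℕ, ∀ᵐ p ∂(μ.prod μ), ‖bj σ j * (2 * v) ^ (2 * j + 1) *
      (phi v j p.1 * phi v j p.2 * inner ℝ p.1 p.2)‖ ≤
      (2 * v * (R * R)) ^ (2 * j + 1) / ((2 * j + 1).factorial : ℝ) := by
    intro j
    filter_upwards [T7.ae_prod hμ] with p hp
    obtain ⟨b0, b1⟩ := bj_bd hσ j
    rw [Real.norm_eq_abs, abs_mul, abs_mul, abs_of_nonneg b0,
      abs_of_nonneg (show 0 ≤ (2 * v) ^ (2 * j + 1) by positivity), abs_mul, abs_mul,
      abs_of_nonneg (phi_nonneg v j p.1), abs_of_nonneg (phi_nonneg v j p.2)]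
    have h1 := phi_le hv j hp.1.2
    have h2 := phi_le hv j hp.2.2
    have h3 : |inner ℝ p.1 p.2| ≤ R * R := (abs_real_inner_le_norm _ _).trans
      (mul_le_mul hp.1.2 hp.2.2 (norm_nonneg _) ((norm_nonneg _).trans hp.1.2))
    have hR0 : 0 ≤ (R ^ 2) ^ j := by positivity
    calc bj σ j * (2 * v) ^ (2 * j + 1) * (phi v j p.1 * phi v j p.2 * |inner ℝ p.1 p.2|)
        ≤ ((2 * j + 1).factorial : ℝ)⁻¹ * (2 * v) ^ (2 * j + 1) *
          ((R ^ 2) ^ j * (R ^ 2) ^ j * (R * R)) := by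
          refine mul_le_mul (mul_le_mul_of_nonneg_right b1 (by positivity)) ?_ ?_ (by positivity)
          · exact mul_le_mul (mul_le_mul h1 h2 (phi_nonneg _ _ _) hR0) h3 (abs_nonneg _)
              (mul_nonneg hR0 hR0)
          · exact mul_nonneg (mul_nonneg (phi_nonneg _ _ _) (phi_nonneg _ _ _)) (abs_nonneg _)
      _ = (2 * v * (R * R)) ^ (2 * j + 1) / ((2 * j + 1).factorial : ℝ) := by
          have e : (R * R) ^ (2 * j + 1) = (R ^ 2) ^ j * (R ^ 2) ^ j * (R * R) := by ring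
          rw [mul_pow (2 * v), e, div_eq_mul_inv]
          ring
  have hnorm : ∀ j : ℕ, ∫ p, ‖bj σ j * (2 * v) ^ (2 * j + 1) *
      (phi v j p.1 * phi v j p.2 * inner ℝ p.1 p.2)‖ ∂(μ.prod μ) ≤
      (μ.prod μ).real univ * ((2 * v * (R * R)) ^ (2 * j + 1) / ((2 * j + 1).factorial : ℝ)) := by
    intro j
    have h := integral_mono_ae (hint j).norm (integrable_const _) (hbd j)
    refine h.trans (le_of_eq ?_)
    rw [integral_const, smul_eq_mul]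
  have hs := hasSum_integral_of_summable_integral_norm hint
    (Summable.of_nonneg_of_le (fun j => integral_nonneg fun _ => norm_nonneg _) hnorm
      ((Real.hasSum_sinh (2 * v * (R * R))).summable.mul_left _))
  have hK : Integrable (fun p : E (n + 1) × E (n + 1) => gE v p.1 p.2 *
      (((n : ℝ) + 1) * z1S σ (2 * v * (‖p.1‖ * ‖p.2‖)) *
        (inner ℝ p.1 p.2 / (‖p.1‖ * ‖p.2‖)))) (μ.prod μ) := by
    have c3 : Measurable fun p : E (n + 1) × E (n + 1) => inner ℝ p.1 p.2 := by fun_prop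
    have c4 : Measurable fun p : E (n + 1) × E (n + 1) => ‖p.1‖ * ‖p.2‖ := by fun_prop
    have c5 : Measurable fun p : E (n + 1) × E (n + 1) => gE v p.1 p.2 := by
      unfold gE
      fun_prop
    have hz : Continuous (z1S σ) := by
      rw [← T7.zF_one_exp]
      exact T7.zF_cont hσ 1 Real.continuous_exp
    have c6 := hz.measurable.comp (c4.const_mul (2 * v))
    refine Integrable.of_bound (c5.mul ((measurable_const.mul c6).mul
      (c3.div c4))).aestronglyMeasurable (1 * (((n : ℝ) + 1) * Real.exp (2 * v * (R * R)) * 1)) ?_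
    filter_upwards [T7.ae_prod hμ] with p hp
    have hR0 : 0 ≤ R := (norm_nonneg _).trans hp.1.2
    have hxy : ‖p.1‖ * ‖p.2‖ ≤ R * R := mul_le_mul hp.1.2 hp.2.2 (norm_nonneg _) hR0
    rw [Real.norm_eq_abs, abs_mul, abs_mul, abs_mul,
      abs_of_nonneg (show (0 : ℝ) ≤ (n : ℝ) + 1 by positivity)]
    have q1 : |gE v p.1 p.2| ≤ 1 := by
      unfold gE
      rw [abs_of_pos (Real.exp_pos _)]
      apply Real.exp_le_one_iff.2
      have : 0 ≤ v * (‖p.1‖ ^ 2 + ‖p.2‖ ^ 2) := by positivity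
      linarith
    have q2 : |z1S σ (2 * v * (‖p.1‖ * ‖p.2‖))| ≤ Real.exp (2 * v * (R * R)) := by
      rw [← T7.zF_one_exp]
      refine (T7.zFexp_abs hσ 1 _).trans ?_
      apply Real.exp_le_exp.2
      rw [abs_of_nonneg (by positivity)]
      exact mul_le_mul_of_nonneg_left hxy (by positivity)
    have q3 : |inner ℝ p.1 p.2 / (‖p.1‖ * ‖p.2‖)| ≤ 1 :=
      abs_real_inner_div_norm_mul_norm_le_one _ _
    refine mul_le_mul q1 ?_ (by positivity) zero_le_one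
    refine mul_le_mul ?_ q3 (abs_nonneg _) (by positivity)
    exact mul_le_mul_of_nonneg_left q2 (by positivity)
  have e2 : ∫ p, ∑' j, bj σ j * (2 * v) ^ (2 * j + 1) *
      (phi v j p.1 * phi v j p.2 * inner ℝ p.1 p.2) ∂(μ.prod μ) = h1 σ μ v := by
    have e3 : h1 σ μ v = ∫ p, gE v p.1 p.2 * (((n : ℝ) + 1) *
        z1S σ (2 * v * (‖p.1‖ * ‖p.2‖)) * (inner ℝ p.1 p.2 / (‖p.1‖ * ‖p.2‖)))
        ∂(μ.prod μ) := by
      rw [integral_prod _ hK]
      rfl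
    rw [e3]
    refine integral_congr_ae ?_
    filter_upwards [T7.ae_prod hμ] with p hp
    exact (ker_series hσ v hp.1.1 hp.2.1).tsum_eq
  rw [e2] at hs
  have e4 : (fun j => ∫ p, bj σ j * (2 * v) ^ (2 * j + 1) *
      (phi v j p.1 * phi v j p.2 * inner ℝ p.1 p.2) ∂(μ.prod μ)) =
      fun j => bj σ j * (2 * v) ^ (2 * j + 1) *
        ∫ p, phi v j p.1 * phi v j p.2 * inner ℝ p.1 p.2 ∂(μ.prod μ) := by
    funext j
    rw [integral_const_mul]
  rw [e4] at hs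
  exact hs

end aux

private theorem pow_sub_one_le {a : ℝ} (ha0 : 0 ≤ a) (ha : a ≤ 2) (j : ℕ) :
    |a ^ j - 1| ≤ j * 2 ^ j * |a - 1| := by
  induction j with
  | zero => simp
  | succ j ih =>
    have e : a ^ (j + 1) - 1 = a * (a ^ j - 1) + (a - 1) := by ring
    rw [e]
    refine (abs_add_le _ _).trans ?_
    rw [abs_mul, abs_of_nonneg ha0]
    have h1 : a * |a ^ j - 1| ≤ 2 * (j * 2 ^ j * |a - 1|) :=
      mul_le_mul ha ih (abs_nonneg _) (by norm_num)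
    have h2 : (1 : ℝ) ≤ 2 ^ (j + 1) := one_le_pow₀ (by norm_num)
    have h3 : |a - 1| ≤ 2 ^ (j + 1) * |a - 1| := le_mul_of_one_le_left (abs_nonneg _) h2
    have h4 : ((j + 1 : ℕ) : ℝ) * 2 ^ (j + 1) * |a - 1| =
        2 * (j * 2 ^ j * |a - 1|) + 2 ^ (j + 1) * |a - 1| := by
      push_cast
      ring
    rw [h4]
    linarith

private theorem exp_lip {s t : ℝ} (hs : s ≤ 0) (ht : t ≤ 0) :
    |Real.exp s - Real.exp t| ≤ |s - t| := by
  wlog h : t ≤ s with H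
  · rw [abs_sub_comm, abs_sub_comm s t]
    exact H ht hs (le_of_not_ge h)
  rw [abs_of_nonneg (sub_nonneg.2 (Real.exp_le_exp.2 h)), abs_of_nonneg (sub_nonneg.2 h)]
  have h1 : Real.exp t = Real.exp s * Real.exp (t - s) := by
    rw [← Real.exp_add]
    congr 1
    ring
  have h2 := Real.add_one_le_exp (t - s)
  have h3 : Real.exp s ≤ 1 := Real.exp_le_one_iff.2 hs
  have h4 : 0 < Real.exp s := Real.exp_pos _
  rw [h1]
  nlinarith

private theorem w_summable (Λ : ℝ) : Summable fun j : ℕ =>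
    2 * (2 * Λ) ^ (2 * j) * ((Λ + j) ^ 2 * 4 ^ j) * ((2 * j + 1).factorial : ℝ)⁻¹ := by
  have hs : Summable fun j : ℕ => (2 * (2 * Λ ^ 2 + 2)) * ((64 * Λ ^ 2) ^ j / (j.factorial : ℝ)) :=
    (Real.summable_pow_div_factorial (64 * Λ ^ 2)).mul_left _
  refine Summable.of_nonneg_of_le (fun j => ?_) (fun j => ?_) hs
  · have : 0 ≤ (2 * Λ) ^ (2 * j) := by
      rw [pow_mul]
      positivity
    positivity
  · have h1 : (j : ℝ) ≤ 2 ^ j := by exact_mod_cast (Nat.lt_two_pow_self (n := j)).le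
    have h2 : (j : ℝ) ^ 2 ≤ 4 ^ j := by
      have := pow_le_pow_left₀ (Nat.cast_nonneg j) h1 2
      calc (j : ℝ) ^ 2 ≤ (2 ^ j) ^ 2 := this
        _ = 4 ^ j := by rw [← pow_mul, mul_comm j 2, pow_mul]; norm_num
    have h3 : (1 : ℝ) ≤ 4 ^ j := one_le_pow₀ (by norm_num)
    have h4 : (Λ + j) ^ 2 ≤ (2 * Λ ^ 2 + 2) * 4 ^ j := by
      have h5 : (Λ + j) ^ 2 ≤ 2 * Λ ^ 2 + 2 * (j : ℝ) ^ 2 := by nlinarith [sq_nonneg (Λ - j)]
      have h6 : 2 * Λ ^ 2 ≤ 2 * Λ ^ 2 * 4 ^ j := le_mul_of_one_le_right (by positivity) h3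
      nlinarith
    have h7 : ((2 * j + 1).factorial : ℝ)⁻¹ ≤ ((j.factorial : ℝ))⁻¹ := by
      apply inv_anti₀ (by positivity)
      exact_mod_cast Nat.factorial_le (by omega)
    have h8 : (2 * Λ) ^ (2 * j) = (4 * Λ ^ 2) ^ j := by
      rw [pow_mul]
      congr 1
      ring
    calc 2 * (2 * Λ) ^ (2 * j) * ((Λ + j) ^ 2 * 4 ^ j) * ((2 * j + 1).factorial : ℝ)⁻¹
        ≤ 2 * (4 * Λ ^ 2) ^ j * (((2 * Λ ^ 2 + 2) * 4 ^ j) * 4 ^ j) * ((j.factorial : ℝ))⁻¹ := by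
          rw [h8]
          refine mul_le_mul ?_ h7 (by positivity) (by positivity)
          refine mul_le_mul_of_nonneg_left ?_ (by positivity)
          exact mul_le_mul_of_nonneg_right h4 (by positivity)
      _ = (2 * (2 * Λ ^ 2 + 2)) * ((64 * Λ ^ 2) ^ j / (j.factorial : ℝ)) := by
          have e : (64 * Λ ^ 2) ^ j = (4 * Λ ^ 2) ^ j * 4 ^ j * 4 ^ j := by
            rw [← mul_pow, ← mul_pow]
            congr 1
            ring
          rw [e, div_eq_mul_inv]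
          ring

theorem h1_nonneg (hn : 1 ≤ n) {σ : Measure (E (n + 1))} (hσ : SphM σ) {μ : Measure (E (n + 1))} [IsFiniteMeasure μ]
    {R : ℝ} (hμ : ∀ᵐ x ∂μ, x ≠ 0 ∧ ‖x‖ ≤ R) {v : ℝ} (hv : 0 ≤ v) : 0 ≤ h1 σ μ v := by
  refine (h1_hasSum hσ hμ hv).nonneg fun j => ?_
  refine mul_nonneg (mul_nonneg (bj_bd hσ j).1 (by positivity)) ?_
  rw [bil_eq (phi_meas v j) (phi_abs hμ hv j) hμ]
  exact Finset.sum_nonneg fun i _ => sq_nonneg _

theorem h1_bound (Λ : ℝ) (hΛ : 0 < Λ) : ∃ C : ℝ, 0 < C ∧ ∀ n : ℕ, 1 ≤ n → ∀ σ : Measure (E (n + 1)), SphM σ →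
    ∀ (δ : ℝ) (μ : Measure (E (n + 1))), Thin δ μ → ∀ v : ℝ, 0 ≤ v → v ≤ Λ →
      h1 σ μ v ≤ C * v * δ * vE μ := by
  have hw := w_summable Λ
  set w : ℕ → ℝ := fun j =>
    2 * (2 * Λ) ^ (2 * j) * ((Λ + j) ^ 2 * 4 ^ j) * ((2 * j + 1).factorial : ℝ)⁻¹ with hwd
  have hw0 : ∀ j, 0 ≤ w j := fun j => by
    simp only [hwd]
    have : 0 ≤ (2 * Λ) ^ (2 * j) := by positivity
    positivity
  have hW0 : 0 ≤ ∑' j, w j := tsum_nonneg hw0
  refine ⟨∑' j, w j + 1, by linarith, ?_⟩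
  intro n _ σ hσ δ μ hT v hv hvΛ
  have hpr : IsProbabilityMeasure μ := ⟨hT.prob⟩
  have hδ0 := hT.d0
  have hδ1 := hT.d1
  have hμ : ∀ᵐ x ∂μ, x ≠ 0 ∧ ‖x‖ ≤ 2 := by
    filter_upwards [hT.shell] with x hx
    rw [abs_le] at hx
    constructor
    · intro h0
      rw [h0, norm_zero] at hx
      norm_num at hx
      linarith
    · by_contra hcon
      have h2 : 2 < ‖x‖ := not_le.1 hcon
      nlinarith [hx.2]
  have hvE : 0 ≤ vE μ := integral_nonneg fun x => sq_nonneg _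
  have hmain := h1_hasSum hσ hμ hv
  have hcent : ∀ i : Fin (n + 1), ∫ x : E (n + 1), x i ∂μ = 0 := by
    intro i
    have hid : Integrable (fun x : E (n + 1) => x) μ := by
      refine Integrable.of_bound measurable_id.aestronglyMeasurable 2 ?_
      filter_upwards [hμ] with x hx
      exact hx.2
    have h := (EuclideanSpace.proj (𝕜 := ℝ) i).integral_comp_comm hid
    rw [hT.cent, map_zero] at h
    exact h
  have hterm : ∀ j : ℕ, ∫ p, phi v j p.1 * phi v j p.2 * inner ℝ p.1 p.2 ∂(μ.prod μ) ≤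
      δ * ((Λ + j) ^ 2 * 4 ^ j * vE μ) := by
    intro j
    set g : E (n + 1) → ℝ := fun x => phi v j x - Real.exp (-v) with hg
    have hgm : Measurable g := (phi_meas v j).sub measurable_const
    have hgb : ∀ᵐ x ∂μ, |g x| ≤ (2 ^ 2) ^ j + 1 := by
      filter_upwards [phi_abs hμ hv j] with x hx
      refine (abs_sub _ _).trans (add_le_add hx ?_)
      rw [abs_of_pos (Real.exp_pos _)]
      exact Real.exp_le_one_iff.2 (by linarith)
    have hS : ∫ p, phi v j p.1 * phi v j p.2 * inner ℝ p.1 p.2 ∂(μ.prod μ) =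
        ∫ p, g p.1 * g p.2 * inner ℝ p.1 p.2 ∂(μ.prod μ) := by
      rw [bil_eq (phi_meas v j) (phi_abs hμ hv j) hμ, bil_eq hgm hgb hμ]
      refine Finset.sum_congr rfl fun i _ => ?_
      congr 1
      have i1 := coord_int (phi_meas v j) (phi_abs hμ hv j) hμ i
      have i2 : Integrable (fun x : E (n + 1) => Real.exp (-v) * x i) μ := by
        have := coord_int (g := fun _ => (1 : ℝ)) measurable_const (B := 1)
          (Eventually.of_forall fun _ => by simp) hμ i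
        simpa using this.const_mul (Real.exp (-v))
      have e : ∫ x, g x * x i ∂μ = ∫ x, phi v j x * x i ∂μ - ∫ x, Real.exp (-v) * x i ∂μ := by
        rw [← integral_sub i1 i2]
        refine integral_congr_ae (Eventually.of_forall fun x => ?_)
        simp only [hg]
        ring
      rw [e, integral_const_mul, hcent, mul_zero, sub_zero]
    rw [hS]
    set S : ℝ := ∫ p, g p.1 * g p.2 * inner ℝ p.1 p.2 ∂(μ.prod μ) with hSd
    set G : ℝ := ∫ x, (g x) ^ 2 ∂μ with hGd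
    have hG0 : 0 ≤ G := integral_nonneg fun x => sq_nonneg _
    have hg2i : Integrable (fun x => (g x) ^ 2) μ := by
      refine Integrable.of_bound (hgm.pow_const 2).aestronglyMeasurable (((2 ^ 2) ^ j + 1) ^ 2) ?_
      filter_upwards [hgb] with x hx
      rw [Real.norm_eq_abs, abs_pow]
      exact pow_le_pow_left₀ (abs_nonneg _) hx 2
    have hGle : G ≤ (Λ + j) ^ 2 * 4 ^ j * vE μ := by
      unfold vE
      rw [← integral_const_mul]
      have hvi : Integrable (fun x : E (n + 1) => (Λ + j) ^ 2 * 4 ^ j * (‖x‖ ^ 2 - 1) ^ 2) μ := by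
        refine (Integrable.of_bound (by fun_prop) (δ ^ 2) ?_).const_mul _
        filter_upwards [hT.shell] with x hx
        rw [Real.norm_eq_abs, abs_pow]
        exact pow_le_pow_left₀ (abs_nonneg _) hx 2
      refine integral_mono_ae hg2i hvi ?_
      filter_upwards [hT.shell] with x hx
      have hx2 := abs_le.1 hx
      have ha0 : 0 ≤ ‖x‖ ^ 2 := by positivity
      have ha2 : ‖x‖ ^ 2 ≤ 2 := by linarith [hx2.2]
      have hgx : |g x| ≤ (Λ + j) * 2 ^ j * |‖x‖ ^ 2 - 1| := by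
        have e : g x = Real.exp (-v * ‖x‖ ^ 2) * ((‖x‖ ^ 2) ^ j - 1) +
            (Real.exp (-v * ‖x‖ ^ 2) - Real.exp (-v)) := by
          simp only [hg, phi]
          ring
        rw [e]
        refine (abs_add_le _ _).trans ?_
        have hvx : 0 ≤ v * ‖x‖ ^ 2 := by positivity
        have h1 : |Real.exp (-v * ‖x‖ ^ 2) * ((‖x‖ ^ 2) ^ j - 1)| ≤
            (j : ℝ) * 2 ^ j * |‖x‖ ^ 2 - 1| := by
          rw [abs_mul, abs_of_pos (Real.exp_pos _)]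
          have h2 : Real.exp (-v * ‖x‖ ^ 2) ≤ 1 := Real.exp_le_one_iff.2 (by linarith)
          calc Real.exp (-v * ‖x‖ ^ 2) * |(‖x‖ ^ 2) ^ j - 1| ≤ 1 * |(‖x‖ ^ 2) ^ j - 1| :=
                mul_le_mul_of_nonneg_right h2 (abs_nonneg _)
            _ ≤ (j : ℝ) * 2 ^ j * |‖x‖ ^ 2 - 1| := by
                rw [one_mul]
                exact pow_sub_one_le ha0 ha2 j
        have h3 : |Real.exp (-v * ‖x‖ ^ 2) - Real.exp (-v)| ≤ Λ * |‖x‖ ^ 2 - 1| := by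
          refine (exp_lip (by linarith) (by linarith)).trans ?_
          have e2 : -v * ‖x‖ ^ 2 - -v = -(v * (‖x‖ ^ 2 - 1)) := by ring
          rw [e2, abs_neg, abs_mul, abs_of_nonneg hv]
          exact mul_le_mul_of_nonneg_right hvΛ (abs_nonneg _)
        have h4 : (1 : ℝ) ≤ 2 ^ j := one_le_pow₀ (by norm_num)
        have h5 : Λ * |‖x‖ ^ 2 - 1| ≤ Λ * 2 ^ j * |‖x‖ ^ 2 - 1| := by
          refine mul_le_mul_of_nonneg_right ?_ (abs_nonneg _)
          exact le_mul_of_one_le_right hΛ.le h4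
        have e3 : (Λ + j) * 2 ^ j * |‖x‖ ^ 2 - 1| =
            (j : ℝ) * 2 ^ j * |‖x‖ ^ 2 - 1| + Λ * 2 ^ j * |‖x‖ ^ 2 - 1| := by ring
        rw [e3]
        linarith
      show (g x) ^ 2 ≤ (Λ + j) ^ 2 * 4 ^ j * (‖x‖ ^ 2 - 1) ^ 2
      have h6 := pow_le_pow_left₀ (abs_nonneg _) hgx 2
      rw [sq_abs, mul_pow, mul_pow, sq_abs, ← pow_mul, mul_comm j 2, pow_mul] at h6
      norm_num at h6
      exact h6
    have hSG : S ≤ δ * G := by
      have hgg : Integrable (fun p : E (n + 1) × E (n + 1) => (g p.1) ^ 2 * (g p.2) ^ 2)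
          (μ.prod μ) := hg2i.mul_prod hg2i
      have hSi : Integrable (fun p : E (n + 1) × E (n + 1) => g p.1 * g p.2 * inner ℝ p.1 p.2)
          (μ.prod μ) := bd_int hgm hgb hμ
      have hin : Integrable (fun p : E (n + 1) × E (n + 1) => (inner ℝ p.1 p.2) ^ 2)
          (μ.prod μ) := by
        have h3 : Measurable fun p : E (n + 1) × E (n + 1) => (inner ℝ p.1 p.2) ^ 2 := by fun_prop
        refine Integrable.of_bound h3.aestronglyMeasurable ((2 * 2) ^ 2) ?_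
        filter_upwards [T7.ae_prod hμ] with p hp
        rw [Real.norm_eq_abs, abs_pow]
        refine pow_le_pow_left₀ (abs_nonneg _) ((abs_real_inner_le_norm _ _).trans
          (mul_le_mul hp.1.2 hp.2.2 (norm_nonneg _) (by norm_num))) 2
      have hvI : vI μ = ∫ p, (inner ℝ p.1 p.2) ^ 2 ∂(μ.prod μ) := by
        rw [integral_prod _ hin]
        rfl
      have hGG : ∫ p, (g p.1) ^ 2 * (g p.2) ^ 2 ∂(μ.prod μ) = G * G :=
        integral_prod_mul (fun x => (g x) ^ 2) (fun x => (g x) ^ 2)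
      have hq : ∀ t : ℝ, 0 ≤ (G * G) * (t * t) + (2 * S) * t + vI μ := by
        intro t
        have e : (G * G) * (t * t) + (2 * S) * t + vI μ =
            ∫ p, (t * (g p.1 * g p.2) + inner ℝ p.1 p.2) ^ 2 ∂(μ.prod μ) := by
          rw [hvI, ← hGG, hSd]
          have e1 : ∀ p : E (n + 1) × E (n + 1), (t * (g p.1 * g p.2) + inner ℝ p.1 p.2) ^ 2 =
              t * t * ((g p.1) ^ 2 * (g p.2) ^ 2) + 2 * t * (g p.1 * g p.2 * inner ℝ p.1 p.2) +
                (inner ℝ p.1 p.2) ^ 2 := fun p => by ring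
          have i12 : Integrable (fun p : E (n + 1) × E (n + 1) =>
              t * t * ((g p.1) ^ 2 * (g p.2) ^ 2) +
                2 * t * (g p.1 * g p.2 * inner ℝ p.1 p.2)) (μ.prod μ) :=
            (hgg.const_mul _).add (hSi.const_mul _)
          simp_rw [e1]
          rw [integral_add i12 hin, integral_add (hgg.const_mul _) (hSi.const_mul _),
            integral_const_mul, integral_const_mul]
          ring
        rw [e]
        exact integral_nonneg fun p => sq_nonneg _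
      have hd := discrim_le_zero hq
      unfold discrim at hd
      have hiso := hT.iso
      have h7 : S ^ 2 ≤ (δ * G) ^ 2 := by nlinarith [mul_nonneg hG0 hG0]
      exact (abs_le_of_sq_le_sq' h7 (by positivity)).2
    calc S ≤ δ * G := hSG
      _ ≤ δ * ((Λ + j) ^ 2 * 4 ^ j * vE μ) := mul_le_mul_of_nonneg_left hGle hδ0.le
  have hU : HasSum (fun j => w j * (v * δ * vE μ)) ((∑' j, w j) * (v * δ * vE μ)) :=
    hw.hasSum.mul_right _
  have hle := hasSum_le (fun j => ?_) hmain hU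
  · have hnn : 0 ≤ v * δ * vE μ := by positivity
    calc h1 σ μ v ≤ (∑' j, w j) * (v * δ * vE μ) := hle
      _ ≤ (∑' j, w j + 1) * (v * δ * vE μ) := by nlinarith
      _ = (∑' j, w j + 1) * v * δ * vE μ := by ring
  · obtain ⟨b0, b1⟩ := bj_bd hσ j
    have hv2 : (2 * v) ^ (2 * j + 1) ≤ 2 * v * (2 * Λ) ^ (2 * j) := by
      rw [pow_succ, mul_comm]
      refine mul_le_mul_of_nonneg_left ?_ (by positivity)
      exact pow_le_pow_left₀ (by positivity) (by linarith) _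
    calc bj σ j * (2 * v) ^ (2 * j + 1) *
          ∫ p, phi v j p.1 * phi v j p.2 * inner ℝ p.1 p.2 ∂(μ.prod μ)
        ≤ bj σ j * (2 * v) ^ (2 * j + 1) * (δ * ((Λ + j) ^ 2 * 4 ^ j * vE μ)) :=
          mul_le_mul_of_nonneg_left (hterm j) (mul_nonneg b0 (by positivity))
      _ ≤ (((2 * j + 1).factorial : ℝ)⁻¹ * (2 * v * (2 * Λ) ^ (2 * j))) *
            (δ * ((Λ + j) ^ 2 * 4 ^ j * vE μ)) := by
          refine mul_le_mul_of_nonneg_right ?_ (by positivity)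
          exact mul_le_mul b1 hv2 (by positivity) (by positivity)
      _ = w j * (v * δ * vE μ) := by
          simp only [hwd]
          ring

end Pool.Agent.Lib.MP_6cd19d_an.SH
end

section

/-!
# The Laplace representation of the kernel

For `x > 0`: `∫_0^∞ v^(x-1) exp(-v Z) dv = Γ(x) Z^(-x)` and, with `c_x = ∫_0^∞ v^(x-1) log v exp(-v) dv`,
`∫_0^∞ v^(x-1) log v exp(-v Z) dv = Z^(-x) (c_x - Γ(x) log Z)` (substitution).  Take `x = s/2`,
`A = 1/(2 s e Γ(s/2)) = 1/(4 e Γ(1+s/2))`, `L = c_{s/2}/Γ(s/2) + 2/s + 2 l`.  Integration by parts: `c_{x+1} = x c_x + Γ(x)`, so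
`L = c_{1+s/2}/Γ(1+s/2) + 2 l`; `|log v| ≤ 2 v^(-1/2) + v`, `Γ(1+s/2) ≥ 1/2`, so `|L| ≤ C(M)`; `A ≤ C(M)`.
The second formula is the derivative of the first in `Z` (or the same computation with `x = s/2 + 1`).
Absolute bounds: `|log v - L| ≤ C (v^(-1/2)...)`; simply substitute `u = v Z`:
`∫ v^(x-1) |log v - L| exp(-vZ) dv ≤ Z^(-x) ∫ u^(x-1) (|log u| + |log Z| + |L|) exp(-u) du`.
-/

set_option autoImplicit false

open MeasureTheory Set Filter Topology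
open scoped ENNReal NNReal

namespace Pool.Agent.Lib.MP_6cd19d_an.SH

open Pool.Agent.Lib.MP_6cd19d_an.ND Pool.Agent.Lib.MP_6cd19d_an.HP

variable {n : ℕ}

private theorem log_le_aux {v : ℝ} (hv : 0 < v) {t : ℝ} (ht : 0 < t) :
    |Real.log v| ≤ v ^ (-t) / t + v := by
  rcases le_total v 1 with h | h
  · have h1 := Real.abs_log_mul_self_rpow_lt v t hv h ht
    have hp : 0 < v ^ t := Real.rpow_pos_of_pos hv t
    rw [abs_mul, abs_of_pos hp] at h1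
    have h2 : |Real.log v| = |Real.log v| * v ^ t * v ^ (-t) := by
      rw [mul_assoc, ← Real.rpow_add hv]; simp
    have h3 : |Real.log v| * v ^ t * v ^ (-t) ≤ 1 / t * v ^ (-t) :=
      mul_le_mul_of_nonneg_right h1.le (Real.rpow_nonneg hv.le _)
    rw [h2]
    calc |Real.log v| * v ^ t * v ^ (-t) ≤ 1 / t * v ^ (-t) := h3
      _ = v ^ (-t) / t := by ring
      _ ≤ v ^ (-t) / t + v := by linarith
  · have h1 : 0 ≤ Real.log v := Real.log_nonneg h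
    rw [abs_of_nonneg h1]
    have h2 := Real.log_le_sub_one_of_pos hv
    have h3 : 0 ≤ v ^ (-t) / t := div_nonneg (Real.rpow_nonneg hv.le _) ht.le
    linarith

private theorem gam_int {x : ℝ} (hx : 0 < x) :
    IntegrableOn (fun v : ℝ => v ^ (x - 1) * Real.exp (-v)) (Ioi 0) := by
  have h := Real.GammaIntegral_convergent hx
  refine h.congr_fun (fun v _ => by ring) measurableSet_Ioi

private theorem gam_eq {x : ℝ} (hx : 0 < x) :
    ∫ v in Ioi (0 : ℝ), v ^ (x - 1) * Real.exp (-v) = Real.Gamma x := by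
  rw [Real.Gamma_eq_integral hx]
  refine setIntegral_congr_fun measurableSet_Ioi (fun v _ => by ring)

private theorem dint {x : ℝ} (hx : 0 < x) :
    IntegrableOn (fun v : ℝ => v ^ (x - 1) * |Real.log v| * Real.exp (-v)) (Ioi 0) := by
  have h1 : IntegrableOn (fun v : ℝ => 2 / x * (v ^ (x / 2 - 1) * Real.exp (-v)) +
      v ^ (x + 1 - 1) * Real.exp (-v)) (Ioi 0) :=
    ((gam_int (x := x / 2) (by positivity)).const_mul (2 / x)).add (gam_int (x := x + 1) (by positivity))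
  refine h1.mono' ?_ ?_
  · refine (ContinuousOn.aestronglyMeasurable ?_ measurableSet_Ioi)
    intro v hv
    have hv' : v ≠ 0 := ne_of_gt hv
    refine ContinuousAt.continuousWithinAt ?_
    refine ((Real.continuousAt_rpow_const _ _ (Or.inl hv')).mul
      (Real.continuousAt_log hv').abs).mul ?_
    exact (Real.continuous_exp.comp continuous_neg).continuousAt
  · refine (ae_restrict_iff' measurableSet_Ioi).2 (Eventually.of_forall fun v hv => ?_)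
    have hv' : (0 : ℝ) < v := hv
    have hnn : 0 ≤ v ^ (x - 1) * |Real.log v| * Real.exp (-v) :=
      mul_nonneg (mul_nonneg (Real.rpow_nonneg hv'.le _) (abs_nonneg _)) (Real.exp_pos _).le
    rw [Real.norm_of_nonneg hnn]
    have h2 := log_le_aux hv' (t := x / 2) (by positivity)
    have h3 : v ^ (x - 1) * |Real.log v| ≤ v ^ (x - 1) * (v ^ (-(x / 2)) / (x / 2) + v) :=
      mul_le_mul_of_nonneg_left h2 (Real.rpow_nonneg hv'.le _)
    have h4 : v ^ (x - 1) * (v ^ (-(x / 2)) / (x / 2) + v) = 2 / x * v ^ (x / 2 - 1) + v ^ (x + 1 - 1) := by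
      have e1 : v ^ (x / 2 - 1) = v ^ (x - 1) * v ^ (-(x / 2)) := by
        rw [← Real.rpow_add hv']; congr 1; ring
      have e2 : v ^ (x + 1 - 1) = v ^ (x - 1) * v := by
        rw [show x + 1 - 1 = (x - 1) + 1 by ring, Real.rpow_add_one hv'.ne']
      rw [e1, e2]
      field_simp
    rw [h4] at h3
    calc v ^ (x - 1) * |Real.log v| * Real.exp (-v)
        ≤ (2 / x * v ^ (x / 2 - 1) + v ^ (x + 1 - 1)) * Real.exp (-v) :=
          mul_le_mul_of_nonneg_right h3 (Real.exp_pos _).le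
      _ = 2 / x * (v ^ (x / 2 - 1) * Real.exp (-v)) + v ^ (x + 1 - 1) * Real.exp (-v) := by ring

private noncomputable def cc (x : ℝ) : ℝ := ∫ v in Ioi (0 : ℝ), v ^ (x - 1) * Real.log v * Real.exp (-v)

private noncomputable def dd (x : ℝ) : ℝ := ∫ v in Ioi (0 : ℝ), v ^ (x - 1) * |Real.log v| * Real.exp (-v)

private theorem cint {x : ℝ} (hx : 0 < x) :
    IntegrableOn (fun v : ℝ => v ^ (x - 1) * Real.log v * Real.exp (-v)) (Ioi 0) := by
  refine (dint hx).mono' ?_ ?_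
  · refine (ContinuousOn.aestronglyMeasurable ?_ measurableSet_Ioi)
    intro v hv
    have hv' : v ≠ 0 := ne_of_gt hv
    refine ContinuousAt.continuousWithinAt ?_
    refine ((Real.continuousAt_rpow_const _ _ (Or.inl hv')).mul
      (Real.continuousAt_log hv')).mul ?_
    exact (Real.continuous_exp.comp continuous_neg).continuousAt
  · refine (ae_restrict_iff' measurableSet_Ioi).2 (Eventually.of_forall fun v hv => ?_)
    have hv' : (0 : ℝ) < v := hv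
    rw [norm_mul, norm_mul, Real.norm_eq_abs, Real.norm_eq_abs, Real.norm_eq_abs,
      abs_of_nonneg (Real.rpow_nonneg hv'.le _), abs_of_pos (Real.exp_pos _)]

private theorem dd_nonneg (x : ℝ) : 0 ≤ dd x := by
  refine setIntegral_nonneg measurableSet_Ioi (fun v hv => ?_)
  exact mul_nonneg (mul_nonneg (Real.rpow_nonneg (le_of_lt hv) _) (abs_nonneg _)) (Real.exp_pos _).le

private theorem cc_le_dd {x : ℝ} (hx : 0 < x) : |cc x| ≤ dd x := by
  unfold cc dd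
  rw [← Real.norm_eq_abs]
  refine (norm_integral_le_integral_norm _).trans (le_of_eq ?_)
  refine setIntegral_congr_fun measurableSet_Ioi (fun v hv => ?_)
  have hv' : (0 : ℝ) < v := hv
  rw [norm_mul, norm_mul, Real.norm_eq_abs, Real.norm_eq_abs, Real.norm_eq_abs,
      abs_of_nonneg (Real.rpow_nonneg hv'.le _), abs_of_pos (Real.exp_pos _)]

private theorem cc_succ {x : ℝ} (hx : 0 < x) : cc (x + 1) = x * cc x + Real.Gamma x := by
  have hd : ∀ v ∈ Ioi (0 : ℝ), HasDerivAt (fun v : ℝ => v ^ x * Real.log v * Real.exp (-v))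
      (x * (v ^ (x - 1) * Real.log v * Real.exp (-v)) + v ^ (x - 1) * Real.exp (-v) -
        v ^ (x + 1 - 1) * Real.log v * Real.exp (-v)) v := by
    intro v hv
    have hv' : (0 : ℝ) < v := hv
    have h1 : HasDerivAt (fun v : ℝ => v ^ x * Real.log v * Real.exp (-v))
        ((x * v ^ (x - 1) * Real.log v + v ^ x * v⁻¹) * Real.exp (-v) +
          (v ^ x * Real.log v) * (Real.exp (-v) * -1)) v :=
      (((Real.hasDerivAt_rpow_const (p := x) (Or.inl hv'.ne')).mul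
      (Real.hasDerivAt_log hv'.ne')).mul ((Real.hasDerivAt_exp (-v)).comp v (hasDerivAt_neg v)))
    refine h1.congr_deriv ?_
    have e2 : v ^ x = v ^ (x - 1) * v := by
      rw [← Real.rpow_add_one hv'.ne']; congr 1; ring
    have e3 : v ^ (x + 1 - 1) = v ^ (x - 1) * v := by
      rw [← Real.rpow_add_one hv'.ne']; congr 1; ring
    rw [e3, e2]
    field_simp
    ring
  have hi1 : IntegrableOn (fun v : ℝ => x * (v ^ (x - 1) * Real.log v * Real.exp (-v)) +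
      v ^ (x - 1) * Real.exp (-v)) (Ioi 0) := ((cint hx).const_mul x).add (gam_int hx)
  have hint : IntegrableOn (fun v : ℝ => x * (v ^ (x - 1) * Real.log v * Real.exp (-v)) +
      v ^ (x - 1) * Real.exp (-v) - v ^ (x + 1 - 1) * Real.log v * Real.exp (-v)) (Ioi 0) :=
    hi1.sub (cint (x := x + 1) (by positivity))
  have hc : ContinuousWithinAt (fun v : ℝ => v ^ x * Real.log v * Real.exp (-v)) (Ici 0) 0 := by
    have h0 : (fun v : ℝ => v ^ x * Real.log v * Real.exp (-v)) 0 = 0 := by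
      simp
    rw [← continuousWithinAt_Ioi_iff_Ici]
    unfold ContinuousWithinAt
    rw [h0]
    have h1 := tendsto_log_mul_rpow_nhdsGT_zero hx
    have h2 : Tendsto (fun v : ℝ => Real.exp (-v)) (𝓝[>] 0) (𝓝 1) := by
      have : Tendsto (fun v : ℝ => Real.exp (-v)) (𝓝 0) (𝓝 (Real.exp (-0))) :=
        (Real.continuous_exp.comp continuous_neg).tendsto 0
      rw [neg_zero, Real.exp_zero] at this
      exact this.mono_left nhdsWithin_le_nhds
    have h3 := h1.mul h2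
    rw [zero_mul] at h3
    refine h3.congr (fun v => by ring)
  have ht : Tendsto (fun v : ℝ => v ^ x * Real.log v * Real.exp (-v)) atTop (𝓝 0) := by
    have h1 := tendsto_rpow_mul_exp_neg_mul_atTop_nhds_zero (x + 1) 1 one_pos
    refine squeeze_zero' (f := fun v : ℝ => v ^ x * Real.log v * Real.exp (-v)) ?_ ?_ h1
    · filter_upwards [eventually_ge_atTop (1 : ℝ)] with v hv
      exact mul_nonneg (mul_nonneg (Real.rpow_nonneg (by linarith) _) (Real.log_nonneg hv)) (Real.exp_pos _).le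
    · filter_upwards [eventually_ge_atTop (1 : ℝ)] with v hv
      have hv' : (0 : ℝ) < v := by linarith
      rw [Real.rpow_add_one hv'.ne', neg_one_mul]
      refine mul_le_mul_of_nonneg_right ?_ (Real.exp_pos _).le
      refine mul_le_mul_of_nonneg_left ?_ (Real.rpow_nonneg hv'.le _)
      linarith [Real.log_le_sub_one_of_pos hv']
  have hmain := integral_Ioi_of_hasDerivAt_of_tendsto hc hd hint ht
  rw [integral_sub hi1 (cint (x := x + 1) (by positivity)),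
    integral_add ((cint hx).const_mul x) (gam_int hx), integral_const_mul, gam_eq hx] at hmain
  simp only [Real.log_zero, mul_zero, zero_mul, sub_zero] at hmain
  unfold cc
  linarith

private theorem scale {x : ℝ} (hx : 0 < x) (L : ℝ) {Z : ℝ} (hZ : 0 < Z) :
    IntegrableOn (fun v : ℝ => v ^ (x - 1) * (Real.log v - L) * Real.exp (-v * Z)) (Ioi 0) ∧
    ∫ v in Ioi (0 : ℝ), v ^ (x - 1) * (Real.log v - L) * Real.exp (-v * Z) =
      Z ^ (-x) * (cc x - (Real.log Z + L) * Real.Gamma x) ∧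
    ∫ v in Ioi (0 : ℝ), |v ^ (x - 1) * (Real.log v - L)| * Real.exp (-v * Z) ≤
      Z ^ (-x) * (dd x + (|Real.log Z| + |L|) * Real.Gamma x) := by
  have hG : IntegrableOn (fun u : ℝ => u ^ (x - 1) * Real.log u * Real.exp (-u) -
      (Real.log Z + L) * (u ^ (x - 1) * Real.exp (-u))) (Ioi 0) :=
    (cint hx).sub ((gam_int hx).const_mul _)
  have hH : IntegrableOn (fun u : ℝ => u ^ (x - 1) * |Real.log u| * Real.exp (-u) +
      (|Real.log Z| + |L|) * (u ^ (x - 1) * Real.exp (-u))) (Ioi 0) :=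
    (dint hx).add ((gam_int hx).const_mul _)
  have key : ∀ v ∈ Ioi (0 : ℝ), v ^ (x - 1) * (Real.log v - L) * Real.exp (-v * Z) =
      Z ^ (1 - x) * ((v * Z) ^ (x - 1) * Real.log (v * Z) * Real.exp (-(v * Z)) -
      (Real.log Z + L) * ((v * Z) ^ (x - 1) * Real.exp (-(v * Z)))) := by
    intro v hv
    have hv' : (0 : ℝ) < v := hv
    rw [Real.mul_rpow hv'.le hZ.le, Real.log_mul hv'.ne' hZ.ne']
    have e1 : Z ^ (1 - x) * Z ^ (x - 1) = 1 := by
      rw [← Real.rpow_add hZ]; simp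
    have e2 : -v * Z = -(v * Z) := by ring
    rw [e2]
    linear_combination (-(v ^ (x - 1) * (Real.log v - L) * Real.exp (-(v * Z)))) * e1
  have hscI : IntegrableOn (fun v : ℝ => (v * Z) ^ (x - 1) * Real.log (v * Z) * Real.exp (-(v * Z)) -
      (Real.log Z + L) * ((v * Z) ^ (x - 1) * Real.exp (-(v * Z)))) (Ioi 0) := by
    have h := (integrableOn_Ioi_comp_mul_right_iff (fun u : ℝ => u ^ (x - 1) * Real.log u * Real.exp (-u) -
      (Real.log Z + L) * (u ^ (x - 1) * Real.exp (-u))) 0 hZ).2 (by rw [zero_mul]; exact hG)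
    exact h
  have hscH : IntegrableOn (fun v : ℝ => (v * Z) ^ (x - 1) * |Real.log (v * Z)| * Real.exp (-(v * Z)) +
      (|Real.log Z| + |L|) * ((v * Z) ^ (x - 1) * Real.exp (-(v * Z)))) (Ioi 0) := by
    have h := (integrableOn_Ioi_comp_mul_right_iff (fun u : ℝ => u ^ (x - 1) * |Real.log u| * Real.exp (-u) +
      (|Real.log Z| + |L|) * (u ^ (x - 1) * Real.exp (-u))) 0 hZ).2 (by rw [zero_mul]; exact hH)
    exact h
  have hint : IntegrableOn (fun v : ℝ => v ^ (x - 1) * (Real.log v - L) * Real.exp (-v * Z)) (Ioi 0) :=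
    IntegrableOn.congr_fun (hscI.const_mul (Z ^ (1 - x))) (fun v hv => (key v hv).symm) measurableSet_Ioi
  have ez : Z ^ (1 - x) * Z⁻¹ = Z ^ (-x) := by
    rw [← Real.rpow_neg_one Z, ← Real.rpow_add hZ]; congr 1; ring
  refine ⟨hint, ?_, ?_⟩
  · rw [setIntegral_congr_fun measurableSet_Ioi key, integral_const_mul]
    have h := integral_comp_mul_right_Ioi (fun u : ℝ => u ^ (x - 1) * Real.log u * Real.exp (-u) -
      (Real.log Z + L) * (u ^ (x - 1) * Real.exp (-u))) 0 hZ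
    simp only [zero_mul, smul_eq_mul] at h
    rw [h, integral_sub (cint hx) ((gam_int hx).const_mul _), integral_const_mul, gam_eq hx, ← mul_assoc, ez]
    rfl
  · have hle : ∀ v ∈ Ioi (0 : ℝ), |v ^ (x - 1) * (Real.log v - L)| * Real.exp (-v * Z) ≤
        Z ^ (1 - x) * ((v * Z) ^ (x - 1) * |Real.log (v * Z)| * Real.exp (-(v * Z)) +
        (|Real.log Z| + |L|) * ((v * Z) ^ (x - 1) * Real.exp (-(v * Z)))) := by
      intro v hv
      have hv' : (0 : ℝ) < v := hv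
      have e1 : Z ^ (1 - x) * (v * Z) ^ (x - 1) = v ^ (x - 1) := by
        rw [Real.mul_rpow hv'.le hZ.le, mul_left_comm, ← Real.rpow_add hZ]; simp
      have e2 : -v * Z = -(v * Z) := by ring
      have e3 : Z ^ (1 - x) * ((v * Z) ^ (x - 1) * |Real.log (v * Z)| * Real.exp (-(v * Z)) +
        (|Real.log Z| + |L|) * ((v * Z) ^ (x - 1) * Real.exp (-(v * Z)))) =
          v ^ (x - 1) * (|Real.log (v * Z)| + (|Real.log Z| + |L|)) * Real.exp (-(v * Z)) := by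
        rw [← e1]; ring
      rw [e3, e2, abs_mul, abs_of_nonneg (Real.rpow_nonneg hv'.le _)]
      refine mul_le_mul_of_nonneg_right (mul_le_mul_of_nonneg_left ?_ (Real.rpow_nonneg hv'.le _))
        (Real.exp_pos _).le
      have e4 : Real.log v - L = Real.log (v * Z) - Real.log Z - L := by
        rw [Real.log_mul hv'.ne' hZ.ne']; ring
      rw [e4]
      calc |Real.log (v * Z) - Real.log Z - L| ≤ |Real.log (v * Z) - Real.log Z| + |L| := abs_sub _ _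
        _ ≤ |Real.log (v * Z)| + |Real.log Z| + |L| := by linarith [abs_sub (Real.log (v * Z)) (Real.log Z)]
        _ = |Real.log (v * Z)| + (|Real.log Z| + |L|) := by ring
    have hint2 : IntegrableOn (fun v : ℝ => |v ^ (x - 1) * (Real.log v - L)| * Real.exp (-v * Z)) (Ioi 0) := by
      refine IntegrableOn.congr_fun hint.norm (fun v _ => ?_) measurableSet_Ioi
      rw [norm_mul, Real.norm_eq_abs, Real.norm_eq_abs, abs_of_pos (Real.exp_pos _)]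
    refine (setIntegral_mono_on hint2 (hscH.const_mul _) measurableSet_Ioi hle).trans (le_of_eq ?_)
    rw [integral_const_mul]
    have h := integral_comp_mul_right_Ioi (fun u : ℝ => u ^ (x - 1) * |Real.log u| * Real.exp (-u) +
      (|Real.log Z| + |L|) * (u ^ (x - 1) * Real.exp (-u))) 0 hZ
    simp only [zero_mul, smul_eq_mul] at h
    rw [h, integral_add (dint hx) ((gam_int hx).const_mul _), integral_const_mul, gam_eq hx, ← mul_assoc, ez]
    rfl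

private theorem gamma_lower {x : ℝ} (hx : 0 ≤ x) : Real.exp (-1) ≤ Real.Gamma (1 + x) := by
  have hx1 : 0 < 1 + x := by linarith
  rw [← gam_eq hx1]
  have h0 : ∫ v in Ioi (1 : ℝ), Real.exp (-v) = Real.exp (-1) := integral_exp_neg_Ioi 1
  rw [← h0]
  have hs : Ioi (1 : ℝ) ⊆ Ioi 0 := Ioi_subset_Ioi zero_le_one
  calc ∫ v in Ioi (1 : ℝ), Real.exp (-v) ≤ ∫ v in Ioi (1 : ℝ), v ^ (1 + x - 1) * Real.exp (-v) := by
        refine setIntegral_mono_on ?_ ((gam_int hx1).mono_set hs) measurableSet_Ioi (fun v hv => ?_)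
        · exact integrableOn_exp_neg_Ioi 1
        · have h1 : (1 : ℝ) ≤ v ^ (1 + x - 1) :=
            Real.one_le_rpow (le_of_lt hv) (by linarith)
          have := mul_le_mul_of_nonneg_right h1 (Real.exp_pos (-v)).le
          linarith
    _ ≤ ∫ v in Ioi (0 : ℝ), v ^ (1 + x - 1) * Real.exp (-v) := by
        refine setIntegral_mono_set (gam_int hx1) ?_ (Eventually.of_forall hs)
        refine (ae_restrict_iff' measurableSet_Ioi).2 (Eventually.of_forall fun v hv => ?_)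
        exact mul_nonneg (Real.rpow_nonneg (le_of_lt hv) _) (Real.exp_pos _).le

private theorem dd_bound {M x : ℝ} (hx : 0 ≤ x) (hxM : x ≤ M) :
    dd (1 + x) ≤ 2 * Real.Gamma (1 / 2) + Real.Gamma (M + 2) := by
  have hM : 0 ≤ M := hx.trans hxM
  have h1 : IntegrableOn (fun v : ℝ => 2 * (v ^ ((1 : ℝ) / 2 - 1) * Real.exp (-v)) +
      v ^ (M + 2 - 1) * Real.exp (-v)) (Ioi 0) :=
    ((gam_int (x := 1 / 2) (by norm_num)).const_mul 2).add (gam_int (x := M + 2) (by linarith))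
  unfold dd
  rw [← gam_eq (x := 1 / 2) (by norm_num), ← gam_eq (x := M + 2) (by linarith), ← integral_const_mul,
    ← integral_add ((gam_int (x := 1 / 2) (by norm_num)).const_mul 2) (gam_int (x := M + 2) (by linarith))]
  refine setIntegral_mono_on (dint (by linarith)) h1 measurableSet_Ioi (fun v hv => ?_)
  have hv' : (0 : ℝ) < v := hv
  have e0 : 0 ≤ v ^ ((1 : ℝ) / 2 - 1) := Real.rpow_nonneg hv'.le _
  have e1 : 0 ≤ v ^ (M + 2 - 1) := Real.rpow_nonneg hv'.le _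
  have hle : v ^ (1 + x - 1) * |Real.log v| ≤ 2 * v ^ ((1 : ℝ) / 2 - 1) + v ^ (M + 2 - 1) := by
    rcases le_total v 1 with h | h
    · have a1 : v ^ (1 + x - 1) ≤ 1 := Real.rpow_le_one hv'.le h (by linarith)
      have a2 := Real.abs_log_mul_self_rpow_lt v (1 / 2) hv' h (by norm_num)
      have hp : 0 < v ^ ((1 : ℝ) / 2) := Real.rpow_pos_of_pos hv' _
      rw [abs_mul, abs_of_pos hp] at a2
      have a3 : |Real.log v| = |Real.log v| * v ^ ((1 : ℝ) / 2) * v ^ ((1 : ℝ) / 2 - 1) := by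
        rw [mul_assoc, ← Real.rpow_add hv']; norm_num
      have a4 : |Real.log v| * v ^ ((1 : ℝ) / 2) * v ^ ((1 : ℝ) / 2 - 1) ≤ 2 * v ^ ((1 : ℝ) / 2 - 1) := by
        refine mul_le_mul_of_nonneg_right ?_ e0
        have : (1 : ℝ) / (1 / 2) = 2 := by norm_num
        linarith
      calc v ^ (1 + x - 1) * |Real.log v| ≤ 1 * |Real.log v| :=
            mul_le_mul_of_nonneg_right a1 (abs_nonneg _)
        _ = |Real.log v| := one_mul _
        _ ≤ 2 * v ^ ((1 : ℝ) / 2 - 1) := by rw [a3]; exact a4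
        _ ≤ _ := by linarith
    · have a1 : v ^ (1 + x - 1) ≤ v ^ M := Real.rpow_le_rpow_of_exponent_le h (by linarith)
      have a2 : |Real.log v| ≤ v := by
        rw [abs_of_nonneg (Real.log_nonneg h)]
        linarith [Real.log_le_sub_one_of_pos hv']
      have a3 : v ^ (M + 2 - 1) = v ^ M * v := by
        rw [show M + 2 - 1 = M + 1 by ring, Real.rpow_add_one hv'.ne']
      calc v ^ (1 + x - 1) * |Real.log v| ≤ v ^ M * v :=
            mul_le_mul a1 a2 (abs_nonneg _) (Real.rpow_nonneg hv'.le _)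
        _ ≤ _ := by rw [a3]; linarith
  calc v ^ (1 + x - 1) * |Real.log v| * Real.exp (-v)
      ≤ (2 * v ^ ((1 : ℝ) / 2 - 1) + v ^ (M + 2 - 1)) * Real.exp (-v) :=
        mul_le_mul_of_nonneg_right hle (Real.exp_pos _).le
    _ = _ := by ring

theorem laplace_kc (M : ℝ) (hM : 1 ≤ M) : ∃ C : ℝ, 0 < C ∧ ∀ θ s e l : ℝ, Par M θ s e l →
    ∃ A L : ℝ, 0 < A ∧ A ≤ C ∧ |L| ≤ C ∧
      (∀ Z : ℝ, 0 < Z → IntegrableOn (fun v => ww s A L v * Real.exp (-v * Z)) (Ioi 0) ∧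
        1 / s ^ 2 + ∫ v in Ioi (0 : ℝ), ww s A L v * Real.exp (-v * Z) = kc s e l Z) ∧
      (∀ Z : ℝ, 0 < Z → IntegrableOn (fun v => ww s A L v * v * Real.exp (-v * Z)) (Ioi 0) ∧
        ∫ v in Ioi (0 : ℝ), ww s A L v * v * Real.exp (-v * Z) = -kc1 s e l Z) ∧
      (∃ C' : ℝ, 0 < C' ∧ ∀ Z : ℝ, 0 < Z →
        ∫ v in Ioi (0 : ℝ), |ww s A L v| * Real.exp (-v * Z) ≤ C' * (Z ^ (-s / 2) * (1 + |Real.log Z|))) ∧
      (∃ C' : ℝ, 0 < C' ∧ ∀ Z : ℝ, 0 < Z →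
        ∫ v in Ioi (0 : ℝ), |ww s A L v| * v * Real.exp (-v * Z) ≤
          C' * (Z ^ (-s / 2 - 1) * (1 + |Real.log Z|))) := by
  have hg1 : 0 < Real.Gamma (1 / 2) := Real.Gamma_pos_of_pos (by norm_num)
  have hg2 : 0 < Real.Gamma (M + 2) := Real.Gamma_pos_of_pos (by linarith)
  have h2M : 0 < (2 : ℝ) ^ M := Real.rpow_pos_of_pos (by norm_num) _
  have hexp : 0 < Real.exp 1 := Real.exp_pos 1
  refine ⟨Real.exp 1 * (2 * Real.Gamma (1 / 2) + Real.Gamma (M + 2)) + 2 + Real.exp 1 * 2 ^ M,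
    by positivity, ?_⟩
  intro θ s e l hP
  have hs := hP.s0
  have hsM := hP.sM
  have hxpos : 0 < s / 2 := by linarith
  have hΓ : 0 < Real.Gamma (s / 2) := Real.Gamma_pos_of_pos hxpos
  have hΓ1 : Real.Gamma (s / 2 + 1) = s / 2 * Real.Gamma (s / 2) := Real.Gamma_add_one hxpos.ne'
  have hΓ1pos : 0 < Real.Gamma (s / 2 + 1) := Real.Gamma_pos_of_pos (by linarith)
  have hΓlow : Real.exp (-1) ≤ Real.Gamma (s / 2 + 1) := by
    rw [add_comm]; exact gamma_lower hxpos.le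
  have h2s : 0 < (2 : ℝ) ^ (s / 2) := Real.rpow_pos_of_pos (by norm_num) _
  have he9 : 9 / 10 ≤ (2 : ℝ) ^ (s / 2) * e := by
    have := (abs_le.1 hP.e0).1
    linarith [hP.t1]
  have he : 0 < e := by
    by_contra hcon
    have : (2 : ℝ) ^ (s / 2) * e ≤ 0 := mul_nonpos_of_nonneg_of_nonpos h2s.le (not_lt.1 hcon)
    linarith
  have h2le : (2 : ℝ) ^ (s / 2) ≤ 2 ^ M :=
    Real.rpow_le_rpow_of_exponent_le (by norm_num) (by linarith)
  have hl : |l| ≤ 1 := by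
    have h1 := abs_le.1 hP.l0
    have h2 : Real.log 2 < 1 := by
      have := Real.log_two_lt_d9; linarith
    have h3 : 0 < Real.log 2 := Real.log_pos (by norm_num)
    rw [abs_le]
    constructor <;> linarith [hP.t1]
  have hcs := cc_succ hxpos
  set x := s / 2 with hxdef
  set A : ℝ := 1 / (4 * e * Real.Gamma (x + 1)) with hA
  set L : ℝ := cc (x + 1) / Real.Gamma (x + 1) + 2 * l with hL
  have hApos : 0 < A := by positivity
  have hee : Real.exp (-1) * Real.exp 1 = 1 := by rw [← Real.exp_add]; simp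
  have hAle : A ≤ Real.exp 1 * 2 ^ M := by
    rw [hA, div_le_iff₀ (by positivity)]
    have a1 : 9 / 10 ≤ 2 ^ M * e := he9.trans (mul_le_mul_of_nonneg_right h2le he.le)
    have a2 : 1 ≤ Real.exp 1 * Real.Gamma (x + 1) := by
      have := mul_le_mul_of_nonneg_right hΓlow hexp.le
      rw [hee] at this
      linarith
    have a3 : (9 / 10) * 1 ≤ (2 ^ M * e) * (Real.exp 1 * Real.Gamma (x + 1)) :=
      mul_le_mul a1 a2 (by norm_num) (by positivity)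
    nlinarith [a3]
  have hLle : |L| ≤ Real.exp 1 * (2 * Real.Gamma (1 / 2) + Real.Gamma (M + 2)) + 2 := by
    have b1 : |cc (x + 1)| ≤ 2 * Real.Gamma (1 / 2) + Real.Gamma (M + 2) := by
      refine (cc_le_dd (by linarith)).trans ?_
      have := dd_bound (M := M) (x := x) hxpos.le (by linarith)
      rwa [add_comm] at this
    have b2 : |cc (x + 1) / Real.Gamma (x + 1)| ≤
        Real.exp 1 * (2 * Real.Gamma (1 / 2) + Real.Gamma (M + 2)) := by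
      rw [abs_div, abs_of_pos hΓ1pos, div_le_iff₀ hΓ1pos]
      have a2 : 1 ≤ Real.exp 1 * Real.Gamma (x + 1) := by
        have := mul_le_mul_of_nonneg_right hΓlow hexp.le
        rw [hee] at this
        linarith
      calc |cc (x + 1)| ≤ (2 * Real.Gamma (1 / 2) + Real.Gamma (M + 2)) * 1 := by linarith
        _ ≤ (2 * Real.Gamma (1 / 2) + Real.Gamma (M + 2)) * (Real.exp 1 * Real.Gamma (x + 1)) :=
          mul_le_mul_of_nonneg_left a2 (by positivity)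
        _ = _ := by ring
    rw [hL]
    calc |cc (x + 1) / Real.Gamma (x + 1) + 2 * l| ≤ |cc (x + 1) / Real.Gamma (x + 1)| + |2 * l| :=
          abs_add_le _ _
      _ ≤ _ := by
          rw [abs_mul, abs_two]; linarith
  have hns : -s / 2 = -x := by rw [hxdef]; ring
  have hns1 : -s / 2 - 1 = -(x + 1) := by rw [hxdef]; ring
  have hs2 : s = 2 * x := by rw [hxdef]; ring
  refine ⟨A, L, hApos, ?_, ?_, ?_, ?_, ?_, ?_⟩
  · have : 0 ≤ Real.exp 1 * (2 * Real.Gamma (1 / 2) + Real.Gamma (M + 2)) := by positivity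
    linarith
  · have : 0 ≤ Real.exp 1 * 2 ^ M := by positivity
    linarith
  · intro Z hZ
    obtain ⟨h1, h2, -⟩ := scale hxpos L hZ
    have hf : (fun v => ww s A L v * Real.exp (-v * Z)) =
        fun v => A * (v ^ (x - 1) * (Real.log v - L) * Real.exp (-v * Z)) := by
      funext v
      unfold ww
      rw [← hxdef]; ring
    rw [hf]
    refine ⟨h1.const_mul A, ?_⟩
    rw [integral_const_mul, h2, hL]
    unfold kc
    rw [hns, hcs, hA, hΓ1, hs2]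
    field_simp
    ring
  · intro Z hZ
    obtain ⟨h1, h2, -⟩ := scale (x := x + 1) (by linarith) L hZ
    have hf : ∀ v ∈ Ioi (0 : ℝ), A * (v ^ (x + 1 - 1) * (Real.log v - L) * Real.exp (-v * Z)) =
        ww s A L v * v * Real.exp (-v * Z) := by
      intro v hv
      have hv' : (0 : ℝ) < v := hv
      unfold ww
      rw [← hxdef, show x + 1 - 1 = (x - 1) + 1 by ring, Real.rpow_add_one hv'.ne']; ring
    refine ⟨IntegrableOn.congr_fun (h1.const_mul A) hf measurableSet_Ioi, ?_⟩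
    rw [← setIntegral_congr_fun measurableSet_Ioi hf, integral_const_mul, h2, hL]
    unfold kc1
    rw [hns1, hA]
    field_simp
    ring
  · refine ⟨A * (dd x + (1 + |L|) * Real.Gamma x), ?_, ?_⟩
    · have := dd_nonneg x
      positivity
    · intro Z hZ
      obtain ⟨-, -, h3⟩ := scale hxpos L hZ
      have hf : (fun v => |ww s A L v| * Real.exp (-v * Z)) =
          fun v => A * (|v ^ (x - 1) * (Real.log v - L)| * Real.exp (-v * Z)) := by
        funext v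
        unfold ww
        rw [← hxdef, mul_assoc A, abs_mul, abs_of_pos hApos]; ring
      rw [hf, integral_const_mul, hns]
      have h4 := mul_le_mul_of_nonneg_left h3 hApos.le
      refine h4.trans ?_
      have hz : 0 < Z ^ (-x) := Real.rpow_pos_of_pos hZ _
      have hd := dd_nonneg x
      have h5 : dd x + (|Real.log Z| + |L|) * Real.Gamma x ≤
          (dd x + (1 + |L|) * Real.Gamma x) * (1 + |Real.log Z|) := by
        have c1 := mul_nonneg hd (abs_nonneg (Real.log Z))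
        have c2 := mul_nonneg hΓ.le (abs_nonneg (Real.log Z))
        have c3 := mul_nonneg (mul_nonneg (abs_nonneg L) hΓ.le) (abs_nonneg (Real.log Z))
        nlinarith
      calc A * (Z ^ (-x) * (dd x + (|Real.log Z| + |L|) * Real.Gamma x))
          ≤ A * (Z ^ (-x) * ((dd x + (1 + |L|) * Real.Gamma x) * (1 + |Real.log Z|))) := by
            gcongr
        _ = _ := by ring
  · refine ⟨A * (dd (x + 1) + (1 + |L|) * Real.Gamma (x + 1)), ?_, ?_⟩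
    · have := dd_nonneg (x + 1)
      positivity
    · intro Z hZ
      obtain ⟨-, -, h3⟩ := scale (x := x + 1) (by linarith) L hZ
      have hf : ∀ v ∈ Ioi (0 : ℝ), A * (|v ^ (x + 1 - 1) * (Real.log v - L)| * Real.exp (-v * Z)) =
          |ww s A L v| * v * Real.exp (-v * Z) := by
        intro v hv
        have hv' : (0 : ℝ) < v := hv
        unfold ww
        rw [← hxdef, show x + 1 - 1 = (x - 1) + 1 by ring, Real.rpow_add_one hv'.ne', mul_assoc A,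
          abs_mul A, abs_of_pos hApos, mul_right_comm (v ^ (x - 1)), abs_mul _ v, abs_of_pos hv']; ring
      rw [← setIntegral_congr_fun measurableSet_Ioi hf, integral_const_mul, hns1]
      have h4 := mul_le_mul_of_nonneg_left h3 hApos.le
      refine h4.trans ?_
      have hz : 0 < Z ^ (-(x + 1)) := Real.rpow_pos_of_pos hZ _
      have hd := dd_nonneg (x + 1)
      have h5 : dd (x + 1) + (|Real.log Z| + |L|) * Real.Gamma (x + 1) ≤
          (dd (x + 1) + (1 + |L|) * Real.Gamma (x + 1)) * (1 + |Real.log Z|) := by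
        have c1 := mul_nonneg hd (abs_nonneg (Real.log Z))
        have c2 := mul_nonneg hΓ1pos.le (abs_nonneg (Real.log Z))
        have c3 := mul_nonneg (mul_nonneg (abs_nonneg L) hΓ1pos.le) (abs_nonneg (Real.log Z))
        nlinarith
      calc A * (Z ^ (-(x + 1)) * (dd (x + 1) + (|Real.log Z| + |L|) * Real.Gamma (x + 1)))
          ≤ A * (Z ^ (-(x + 1)) * ((dd (x + 1) + (1 + |L|) * Real.Gamma (x + 1)) * (1 + |Real.log Z|))) := by
            gcongr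
        _ = _ := by ring

end Pool.Agent.Lib.MP_6cd19d_an.SH
end
end

section

/-!
# The radial part

`r^2 = 1 + ε`, `r'^2 = 1 + ε'`, `|ε|,|ε'| ≤ δ ≤ 1/10`.  For `τ ∈ [0,1]` and `t = y_0` let
`Z(τ) = 2 + τ(ε+ε') - t R(τ)`, `R(τ) = 2 sqrt((1+τε)(1+τε'))`, and `f(τ) = ∫ kc(Z(τ)) dσ`.  `f(0) = 0` and
`f'(0) = ∫ kc1(2-2t) (ε+ε')(1-t) dσ = 0` (`stat_sphere`; `R'(0) = ε + ε'`).  `Z(τ) ≥ 1 - t` and `Z ≤ 5` (for `|t| ≤ 1`; indeed
`Z = |a e - a' u|^2 ≥ a a' (2-2t)`, `a a' = R/2 ≥ 0.9`), so all is dominated by powers of `(1-t)^{-1}` (`neg_mom`).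
`f''(τ) = ∫ [kc2(Z)(ε+ε'-tR')^2 - kc1(Z) t R''] dσ`, `|R'| ≤ 2(|ε|+|ε'|)`, `|R''| ≤ C(|ε|+|ε'|)^2`.  By `kc12_bound`,
`|Z - 2| ≤ 2δ + 3|t|`, `∫ (ε+ε'-tR')^2 ≥ (ε+ε')^2` (`∫ t = 0`), and `neg_mom`:
`f'' ≥ (1/16)(ε+ε')^2 - C (δ + θ + (n+1)^(-1/2)) (|ε|+|ε'|)^2`, `θ = C/(n+1)` from `par_sphere`.
`f(1) = ∫_0^1 (1-τ) f''(τ) dτ` (Taylor), so `f(1) ≥ (1/32)(ε+ε')^2 - C(δ+θ+(n+1)^(-1/2)) (ε^2+ε'^2)`; choose `δ` small and `n` large.

`rad_energy`: integrate over `μ × μ` (Fubini for `h0`-type integrals is not needed here): for `Thin δ μ`,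
`∬ F ≥ (1/32) ∬ (ε+ε')^2 - (1/128) ∬ (ε^2+ε'^2) ≥ (1/16) vE - (1/64) vE`.
-/

set_option autoImplicit false

open MeasureTheory Set Filter Topology
open scoped ENNReal NNReal

namespace Pool.Agent.Lib.MP_6cd19d_an.SH

open Pool.Agent.Lib.MP_6cd19d_an.ND Pool.Agent.Lib.MP_6cd19d_an.HP

variable {n : ℕ}

private theorem taylor_lo {g g1 g2 : ℝ → ℝ} {m : ℝ}
    (h1 : ∀ τ ∈ Icc (0 : ℝ) 1, HasDerivAt g (g1 τ) τ)
    (h2 : ∀ τ ∈ Icc (0 : ℝ) 1, HasDerivAt g1 (g2 τ) τ)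
    (hm : ∀ τ ∈ Icc (0 : ℝ) 1, m ≤ g2 τ) : g 0 + g1 0 + m / 2 ≤ g 1 := by
  have d1 : ∀ τ ∈ Icc (0 : ℝ) 1, HasDerivAt (fun τ => g1 τ - m * τ) (g2 τ - m) τ := by
    intro τ hτ
    exact ((h2 τ hτ).sub ((hasDerivAt_id τ).const_mul m)).congr_deriv (by ring)
  have mono1 : MonotoneOn (fun τ => g1 τ - m * τ) (Icc 0 1) := by
    apply monotoneOn_of_deriv_nonneg (convex_Icc 0 1)
    · intro τ hτ
      exact (d1 τ hτ).continuousAt.continuousWithinAt
    · intro τ hτ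
      rw [interior_Icc] at hτ
      exact (d1 τ (Ioo_subset_Icc_self hτ)).differentiableAt.differentiableWithinAt
    · intro τ hτ
      rw [interior_Icc] at hτ
      rw [(d1 τ (Ioo_subset_Icc_self hτ)).deriv]
      linarith [hm τ (Ioo_subset_Icc_self hτ)]
  have key : ∀ τ ∈ Icc (0 : ℝ) 1, g1 0 + m * τ ≤ g1 τ := by
    intro τ hτ
    have := mono1 (left_mem_Icc.2 zero_le_one) hτ hτ.1
    simp only [mul_zero, sub_zero] at this
    linarith
  have d2 : ∀ τ ∈ Icc (0 : ℝ) 1,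
      HasDerivAt (fun τ => g τ - g1 0 * τ - m / 2 * τ ^ 2) (g1 τ - g1 0 - m * τ) τ := by
    intro τ hτ
    exact (((h1 τ hτ).sub ((hasDerivAt_id τ).const_mul (g1 0))).sub
      (((hasDerivAt_pow 2 τ)).const_mul (m / 2))).congr_deriv (by norm_num; ring)
  have mono2 : MonotoneOn (fun τ => g τ - g1 0 * τ - m / 2 * τ ^ 2) (Icc 0 1) := by
    apply monotoneOn_of_deriv_nonneg (convex_Icc 0 1)
    · intro τ hτ
      exact (d2 τ hτ).continuousAt.continuousWithinAt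
    · intro τ hτ
      rw [interior_Icc] at hτ
      exact (d2 τ (Ioo_subset_Icc_self hτ)).differentiableAt.differentiableWithinAt
    · intro τ hτ
      rw [interior_Icc] at hτ
      rw [(d2 τ (Ioo_subset_Icc_self hτ)).deriv]
      linarith [key τ (Ioo_subset_Icc_self hτ)]
  have := mono2 (left_mem_Icc.2 zero_le_one) (right_mem_Icc.2 zero_le_one) zero_le_one
  simp only [mul_zero, sub_zero, mul_one, one_pow, ne_eq, OfNat.ofNat_ne_zero, not_false_eq_true,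
    zero_pow] at this
  linarith

private theorem taylor_hi {g g1 g2 : ℝ → ℝ} {m : ℝ}
    (h1 : ∀ τ ∈ Icc (0 : ℝ) 1, HasDerivAt g (g1 τ) τ)
    (h2 : ∀ τ ∈ Icc (0 : ℝ) 1, HasDerivAt g1 (g2 τ) τ)
    (hm : ∀ τ ∈ Icc (0 : ℝ) 1, g2 τ ≤ m) : g 1 ≤ g 0 + g1 0 + m / 2 := by
  have := taylor_lo (g := fun τ => - g τ) (g1 := fun τ => - g1 τ) (g2 := fun τ => - g2 τ) (m := -m)
    (fun τ hτ => (h1 τ hτ).neg) (fun τ hτ => (h2 τ hτ).neg) (fun τ hτ => by linarith [hm τ hτ])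
  linarith

/-- `S(τ)` -/
private noncomputable def sS (ε ε' τ : ℝ) : ℝ := Real.sqrt ((1 + τ * ε) * (1 + τ * ε'))

private noncomputable def sS1 (ε ε' τ : ℝ) : ℝ :=
  (ε * (1 + τ * ε') + ε' * (1 + τ * ε)) / (2 * sS ε ε' τ)

private noncomputable def sS2 (ε ε' τ : ℝ) : ℝ := -(ε - ε') ^ 2 / (4 * (sS ε ε' τ) ^ 3)

private theorem sS_bd {ε ε' τ : ℝ} (h : |ε| ≤ 1 / 10) (h' : |ε'| ≤ 1 / 10) (hτ : τ ∈ Icc (0 : ℝ) 1) :
    9 / 10 ≤ 1 + τ * ε ∧ 1 + τ * ε ≤ 11 / 10 ∧ 9 / 10 ≤ 1 + τ * ε' ∧ 1 + τ * ε' ≤ 11 / 10 ∧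
    9 / 10 ≤ sS ε ε' τ ∧ sS ε ε' τ ≤ 11 / 10 ∧
    (sS ε ε' τ) ^ 2 = (1 + τ * ε) * (1 + τ * ε') := by
  obtain ⟨a1, a2⟩ := abs_le.1 h
  obtain ⟨b1, b2⟩ := abs_le.1 h'
  obtain ⟨t0, t1⟩ := hτ
  have c1 : 9 / 10 ≤ 1 + τ * ε := by nlinarith
  have c2 : 1 + τ * ε ≤ 11 / 10 := by nlinarith
  have c3 : 9 / 10 ≤ 1 + τ * ε' := by nlinarith
  have c4 : 1 + τ * ε' ≤ 11 / 10 := by nlinarith
  refine ⟨c1, c2, c3, c4, ?_, ?_, ?_⟩
  · apply Real.le_sqrt_of_sq_le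
    nlinarith
  · rw [sS, Real.sqrt_le_iff]
    constructor
    · norm_num
    · nlinarith
  · exact Real.sq_sqrt (by nlinarith)

private theorem sS_der {ε ε' τ : ℝ} (h : |ε| ≤ 1 / 10) (h' : |ε'| ≤ 1 / 10)
    (hτ : τ ∈ Icc (0 : ℝ) 1) : HasDerivAt (sS ε ε') (sS1 ε ε' τ) τ := by
  obtain ⟨c1, c2, c3, c4, c5, c6, c7⟩ := sS_bd h h' hτ
  have e1 : HasDerivAt (fun τ : ℝ => (1 + τ * ε)) ε τ := by
    simpa using ((hasDerivAt_id τ).mul_const ε).const_add 1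
  have e2 : HasDerivAt (fun τ : ℝ => (1 + τ * ε')) ε' τ := by
    simpa using ((hasDerivAt_id τ).mul_const ε').const_add 1
  have e3 := (e1.mul e2).sqrt (by simp only [Pi.mul_apply]; nlinarith)
  have : sS1 ε ε' τ = (ε * (1 + τ * ε') + (1 + τ * ε) * ε') /
      (2 * Real.sqrt ((1 + τ * ε) * (1 + τ * ε'))) := by
    rw [sS1, sS]
    ring_nf
  rw [this]
  exact e3

private theorem sS1_der {ε ε' τ : ℝ} (h : |ε| ≤ 1 / 10) (h' : |ε'| ≤ 1 / 10)
    (hτ : τ ∈ Icc (0 : ℝ) 1) : HasDerivAt (sS1 ε ε') (sS2 ε ε' τ) τ := by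
  obtain ⟨c1, c2, c3, c4, c5, c6, c7⟩ := sS_bd h h' hτ
  have e1 : HasDerivAt (fun τ : ℝ => (1 + τ * ε)) ε τ := by
    simpa using ((hasDerivAt_id τ).mul_const ε).const_add 1
  have e2 : HasDerivAt (fun τ : ℝ => (1 + τ * ε')) ε' τ := by
    simpa using ((hasDerivAt_id τ).mul_const ε').const_add 1
  have e3 := (((e2.const_mul ε).add (e1.const_mul ε')).div ((sS_der h h' hτ).const_mul 2)
    (by positivity))
  have hS : sS ε ε' τ ≠ 0 := by positivity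
  have : sS2 ε ε' τ = ((ε * ε' + ε' * ε) * (2 * sS ε ε' τ) -
      (ε * (1 + τ * ε') + ε' * (1 + τ * ε)) * (2 * sS1 ε ε' τ)) / (2 * sS ε ε' τ) ^ 2 := by
    rw [sS2, sS1]
    have h3 : (sS ε ε' τ) ^ 3 = sS ε ε' τ * ((1 + τ * ε) * (1 + τ * ε')) := by
      rw [← c7]; ring
    field_simp
    rw [c7]
    ring
  rw [this]
  exact e3

private theorem sS_bd2 {ε ε' τ : ℝ} (h : |ε| ≤ 1 / 10) (h' : |ε'| ≤ 1 / 10)
    (hτ : τ ∈ Icc (0 : ℝ) 1) :
    |sS1 ε ε' τ| ≤ |ε| + |ε'| ∧ |sS2 ε ε' τ| ≤ (|ε| + |ε'|) ^ 2 / 2 ∧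
    |sS1 ε ε' τ - (ε + ε') / 2| ≤ (|ε| + |ε'|) ^ 2 := by
  obtain ⟨c1, c2, c3, c4, c5, c6, c7⟩ := sS_bd h h' hτ
  have hS : 0 < sS ε ε' τ := by linarith
  have ha := abs_nonneg ε
  have hb := abs_nonneg ε'
  have hpa : |ε * ε'| ≤ (|ε| + |ε'|) ^ 2 / 4 := by
    rw [abs_mul]; nlinarith [sq_nonneg (|ε| - |ε'|)]
  refine ⟨?_, ?_, ?_⟩
  · rw [sS1, abs_div, abs_of_pos (by positivity : 0 < 2 * sS ε ε' τ), div_le_iff₀ (by positivity)]
    calc |ε * (1 + τ * ε') + ε' * (1 + τ * ε)|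
        ≤ |ε * (1 + τ * ε')| + |ε' * (1 + τ * ε)| := abs_add_le _ _
      _ = |ε| * (1 + τ * ε') + |ε'| * (1 + τ * ε) := by
          rw [abs_mul, abs_mul, abs_of_pos (by linarith : 0 < 1 + τ * ε'),
            abs_of_pos (by linarith : 0 < 1 + τ * ε)]
      _ ≤ |ε| * (11 / 10) + |ε'| * (11 / 10) := by gcongr
      _ ≤ (|ε| + |ε'|) * (2 * sS ε ε' τ) := by nlinarith
  · rw [sS2, abs_div, abs_neg, abs_of_nonneg (sq_nonneg _),
      abs_of_pos (by positivity : 0 < 4 * sS ε ε' τ ^ 3), div_le_iff₀ (by positivity)]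
    have h1 : (ε - ε') ^ 2 ≤ (|ε| + |ε'|) ^ 2 := by
      rw [← sq_abs]
      exact pow_le_pow_left₀ (abs_nonneg _) (abs_sub _ _) 2
    have h2 : (9 / 10 : ℝ) ^ 3 ≤ sS ε ε' τ ^ 3 := pow_le_pow_left₀ (by norm_num) c5 3
    have h3 : 0 ≤ (|ε| + |ε'|) ^ 2 := sq_nonneg _
    nlinarith
  · have e1 : sS1 ε ε' τ - (ε + ε') / 2 =
        ((ε + ε') * (1 - sS ε ε' τ) + 2 * τ * (ε * ε')) / (2 * sS ε ε' τ) := by
      rw [sS1]; field_simp; ring
    rw [e1, abs_div, abs_of_pos (by positivity : 0 < 2 * sS ε ε' τ), div_le_iff₀ (by positivity)]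
    have e2 : (1 - sS ε ε' τ) * (1 + sS ε ε' τ) = -(τ * (ε + ε') + τ ^ 2 * (ε * ε')) := by
      have : (1 - sS ε ε' τ) * (1 + sS ε ε' τ) = 1 - sS ε ε' τ ^ 2 := by ring
      rw [this, c7]; ring
    have e3 : |1 - sS ε ε' τ| * (1 + sS ε ε' τ) = |τ * (ε + ε') + τ ^ 2 * (ε * ε')| := by
      rw [← abs_neg (τ * (ε + ε') + τ ^ 2 * (ε * ε')), ← e2, abs_mul,
        abs_of_pos (by linarith : 0 < 1 + sS ε ε' τ)]
    have e4 : |τ * (ε + ε') + τ ^ 2 * (ε * ε')| ≤ (|ε| + |ε'|) + (|ε| + |ε'|) ^ 2 / 4 := by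
      calc |τ * (ε + ε') + τ ^ 2 * (ε * ε')| ≤ |τ * (ε + ε')| + |τ ^ 2 * (ε * ε')| := abs_add_le _ _
        _ = τ * |ε + ε'| + τ ^ 2 * |ε * ε'| := by
            rw [abs_mul, abs_mul, abs_of_nonneg hτ.1, abs_of_nonneg (sq_nonneg τ)]
        _ ≤ 1 * (|ε| + |ε'|) + 1 * ((|ε| + |ε'|) ^ 2 / 4) := by
            have q1 : τ ^ 2 ≤ 1 := by nlinarith [hτ.1, hτ.2]
            have q2 := abs_add_le ε ε'
            have q3 : 0 ≤ τ ^ 2 := sq_nonneg _
            gcongr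
            · exact hτ.2
        _ = _ := by ring
    have e5 : |1 - sS ε ε' τ| ≤ (3 / 5) * (|ε| + |ε'|) := by
      have q1 : |1 - sS ε ε' τ| * (19 / 10) ≤ |1 - sS ε ε' τ| * (1 + sS ε ε' τ) := by
        gcongr; linarith
      nlinarith
    calc |(ε + ε') * (1 - sS ε ε' τ) + 2 * τ * (ε * ε')|
        ≤ |(ε + ε') * (1 - sS ε ε' τ)| + |2 * τ * (ε * ε')| := abs_add_le _ _
      _ = |ε + ε'| * |1 - sS ε ε' τ| + 2 * τ * |ε * ε'| := by
          rw [abs_mul, abs_mul (2 * τ), abs_of_nonneg (by linarith [hτ.1] : 0 ≤ 2 * τ)]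
      _ ≤ (|ε| + |ε'|) * ((3 / 5) * (|ε| + |ε'|)) + 2 * 1 * ((|ε| + |ε'|) ^ 2 / 4) := by
          have q2 := abs_add_le ε ε'
          have q3 := hτ.2
          have q4 := hτ.1
          gcongr
      _ ≤ (|ε| + |ε'|) ^ 2 * (2 * sS ε ε' τ) := by
          have q5 : 0 ≤ (|ε| + |ε'|) ^ 2 := sq_nonneg _
          nlinarith


private theorem rad_pt (M : ℝ) (hM : 1 ≤ M) : ∃ C : ℝ, 0 < C ∧ ∃ k : ℕ, ∀ θ s e l : ℝ, Par M θ s e l →
    ∀ ε ε' t : ℝ, |ε| ≤ 1 / 10 → |ε'| ≤ 1 / 10 → |t| ≤ 1 → t < 1 →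
      kc s e l (2 - 2 * t) + (ε + ε') * ((1 - t) * kc1 s e l (2 - 2 * t)) +
          ((1 / 16) * ((ε + ε') ^ 2 - 2 * (ε + ε') ^ 2 * t) -
            C * (|ε| + |ε'|) ^ 2 * ((|ε| + |ε'|) + θ + |t|) * (1 + ((1 - t)⁻¹) ^ k)) / 2 ≤
        kc s e l (2 + (ε + ε') - 2 * t * Real.sqrt ((1 + ε) * (1 + ε'))) ∧
      kc s e l (2 + (ε + ε') - 2 * t * Real.sqrt ((1 + ε) * (1 + ε'))) ≤
        kc s e l (2 - 2 * t) + (ε + ε') * ((1 - t) * kc1 s e l (2 - 2 * t)) +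
          C * (1 + ((1 - t)⁻¹) ^ k) / 2 := by
  obtain ⟨C0, hC0, k, hk⟩ := kc12_bound M hM
  refine ⟨30 * C0 + 1, by positivity, k, ?_⟩
  intro θ s e l hp ε ε' t hε hε' ht ht1
  have he : 0 < e := par_e hp
  have hs : 0 < s := hp.s0
  have hθ0 := hp.t0
  have hθ1 := hp.t1
  set A : ℝ := |ε| + |ε'| with hA
  have hA0 : 0 ≤ A := by positivity
  have hA1 : A ≤ 1 / 5 := by linarith
  have ha : |ε + ε'| ≤ A := abs_add_le _ _
  have hw0 : 0 ≤ ((1 - t)⁻¹) ^ k := pow_nonneg (inv_nonneg.2 (by linarith)) k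
  have ht0 := abs_nonneg t
  -- the path
  set Z : ℝ → ℝ := fun τ => 2 + τ * (ε + ε') - 2 * t * sS ε ε' τ with hZ
  set Z1 : ℝ → ℝ := fun τ => (ε + ε') - 2 * t * sS1 ε ε' τ with hZ1
  set Z2 : ℝ → ℝ := fun τ => - (2 * t * sS2 ε ε' τ) with hZ2
  have dZ : ∀ τ ∈ Icc (0 : ℝ) 1, HasDerivAt Z (Z1 τ) τ := by
    intro τ hτ
    have e1 : HasDerivAt (fun τ : ℝ => 2 + τ * (ε + ε')) (ε + ε') τ := by
      simpa using ((hasDerivAt_id τ).mul_const (ε + ε')).const_add 2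
    exact e1.sub ((sS_der hε hε' hτ).const_mul (2 * t))
  have dZ1 : ∀ τ ∈ Icc (0 : ℝ) 1, HasDerivAt Z1 (Z2 τ) τ := by
    intro τ hτ
    exact ((hasDerivAt_const τ (ε + ε')).sub ((sS1_der hε hε' hτ).const_mul (2 * t))).congr_deriv
      (by simp only [hZ2]; ring)
  have bZ : ∀ τ ∈ Icc (0 : ℝ) 1, 1 - t ≤ Z τ ∧ Z τ ≤ 10 ∧ |Z τ - 2| ≤ A + 3 * |t| := by
    intro τ hτ
    obtain ⟨c1, c2, c3, c4, c5, c6, c7⟩ := sS_bd hε hε' hτ
    have hZτ : Z τ = (1 + τ * ε) + (1 + τ * ε') - 2 * t * sS ε ε' τ := by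
      simp only [hZ]; ring
    have q1 : 2 * sS ε ε' τ ≤ (1 + τ * ε) + (1 + τ * ε') := by
      apply le_of_sq_le_sq _ (by linarith)
      nlinarith [sq_nonneg ((1 + τ * ε) - (1 + τ * ε'))]
    refine ⟨?_, ?_, ?_⟩
    · rw [hZτ]
      nlinarith
    · rw [hZτ]
      have : -(2 * t * sS ε ε' τ) ≤ 2 * 1 * (11 / 10) := by
        calc -(2 * t * sS ε ε' τ) ≤ |-(2 * t * sS ε ε' τ)| := le_abs_self _
          _ = 2 * |t| * sS ε ε' τ := by
            rw [abs_neg, abs_mul, abs_mul, abs_of_pos (by linarith : 0 < sS ε ε' τ)]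
            norm_num
          _ ≤ _ := by gcongr
      linarith
    · have : Z τ - 2 = τ * (ε + ε') - 2 * t * sS ε ε' τ := by simp only [hZ]; ring
      rw [this]
      calc |τ * (ε + ε') - 2 * t * sS ε ε' τ| ≤ |τ * (ε + ε')| + |2 * t * sS ε ε' τ| := abs_sub _ _
        _ = τ * |ε + ε'| + 2 * |t| * sS ε ε' τ := by
            rw [abs_mul, abs_mul, abs_mul, abs_of_nonneg hτ.1,
              abs_of_pos (by linarith : 0 < sS ε ε' τ)]
            norm_num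
        _ ≤ 1 * A + 2 * |t| * (11 / 10) := by
            have := hτ.2
            have := hτ.1
            gcongr
        _ ≤ A + 3 * |t| := by linarith
  have dg : ∀ τ ∈ Icc (0 : ℝ) 1, HasDerivAt (fun τ => kc s e l (Z τ)) (kc1 s e l (Z τ) * Z1 τ) τ := by
    intro τ hτ
    have hZp : 0 < Z τ := by linarith [(bZ τ hτ).1]
    exact (hasDerivAt_kc hs he hZp).comp τ (dZ τ hτ)
  have dg1 : ∀ τ ∈ Icc (0 : ℝ) 1, HasDerivAt (fun τ => kc1 s e l (Z τ) * Z1 τ)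
      (kc2 s e l (Z τ) * Z1 τ * Z1 τ + kc1 s e l (Z τ) * Z2 τ) τ := by
    intro τ hτ
    have hZp : 0 < Z τ := by linarith [(bZ τ hτ).1]
    exact ((hasDerivAt_kc1 hs he hZp).comp τ (dZ τ hτ)).mul (dZ1 τ hτ)
  -- values at the end points
  have h0m : (0 : ℝ) ∈ Icc (0 : ℝ) 1 := left_mem_Icc.2 zero_le_one
  have hS0 : sS ε ε' 0 = 1 := by simp [sS]
  have hZ0 : Z 0 = 2 - 2 * t := by simp [hZ, hS0]
  have hZ10 : Z1 0 = (ε + ε') * (1 - t) := by
    simp only [hZ1, sS1, hS0]; ring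
  have hZe : Z 1 = 2 + (ε + ε') - 2 * t * Real.sqrt ((1 + ε) * (1 + ε')) := by
    simp [hZ, sS]
  -- bounds for the second derivative
  have B : ∀ τ ∈ Icc (0 : ℝ) 1,
      |kc1 s e l (Z τ)| ≤ C0 * (A + 3 * |t| + θ) * (1 + ((1 - t)⁻¹) ^ k) ∧
      |kc2 s e l (Z τ) - 1 / 16| ≤ C0 * (A + 3 * |t| + θ) * (1 + ((1 - t)⁻¹) ^ k) := by
    intro τ hτ
    obtain ⟨b1, b2, b3⟩ := bZ τ hτ
    have hZp : 0 < Z τ := by linarith
    obtain ⟨k1, k2⟩ := hk θ s e l hp (Z τ) hZp b2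
    have hpow : ((Z τ)⁻¹) ^ k ≤ ((1 - t)⁻¹) ^ k := by
      apply pow_le_pow_left₀ (inv_nonneg.2 hZp.le)
      exact inv_anti₀ (by linarith) b1
    have hle : C0 * (|Z τ - 2| + θ) * (1 + ((Z τ)⁻¹) ^ k) ≤
        C0 * (A + 3 * |t| + θ) * (1 + ((1 - t)⁻¹) ^ k) := by
      gcongr
    exact ⟨k1.trans hle, k2.trans hle⟩
  have BZ1 : ∀ τ ∈ Icc (0 : ℝ) 1, (Z1 τ) ^ 2 ≤ 9 * A ^ 2 ∧
      (ε + ε') ^ 2 - 2 * (ε + ε') ^ 2 * t - A ^ 2 * |t| ≤ (Z1 τ) ^ 2 ∧ |Z2 τ| ≤ A ^ 2 := by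
    intro τ hτ
    obtain ⟨s1, s2, s3⟩ := sS_bd2 hε hε' hτ
    rw [← hA] at s1 s2 s3
    refine ⟨?_, ?_, ?_⟩
    · have : |Z1 τ| ≤ 3 * A := by
        calc |Z1 τ| ≤ |ε + ε'| + |2 * t * sS1 ε ε' τ| := abs_sub _ _
          _ = |ε + ε'| + 2 * |t| * |sS1 ε ε' τ| := by
              rw [abs_mul, abs_mul]; norm_num
          _ ≤ A + 2 * 1 * A := by gcongr
          _ = 3 * A := by ring
      calc (Z1 τ) ^ 2 = |Z1 τ| ^ 2 := (sq_abs _).symm
        _ ≤ (3 * A) ^ 2 := pow_le_pow_left₀ (abs_nonneg _) this 2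
        _ = 9 * A ^ 2 := by ring
    · have e1 : (Z1 τ) ^ 2 = (ε + ε') ^ 2 - 2 * (ε + ε') ^ 2 * t -
          4 * ((ε + ε') * t * (sS1 ε ε' τ - (ε + ε') / 2)) + 4 * t ^ 2 * (sS1 ε ε' τ) ^ 2 := by
        simp only [hZ1]; ring
      have e2 : (ε + ε') * t * (sS1 ε ε' τ - (ε + ε') / 2) ≤ A * |t| * A ^ 2 := by
        calc (ε + ε') * t * (sS1 ε ε' τ - (ε + ε') / 2)
            ≤ |(ε + ε') * t * (sS1 ε ε' τ - (ε + ε') / 2)| := le_abs_self _
          _ = |ε + ε'| * |t| * |sS1 ε ε' τ - (ε + ε') / 2| := by rw [abs_mul, abs_mul]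
          _ ≤ _ := by gcongr
      have e3 : 0 ≤ 4 * t ^ 2 * (sS1 ε ε' τ) ^ 2 := by positivity
      have e4 : A * |t| * A ^ 2 ≤ (1 / 5) * |t| * A ^ 2 := by gcongr
      have e5 : 0 ≤ A ^ 2 * |t| := by positivity
      rw [e1]
      nlinarith
    · calc |Z2 τ| = 2 * |t| * |sS2 ε ε' τ| := by
            simp only [hZ2]
            rw [abs_neg, abs_mul, abs_mul]; norm_num
        _ ≤ 2 * 1 * (A ^ 2 / 2) := by gcongr
        _ = A ^ 2 := by ring
  have hlow : ∀ τ ∈ Icc (0 : ℝ) 1,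
      (1 / 16) * ((ε + ε') ^ 2 - 2 * (ε + ε') ^ 2 * t) -
        (30 * C0 + 1) * A ^ 2 * (A + θ + |t|) * (1 + ((1 - t)⁻¹) ^ k) ≤
      kc2 s e l (Z τ) * Z1 τ * Z1 τ + kc1 s e l (Z τ) * Z2 τ := by
    intro τ hτ
    obtain ⟨b1, b2⟩ := B τ hτ
    obtain ⟨z1, z2, z3⟩ := BZ1 τ hτ
    set W : ℝ := 1 + ((1 - t)⁻¹) ^ k with hW
    have hW1 : 1 ≤ W := by linarith
    set X : ℝ := C0 * (A + 3 * |t| + θ) * W with hX
    have hX0 : 0 ≤ X := by positivity
    have p1 : (1 / 16) * (Z1 τ) ^ 2 - X * (9 * A ^ 2) ≤ kc2 s e l (Z τ) * Z1 τ * Z1 τ := by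
      have q1 : -X ≤ kc2 s e l (Z τ) - 1 / 16 := by linarith [(abs_le.1 b2).1]
      have q2 : 0 ≤ (Z1 τ) ^ 2 := sq_nonneg _
      have q3 : X * (Z1 τ) ^ 2 ≤ X * (9 * A ^ 2) := by gcongr
      have q4 : -X * (Z1 τ) ^ 2 ≤ (kc2 s e l (Z τ) - 1 / 16) * (Z1 τ) ^ 2 :=
        mul_le_mul_of_nonneg_right q1 q2
      nlinarith
    have p2 : -(X * A ^ 2) ≤ kc1 s e l (Z τ) * Z2 τ := by
      have : |kc1 s e l (Z τ) * Z2 τ| ≤ X * A ^ 2 := by
        rw [abs_mul]; gcongr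
      linarith [(abs_le.1 this).1]
    have p3 : X ≤ 3 * C0 * ((A + θ + |t|) * W) := by
      rw [hX]
      have : A + 3 * |t| + θ ≤ 3 * (A + θ + |t|) := by linarith
      calc C0 * (A + 3 * |t| + θ) * W ≤ C0 * (3 * (A + θ + |t|)) * W := by gcongr
        _ = _ := by ring
    have p4 : A ^ 2 * |t| ≤ A ^ 2 * ((A + θ + |t|) * W) := by
      have q5 : |t| ≤ (A + θ + |t|) * W := by
        calc |t| ≤ (A + θ + |t|) * 1 := by linarith
          _ ≤ (A + θ + |t|) * W := by gcongr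
      gcongr
    have p5 : X * A ^ 2 ≤ 3 * C0 * ((A + θ + |t|) * W) * A ^ 2 := by gcongr
    have p6 : 0 ≤ A ^ 2 * |t| := by positivity
    have p7 : (30 * C0 + 1) * A ^ 2 * (A + θ + |t|) * W =
        30 * C0 * ((A + θ + |t|) * W) * A ^ 2 + A ^ 2 * ((A + θ + |t|) * W) := by ring
    rw [p7]
    nlinarith
  have hup : ∀ τ ∈ Icc (0 : ℝ) 1,
      kc2 s e l (Z τ) * Z1 τ * Z1 τ + kc1 s e l (Z τ) * Z2 τ ≤
        (30 * C0 + 1) * (1 + ((1 - t)⁻¹) ^ k) := by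
    intro τ hτ
    obtain ⟨b1, b2⟩ := B τ hτ
    obtain ⟨z1, z2, z3⟩ := BZ1 τ hτ
    set W : ℝ := 1 + ((1 - t)⁻¹) ^ k with hW
    have hW1 : 1 ≤ W := by linarith
    set X : ℝ := C0 * (A + 3 * |t| + θ) * W with hX
    have hX0 : 0 ≤ X := by positivity
    have hX1 : X ≤ C0 * 4 * W := by
      rw [hX]; gcongr; linarith
    have hA2 : A ^ 2 ≤ 1 / 25 := by nlinarith
    have p1 : kc2 s e l (Z τ) * Z1 τ * Z1 τ ≤ (1 / 16 + X) * (9 / 25) := by
      have q1 : kc2 s e l (Z τ) ≤ 1 / 16 + X := by linarith [(abs_le.1 b2).2]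
      have q2 : 0 ≤ (Z1 τ) ^ 2 := sq_nonneg _
      calc kc2 s e l (Z τ) * Z1 τ * Z1 τ = kc2 s e l (Z τ) * (Z1 τ) ^ 2 := by ring
        _ ≤ (1 / 16 + X) * (Z1 τ) ^ 2 := by gcongr
        _ ≤ (1 / 16 + X) * (9 / 25) := by gcongr; linarith
    have p2 : kc1 s e l (Z τ) * Z2 τ ≤ X * (1 / 25) := by
      calc kc1 s e l (Z τ) * Z2 τ ≤ |kc1 s e l (Z τ) * Z2 τ| := le_abs_self _
        _ = |kc1 s e l (Z τ)| * |Z2 τ| := abs_mul _ _
        _ ≤ X * (1 / 25) := by gcongr; linarith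
    nlinarith
  have r1 := taylor_lo dg dg1 hlow
  have r2 := taylor_hi dg dg1 hup
  simp only [hZ0, hZ10, hZe] at r1 r2
  constructor
  · calc _ = kc s e l (2 - 2 * t) + kc1 s e l (2 - 2 * t) * ((ε + ε') * (1 - t)) +
          ((1 / 16) * ((ε + ε') ^ 2 - 2 * (ε + ε') ^ 2 * t) -
            (30 * C0 + 1) * A ^ 2 * (A + θ + |t|) * (1 + ((1 - t)⁻¹) ^ k)) / 2 := by ring
      _ ≤ _ := r1
  · calc _ ≤ _ := r2
      _ = _ := by ring


private theorem co_cont (n : ℕ) : Continuous fun y : E (n + 1) => y 0 := by fun_prop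

private theorem kc_meas (s e l : ℝ) : Measurable (kc s e l) := by
  unfold kc
  have h1 : Measurable fun Z : ℝ => Z ^ (-s / 2) := measurable_id.pow_const _
  have h2 : Measurable fun Z : ℝ => Real.log Z := Real.measurable_log
  fun_prop

private theorem bd_aux {C A θ t W a K0 K1 K : ℝ} (hC : 0 < C) (hA0 : 0 ≤ A) (hA1 : A ≤ 1 / 5)
    (ha : |a| ≤ A) (hθ0 : 0 < θ) (hθ1 : θ ≤ 1 / 10) (ht : |t| ≤ 1) (hW : 1 ≤ W)
    (h1 : K0 + a * K1 + ((1 / 16) * (a ^ 2 - 2 * a ^ 2 * t) - C * A ^ 2 * (A + θ + |t|) * W) / 2 ≤ K)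
    (h2 : K ≤ K0 + a * K1 + C * W / 2) : |K| ≤ |K0| + |K1| + (1 + C) * W := by
  have ht0 := abs_nonneg t
  have q1 : |a * K1| ≤ |K1| := by
    rw [abs_mul]
    exact mul_le_of_le_one_left (abs_nonneg _) (by linarith)
  have q2 := neg_abs_le K0
  have q3 := le_abs_self K0
  have q4 := neg_abs_le (a * K1)
  have q5 := le_abs_self (a * K1)
  have q6 : C * A ^ 2 * (A + θ + |t|) * W ≤ C * 1 * 2 * W := by
    have : A ^ 2 ≤ 1 := by nlinarith
    gcongr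
    linarith
  have q7 : -(1 : ℝ) ≤ (1 / 16) * (a ^ 2 - 2 * a ^ 2 * t) := by
    have h1 : a ^ 2 ≤ 1 := by
      rw [← sq_abs]
      nlinarith [abs_nonneg a]
    have h2 : 0 ≤ a ^ 2 := sq_nonneg _
    have h3 := (abs_le.1 ht).2
    nlinarith
  have q8 : 0 ≤ C * W := by positivity
  have q9 : (1 + C) * W = W + C * W := by ring
  rw [abs_le, q9]
  constructor
  · linarith
  · linarith

private theorem rad_point' (M : ℝ) (hM : 1 ≤ M) : ∃ δ0 : ℝ, 0 < δ0 ∧ δ0 ≤ 1 / 10 ∧ ∃ n1 : ℕ, ∀ n ≥ n1,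
    ∀ σ : Measure (E (n + 1)), SphM σ → ∀ s : ℝ, 0 < s → s ≤ M → ∃ B : ℝ, ∀ r r' : ℝ, 0 < r → 0 < r' →
      |r ^ 2 - 1| ≤ δ0 → |r' ^ 2 - 1| ≤ δ0 →
      Integrable (fun y => kc s (eS σ s) (lS σ s) (r ^ 2 + r' ^ 2 - 2 * (r * r') * y 0)) σ ∧
      (1 / 32) * (r ^ 2 + r' ^ 2 - 2) ^ 2 - (1 / 128) * ((r ^ 2 - 1) ^ 2 + (r' ^ 2 - 1) ^ 2) ≤
        ∫ y, kc s (eS σ s) (lS σ s) (r ^ 2 + r' ^ 2 - 2 * (r * r') * y 0) ∂σ ∧
      |∫ y, kc s (eS σ s) (lS σ s) (r ^ 2 + r' ^ 2 - 2 * (r * r') * y 0) ∂σ| ≤ B := by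
  obtain ⟨C, hC, k, hk⟩ := rad_pt M hM
  obtain ⟨Ck, hCk, nk, hnk⟩ := neg_mom k
  obtain ⟨C0, hC0, n0, hn0⟩ := neg_mom 0
  obtain ⟨Cp, hCp, np, hnp⟩ := par_sphere M hM
  obtain ⟨ns, hns⟩ := stat_sphere M hM
  obtain ⟨N1, hN1⟩ := exists_nat_ge (1536 * C * Cp)
  obtain ⟨N2, hN2⟩ := exists_nat_ge ((512 * C * (C0 + Ck)) ^ 2)
  refine ⟨min (1 / 10) (1 / (6144 * C)), by positivity, min_le_left _ _,
    1 + nk + n0 + np + ns + N1 + N2, ?_⟩
  intro n hn σ hσ s hs hsM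
  have hprob : IsProbabilityMeasure σ := ⟨hσ.1⟩
  obtain ⟨w1, w2, w3, w4⟩ := hnk n (by omega) σ hσ
  obtain ⟨-, -, -, v4⟩ := hn0 n (by omega) σ hσ
  have hPar := hnp n (by omega) σ hσ s hs hsM
  obtain ⟨⟨f1, f2⟩, ⟨g1, g2⟩⟩ := hns n (by omega) σ hσ s hs hsM
  set e := eS σ s with he
  set l := lS σ s with hl
  set θ : ℝ := Cp / ((n : ℝ) + 1) with hθ
  have hθ0 : 0 < θ := hPar.t0
  have hθ1 : θ ≤ 1 / 10 := hPar.t1
  have hn1 : (0 : ℝ) < (n : ℝ) + 1 := by positivity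
  have hθs : 3 * C * θ ≤ 1 / 512 := by
    have : (N1 : ℝ) ≤ n + 1 := by
      have : N1 ≤ n + 1 := by omega
      exact_mod_cast this
    rw [hθ, ← mul_div_assoc, div_le_iff₀ hn1]
    nlinarith
  have hSs : C * (C0 / Real.sqrt ((n : ℝ) + 1) + Ck / Real.sqrt ((n : ℝ) + 1)) ≤ 1 / 512 := by
    have h1 : (N2 : ℝ) ≤ n + 1 := by
      have : N2 ≤ n + 1 := by omega
      exact_mod_cast this
    have h2 : 512 * C * (C0 + Ck) ≤ Real.sqrt ((n : ℝ) + 1) := by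
      apply Real.le_sqrt_of_sq_le
      linarith
    have h3 : 0 < Real.sqrt ((n : ℝ) + 1) := Real.sqrt_pos.2 hn1
    rw [← add_div, ← mul_div_assoc, div_le_iff₀ h3]
    linarith
  have hint0 : Integrable (fun y : E (n + 1) => y 0) σ := by
    refine Integrable.of_bound (co_cont n).aestronglyMeasurable 1 ?_
    filter_upwards [sph_abs hσ] with y hy
    simpa using hy
  have hinta : Integrable (fun y : E (n + 1) => |y 0|) σ := hint0.abs
  have hintw : Integrable (fun y : E (n + 1) => |y 0| * ((1 - y 0)⁻¹) ^ k) σ := by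
    refine Integrable.mono' w1 ?_ ?_
    · exact (hinta.aestronglyMeasurable).mul w1.aestronglyMeasurable
    · filter_upwards [sph_abs hσ, sph_lt (by omega) hσ] with y hy hy1
      have : 0 ≤ ((1 - y 0)⁻¹) ^ k := pow_nonneg (inv_nonneg.2 (by linarith)) k
      rw [Real.norm_eq_abs, abs_mul, abs_abs, abs_of_nonneg this]
      exact mul_le_of_le_one_left this hy
  have hv4 : ∫ y, |y 0| ∂σ ≤ C0 / Real.sqrt ((n : ℝ) + 1) := by
    simpa using v4
  have hm1 : ∫ y, y 0 ∂σ = 0 := sph_m1 hσ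
  -- the dominating function
  refine ⟨∫ y, (|kc s e l (2 - 2 * y 0)| + |(1 - y 0) * kc1 s e l (2 - 2 * y 0)| +
    (1 + C) * (1 + ((1 - y 0)⁻¹) ^ k)) ∂σ, ?_⟩
  intro r r' hr hr' hε hε'
  set ε : ℝ := r ^ 2 - 1 with hεd
  set ε' : ℝ := r' ^ 2 - 1 with hεd'
  have hε1 : |ε| ≤ 1 / 10 := hε.trans (min_le_left _ _)
  have hε1' : |ε'| ≤ 1 / 10 := hε'.trans (min_le_left _ _)
  have hε2 : |ε| ≤ 1 / (6144 * C) := hε.trans (min_le_right _ _)
  have hε2' : |ε'| ≤ 1 / (6144 * C) := hε'.trans (min_le_right _ _)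
  have hsq : Real.sqrt ((1 + ε) * (1 + ε')) = r * r' := by
    have : (1 + ε) * (1 + ε') = (r * r') ^ 2 := by rw [hεd, hεd']; ring
    rw [this, Real.sqrt_sq (by positivity)]
  have harg : ∀ t : ℝ, 2 + (ε + ε') - 2 * t * Real.sqrt ((1 + ε) * (1 + ε')) =
      r ^ 2 + r' ^ 2 - 2 * (r * r') * t := by
    intro t
    rw [hsq, hεd, hεd']; ring
  set A : ℝ := |ε| + |ε'| with hA
  have hA0 : 0 ≤ A := by positivity
  have hA1 : A ≤ 1 / 5 := by linarith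
  have ha : |ε + ε'| ≤ A := abs_add_le _ _
  have hae : ∀ᵐ y ∂σ,
      kc s e l (2 - 2 * y 0) + (ε + ε') * ((1 - y 0) * kc1 s e l (2 - 2 * y 0)) +
          ((1 / 16) * ((ε + ε') ^ 2 - 2 * (ε + ε') ^ 2 * y 0) -
            C * A ^ 2 * (A + θ + |y 0|) * (1 + ((1 - y 0)⁻¹) ^ k)) / 2 ≤
        kc s e l (r ^ 2 + r' ^ 2 - 2 * (r * r') * y 0) ∧
      kc s e l (r ^ 2 + r' ^ 2 - 2 * (r * r') * y 0) ≤
        kc s e l (2 - 2 * y 0) + (ε + ε') * ((1 - y 0) * kc1 s e l (2 - 2 * y 0)) +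
          C * (1 + ((1 - y 0)⁻¹) ^ k) / 2 := by
    filter_upwards [sph_abs hσ, sph_lt (by omega) hσ] with y hy hy1
    have := hk θ s e l hPar ε ε' (y 0) hε1 hε1' hy hy1
    rw [harg] at this
    exact this
  have habs : ∀ᵐ y ∂σ, |kc s e l (r ^ 2 + r' ^ 2 - 2 * (r * r') * y 0)| ≤
      |kc s e l (2 - 2 * y 0)| + |(1 - y 0) * kc1 s e l (2 - 2 * y 0)| +
        (1 + C) * (1 + ((1 - y 0)⁻¹) ^ k) := by
    filter_upwards [hae, sph_abs hσ, sph_lt (by omega) hσ] with y hy hy0 hy1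
    have hw0 : 0 ≤ ((1 - y 0)⁻¹) ^ k := pow_nonneg (inv_nonneg.2 (by linarith)) k
    exact bd_aux hC hA0 hA1 ha hθ0 hθ1 hy0 (le_add_of_nonneg_right hw0) hy.1 hy.2
  have hmeas : AEStronglyMeasurable
      (fun y : E (n + 1) => kc s e l (r ^ 2 + r' ^ 2 - 2 * (r * r') * y 0)) σ := by
    apply Measurable.aestronglyMeasurable
    apply (kc_meas s e l).comp
    exact (continuous_const.sub (continuous_const.mul (co_cont n))).measurable
  have hG : Integrable (fun y : E (n + 1) => |kc s e l (2 - 2 * y 0)| +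
      |(1 - y 0) * kc1 s e l (2 - 2 * y 0)| + (1 + C) * (1 + ((1 - y 0)⁻¹) ^ k)) σ :=
    (f1.abs.add g1.abs).add (((integrable_const 1).add w1).const_mul (1 + C))
  have hI : Integrable (fun y : E (n + 1) => kc s e l (r ^ 2 + r' ^ 2 - 2 * (r * r') * y 0)) σ := by
    refine Integrable.mono' hG hmeas ?_
    filter_upwards [habs] with y hy
    simpa using hy
  refine ⟨hI, ?_, ?_⟩
  · -- the lower bound
    have i1 : Integrable (fun y : E (n + 1) =>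
        kc s e l (2 - 2 * y 0) + (ε + ε') * ((1 - y 0) * kc1 s e l (2 - 2 * y 0))) σ :=
      f1.add (g1.const_mul _)
    have i2 : Integrable (fun y : E (n + 1) =>
        (1 / 32) * (ε + ε') ^ 2 - (1 / 16) * (ε + ε') ^ 2 * y 0) σ :=
      (integrable_const _).sub (hint0.const_mul _)
    have i3 : Integrable (fun y : E (n + 1) =>
        (C * A ^ 2 / 2) * ((A + θ) * (1 + ((1 - y 0)⁻¹) ^ k) + (|y 0| + |y 0| * ((1 - y 0)⁻¹) ^ k))) σ :=
      ((((integrable_const 1).add w1).const_mul _).add (hinta.add hintw)).const_mul _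
    have hle : ∫ y, ((kc s e l (2 - 2 * y 0) + (ε + ε') * ((1 - y 0) * kc1 s e l (2 - 2 * y 0))) +
        ((1 / 32) * (ε + ε') ^ 2 - (1 / 16) * (ε + ε') ^ 2 * y 0) -
        (C * A ^ 2 / 2) * ((A + θ) * (1 + ((1 - y 0)⁻¹) ^ k) +
          (|y 0| + |y 0| * ((1 - y 0)⁻¹) ^ k))) ∂σ ≤
        ∫ y, kc s e l (r ^ 2 + r' ^ 2 - 2 * (r * r') * y 0) ∂σ := by
      refine integral_mono_ae ((i1.add i2).sub i3) hI ?_
      filter_upwards [hae] with y hy
      refine le_trans (le_of_eq ?_) hy.1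
      ring
    have hval : ∫ y, ((kc s e l (2 - 2 * y 0) + (ε + ε') * ((1 - y 0) * kc1 s e l (2 - 2 * y 0))) +
        ((1 / 32) * (ε + ε') ^ 2 - (1 / 16) * (ε + ε') ^ 2 * y 0) -
        (C * A ^ 2 / 2) * ((A + θ) * (1 + ((1 - y 0)⁻¹) ^ k) +
          (|y 0| + |y 0| * ((1 - y 0)⁻¹) ^ k))) ∂σ =
        (1 / 32) * (ε + ε') ^ 2 - (C * A ^ 2 / 2) * ((A + θ) * (1 + ∫ y, ((1 - y 0)⁻¹) ^ k ∂σ) +
          (∫ y, |y 0| ∂σ + ∫ y, |y 0| * ((1 - y 0)⁻¹) ^ k ∂σ)) := by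
      have j1 : ∫ y, (kc s e l (2 - 2 * y 0) + (ε + ε') * ((1 - y 0) * kc1 s e l (2 - 2 * y 0))) ∂σ
          = 0 := by
        rw [integral_add f1 (g1.const_mul _), f2, integral_const_mul, g2]; simp
      have j2 : ∫ y, ((1 / 32) * (ε + ε') ^ 2 - (1 / 16) * (ε + ε') ^ 2 * y 0) ∂σ =
          (1 / 32) * (ε + ε') ^ 2 := by
        rw [integral_sub (integrable_const _) (hint0.const_mul _),
          integral_const_mul ((1 / 16 : ℝ) * (ε + ε') ^ 2), hm1]; simp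
      have j3 : ∫ y, (C * A ^ 2 / 2) * ((A + θ) * (1 + ((1 - y 0)⁻¹) ^ k) +
          (|y 0| + |y 0| * ((1 - y 0)⁻¹) ^ k)) ∂σ =
          (C * A ^ 2 / 2) * ((A + θ) * (1 + ∫ y, ((1 - y 0)⁻¹) ^ k ∂σ) +
          (∫ y, |y 0| ∂σ + ∫ y, |y 0| * ((1 - y 0)⁻¹) ^ k ∂σ)) := by
        have k1 : Integrable (fun y : E (n + 1) => (A + θ) * (1 + ((1 - y 0)⁻¹) ^ k)) σ :=
          ((integrable_const 1).add w1).const_mul _
        have k2 : Integrable (fun y : E (n + 1) => |y 0| + |y 0| * ((1 - y 0)⁻¹) ^ k) σ :=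
          hinta.add hintw
        rw [integral_const_mul, integral_add k1 k2, integral_const_mul (A + θ),
          integral_add (integrable_const 1) w1, integral_add hinta hintw]
        simp
      have j4 := integral_sub (i1.add i2) i3
      have j5 := integral_add i1 i2
      simp only [Pi.add_apply] at j4
      rw [j4, j5, j1, j2, j3]
      ring
    rw [hval] at hle
    have hA2 : A ^ 2 ≤ 2 * (ε ^ 2 + ε' ^ 2) := by
      have h1 : ε ^ 2 = |ε| ^ 2 := (sq_abs _).symm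
      have h2 : ε' ^ 2 = |ε'| ^ 2 := (sq_abs _).symm
      rw [h1, h2, hA]
      nlinarith [sq_nonneg (|ε| - |ε'|)]
    have hAC : 3 * C * A ≤ 1 / 512 := by
      have h1 : A ≤ 2 * (1 / (6144 * C)) := by linarith
      calc 3 * C * A ≤ 3 * C * (2 * (1 / (6144 * C))) := by gcongr
        _ ≤ 1 / 512 := by
          have : 3 * C * (2 * (1 / (6144 * C))) = 1 / 1024 := by
            field_simp; norm_num
          rw [this]; norm_num
    have hX : C * ((A + θ) * (1 + ∫ y, ((1 - y 0)⁻¹) ^ k ∂σ) +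
          (∫ y, |y 0| ∂σ + ∫ y, |y 0| * ((1 - y 0)⁻¹) ^ k ∂σ)) ≤ 1 / 128 := by
      have h1 : (A + θ) * (1 + ∫ y, ((1 - y 0)⁻¹) ^ k ∂σ) ≤ (A + θ) * 3 := by
        gcongr; linarith
      have h2 : ∫ y, |y 0| ∂σ + ∫ y, |y 0| * ((1 - y 0)⁻¹) ^ k ∂σ ≤
          C0 / Real.sqrt ((n : ℝ) + 1) + Ck / Real.sqrt ((n : ℝ) + 1) := add_le_add hv4 w4
      calc C * ((A + θ) * (1 + ∫ y, ((1 - y 0)⁻¹) ^ k ∂σ) +
          (∫ y, |y 0| ∂σ + ∫ y, |y 0| * ((1 - y 0)⁻¹) ^ k ∂σ)) ≤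
          C * ((A + θ) * 3 + (C0 / Real.sqrt ((n : ℝ) + 1) + Ck / Real.sqrt ((n : ℝ) + 1))) := by
            gcongr
        _ = 3 * C * A + 3 * C * θ +
            C * (C0 / Real.sqrt ((n : ℝ) + 1) + Ck / Real.sqrt ((n : ℝ) + 1)) := by ring
        _ ≤ 1 / 512 + 1 / 512 + 1 / 512 := by gcongr
        _ ≤ 1 / 128 := by norm_num
    have hfin : (C * A ^ 2 / 2) * ((A + θ) * (1 + ∫ y, ((1 - y 0)⁻¹) ^ k ∂σ) +
          (∫ y, |y 0| ∂σ + ∫ y, |y 0| * ((1 - y 0)⁻¹) ^ k ∂σ)) ≤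
          (1 / 128) * (ε ^ 2 + ε' ^ 2) := by
      calc _ = (A ^ 2 / 2) * (C * ((A + θ) * (1 + ∫ y, ((1 - y 0)⁻¹) ^ k ∂σ) +
          (∫ y, |y 0| ∂σ + ∫ y, |y 0| * ((1 - y 0)⁻¹) ^ k ∂σ))) := by ring
        _ ≤ (A ^ 2 / 2) * (1 / 128) := by gcongr
        _ ≤ (2 * (ε ^ 2 + ε' ^ 2) / 2) * (1 / 128) := by gcongr
        _ = _ := by ring
    have hsum : r ^ 2 + r' ^ 2 - 2 = ε + ε' := by rw [hεd, hεd']; ring
    rw [hsum]
    linarith
  · calc |∫ y, kc s e l (r ^ 2 + r' ^ 2 - 2 * (r * r') * y 0) ∂σ|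
        ≤ ∫ y, |kc s e l (r ^ 2 + r' ^ 2 - 2 * (r * r') * y 0)| ∂σ := abs_integral_le_integral_abs
      _ ≤ _ := integral_mono_ae hI.abs hG habs

theorem rad_point (M : ℝ) (hM : 1 ≤ M) : ∃ δ0 : ℝ, 0 < δ0 ∧ δ0 ≤ 1 / 10 ∧ ∃ n1 : ℕ, ∀ n ≥ n1,
    ∀ σ : Measure (E (n + 1)), SphM σ → ∀ s : ℝ, 0 < s → s ≤ M → ∀ r r' : ℝ, 0 < r → 0 < r' →
      |r ^ 2 - 1| ≤ δ0 → |r' ^ 2 - 1| ≤ δ0 →
      Integrable (fun y => kc s (eS σ s) (lS σ s) (r ^ 2 + r' ^ 2 - 2 * (r * r') * y 0)) σ ∧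
      (1 / 32) * (r ^ 2 + r' ^ 2 - 2) ^ 2 - (1 / 128) * ((r ^ 2 - 1) ^ 2 + (r' ^ 2 - 1) ^ 2) ≤
        ∫ y, kc s (eS σ s) (lS σ s) (r ^ 2 + r' ^ 2 - 2 * (r * r') * y 0) ∂σ := by
  obtain ⟨δ0, h0, h1, n1, hn⟩ := rad_point' M hM
  refine ⟨δ0, h0, h1, n1, ?_⟩
  intro n hn' σ hσ s hs hsM r r' hr hr' hε hε'
  obtain ⟨B, hB⟩ := hn n hn' σ hσ s hs hsM
  obtain ⟨b1, b2, -⟩ := hB r r' hr hr' hε hε'
  exact ⟨b1, b2⟩

private theorem energy_abs {μ : Measure (E (n + 1))} (hμ : μ univ = 1) (F : E (n + 1) → E (n + 1) → ℝ)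
    (hF : StronglyMeasurable (fun p : E (n + 1) × E (n + 1) => F p.1 p.2)) (δ0 B : ℝ)
    (hshell : ∀ᵐ x ∂μ, |‖x‖ ^ 2 - 1| ≤ δ0)
    (hb : ∀ᵐ x ∂μ, ∀ᵐ z ∂μ, (1 / 32) * (‖x‖ ^ 2 + ‖z‖ ^ 2 - 2) ^ 2 -
      (1 / 128) * ((‖x‖ ^ 2 - 1) ^ 2 + (‖z‖ ^ 2 - 1) ^ 2) ≤ F x z ∧ |F x z| ≤ B) :
    (1 / 32) * vE μ ≤ ∫ x, ∫ z, F x z ∂μ ∂μ := by
  have hprobμ : IsProbabilityMeasure μ := ⟨hμ⟩
  have hm1 : StronglyMeasurable (fun x : E (n + 1) => ∫ z, F x z ∂μ) :=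
    hF.integral_prod_right' (ν := μ)
  have hm2x : ∀ x : E (n + 1), StronglyMeasurable (fun z : E (n + 1) => F x z) := by
    intro x
    exact hF.comp_measurable (measurable_const.prodMk measurable_id)
  have ce : Continuous fun x : E (n + 1) => ‖x‖ ^ 2 - 1 := by fun_prop
  have ie : Integrable (fun x : E (n + 1) => ‖x‖ ^ 2 - 1) μ := by
    refine Integrable.of_bound ce.aestronglyMeasurable δ0 ?_
    filter_upwards [hshell] with x hx
    simpa using hx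
  have ie2 : Integrable (fun x : E (n + 1) => (‖x‖ ^ 2 - 1) ^ 2) μ := by
    refine Integrable.of_bound (ce.pow 2).aestronglyMeasurable (δ0 ^ 2) ?_
    filter_upwards [hshell] with x hx
    rw [Real.norm_eq_abs, abs_pow]
    exact pow_le_pow_left₀ (abs_nonneg _) hx 2
  set m1 : ℝ := ∫ x, (‖x‖ ^ 2 - 1) ∂μ with hm1d
  have hv : vE μ = ∫ x, (‖x‖ ^ 2 - 1) ^ 2 ∂μ := rfl
  have hv0 : 0 ≤ vE μ := by
    rw [hv]; exact integral_nonneg fun x => sq_nonneg _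
  have hinner : ∀ᵐ x ∂μ, (3 / 128) * (‖x‖ ^ 2 - 1) ^ 2 +
      (((1 / 16) * m1) * (‖x‖ ^ 2 - 1) + (3 / 128) * vE μ) ≤ ∫ z, F x z ∂μ ∧
      |∫ z, F x z ∂μ| ≤ B := by
    filter_upwards [hb] with x hx
    have hIz : Integrable (fun z : E (n + 1) => F x z) μ := by
      refine Integrable.of_bound (hm2x x).aestronglyMeasurable B ?_
      filter_upwards [hx] with z hz
      rw [Real.norm_eq_abs]
      exact hz.2
    constructor
    · have k1 : Integrable (fun z : E (n + 1) => ((1 / 16) * (‖x‖ ^ 2 - 1)) * (‖z‖ ^ 2 - 1)) μ :=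
        ie.const_mul _
      have k2 : Integrable (fun z : E (n + 1) => (3 / 128) * (‖z‖ ^ 2 - 1) ^ 2) μ :=
        ie2.const_mul _
      have k3 : Integrable (fun z : E (n + 1) => ((1 / 16) * (‖x‖ ^ 2 - 1)) * (‖z‖ ^ 2 - 1) +
            (3 / 128) * (‖z‖ ^ 2 - 1) ^ 2) μ := k1.add k2
      have k4 : Integrable (fun _ : E (n + 1) => (3 / 128) * (‖x‖ ^ 2 - 1) ^ 2) μ :=
        integrable_const _
      have i1 : Integrable (fun z : E (n + 1) =>
          ((3 / 128) * (‖x‖ ^ 2 - 1) ^ 2) + (((1 / 16) * (‖x‖ ^ 2 - 1)) * (‖z‖ ^ 2 - 1) +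
            (3 / 128) * (‖z‖ ^ 2 - 1) ^ 2)) μ := k4.add k3
      have hle : ∫ z, (((3 / 128) * (‖x‖ ^ 2 - 1) ^ 2) + (((1 / 16) * (‖x‖ ^ 2 - 1)) * (‖z‖ ^ 2 - 1) +
            (3 / 128) * (‖z‖ ^ 2 - 1) ^ 2)) ∂μ ≤ ∫ z, F x z ∂μ := by
        refine integral_mono_ae i1 hIz ?_
        filter_upwards [hx] with z hz
        refine le_trans (le_of_eq ?_) hz.1
        ring
      have hval : ∫ z, (((3 / 128) * (‖x‖ ^ 2 - 1) ^ 2) +
          (((1 / 16) * (‖x‖ ^ 2 - 1)) * (‖z‖ ^ 2 - 1) + (3 / 128) * (‖z‖ ^ 2 - 1) ^ 2)) ∂μ =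
          (3 / 128) * (‖x‖ ^ 2 - 1) ^ 2 + (((1 / 16) * (‖x‖ ^ 2 - 1)) * m1 + (3 / 128) * vE μ) := by
        have l1 : ∫ _z : E (n + 1), (3 / 128) * (‖x‖ ^ 2 - 1) ^ 2 ∂μ =
            (3 / 128) * (‖x‖ ^ 2 - 1) ^ 2 := by simp
        have l2 : ∫ z, ((1 / 16) * (‖x‖ ^ 2 - 1)) * (‖z‖ ^ 2 - 1) ∂μ =
            ((1 / 16) * (‖x‖ ^ 2 - 1)) * m1 := by rw [integral_const_mul]
        have l3 : ∫ z, (3 / 128) * (‖z‖ ^ 2 - 1) ^ 2 ∂μ = (3 / 128) * vE μ := by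
          rw [integral_const_mul, ← hv]
        rw [integral_add k4 k3, integral_add k1 k2, l1, l2, l3]
      rw [hval] at hle
      refine le_trans (le_of_eq ?_) hle
      ring
    · have hbd : ∀ᵐ z ∂μ, ‖F x z‖ ≤ B := by
        filter_upwards [hx] with z hz
        rw [Real.norm_eq_abs]
        exact hz.2
      have := norm_integral_le_of_norm_le_const hbd
      simpa using this
  have hIx : Integrable (fun x : E (n + 1) => ∫ z, F x z ∂μ) μ := by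
    refine Integrable.of_bound hm1.aestronglyMeasurable B ?_
    filter_upwards [hinner] with x hx
    rw [Real.norm_eq_abs]
    exact hx.2
  have k1 : Integrable (fun x : E (n + 1) => (3 / 128) * (‖x‖ ^ 2 - 1) ^ 2) μ := ie2.const_mul _
  have k2 : Integrable (fun x : E (n + 1) => ((1 / 16) * m1) * (‖x‖ ^ 2 - 1)) μ := ie.const_mul _
  have k3 : Integrable (fun _ : E (n + 1) => (3 / 128) * vE μ) μ := integrable_const _
  have k4 : Integrable (fun x : E (n + 1) => ((1 / 16) * m1) * (‖x‖ ^ 2 - 1) + (3 / 128) * vE μ) μ :=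
    k2.add k3
  have i2 : Integrable (fun x : E (n + 1) =>
      ((3 / 128) * (‖x‖ ^ 2 - 1) ^ 2) + (((1 / 16) * m1) * (‖x‖ ^ 2 - 1) + (3 / 128) * vE μ)) μ :=
    k1.add k4
  have hle : ∫ x, (((3 / 128) * (‖x‖ ^ 2 - 1) ^ 2) +
      (((1 / 16) * m1) * (‖x‖ ^ 2 - 1) + (3 / 128) * vE μ)) ∂μ ≤ ∫ x, ∫ z, F x z ∂μ ∂μ := by
    refine integral_mono_ae i2 hIx ?_
    filter_upwards [hinner] with x hx
    exact hx.1
  have hval : ∫ x, (((3 / 128) * (‖x‖ ^ 2 - 1) ^ 2) +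
      (((1 / 16) * m1) * (‖x‖ ^ 2 - 1) + (3 / 128) * vE μ)) ∂μ =
      (3 / 128) * vE μ + (((1 / 16) * m1) * m1 + (3 / 128) * vE μ) := by
    have l1 : ∫ x, (3 / 128) * (‖x‖ ^ 2 - 1) ^ 2 ∂μ = (3 / 128) * vE μ := by
      rw [integral_const_mul, ← hv]
    have l2 : ∫ x, ((1 / 16) * m1) * (‖x‖ ^ 2 - 1) ∂μ = ((1 / 16) * m1) * m1 := by
      rw [integral_const_mul]
    have l3 : ∫ _x : E (n + 1), (3 / 128) * vE μ ∂μ = (3 / 128) * vE μ := by simp
    rw [integral_add k1 k4, integral_add k2 k3, l1, l2, l3]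
  rw [hval] at hle
  nlinarith [sq_nonneg m1]

theorem rad_energy (M : ℝ) (hM : 1 ≤ M) : ∃ δ0 : ℝ, 0 < δ0 ∧ δ0 ≤ 1 / 10 ∧ ∃ n1 : ℕ, ∀ n ≥ n1,
    ∀ σ : Measure (E (n + 1)), SphM σ → ∀ s : ℝ, 0 < s → s ≤ M →
      ∀ (δ : ℝ) (μ : Measure (E (n + 1))), Thin δ μ → δ ≤ δ0 →
        (1 / 32) * vE μ ≤
          ∫ x, ∫ z, (∫ y, kc s (eS σ s) (lS σ s) (‖x‖ ^ 2 + ‖z‖ ^ 2 - 2 * (‖x‖ * ‖z‖) * y 0) ∂σ) ∂μ ∂μ := by
  obtain ⟨δ0, h0, h1, n1, hn⟩ := rad_point' M hM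
  refine ⟨δ0, h0, h1, n1, ?_⟩
  intro n hn' σ hσ s hs hsM δ μ hT hδ
  obtain ⟨B, hB⟩ := hn n hn' σ hσ s hs hsM
  have hprob : IsProbabilityMeasure σ := ⟨hσ.1⟩
  have hshell : ∀ᵐ x ∂μ, 0 < ‖x‖ ∧ |‖x‖ ^ 2 - 1| ≤ δ0 := by
    filter_upwards [hT.shell] with x hx
    refine ⟨?_, hx.trans hδ⟩
    have h2 := (abs_le.1 hx).1
    have h3 := hT.d1
    by_contra hcon
    have : ‖x‖ = 0 := le_antisymm (not_lt.1 hcon) (norm_nonneg _)
    rw [this] at h2
    linarith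
  have hm3 : StronglyMeasurable (fun p : (E (n + 1) × E (n + 1)) × E (n + 1) =>
      kc s (eS σ s) (lS σ s) (‖p.1.1‖ ^ 2 + ‖p.1.2‖ ^ 2 - 2 * (‖p.1.1‖ * ‖p.1.2‖) * p.2 0)) := by
    apply Measurable.stronglyMeasurable
    apply (kc_meas s (eS σ s) (lS σ s)).comp
    have h2 : Continuous fun p : (E (n + 1) × E (n + 1)) × E (n + 1) => p.2 0 :=
      (co_cont n).comp continuous_snd
    have h3 : Continuous fun p : (E (n + 1) × E (n + 1)) × E (n + 1) =>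
        ‖p.1.1‖ ^ 2 + ‖p.1.2‖ ^ 2 - 2 * (‖p.1.1‖ * ‖p.1.2‖) * p.2 0 := by
      fun_prop
    exact h3.measurable
  have hm2 : StronglyMeasurable (fun p : E (n + 1) × E (n + 1) =>
      ∫ y, kc s (eS σ s) (lS σ s) (‖p.1‖ ^ 2 + ‖p.2‖ ^ 2 - 2 * (‖p.1‖ * ‖p.2‖) * y 0) ∂σ) :=
    hm3.integral_prod_right' (ν := σ)
  refine energy_abs hT.prob (fun x z =>
      ∫ y, kc s (eS σ s) (lS σ s) (‖x‖ ^ 2 + ‖z‖ ^ 2 - 2 * (‖x‖ * ‖z‖) * y 0) ∂σ) hm2 δ0 B
      (hshell.mono fun x hx => hx.2) ?_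
  filter_upwards [hshell] with x hx
  filter_upwards [hshell] with z hz
  exact (hB ‖x‖ ‖z‖ hx.1 hz.1 hx.2 hz.2).2

end Pool.Agent.Lib.MP_6cd19d_an.SH
end
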