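import Pool.Agent.Lib.MP_6cd19d_an.SH.Defs
import Pool.Agent.Lib.MP_6cd19d_an.SH.S03
import Pool.Agent.Lib.MP_6cd19d_an.SH.S11
import Pool.Agent.Lib.MP_6cd19d_an.SH.S10

section

/-!
# The base function

`bS σ v = v exp(-2v) ζ(v)`, `ζ(v) = ∫ (1-t) exp(2 v t) dσ`, `t = y_0`.  For `v ≤ Λ`: `|ζ - 1| ≤ C_Λ/(n+1)` and
`|ζ'| = 2 |∫ (t - t^2) exp(2vt)| ≤ C_Λ/(n+1)` (Taylor, `∫ t = 0`, `∫ t^2 = 1/(n+1)`), so for `n` large `ζ ≥ 1/2`,
`v ζ' ≤ ζ/4`, and `v bS' = bS (1 - 2v + v ζ'/ζ) ≤ (5/4 - 2v) bS`.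

Tail: let `v0 = exp L`, `|L| ≤ C5`, so `v0` lies between `exp(-C5)` and `exp(C5)`.
`∫_{16 v0}^{32 v0} ww bS ≥ A log 16 ∫ v^(s/2-1) v exp(-2v)/2 dv ≥ A c`, `c = c(M,C5) > 0` (uniform in `0 < s ≤ M`).
`∫_Λ^∞ ww bS`: for `t ≤ 1/2`, `(1-t) exp(-2v(1-t)) ≤ 2 exp(-v)`; this part is
`≤ A ∫_Λ^∞ v^(s/2) (v + C5) 2 exp(-v) dv ≤ A c/2` for `Λ` large (depending on `M`, `C5`; `log v ≤ v`).  For `t > 1/2`: the part is
`≤ A ∫ 1_{t>1/2} (1-t) ∫_0^∞ v^(s/2) (v + C5) exp(-2v(1-t)) dv dσ ≤ A C ∫ 1_{t > 1/2} (1-t)^(-k) dσ ≤ 4 A C ∫ t^2 (1-t)^(-k) dσ`,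
which is `≤ A c/2` for `n` large (`neg_mom`).
`∫_0^Λ |ww| bS ≤ A ∫_0^Λ v^(s/2-1) (|log v| + C5) 2 v dv ≤ C A` (`bS ≤ 2 v` since `(1-t) exp(-2v(1-t)) ≤ 2`).

`base_zero`: `∫ ww bS dv = ∫ (1-y_0) (∫ ww v exp(-v (2 - 2 y_0)) dv) dσ = -∫ (1-y_0) kc1(2-2y_0) dσ = 0` by Fubini
(absolute convergence: the last bound of `laplace_kc` and `neg_mom`) and `stat_sphere`.
-/

set_option autoImplicit false

open MeasureTheory Set Filter Topology
open scoped ENNReal NNReal

namespace Pool.Agent.Lib.MP_6cd19d_an.SH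

open Pool.Agent.Lib.MP_6cd19d_an.ND Pool.Agent.Lib.MP_6cd19d_an.HP

variable {n : ℕ}

section aux

variable {σ : Measure (E (n + 1))}

private theorem S6_ae (hσ : SphM σ) : ∀ᵐ y ∂σ, |y 0| ≤ 1 := by
  have h0 : ∀ᵐ y ∂σ, ‖y‖ = 1 := by
    rw [ae_iff]
    have h := hσ.2.1
    convert! h using 2
    ext y
    simp
  filter_upwards [h0] with y hy
  have h := PiLp.norm_apply_le y 0
  rw [hy, Real.norm_eq_abs] at h
  exact h

private theorem S6_c : Continuous fun y : E (n + 1) => y 0 :=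
  (PiLp.continuous_apply 2 (fun _ => ℝ) 0)

/-- Integrability of continuous functions of the first coordinate. -/
private theorem S6_int [IsFiniteMeasure σ] (hσ : SphM σ) {f : ℝ → ℝ} (hf : Continuous f) :
    Integrable (fun y : E (n + 1) => f (y 0)) σ := by
  obtain ⟨C, hC⟩ := (isCompact_Icc (a := (-1 : ℝ)) (b := 1)).exists_bound_of_continuousOn hf.continuousOn
  refine Integrable.of_bound (hf.comp S6_c).aestronglyMeasurable C ?_
  filter_upwards [S6_ae hσ] with y hy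
  exact hC _ (abs_le.1 hy)

private theorem S6_m1 (hn : 1 ≤ n) (hσ : SphM σ) : ∫ y, y 0 ∂σ = 0 := by
  have h := (bes_sphere hn hσ).zero
  simpa using h

private theorem S6_m2 (hn : 1 ≤ n) (hσ : SphM σ) : ∫ y, (y 0) ^ 2 ∂σ = 1 / ((n : ℝ) + 1) := by
  have h := (bes_sphere hn hσ).two
  simpa using h

/-- The function `ζ`. -/
private noncomputable def zt (σ : Measure (E (n + 1))) (v : ℝ) : ℝ := ∫ y, (1 - y 0) * Real.exp (2 * v * y 0) ∂σ

private noncomputable def zt1 (σ : Measure (E (n + 1))) (v : ℝ) : ℝ :=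
  ∫ y, (2 * y 0 * (1 - y 0)) * Real.exp (2 * v * y 0) ∂σ

private theorem bS_eq (v : ℝ) : bS σ v = v * Real.exp (-2 * v) * zt σ v := by
  unfold bS zt
  have h : ∫ y, (1 - y 0) * Real.exp (-2 * v * (1 - y 0)) ∂σ =
      Real.exp (-2 * v) * ∫ y, (1 - y 0) * Real.exp (2 * v * y 0) ∂σ := by
    rw [← integral_const_mul]
    refine integral_congr_ae (Eventually.of_forall fun y => ?_)
    simp only
    rw [mul_left_comm, ← Real.exp_add]
    congr 2
    ring
  rw [h, mul_assoc]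

private theorem zt_eq [IsFiniteMeasure σ] (hσ : SphM σ) (v : ℝ) :
    zt σ v = ∫ y, Real.exp (2 * v * y 0) ∂σ - ∫ y, y 0 * Real.exp (2 * v * y 0) ∂σ := by
  unfold zt
  rw [← integral_sub (S6_int hσ (f := fun t => Real.exp (2 * v * t)) (by fun_prop))
    (S6_int hσ (f := fun t => t * Real.exp (2 * v * t)) (by fun_prop))]
  refine integral_congr_ae (Eventually.of_forall fun y => ?_)
  simp only
  ring

private theorem zt1_eq [IsFiniteMeasure σ] (hσ : SphM σ) (v : ℝ) :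
    zt1 σ v = 2 * (∫ y, y 0 * Real.exp (2 * v * y 0) ∂σ - ∫ y, (y 0) ^ 2 * Real.exp (2 * v * y 0) ∂σ) := by
  unfold zt1
  rw [← integral_sub (S6_int hσ (f := fun t => t * Real.exp (2 * v * t)) (by fun_prop))
    (S6_int hσ (f := fun t => t ^ 2 * Real.exp (2 * v * t)) (by fun_prop)), ← integral_const_mul]
  refine integral_congr_ae (Eventually.of_forall fun y => ?_)
  simp only
  ring

private theorem zt_deriv (hn : 1 ≤ n) (hσ : SphM σ) (v : ℝ) : HasDerivAt (zt σ) (zt1 σ v) v := by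
  have : IsProbabilityMeasure σ := ⟨hσ.1⟩
  have hb := bes_sphere hn hσ
  have h2 : HasDerivAt (fun v : ℝ => 2 * v) 2 v := by
    simpa using (hasDerivAt_id v).const_mul (2 : ℝ)
  have e1 := (hb.d1 (2 * v)).comp v h2
  have e2 := (hb.d2 (2 * v)).comp v h2
  have e3 := e1.sub e2
  have e4 : zt σ = (fun κ => ∫ y, Real.exp (κ * y 0) ∂σ) ∘ (fun v => 2 * v) -
      (fun κ => ∫ y, y 0 * Real.exp (κ * y 0) ∂σ) ∘ (fun v => 2 * v) := by
    funext w
    rw [zt_eq hσ]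
    rfl
  rw [e4, zt1_eq hσ]
  convert! e3 using 1
  ring

private theorem bS_deriv (hn : 1 ≤ n) (hσ : SphM σ) (v : ℝ) :
    HasDerivAt (bS σ) (Real.exp (-2 * v) * (zt σ v * (1 - 2 * v) + v * zt1 σ v)) v := by
  have e0 : bS σ = fun v => v * Real.exp (-2 * v) * zt σ v := by
    funext w
    exact bS_eq w
  rw [e0]
  have h1 : HasDerivAt (fun v : ℝ => Real.exp (-2 * v)) (Real.exp (-2 * v) * (-2)) v := by
    have := ((hasDerivAt_id v).const_mul (-2 : ℝ)).exp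
    simpa using this
  have h2 := ((hasDerivAt_id v).mul h1).mul (zt_deriv hn hσ v)
  convert! h2 using 1
  simp only [id_eq, Pi.mul_apply]
  ring

private theorem zt_lower (hn : 1 ≤ n) (hσ : SphM σ) (v : ℝ) :
    1 - 2 * v / ((n : ℝ) + 1) ≤ zt σ v := by
  have : IsProbabilityMeasure σ := ⟨hσ.1⟩
  have h1 : ∫ y, ((1 - y 0) * (1 + 2 * v * y 0)) ∂σ ≤ zt σ v := by
    unfold zt
    refine integral_mono_ae (S6_int hσ (f := fun t => (1 - t) * (1 + 2 * v * t)) (by fun_prop))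
      (S6_int hσ (f := fun t => (1 - t) * Real.exp (2 * v * t)) (by fun_prop)) ?_
    filter_upwards [S6_ae hσ] with y hy
    have h := abs_le.1 hy
    refine mul_le_mul_of_nonneg_left ?_ (by linarith)
    have := Real.add_one_le_exp (2 * v * y 0)
    linarith
  have h2 : ∫ y, ((1 - y 0) * (1 + 2 * v * y 0)) ∂σ = 1 - 2 * v / ((n : ℝ) + 1) := by
    have e : ∀ y : E (n + 1), (1 - y 0) * (1 + 2 * v * y 0) = (1 + (2 * v - 1) * y 0) - 2 * v * (y 0) ^ 2 := by
      intro y; ring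
    simp only [e]
    rw [integral_sub (S6_int hσ (f := fun t => 1 + (2 * v - 1) * t) (by fun_prop))
      (S6_int hσ (f := fun t => 2 * v * t ^ 2) (by fun_prop)),
      integral_add (integrable_const _) (S6_int hσ (f := fun t => (2 * v - 1) * t) (by fun_prop)),
      integral_const_mul, integral_const_mul, S6_m1 hn hσ, S6_m2 hn hσ]
    simp
    ring
  rw [h2] at h1
  exact h1

private theorem zt1_upper (hn : 1 ≤ n) (hσ : SphM σ) {v Λ : ℝ} (hv : 0 ≤ v) (hvL : v ≤ Λ) :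
    zt1 σ v ≤ 4 * Λ * Real.exp (2 * Λ) / ((n : ℝ) + 1) := by
  have : IsProbabilityMeasure σ := ⟨hσ.1⟩
  have hL : 0 ≤ Λ := hv.trans hvL
  have h1 : zt1 σ v ≤ ∫ y, (2 * y 0 + 4 * Λ * Real.exp (2 * Λ) * (y 0) ^ 2) ∂σ := by
    unfold zt1
    refine integral_mono_ae (S6_int hσ (f := fun t => (2 * t * (1 - t)) * Real.exp (2 * v * t)) (by fun_prop))
      (S6_int hσ (f := fun t => 2 * t + 4 * Λ * Real.exp (2 * Λ) * t ^ 2) (by fun_prop)) ?_
    filter_upwards [S6_ae hσ] with y hy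
    set t := y 0 with ht
    have hy2 := abs_le.1 hy
    -- t (e^{2vt} - 1) ≤ 2 Λ e^{2Λ} t^2
    have k1 : t * (Real.exp (2 * v * t) - 1) ≤ 2 * Λ * Real.exp (2 * Λ) * t ^ 2 := by
      rcases le_total 0 t with h0 | h0
      · have a1 : Real.exp (2 * v * t) - 1 ≤ 2 * v * t * Real.exp (2 * v * t) := by
          have := Real.add_one_le_exp (-(2 * v * t))
          rw [Real.exp_neg] at this
          have hp := Real.exp_pos (2 * v * t)
          have : (-(2 * v * t) + 1) * Real.exp (2 * v * t) ≤ 1 := by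
            calc (-(2 * v * t) + 1) * Real.exp (2 * v * t) ≤ (Real.exp (2 * v * t))⁻¹ * Real.exp (2 * v * t) :=
                  mul_le_mul_of_nonneg_right this hp.le
              _ = 1 := inv_mul_cancel₀ hp.ne'
          nlinarith
        have a2 : Real.exp (2 * v * t) ≤ Real.exp (2 * Λ) := by
          apply Real.exp_le_exp.2
          nlinarith [mul_nonneg hv (sub_nonneg.2 hy2.2)]
        have a3 : 2 * v * t * Real.exp (2 * v * t) ≤ 2 * Λ * t * Real.exp (2 * Λ) := by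
          refine mul_le_mul ?_ a2 (Real.exp_pos _).le (by positivity)
          nlinarith
        calc t * (Real.exp (2 * v * t) - 1) ≤ t * (2 * Λ * t * Real.exp (2 * Λ)) :=
              mul_le_mul_of_nonneg_left (a1.trans a3) h0
          _ = 2 * Λ * Real.exp (2 * Λ) * t ^ 2 := by ring
      · have a1 : 2 * v * t ≤ Real.exp (2 * v * t) - 1 := by
          have := Real.add_one_le_exp (2 * v * t)
          linarith
        have a2 : t * (Real.exp (2 * v * t) - 1) ≤ t * (2 * v * t) :=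
          mul_le_mul_of_nonpos_left a1 h0
        have a3 : (1 : ℝ) ≤ Real.exp (2 * Λ) := Real.one_le_exp (by linarith)
        have a4 : v ≤ Λ * Real.exp (2 * Λ) := by nlinarith
        nlinarith [sq_nonneg t, mul_le_mul_of_nonneg_right a4 (sq_nonneg t)]
    have k2 : 0 ≤ t ^ 2 * Real.exp (2 * v * t) := by positivity
    nlinarith
  have h2 : ∫ y, (2 * y 0 + 4 * Λ * Real.exp (2 * Λ) * (y 0) ^ 2) ∂σ =
      4 * Λ * Real.exp (2 * Λ) / ((n : ℝ) + 1) := by
    rw [integral_add (S6_int hσ (f := fun t => 2 * t) (by fun_prop))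
      (S6_int hσ (f := fun t => 4 * Λ * Real.exp (2 * Λ) * t ^ 2) (by fun_prop)),
      integral_const_mul, integral_const_mul, S6_m1 hn hσ, S6_m2 hn hσ]
    ring
  rw [h2] at h1
  exact h1

private theorem bS_le [IsProbabilityMeasure σ] (hn : 1 ≤ n) (hσ : SphM σ) {v : ℝ} (hv : 0 ≤ v) : bS σ v ≤ v := by
  have h1 : ∫ y, (1 - y 0) * Real.exp (-2 * v * (1 - y 0)) ∂σ ≤ ∫ y, (1 - y 0) ∂σ := by
    refine integral_mono_ae (S6_int hσ (f := fun t => (1 - t) * Real.exp (-2 * v * (1 - t))) (by fun_prop))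
      (S6_int hσ (f := fun t => 1 - t) (by fun_prop)) ?_
    filter_upwards [S6_ae hσ] with y hy
    have h := abs_le.1 hy
    have h2 : Real.exp (-2 * v * (1 - y 0)) ≤ 1 := by
      apply Real.exp_le_one_iff.2
      nlinarith [mul_nonneg hv (show 0 ≤ 1 - y 0 by linarith)]
    calc (1 - y 0) * Real.exp (-2 * v * (1 - y 0)) ≤ (1 - y 0) * 1 :=
          mul_le_mul_of_nonneg_left h2 (by linarith)
      _ = 1 - y 0 := mul_one _
  have h2 : ∫ y, (1 - y 0) ∂σ = 1 := by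
    rw [integral_sub (integrable_const _) (S6_int hσ (f := fun t => t) (by fun_prop)), S6_m1 hn hσ]
    simp
  rw [h2] at h1
  unfold bS
  calc v * ∫ y, (1 - y 0) * Real.exp (-2 * v * (1 - y 0)) ∂σ ≤ v * 1 := mul_le_mul_of_nonneg_left h1 hv
    _ = v := mul_one _

private theorem bS_pos [IsProbabilityMeasure σ] (hn : 1 ≤ n) (hσ : SphM σ) {v : ℝ} (hv : 0 < v) : 0 < bS σ v := by
  have h1 : ∫ y, (1 - y 0) * Real.exp (-4 * v) ∂σ ≤ ∫ y, (1 - y 0) * Real.exp (-2 * v * (1 - y 0)) ∂σ := by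
    refine integral_mono_ae (S6_int hσ (f := fun t => (1 - t) * Real.exp (-4 * v)) (by fun_prop))
      (S6_int hσ (f := fun t => (1 - t) * Real.exp (-2 * v * (1 - t))) (by fun_prop)) ?_
    filter_upwards [S6_ae hσ] with y hy
    have h := abs_le.1 hy
    refine mul_le_mul_of_nonneg_left ?_ (by linarith)
    apply Real.exp_le_exp.2
    nlinarith [mul_nonneg hv.le (show 0 ≤ 1 + y 0 by linarith)]
  have h2 : ∫ y, (1 - y 0) * Real.exp (-4 * v) ∂σ = Real.exp (-4 * v) := by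
    rw [integral_mul_const, integral_sub (integrable_const _) (S6_int hσ (f := fun t => t) (by fun_prop)), S6_m1 hn hσ]
    simp
  rw [h2] at h1
  unfold bS
  exact mul_pos hv (lt_of_lt_of_le (Real.exp_pos _) h1)

private theorem bS_tail [IsProbabilityMeasure σ] (hn : 1 ≤ n) (hσ : SphM σ) (m : ℕ)
    (hi : Integrable (fun y => ((1 - y 0)⁻¹) ^ m) σ) (hb : (∫ y, ((1 - y 0)⁻¹) ^ m ∂σ) ≤ 2) {v : ℝ} (hv : 0 < v) :
    bS σ v ≤ 2 * ((m + 1).factorial : ℝ) * (v ^ m)⁻¹ := by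
  have h1 : ∫ y, (1 - y 0) * Real.exp (-2 * v * (1 - y 0)) ∂σ ≤
      ∫ y, (((m + 1).factorial : ℝ) * (v ^ (m + 1))⁻¹) * ((1 - y 0)⁻¹) ^ m ∂σ := by
    refine integral_mono_ae (S6_int hσ (f := fun t => (1 - t) * Real.exp (-2 * v * (1 - t))) (by fun_prop))
      (hi.const_mul _) ?_
    filter_upwards [S6_ae hσ, sph_lt hn hσ] with y hy hy1
    have h := abs_le.1 hy
    set u := 1 - y 0 with hu
    have hu0 : 0 < u := by linarith
    have e1 : Real.exp (-2 * v * u) ≤ ((m + 1).factorial : ℝ) / (v * u) ^ (m + 1) := by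
      have hx : 0 < v * u := mul_pos hv hu0
      have k1 : (v * u) ^ (m + 1) / ((m + 1).factorial : ℝ) ≤ Real.exp (v * u) :=
        Real.pow_div_factorial_le_exp _ hx.le _
      have k2 : Real.exp (-2 * v * u) ≤ (Real.exp (v * u))⁻¹ := by
        rw [← Real.exp_neg]
        apply Real.exp_le_exp.2
        nlinarith
      refine k2.trans ?_
      rw [inv_le_comm₀ (Real.exp_pos _) (by positivity), inv_div]
      exact k1
    calc u * Real.exp (-2 * v * u) ≤ u * (((m + 1).factorial : ℝ) / (v * u) ^ (m + 1)) :=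
          mul_le_mul_of_nonneg_left e1 hu0.le
      _ = (((m + 1).factorial : ℝ) * (v ^ (m + 1))⁻¹) * (u⁻¹) ^ m := by
          rw [mul_pow, inv_pow, pow_succ u m]
          field_simp
  rw [integral_const_mul] at h1
  have h2 : (((m + 1).factorial : ℝ) * (v ^ (m + 1))⁻¹) * ∫ y, ((1 - y 0)⁻¹) ^ m ∂σ ≤
      (((m + 1).factorial : ℝ) * (v ^ (m + 1))⁻¹) * 2 := mul_le_mul_of_nonneg_left hb (by positivity)
  unfold bS
  calc v * ∫ y, (1 - y 0) * Real.exp (-2 * v * (1 - y 0)) ∂σ ≤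
        v * ((((m + 1).factorial : ℝ) * (v ^ (m + 1))⁻¹) * 2) := mul_le_mul_of_nonneg_left (h1.trans h2) hv.le
    _ = 2 * ((m + 1).factorial : ℝ) * (v ^ m)⁻¹ := by
        rw [pow_succ]
        field_simp

private theorem log_abs_le {v : ℝ} (hv : 0 < v) : |Real.log v| ≤ 2 * v ^ (-(1 / 2) : ℝ) + v := by
  have hp : 0 < v ^ (-(1 / 2) : ℝ) := Real.rpow_pos_of_pos hv _
  rw [abs_le]
  constructor
  · have h := Real.log_le_sub_one_of_pos hp
    rw [Real.log_rpow hv] at h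
    linarith
  · have h := Real.log_le_sub_one_of_pos hv
    linarith

private theorem ww_meas (s A L : ℝ) : Measurable (ww s A L) := by
  unfold ww
  exact ((measurable_id.pow_const _).const_mul A).mul (Real.measurable_log.sub_const L)

private theorem phi_int (C5 Λ : ℝ) (hL : 0 ≤ Λ) :
    IntegrableOn (fun v : ℝ => 2 * v ^ (-(1 / 2) : ℝ) + v + C5) (Ioc 0 Λ) := by
  have h1 : IntervalIntegrable (fun v : ℝ => 2 * v ^ (-(1 / 2) : ℝ) + v + C5) volume 0 Λ := by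
    refine ((IntervalIntegrable.const_mul ?_ 2).add intervalIntegral.intervalIntegrable_id).add
      intervalIntegrable_const
    exact intervalIntegral.intervalIntegrable_rpow' (by norm_num)
  exact (intervalIntegrable_iff_integrableOn_Ioc_of_le hL).1 h1

end aux

theorem base_fun (M C5 : ℝ) (hM : 1 ≤ M) (hC5 : 0 < C5) : ∃ Λ C : ℝ, 0 < Λ ∧ 0 < C ∧ ∃ n1 : ℕ, ∀ n ≥ n1,
    ∀ σ : Measure (E (n + 1)), SphM σ → ∀ s A L : ℝ, 0 < s → s ≤ M → 0 < A → |L| ≤ C5 →
      32 * Real.exp L ≤ Λ ∧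
      (∀ v : ℝ, 0 < v → v ≤ Λ → ∃ b' : ℝ, HasDerivAt (bS σ) b' v ∧ v * b' ≤ (5 / 4 - 2 * v) * bS σ v ∧
        Real.exp (-2 * Λ) / 2 * v ≤ bS σ v) ∧
      (∀ v : ℝ, 0 < v → 0 < bS σ v) ∧
      IntegrableOn (fun v => ww s A L v * bS σ v) (Ioi 0) ∧
      (∫ v in Ioi Λ, ww s A L v * bS σ v) ≤ (∫ v in Ioc (16 * Real.exp L) (32 * Real.exp L), ww s A L v * bS σ v) ∧
      (∫ v in Ioc 0 Λ, |ww s A L v| * bS σ v) ≤ C * A := by
  obtain ⟨m, hm⟩ : ∃ m : ℕ, M + 2 ≤ m := exists_nat_ge _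
  obtain ⟨_, _, n0, hn0⟩ := neg_mom m
  set C2 : ℝ := (1 + C5) * (2 * ((m + 1).factorial : ℝ)) with hC2
  have hC2p : 0 < C2 := by positivity
  set c0 : ℝ := Real.exp (-(C5 * M)) * Real.exp (-64 * Real.exp C5) / 2 with hc0
  have hc0p : 0 < c0 := by positivity
  set c : ℝ := 16 * Real.exp (-C5) * c0 with hc
  have hcp : 0 < c := by positivity
  set Λ : ℝ := max (max 1 (32 * Real.exp C5)) (C2 / c) with hΛ
  have hΛ1 : 1 ≤ Λ := (le_max_left _ _).trans (le_max_left _ _)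
  have hΛ2 : 32 * Real.exp C5 ≤ Λ := (le_max_right _ _).trans (le_max_left _ _)
  have hΛ3 : C2 / c ≤ Λ := le_max_right _ _
  have hΛ0 : 0 < Λ := by linarith
  have hphi := phi_int C5 Λ hΛ0.le
  set C : ℝ := Λ ^ M * (∫ v in Ioc 0 Λ, (2 * v ^ (-(1 / 2) : ℝ) + v + C5)) + 1 with hCdef
  have hphi0 : 0 ≤ ∫ v in Ioc 0 Λ, (2 * v ^ (-(1 / 2) : ℝ) + v + C5) := by
    refine setIntegral_nonneg measurableSet_Ioc fun v hv => ?_
    have := hv.1
    positivity
  have hCp : 0 < C := by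
    have : 0 ≤ Λ ^ M := Real.rpow_nonneg hΛ0.le _
    have := mul_nonneg this hphi0
    linarith
  obtain ⟨n2, hn2⟩ : ∃ n2 : ℕ, 4 * Λ + 32 * Λ ^ 2 * Real.exp (2 * Λ) ≤ n2 := exists_nat_ge _
  refine ⟨Λ, C, hΛ0, hCp, max (max 1 n0) n2, ?_⟩
  intro n hn σ hσ s A L hs hsM hA hL
  have : IsProbabilityMeasure σ := ⟨hσ.1⟩
  have hn1 : 1 ≤ n := (le_max_left 1 n0).trans ((le_max_left _ n2).trans hn)
  have hn0' : n0 ≤ n := (le_max_right 1 n0).trans ((le_max_left _ n2).trans hn)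
  have hn2' : (n2 : ℝ) ≤ n := by exact_mod_cast (le_max_right _ n2).trans hn
  have hnp : (0 : ℝ) < (n : ℝ) + 1 := by positivity
  obtain ⟨hmi, hmb, -, -⟩ := hn0 n hn0' σ hσ
  have hLa := abs_le.1 hL
  have hexpL : Real.exp L ≤ Real.exp C5 := Real.exp_le_exp.2 hLa.2
  have hexpL' : Real.exp (-C5) ≤ Real.exp L := Real.exp_le_exp.2 hLa.1
  have hbig : 4 * Λ ≤ (n : ℝ) + 1 := by
    have : 0 ≤ 32 * Λ ^ 2 * Real.exp (2 * Λ) := by positivity
    linarith
  have hbig2 : 32 * Λ ^ 2 * Real.exp (2 * Λ) ≤ (n : ℝ) + 1 := by linarith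
  have hzt : ∀ v : ℝ, 0 < v → v ≤ Λ → 1 / 2 ≤ zt σ v := by
    intro v hv hvL
    have h1 := zt_lower hn1 hσ v
    have h2 : 2 * v / ((n : ℝ) + 1) ≤ 1 / 2 := by
      rw [div_le_iff₀ hnp]
      linarith
    linarith
  have hbpos : ∀ v : ℝ, 0 < v → 0 < bS σ v := fun v hv => bS_pos hn1 hσ hv
  -- pointwise bounds
  have hnear : ∀ v : ℝ, 0 < v → v ≤ Λ → |ww s A L v| * bS σ v ≤
      A * Λ ^ M * (2 * v ^ (-(1 / 2) : ℝ) + v + C5) := by
    intro v hv hvL
    have e1 : |ww s A L v| = A * v ^ (s / 2 - 1) * |Real.log v - L| := by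
      unfold ww
      rw [abs_mul, abs_of_pos (mul_pos hA (Real.rpow_pos_of_pos hv _))]
    have e2 : |Real.log v - L| ≤ 2 * v ^ (-(1 / 2) : ℝ) + v + C5 := by
      calc |Real.log v - L| ≤ |Real.log v| + |L| := abs_sub _ _
        _ ≤ _ := add_le_add (log_abs_le hv) hL
    have e3 : v ^ (s / 2 - 1) * v ≤ Λ ^ M := by
      calc v ^ (s / 2 - 1) * v = v ^ (s / 2) := by
            rw [← Real.rpow_add_one hv.ne']
            congr 1
            ring
        _ ≤ Λ ^ (s / 2) := Real.rpow_le_rpow hv.le hvL (by positivity)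
        _ ≤ Λ ^ M := Real.rpow_le_rpow_of_exponent_le hΛ1 (by linarith)
    have hpos : 0 ≤ A * v ^ (s / 2 - 1) := (mul_pos hA (Real.rpow_pos_of_pos hv _)).le
    rw [e1]
    calc A * v ^ (s / 2 - 1) * |Real.log v - L| * bS σ v ≤
          A * v ^ (s / 2 - 1) * |Real.log v - L| * v :=
          mul_le_mul_of_nonneg_left (bS_le hn1 hσ hv.le) (mul_nonneg hpos (abs_nonneg _))
      _ = A * (v ^ (s / 2 - 1) * v) * |Real.log v - L| := by ring
      _ ≤ A * Λ ^ M * (2 * v ^ (-(1 / 2) : ℝ) + v + C5) := by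
          refine mul_le_mul (mul_le_mul_of_nonneg_left e3 hA.le) e2 (abs_nonneg _) ?_
          exact mul_nonneg hA.le (Real.rpow_nonneg hΛ0.le _)
  have hfar : ∀ v : ℝ, 1 ≤ v → |ww s A L v| * bS σ v ≤ A * C2 * v ^ (-2 : ℝ) := by
    intro v hv1
    have hv : 0 < v := by linarith
    have e1 : |ww s A L v| = A * v ^ (s / 2 - 1) * |Real.log v - L| := by
      unfold ww
      rw [abs_mul, abs_of_pos (mul_pos hA (Real.rpow_pos_of_pos hv _))]
    have e2 : |Real.log v - L| ≤ v * (1 + C5) := by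
      have h1 : |Real.log v| ≤ v := by
        rw [abs_of_nonneg (Real.log_nonneg hv1)]
        have := Real.log_le_sub_one_of_pos hv
        linarith
      have h2 : C5 ≤ v * C5 := by nlinarith
      calc |Real.log v - L| ≤ |Real.log v| + |L| := abs_sub _ _
        _ ≤ v + C5 := add_le_add h1 hL
        _ ≤ v * (1 + C5) := by linarith
    have e3 := bS_tail hn1 hσ m hmi hmb hv
    have e4 : v ^ (s / 2 - 1) * v * (v ^ m)⁻¹ ≤ v ^ (-2 : ℝ) := by
      calc v ^ (s / 2 - 1) * v * (v ^ m)⁻¹ = v ^ (s / 2 - 1 + 1 - m) := by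
            rw [Real.rpow_sub hv (s / 2 - 1 + 1) m, Real.rpow_add_one hv.ne' (s / 2 - 1), Real.rpow_natCast]
            exact (div_eq_mul_inv _ _).symm
        _ ≤ v ^ (-2 : ℝ) := Real.rpow_le_rpow_of_exponent_le hv1 (by linarith)
    have hpos : 0 ≤ A * v ^ (s / 2 - 1) := (mul_pos hA (Real.rpow_pos_of_pos hv _)).le
    rw [e1]
    calc A * v ^ (s / 2 - 1) * |Real.log v - L| * bS σ v ≤
          A * v ^ (s / 2 - 1) * (v * (1 + C5)) * (2 * ((m + 1).factorial : ℝ) * (v ^ m)⁻¹) := by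
          refine mul_le_mul (mul_le_mul_of_nonneg_left e2 hpos) e3 (hbpos v hv).le ?_
          exact mul_nonneg hpos (by positivity)
      _ = A * C2 * (v ^ (s / 2 - 1) * v * (v ^ m)⁻¹) := by rw [hC2]; ring
      _ ≤ A * C2 * v ^ (-2 : ℝ) := mul_le_mul_of_nonneg_left e4 (by positivity)
  have hbc : Continuous (bS σ) := continuous_iff_continuousAt.2 fun v => (bS_deriv hn1 hσ v).continuousAt
  have hmeas : Measurable fun v => ww s A L v * bS σ v := (ww_meas s A L).mul hbc.measurable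
  have hmeas' : Measurable fun v => |ww s A L v| * bS σ v := (ww_meas s A L).norm.mul hbc.measurable
  have hnorm : ∀ v : ℝ, 0 < v → ‖ww s A L v * bS σ v‖ = |ww s A L v| * bS σ v := by
    intro v hv
    rw [Real.norm_eq_abs, abs_mul, abs_of_pos (hbpos v hv)]
  have hI1 : IntegrableOn (fun v => ww s A L v * bS σ v) (Ioc 0 Λ) := by
    refine Integrable.mono' (hphi.const_mul (A * Λ ^ M)) hmeas.aestronglyMeasurable ?_
    refine (ae_restrict_iff' measurableSet_Ioc).2 (Eventually.of_forall fun v hv => ?_)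
    rw [hnorm v hv.1]
    exact hnear v hv.1 hv.2
  have hI1' : IntegrableOn (fun v => |ww s A L v| * bS σ v) (Ioc 0 Λ) := by
    refine Integrable.mono' (hphi.const_mul (A * Λ ^ M)) hmeas'.aestronglyMeasurable ?_
    refine (ae_restrict_iff' measurableSet_Ioc).2 (Eventually.of_forall fun v hv => ?_)
    rw [Real.norm_eq_abs, abs_of_nonneg (mul_nonneg (abs_nonneg _) (hbpos v hv.1).le)]
    exact hnear v hv.1 hv.2
  have hpow : IntegrableOn (fun v : ℝ => v ^ (-2 : ℝ)) (Ioi Λ) :=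
    integrableOn_Ioi_rpow_of_lt (by norm_num) hΛ0
  have hI2 : IntegrableOn (fun v => ww s A L v * bS σ v) (Ioi Λ) := by
    refine Integrable.mono' (hpow.const_mul (A * C2)) hmeas.aestronglyMeasurable ?_
    refine (ae_restrict_iff' measurableSet_Ioi).2 (Eventually.of_forall fun v hv => ?_)
    have hv1 : 1 ≤ v := hΛ1.trans (le_of_lt hv)
    rw [hnorm v (by linarith)]
    exact hfar v hv1
  refine ⟨by linarith [mul_le_mul_of_nonneg_left hexpL (show (0 : ℝ) ≤ 32 by norm_num)], ?_, hbpos, ?_, ?_, ?_⟩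
  · intro v hv hvL
    refine ⟨_, bS_deriv hn1 hσ v, ?_, ?_⟩
    · have h1 := hzt v hv hvL
      have h2 : v * zt1 σ v ≤ zt σ v / 4 := by
        have h3 := zt1_upper hn1 hσ hv.le hvL
        have h4 : v * zt1 σ v ≤ Λ * (4 * Λ * Real.exp (2 * Λ) / ((n : ℝ) + 1)) := by
          have h5 : 0 ≤ 4 * Λ * Real.exp (2 * Λ) / ((n : ℝ) + 1) := by positivity
          calc v * zt1 σ v ≤ v * (4 * Λ * Real.exp (2 * Λ) / ((n : ℝ) + 1)) :=
                mul_le_mul_of_nonneg_left h3 hv.le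
            _ ≤ Λ * (4 * Λ * Real.exp (2 * Λ) / ((n : ℝ) + 1)) := mul_le_mul_of_nonneg_right hvL h5
        have h6 : Λ * (4 * Λ * Real.exp (2 * Λ) / ((n : ℝ) + 1)) ≤ 1 / 8 := by
          rw [← mul_div_assoc, div_le_iff₀ hnp]
          nlinarith
        linarith
      rw [bS_eq]
      have hp : 0 < v * Real.exp (-2 * v) := by positivity
      have h3 : zt σ v * (1 - 2 * v) + v * zt1 σ v ≤ (5 / 4 - 2 * v) * zt σ v := by linarith
      calc v * (Real.exp (-2 * v) * (zt σ v * (1 - 2 * v) + v * zt1 σ v)) =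
            v * Real.exp (-2 * v) * (zt σ v * (1 - 2 * v) + v * zt1 σ v) := by ring
        _ ≤ v * Real.exp (-2 * v) * ((5 / 4 - 2 * v) * zt σ v) := mul_le_mul_of_nonneg_left h3 hp.le
        _ = (5 / 4 - 2 * v) * (v * Real.exp (-2 * v) * zt σ v) := by ring
    · rw [bS_eq]
      have h1 := hzt v hv hvL
      have h2 : Real.exp (-2 * Λ) ≤ Real.exp (-2 * v) := Real.exp_le_exp.2 (by linarith)
      calc Real.exp (-2 * Λ) / 2 * v = v * Real.exp (-2 * Λ) * (1 / 2) := by ring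
        _ ≤ v * Real.exp (-2 * v) * zt σ v := by
            refine mul_le_mul (mul_le_mul_of_nonneg_left h2 hv.le) h1 (by norm_num) (by positivity)
  · rw [← Ioc_union_Ioi_eq_Ioi hΛ0.le]
    exact hI1.union hI2
  · -- the tail
    have t1 : (∫ v in Ioi Λ, ww s A L v * bS σ v) ≤ ∫ v in Ioi Λ, A * C2 * v ^ (-2 : ℝ) := by
      refine setIntegral_mono_on hI2 (hpow.const_mul _) measurableSet_Ioi fun v hv => ?_
      have hv1 : 1 ≤ v := hΛ1.trans (le_of_lt hv)
      refine le_trans ?_ (hfar v hv1)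
      exact mul_le_mul_of_nonneg_right (le_abs_self _) (hbpos v (by linarith)).le
    have t2 : ∫ v in Ioi Λ, A * C2 * v ^ (-2 : ℝ) = A * (C2 / Λ) := by
      rw [integral_const_mul, integral_Ioi_rpow_of_lt (by norm_num) hΛ0]
      have : (-2 : ℝ) + 1 = -1 := by norm_num
      rw [this, Real.rpow_neg_one]
      field_simp
    have t3 : C2 / Λ ≤ c := by
      rw [div_le_iff₀ hΛ0]
      rw [div_le_iff₀ hcp] at hΛ3
      linarith
    have hsub : Ioc (16 * Real.exp L) (32 * Real.exp L) ⊆ Ioc 0 Λ := by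
      intro v hv
      have := Real.exp_pos L
      exact ⟨by linarith [hv.1], by linarith [hv.2]⟩
    have hI3 : IntegrableOn (fun v => ww s A L v * bS σ v) (Ioc (16 * Real.exp L) (32 * Real.exp L)) :=
      hI1.mono_set hsub
    have t4 : ∫ v in Ioc (16 * Real.exp L) (32 * Real.exp L), A * c0 ≤
        ∫ v in Ioc (16 * Real.exp L) (32 * Real.exp L), ww s A L v * bS σ v := by
      refine setIntegral_mono_on (integrableOn_const (by simp) enorm_ne_top) hI3 measurableSet_Ioc fun v hv => ?_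
      have hv0 := hsub hv
      have a1 : 1 ≤ Real.log v - L := by
        have h1 : Real.log (16 * Real.exp L) ≤ Real.log v :=
          Real.log_le_log (by positivity) hv.1.le
        rw [Real.log_mul (by norm_num) (Real.exp_pos _).ne', Real.log_exp] at h1
        have h2 : (1 : ℝ) ≤ Real.log 16 := by
          rw [Real.le_log_iff_exp_le (by norm_num)]
          have := Real.exp_one_lt_d9
          linarith
        linarith
      have a2 : v * Real.exp (-2 * v) * (1 / 2) ≤ bS σ v := by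
        rw [bS_eq]
        exact mul_le_mul_of_nonneg_left (hzt v hv0.1 hv0.2) (by have := hv0.1; positivity)
      have a3 : Real.exp (-(C5 * M)) ≤ v ^ (s / 2) := by
        have h1 : Real.exp (-C5) ≤ v := by
          have := Real.exp_pos L
          linarith [hv.1]
        calc Real.exp (-(C5 * M)) ≤ Real.exp (-C5 * (s / 2)) := by
              apply Real.exp_le_exp.2
              nlinarith
          _ = (Real.exp (-C5)) ^ (s / 2) := Real.exp_mul _ _
          _ ≤ v ^ (s / 2) := Real.rpow_le_rpow (Real.exp_pos _).le h1 (by positivity)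
      have a4 : Real.exp (-64 * Real.exp C5) ≤ Real.exp (-2 * v) := by
        apply Real.exp_le_exp.2
        linarith [hv.2]
      have hv1 := hv0.1
      have hwp : 0 < v ^ (s / 2 - 1) := Real.rpow_pos_of_pos hv1 _
      have a5 : v ^ (s / 2 - 1) * v = v ^ (s / 2) := by
        rw [← Real.rpow_add_one hv1.ne']
        congr 1
        ring
      calc A * c0 = A * (Real.exp (-(C5 * M)) * Real.exp (-64 * Real.exp C5) * (1 / 2)) := by rw [hc0]; ring
        _ ≤ A * (v ^ (s / 2) * Real.exp (-2 * v) * (1 / 2)) := by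
            refine mul_le_mul_of_nonneg_left (mul_le_mul_of_nonneg_right ?_ (by norm_num)) hA.le
            exact mul_le_mul a3 a4 (Real.exp_pos _).le (Real.rpow_nonneg hv1.le _)
        _ = (A * v ^ (s / 2 - 1) * 1) * (v * Real.exp (-2 * v) * (1 / 2)) := by rw [← a5]; ring
        _ ≤ (A * v ^ (s / 2 - 1) * (Real.log v - L)) * bS σ v := by
            refine mul_le_mul (mul_le_mul_of_nonneg_left a1 (by positivity)) a2 (by positivity) ?_
            exact mul_nonneg (by positivity) (by linarith)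
    have t5 : ∫ v in Ioc (16 * Real.exp L) (32 * Real.exp L), A * c0 = 16 * Real.exp L * (A * c0) := by
      rw [setIntegral_const, Measure.real, Real.volume_Ioc, ENNReal.toReal_ofReal (by
        have := Real.exp_pos L
        linarith), smul_eq_mul]
      ring
    rw [t5] at t4
    refine le_trans ?_ t4
    refine t1.trans ?_
    rw [t2]
    calc A * (C2 / Λ) ≤ A * c := mul_le_mul_of_nonneg_left t3 hA.le
      _ = 16 * Real.exp (-C5) * (A * c0) := by rw [hc]; ring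
      _ ≤ 16 * Real.exp L * (A * c0) := by
          refine mul_le_mul_of_nonneg_right ?_ (by positivity)
          linarith
  · have t1 : (∫ v in Ioc 0 Λ, |ww s A L v| * bS σ v) ≤
        ∫ v in Ioc 0 Λ, A * Λ ^ M * (2 * v ^ (-(1 / 2) : ℝ) + v + C5) :=
      setIntegral_mono_on hI1' (hphi.const_mul _) measurableSet_Ioc fun v hv => hnear v hv.1 hv.2
    rw [integral_const_mul] at t1
    refine t1.trans ?_
    rw [hCdef]
    nlinarith

theorem base_zero (M : ℝ) (hM : 1 ≤ M) : ∃ n1 : ℕ, ∀ n ≥ n1, ∀ σ : Measure (E (n + 1)), SphM σ →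
    ∀ s A L : ℝ, 0 < s → s ≤ M → 0 < A →
      (∀ Z : ℝ, 0 < Z → IntegrableOn (fun v => ww s A L v * v * Real.exp (-v * Z)) (Ioi 0) ∧
        ∫ v in Ioi (0 : ℝ), ww s A L v * v * Real.exp (-v * Z) = -kc1 s (eS σ s) (lS σ s) Z) →
      (∃ C' : ℝ, 0 < C' ∧ ∀ Z : ℝ, 0 < Z →
        ∫ v in Ioi (0 : ℝ), |ww s A L v| * v * Real.exp (-v * Z) ≤
          C' * (Z ^ (-s / 2 - 1) * (1 + |Real.log Z|))) →
      ∫ v in Ioi (0 : ℝ), ww s A L v * bS σ v = 0 := by
  obtain ⟨m, hm⟩ : ∃ m : ℕ, M ≤ m := exists_nat_ge _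
  obtain ⟨_, _, n0, hn0⟩ := neg_mom 1
  obtain ⟨_, _, n1, hn1⟩ := neg_mom m
  obtain ⟨_, _, n2, hn2⟩ := neg_mom (m + 1)
  obtain ⟨n3, hn3⟩ := stat_sphere M hM
  refine ⟨max (max n0 n1) (max (max n2 n3) 1), ?_⟩
  intro n hn σ hσ s A L hs hsM hA H1 ⟨C', hC', H2⟩
  have : IsProbabilityMeasure σ := ⟨hσ.1⟩
  have hn0' : n0 ≤ n := (le_max_left n0 n1).trans ((le_max_left _ _).trans hn)
  have hn1' : n1 ≤ n := (le_max_right n0 n1).trans ((le_max_left _ _).trans hn)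
  have hn23 : max (max n2 n3) 1 ≤ n := (le_max_right _ _).trans hn
  have hn2' : n2 ≤ n := (le_max_left n2 n3).trans ((le_max_left _ _).trans hn23)
  have hn3' : n3 ≤ n := (le_max_right n2 n3).trans ((le_max_left _ _).trans hn23)
  have hnn : 1 ≤ n := (le_max_right _ _).trans hn23
  obtain ⟨i0, -, -, -⟩ := hn0 n hn0' σ hσ
  obtain ⟨i1, -, -, -⟩ := hn1 n hn1' σ hσ
  obtain ⟨i2, -, -, -⟩ := hn2 n hn2' σ hσ
  obtain ⟨-, -, hst⟩ := hn3 n hn3' σ hσ s hs hsM
  set F : E (n + 1) → ℝ → ℝ := fun y v => (1 - y 0) * (ww s A L v * v * Real.exp (-v * (2 - 2 * y 0))) with hF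
  have hFm : Measurable (Function.uncurry F) := by
    have c1 : Measurable fun p : E (n + 1) × ℝ => p.1 0 := S6_c.measurable.comp measurable_fst
    have c2 : Measurable fun p : E (n + 1) × ℝ => ww s A L p.2 := (ww_meas s A L).comp measurable_snd
    have c3 : Measurable fun p : E (n + 1) × ℝ => p.2 := measurable_snd
    exact (c1.const_sub 1).mul ((c2.mul c3).mul (c3.neg.mul ((c1.const_mul 2).const_sub 2)).exp)
  have hnormF : ∀ y : E (n + 1), y 0 < 1 → ∀ v : ℝ, 0 < v →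
      ‖F y v‖ = (1 - y 0) * (|ww s A L v| * v * Real.exp (-v * (2 - 2 * y 0))) := by
    intro y hy v hv
    simp only [hF]
    rw [Real.norm_eq_abs, abs_mul, abs_mul, abs_mul, Real.abs_exp, abs_of_pos hv,
      abs_of_pos (show 0 < 1 - y 0 by linarith)]
  have hint : Integrable (Function.uncurry F) (σ.prod (volume.restrict (Ioi 0))) := by
    rw [integrable_prod_iff hFm.aestronglyMeasurable]
    constructor
    · filter_upwards [sph_lt hnn hσ] with y hy
      have hy2 : 0 < 2 - 2 * y 0 := by linarith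
      have h := (H1 (2 - 2 * y 0) hy2).1
      exact Integrable.const_mul h (1 - y 0)
    · have hm2 : AEStronglyMeasurable (fun y => ∫ v in Ioi (0 : ℝ), ‖Function.uncurry F (y, v)‖) σ :=
        (hFm.aestronglyMeasurable (μ := σ.prod (volume.restrict (Ioi 0)))).norm.integral_prod_right'
      refine Integrable.mono' (g := fun y => C' * ((5 : ℝ) + ((1 - y 0)⁻¹) ^ 1 + 5 * ((1 - y 0)⁻¹) ^ m +
        ((1 - y 0)⁻¹) ^ (m + 1))) ?_ hm2 ?_
      · exact ((((integrable_const _).add i0).add (i1.const_mul 5)).add i2).const_mul _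
      · filter_upwards [sph_lt hnn hσ, S6_ae hσ] with y hy hya
        have hya' := abs_le.1 hya
        set u := 1 - y 0 with hu
        have hu0 : 0 < u := by linarith
        have hu2 : u ≤ 2 := by linarith
        have hZ : 2 - 2 * y 0 = 2 * u := by rw [hu]; ring
        have e0 : ∫ v in Ioi (0 : ℝ), ‖Function.uncurry F (y, v)‖ =
            u * ∫ v in Ioi (0 : ℝ), |ww s A L v| * v * Real.exp (-v * (2 - 2 * y 0)) := by
          rw [← integral_const_mul]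
          refine setIntegral_congr_fun measurableSet_Ioi fun v hv => ?_
          exact hnormF y hy v hv
        have e1 : 0 ≤ ∫ v in Ioi (0 : ℝ), ‖Function.uncurry F (y, v)‖ :=
          integral_nonneg fun v => norm_nonneg _
        rw [Real.norm_eq_abs, abs_of_nonneg e1, e0, hZ]
        have e2 := H2 (2 * u) (by linarith)
        have hZp : 0 < 2 * u := by linarith
        have e3 : u * (2 * u) ^ (-s / 2 - 1) ≤ 1 + (u⁻¹) ^ m := by
          have k1 : u * (2 * u) ^ (-s / 2 - 1) = (2 * u) ^ (-s / 2) / 2 := by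
            rw [Real.rpow_sub_one hZp.ne']
            field_simp
          have k2 : (2 * u) ^ (-s / 2) ≤ 1 + (u⁻¹) ^ m := by
            rcases le_total 1 (2 * u) with h | h
            · have : (2 * u) ^ (-s / 2) ≤ 1 := Real.rpow_le_one_of_one_le_of_nonpos h (by linarith)
              have h2 : 0 ≤ (u⁻¹) ^ m := by positivity
              linarith
            · have h1 : (2 * u) ^ (-s / 2) ≤ (2 * u) ^ (-(m : ℝ)) :=
                Real.rpow_le_rpow_of_exponent_ge hZp h (by linarith)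
              have h2 : (2 * u) ^ (-(m : ℝ)) = ((2 * u)⁻¹) ^ m := by
                rw [Real.rpow_neg hZp.le, Real.rpow_natCast, inv_pow]
              have h3 : ((2 * u)⁻¹) ^ m ≤ (u⁻¹) ^ m := by
                refine pow_le_pow_left₀ (by positivity) ?_ _
                exact inv_anti₀ hu0 (by linarith)
              linarith
          have k3 : 0 ≤ (2 * u) ^ (-s / 2) := Real.rpow_nonneg hZp.le _
          rw [k1]
          linarith
        have e4 : 1 + |Real.log (2 * u)| ≤ 5 + u⁻¹ := by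
          have k1 := Real.log_le_sub_one_of_pos hZp
          have k2 := Real.log_le_sub_one_of_pos (inv_pos.2 hZp)
          rw [Real.log_inv] at k2
          have k3 : (2 * u)⁻¹ ≤ u⁻¹ := inv_anti₀ hu0 (by linarith)
          have k4 : |Real.log (2 * u)| ≤ 4 + u⁻¹ := by
            rw [abs_le]
            have : 0 < u⁻¹ := inv_pos.2 hu0
            constructor <;> linarith
          linarith
        have hp1 : 0 ≤ u * (2 * u) ^ (-s / 2 - 1) := mul_nonneg hu0.le (Real.rpow_nonneg hZp.le _)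
        calc u * ∫ v in Ioi (0 : ℝ), |ww s A L v| * v * Real.exp (-v * (2 * u)) ≤
              u * (C' * ((2 * u) ^ (-s / 2 - 1) * (1 + |Real.log (2 * u)|))) :=
              mul_le_mul_of_nonneg_left e2 hu0.le
          _ = C' * ((u * (2 * u) ^ (-s / 2 - 1)) * (1 + |Real.log (2 * u)|)) := by ring
          _ ≤ C' * ((1 + (u⁻¹) ^ m) * (5 + u⁻¹)) := by
              refine mul_le_mul_of_nonneg_left ?_ hC'.le
              exact mul_le_mul e3 e4 (by positivity) (by positivity)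
          _ = C' * (5 + (u⁻¹) ^ 1 + 5 * (u⁻¹) ^ m + (u⁻¹) ^ (m + 1)) := by
              rw [pow_succ (u⁻¹) m]
              ring
  have hsw := integral_integral_swap hint
  have h1 : ∫ y, (∫ v in Ioi (0 : ℝ), F y v) ∂σ = 0 := by
    have h2 : ∫ y, (∫ v in Ioi (0 : ℝ), F y v) ∂σ =
        ∫ y, -((1 - y 0) * kc1 s (eS σ s) (lS σ s) (2 - 2 * y 0)) ∂σ := by
      refine integral_congr_ae ?_
      filter_upwards [sph_lt hnn hσ] with y hy
      simp only [hF]
      rw [integral_const_mul, (H1 (2 - 2 * y 0) (by linarith)).2]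
      ring
    rw [h2, integral_neg, hst, neg_zero]
  have h3 : ∫ v in Ioi (0 : ℝ), ∫ y, F y v ∂σ = ∫ v in Ioi (0 : ℝ), ww s A L v * bS σ v := by
    refine setIntegral_congr_fun measurableSet_Ioi fun v _ => ?_
    simp only [hF, bS]
    rw [← mul_assoc, ← integral_const_mul]
    refine integral_congr_ae (Eventually.of_forall fun y => ?_)
    simp only
    have : -v * (2 - 2 * y 0) = -2 * v * (1 - y 0) := by ring
    rw [this]
    ring
  rw [← h3, ← hsw, h1]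

end Pool.Agent.Lib.MP_6cd19d_an.SH
end

section

/-!
# The perturbation theorem

`Thin δ μ`, `δ ≤ δ0`, `kc` integrable for `μ × μ`, diagonal null.  `A, L` from `laplace_kc` with `e = eS σ s`, `l = lS σ s`.

`gz_split`: `gz μ v = h0 + h1 + h2` (`exp(-v|x-y|^2) = gE v x y exp(2v⟨x,y⟩)`).

`q_split`: `qS μ = S0 + ∫ ww (h1 + h2)`, `S0` the integral of `rad_energy`: for `Z = |x-y|^2 > 0`,
`kc(Z) = 1/s^2 + ∫ ww exp(-vZ)`, and `∫ kc(|x|^2+|z|^2-2|x||z| y_0) dσ = 1/s^2 + ∫ ww gE zS(2v|x||z|) dv` (Fubini; absolutely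
convergent by the bound in `laplace_kc`, `neg_mom` and `|x|^2+|z|^2-2|x||z|t ≥ (1-t)` as in `S11`); integrate over `μ × μ`
(Fubini; absolutely convergent by `kc_growth`: `Z^(-s/2)(1+|log Z|) ≤ C (kc(Z) + C)`, `Z ≤ 10`).  So
`qS - S0 = ∫ ww (gz - h0)`.  Both `ww h1` and `ww h2` are integrable on `(0,∞)`: `0 ≤ h1, h2 ≤ gz`, and `∫ |ww| gz < ∞`.

`S1 = ∫ ww h1 ≥ -C δ vE`: on `(exp L, ∞)` `ww ≥ 0`, `h1 ≥ 0`; on `(0, exp L)`: `h1_bound`, `∫_0^{exp L} |ww| v dv ≤ C` (uniform in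
`0 < s ≤ M`, `|L| ≤ C`, `A ≤ C`).
`S2 = ∫ ww h2 ≥ -C (δ + 1/(n+1)) vE`: `cheb` with `h = h2`, `B = bS`, `b = exp(-2Λ)/2`, `r = 2 C (δ+1/(n+1)) vE μ`
(`h2_diff`, `he_bound`, `base_fun`, `base_zero`).
Sum: `qS ≥ (1/32 - C δ - C/(n+1)) vE μ ≥ 0` for `δ` small, `n` large.
-/

set_option autoImplicit false

open MeasureTheory Set Filter Topology
open scoped ENNReal NNReal

namespace Pool.Agent.Lib.MP_6cd19d_an.SH

open Pool.Agent.Lib.MP_6cd19d_an.ND Pool.Agent.Lib.MP_6cd19d_an.HP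

variable {n : ℕ}

section aux

private theorem S12_meas_ww (s A L : ℝ) : Measurable (ww s A L) := by
  unfold ww
  fun_prop

private theorem S12_fub {Ω : Type*} [MeasurableSpace Ω] {P : Measure Ω} [IsFiniteMeasure P]
    {Z : Ω → ℝ} (hZ : Measurable Z) (hZ0 : ∀ᵐ ω ∂P, 0 < Z ω) {s A L : ℝ}
    (hint : ∀ z : ℝ, 0 < z → IntegrableOn (fun v => ww s A L v * Real.exp (-v * z)) (Ioi 0))
    {G : Ω → ℝ} (hG : Integrable G P)
    (hb : ∀ᵐ ω ∂P, ∫ v in Ioi (0 : ℝ), |ww s A L v| * Real.exp (-v * Z ω) ≤ G ω) :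
    Integrable (fun p : Ω × ℝ => ww s A L p.2 * Real.exp (-p.2 * Z p.1))
      (P.prod (volume.restrict (Ioi 0))) := by
  have hm : Measurable (fun p : Ω × ℝ => ww s A L p.2 * Real.exp (-p.2 * Z p.1)) := by
    have h1 : Measurable (fun p : Ω × ℝ => ww s A L p.2) := (S12_meas_ww s A L).comp measurable_snd
    have h2 : Measurable (fun p : Ω × ℝ => Z p.1) := hZ.comp measurable_fst
    exact h1.mul (Real.measurable_exp.comp (measurable_snd.neg.mul h2))
  rw [integrable_prod_iff hm.aestronglyMeasurable]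
  constructor
  · filter_upwards [hZ0] with ω hω
    exact hint _ hω
  · refine hG.mono' ?_ ?_
    · exact (hm.norm.aestronglyMeasurable).integral_prod_right'
    · filter_upwards [hb] with ω hω
      rw [Real.norm_eq_abs, abs_of_nonneg (integral_nonneg fun v => norm_nonneg _)]
      refine le_trans (le_of_eq ?_) hω
      refine integral_congr_ae (Eventually.of_forall fun v => ?_)
      simp only
      rw [Real.norm_eq_abs, abs_mul, abs_of_pos (Real.exp_pos _)]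

private theorem S12_rep {Ω : Type*} [MeasurableSpace Ω] {P : Measure Ω} [IsProbabilityMeasure P]
    {Z : Ω → ℝ} (hZ : Measurable Z) (hZ0 : ∀ᵐ ω ∂P, 0 < Z ω) {s e l A L : ℝ}
    (hint : ∀ z : ℝ, 0 < z → IntegrableOn (fun v => ww s A L v * Real.exp (-v * z)) (Ioi 0) ∧
        1 / s ^ 2 + ∫ v in Ioi (0 : ℝ), ww s A L v * Real.exp (-v * z) = kc s e l z)
    {G : Ω → ℝ} (hG : Integrable G P)
    (hb : ∀ᵐ ω ∂P, ∫ v in Ioi (0 : ℝ), |ww s A L v| * Real.exp (-v * Z ω) ≤ G ω) :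
    Integrable (fun ω => kc s e l (Z ω)) P ∧
      IntegrableOn (fun v => ww s A L v * ∫ ω, Real.exp (-v * Z ω) ∂P) (Ioi 0) ∧
      ∫ ω, kc s e l (Z ω) ∂P = 1 / s ^ 2 + ∫ v in Ioi (0 : ℝ), ww s A L v * ∫ ω, Real.exp (-v * Z ω) ∂P := by
  have hf := S12_fub hZ hZ0 (fun z hz => (hint z hz).1) hG hb
  have h1 : (fun ω => 1 / s ^ 2 + ∫ v in Ioi (0 : ℝ), ww s A L v * Real.exp (-v * Z ω)) =ᵐ[P]
      fun ω => kc s e l (Z ω) := by
    filter_upwards [hZ0] with ω hω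
    exact (hint _ hω).2
  have h2 : Integrable (fun ω => ∫ v in Ioi (0 : ℝ), ww s A L v * Real.exp (-v * Z ω)) P :=
    hf.integral_prod_left
  have h3 : Integrable (fun ω => 1 / s ^ 2 + ∫ v in Ioi (0 : ℝ), ww s A L v * Real.exp (-v * Z ω)) P :=
    (integrable_const _).add h2
  refine ⟨h3.congr h1, ?_, ?_⟩
  · have h4 := hf.integral_prod_right
    refine h4.congr (Eventually.of_forall fun v => ?_)
    simp only
    rw [integral_const_mul]
  · rw [← integral_congr_ae h1, integral_add (integrable_const _) h2]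
    simp only [integral_const, probReal_univ, smul_eq_mul, one_mul]
    congr 1
    have h5 := integral_integral_swap (μ := P) (ν := volume.restrict (Ioi (0:ℝ)))
      (f := fun ω v => ww s A L v * Real.exp (-v * Z ω)) hf
    rw [h5]
    refine integral_congr_ae (Eventually.of_forall fun v => ?_)
    simp only
    rw [integral_const_mul]

/-- numerical bound for the radial part -/
private theorem S12_num {M : ℝ} {k0 : ℕ} (hk0 : M / 2 ≤ k0) {s t Z : ℝ} (hs : 0 < s) (hsM : s ≤ M)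
    (ht : 0 < t) (ht2 : t ≤ 2) (hZt : t ≤ Z) (hZ : Z ≤ 10) :
    Z ^ (-s / 2) * (1 + |Real.log Z|) ≤ ((2 : ℝ) ^ k0 + 1) * 23 * (t⁻¹) ^ (k0 + 1) := by
  have hZ0 : 0 < Z := ht.trans_le hZt
  set a := t⁻¹ with ha
  have ha1 : 1 / 2 ≤ a := by
    rw [ha, one_div]
    exact inv_anti₀ ht ht2
  have ha0 : 0 < a := by linarith
  have hZa : Z⁻¹ ≤ a := inv_anti₀ ht hZt
  have h1 : Z ^ (-s / 2) ≤ 1 + a ^ k0 := by
    rcases le_or_gt 1 Z with h | h
    · have : Z ^ (-s / 2) ≤ 1 := Real.rpow_le_one_of_one_le_of_nonpos h (by linarith)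
      have : 0 ≤ a ^ k0 := by positivity
      linarith
    · have h2 : Z ^ (-s / 2) = (Z⁻¹) ^ (s / 2) := by
        rw [Real.inv_rpow hZ0.le, ← Real.rpow_neg hZ0.le]
        congr 1
        ring
      have h3 : (Z⁻¹) ^ (s / 2) ≤ (Z⁻¹) ^ (k0 : ℝ) := by
        apply Real.rpow_le_rpow_of_exponent_le
        · exact (one_le_inv₀ hZ0).2 h.le
        · linarith
      rw [Real.rpow_natCast] at h3
      have h4 : (Z⁻¹) ^ k0 ≤ a ^ k0 := pow_le_pow_left₀ (inv_pos.2 hZ0).le hZa _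
      rw [h2]
      linarith
  have h2 : 1 + |Real.log Z| ≤ 11 + a := by
    have h3 : |Real.log Z| ≤ Z + Z⁻¹ := by
      rw [abs_le]
      constructor
      · have := Real.log_le_self (inv_pos.2 hZ0).le
        rw [Real.log_inv] at this
        linarith
      · have := Real.log_le_self hZ0.le
        have := inv_pos.2 hZ0
        linarith
    linarith
  have h3 : 1 + a ^ k0 ≤ ((2 : ℝ) ^ k0 + 1) * a ^ k0 := by
    have h4 : 1 ≤ (2 * a) ^ k0 := one_le_pow₀ (by linarith)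
    rw [mul_pow] at h4
    linarith
  have h4 : 11 + a ≤ 23 * a := by linarith
  have h5 : 0 < Z ^ (-s / 2) := Real.rpow_pos_of_pos hZ0 _
  calc Z ^ (-s / 2) * (1 + |Real.log Z|) ≤ (((2 : ℝ) ^ k0 + 1) * a ^ k0) * (23 * a) :=
        mul_le_mul (h1.trans h3) (h2.trans h4) (by positivity) (by positivity)
    _ = ((2 : ℝ) ^ k0 + 1) * 23 * a ^ (k0 + 1) := by ring

/-- the integrands of `gz`, `h0`, `h1`, `h2` are integrable for the product measure -/
private theorem S12_ints (hn : 1 ≤ n) {σ : Measure (E (n + 1))} (hσ : SphM σ)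
    {μ : Measure (E (n + 1))} [IsProbabilityMeasure μ] {R : ℝ} (hμ : ∀ᵐ x ∂μ, x ≠ 0 ∧ ‖x‖ ≤ R)
    {v : ℝ} (hv : 0 ≤ v) :
    Integrable (fun p : E (n + 1) × E (n + 1) => Real.exp (-v * ‖p.1 - p.2‖ ^ 2)) (μ.prod μ) ∧
    Integrable (fun p : E (n + 1) × E (n + 1) => gE v p.1 p.2 * zS σ (2 * v * (‖p.1‖ * ‖p.2‖)))
      (μ.prod μ) ∧
    Integrable (fun p : E (n + 1) × E (n + 1) => gE v p.1 p.2 *
      (((n : ℝ) + 1) * z1S σ (2 * v * (‖p.1‖ * ‖p.2‖)) * (inner ℝ p.1 p.2 / (‖p.1‖ * ‖p.2‖))))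
      (μ.prod μ) ∧
    Integrable (fun p : E (n + 1) × E (n + 1) => gE v p.1 p.2 * Ps σ v p.1 p.2) (μ.prod μ) ∧
    ∀ p : E (n + 1) × E (n + 1), Real.exp (-v * ‖p.1 - p.2‖ ^ 2) =
      gE v p.1 p.2 * zS σ (2 * v * (‖p.1‖ * ‖p.2‖)) + gE v p.1 p.2 *
      (((n : ℝ) + 1) * z1S σ (2 * v * (‖p.1‖ * ‖p.2‖)) * (inner ℝ p.1 p.2 / (‖p.1‖ * ‖p.2‖))) +
      gE v p.1 p.2 * Ps σ v p.1 p.2 := by
  have hbes := bes_sphere hn hσ
  have hzc : Continuous (zS σ) := continuous_iff_continuousAt.2 fun κ => (hbes.d1 κ).continuousAt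
  have hz1c : Continuous (z1S σ) := continuous_iff_continuousAt.2 fun κ => (hbes.d2 κ).continuousAt
  have hae : ∀ᵐ p ∂(μ.prod μ), ‖p.1‖ ≤ R ∧ ‖p.2‖ ≤ R := by
    have h1 : ∀ᵐ p ∂(μ.prod μ), ‖p.1‖ ≤ R := by
      have := Measure.quasiMeasurePreserving_fst (μ := μ) (ν := μ) |>.ae hμ
      filter_upwards [this] with p hp
      exact hp.2
    have h2 : ∀ᵐ p ∂(μ.prod μ), ‖p.2‖ ≤ R := by
      have := Measure.quasiMeasurePreserving_snd (μ := μ) (ν := μ) |>.ae hμ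
      filter_upwards [this] with p hp
      exact hp.2
    filter_upwards [h1, h2] with p hp1 hp2
    exact ⟨hp1, hp2⟩
  have hgE : ∀ x y : E (n + 1), 0 < gE v x y ∧ gE v x y ≤ 1 := by
    intro x y
    unfold gE
    refine ⟨Real.exp_pos _, Real.exp_le_one_iff.2 ?_⟩
    have : 0 ≤ v * (‖x‖ ^ 2 + ‖y‖ ^ 2) := by positivity
    linarith
  have hgEc : Continuous (fun p : E (n + 1) × E (n + 1) => gE v p.1 p.2) := by
    unfold gE
    fun_prop
  have hinc : Continuous (fun p : E (n + 1) × E (n + 1) => inner ℝ p.1 p.2) :=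
    continuous_fst.inner continuous_snd
  obtain ⟨K, hK⟩ := (isCompact_Icc (a := (0:ℝ)) (b := 2 * v * (R * R))).exists_bound_of_continuousOn
    hzc.continuousOn
  obtain ⟨K1, hK1⟩ := (isCompact_Icc (a := (0:ℝ)) (b := 2 * v * (R * R))).exists_bound_of_continuousOn
    hz1c.continuousOn
  have harg : ∀ x y : E (n + 1), ‖x‖ ≤ R → ‖y‖ ≤ R →
      2 * v * (‖x‖ * ‖y‖) ∈ Icc (0:ℝ) (2 * v * (R * R)) := by
    intro x y hx hy
    constructor
    · positivity
    · have := mul_le_mul hx hy (norm_nonneg y) ((norm_nonneg x).trans hx)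
      exact mul_le_mul_of_nonneg_left this (by positivity)
  have hid : ∀ p : E (n + 1) × E (n + 1), Real.exp (-v * ‖p.1 - p.2‖ ^ 2) =
      gE v p.1 p.2 * zS σ (2 * v * (‖p.1‖ * ‖p.2‖)) + gE v p.1 p.2 *
      (((n : ℝ) + 1) * z1S σ (2 * v * (‖p.1‖ * ‖p.2‖)) * (inner ℝ p.1 p.2 / (‖p.1‖ * ‖p.2‖))) +
      gE v p.1 p.2 * Ps σ v p.1 p.2 := by
    intro p
    have h1 : Real.exp (-v * ‖p.1 - p.2‖ ^ 2) = gE v p.1 p.2 * Real.exp (2 * v * inner ℝ p.1 p.2) := by
      unfold gE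
      rw [← Real.exp_add, norm_sub_sq_real]
      congr 1
      ring
    rw [h1]
    unfold Ps
    ring
  have i0 : Integrable (fun p : E (n + 1) × E (n + 1) => Real.exp (-v * ‖p.1 - p.2‖ ^ 2))
      (μ.prod μ) := by
    refine Integrable.of_bound (Continuous.aestronglyMeasurable (by fun_prop)) 1 ?_
    refine Eventually.of_forall fun p => ?_
    rw [Real.norm_eq_abs, abs_of_pos (Real.exp_pos _)]
    refine Real.exp_le_one_iff.2 ?_
    have : 0 ≤ v * ‖p.1 - p.2‖ ^ 2 := by positivity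
    linarith
  have i1 : Integrable (fun p : E (n + 1) × E (n + 1) =>
      gE v p.1 p.2 * zS σ (2 * v * (‖p.1‖ * ‖p.2‖))) (μ.prod μ) := by
    refine Integrable.of_bound (hgEc.mul (hzc.comp (by fun_prop))).aestronglyMeasurable K ?_
    filter_upwards [hae] with p hp
    rw [norm_mul]
    have h1 := hK _ (harg p.1 p.2 hp.1 hp.2)
    have h2 := hgE p.1 p.2
    rw [Real.norm_eq_abs (gE v p.1 p.2), abs_of_pos h2.1]
    calc gE v p.1 p.2 * ‖zS σ (2 * v * (‖p.1‖ * ‖p.2‖))‖ ≤ 1 * K :=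
          mul_le_mul h2.2 h1 (norm_nonneg _) zero_le_one
      _ = K := one_mul _
  have i2 : Integrable (fun p : E (n + 1) × E (n + 1) => gE v p.1 p.2 *
      (((n : ℝ) + 1) * z1S σ (2 * v * (‖p.1‖ * ‖p.2‖)) * (inner ℝ p.1 p.2 / (‖p.1‖ * ‖p.2‖))))
      (μ.prod μ) := by
    refine Integrable.of_bound (C := ((n : ℝ) + 1) * K1) ?_ ?_
    · apply AEStronglyMeasurable.mul hgEc.aestronglyMeasurable
      apply AEStronglyMeasurable.mul
      · exact (continuous_const.mul (hz1c.comp (by fun_prop))).aestronglyMeasurable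
      · apply Measurable.aestronglyMeasurable
        apply Measurable.div hinc.measurable
        have : Continuous (fun p : E (n + 1) × E (n + 1) => ‖p.1‖ * ‖p.2‖) := by fun_prop
        exact this.measurable
    · filter_upwards [hae] with p hp
      have h1 := hK1 _ (harg p.1 p.2 hp.1 hp.2)
      have h2 := hgE p.1 p.2
      have h3 : ‖inner ℝ p.1 p.2 / (‖p.1‖ * ‖p.2‖)‖ ≤ 1 :=
        abs_real_inner_div_norm_mul_norm_le_one p.1 p.2
      rw [norm_mul, norm_mul, norm_mul, Real.norm_eq_abs (gE v p.1 p.2), abs_of_pos h2.1,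
        Real.norm_eq_abs ((n : ℝ) + 1), abs_of_pos (by positivity : (0:ℝ) < (n : ℝ) + 1)]
      have h4 : 0 ≤ K1 := (norm_nonneg _).trans h1
      calc gE v p.1 p.2 * (((n : ℝ) + 1) * ‖z1S σ (2 * v * (‖p.1‖ * ‖p.2‖))‖ *
            ‖inner ℝ p.1 p.2 / (‖p.1‖ * ‖p.2‖)‖) ≤ 1 * (((n : ℝ) + 1) * K1 * 1) := by
            apply mul_le_mul h2.2 _ (by positivity) zero_le_one
            apply mul_le_mul _ h3 (norm_nonneg _) (by positivity)
            exact mul_le_mul_of_nonneg_left h1 (by positivity)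
        _ = ((n : ℝ) + 1) * K1 := by ring
  refine ⟨i0, i1, i2, ?_, hid⟩
  refine ((i0.sub i1).sub i2).congr (Eventually.of_forall fun p => ?_)
  simp only [Pi.sub_apply]
  rw [hid p]
  ring

end aux

theorem gz_split (hn : 1 ≤ n) {σ : Measure (E (n + 1))} (hσ : SphM σ) {μ : Measure (E (n + 1))}
    [IsProbabilityMeasure μ] {R : ℝ} (hμ : ∀ᵐ x ∂μ, x ≠ 0 ∧ ‖x‖ ≤ R) {v : ℝ} (hv : 0 ≤ v) :
    gz μ v = h0 σ μ v + h1 σ μ v + h2 σ μ v := by
  obtain ⟨i0, i1, i2, i3, hid⟩ := S12_ints hn hσ hμ hv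
  unfold gz h0 h1 h2
  rw [← integral_prod _ i0, ← integral_prod _ i1, ← integral_prod _ i2, ← integral_prod _ i3]
  have e1 := integral_add i1 i2
  have e2 := integral_add (i1.add i2) i3
  simp only [Pi.add_apply] at e2
  rw [← e1, ← e2]
  exact integral_congr_ae (Eventually.of_forall fun p => hid p)

section aux2

/-- the first coordinate is continuous -/
private theorem S12_c0 : Continuous fun y : E (n + 1) => y 0 :=
  PiLp.continuous_apply 2 (fun _ => ℝ) 0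

private theorem S12_thin {δ : ℝ} {μ : Measure (E (n + 1))} (h : Thin δ μ) :
    ∀ᵐ x ∂μ, 9 / 10 ≤ ‖x‖ ^ 2 ∧ ‖x‖ ^ 2 ≤ 11 / 10 := by
  filter_upwards [h.shell] with x hx
  have := abs_le.1 hx
  have h1 := h.d1
  constructor <;> linarith [this.1, this.2]

private theorem S12_thin' {δ : ℝ} {μ : Measure (E (n + 1))} (h : Thin δ μ) :
    ∀ᵐ x ∂μ, x ≠ 0 ∧ ‖x‖ ≤ 2 := by
  filter_upwards [S12_thin h] with x hx
  constructor
  · rintro rfl
    rw [norm_zero] at hx
    norm_num at hx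
  · nlinarith [norm_nonneg x, hx.2]

private theorem S12_prod {δ : ℝ} {μ : Measure (E (n + 1))} [IsProbabilityMeasure μ] (h : Thin δ μ) :
    ∀ᵐ p ∂(μ.prod μ), (9 / 10 ≤ ‖p.1‖ ^ 2 ∧ ‖p.1‖ ^ 2 ≤ 11 / 10) ∧
      (9 / 10 ≤ ‖p.2‖ ^ 2 ∧ ‖p.2‖ ^ 2 ≤ 11 / 10) := by
  have h1 := Measure.quasiMeasurePreserving_fst (μ := μ) (ν := μ) |>.ae (S12_thin h)
  have h2 := Measure.quasiMeasurePreserving_snd (μ := μ) (ν := μ) |>.ae (S12_thin h)
  filter_upwards [h1, h2] with p hp1 hp2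
  exact ⟨hp1, hp2⟩

private theorem S12_qS (hn : 1 ≤ n) {σ : Measure (E (n + 1))} (hσ : SphM σ) {δ : ℝ}
    {μ : Measure (E (n + 1))} [IsProbabilityMeasure μ] (hT : Thin δ μ)
    (hd : ∀ᵐ z ∂(μ.prod μ), z.1 ≠ z.2) {s e l A L : ℝ} (hs : 0 < s) (he : 0 < e)
    (hi : Integrable (fun z : E (n + 1) × E (n + 1) => kc s e l (‖z.1 - z.2‖ ^ 2)) (μ.prod μ))
    (hint : ∀ z : ℝ, 0 < z → IntegrableOn (fun v => ww s A L v * Real.exp (-v * z)) (Ioi 0) ∧
        1 / s ^ 2 + ∫ v in Ioi (0 : ℝ), ww s A L v * Real.exp (-v * z) = kc s e l z)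
    (hb : ∃ C' : ℝ, 0 < C' ∧ ∀ Z : ℝ, 0 < Z →
        ∫ v in Ioi (0 : ℝ), |ww s A L v| * Real.exp (-v * Z) ≤ C' * (Z ^ (-s / 2) * (1 + |Real.log Z|))) :
    IntegrableOn (fun v => ww s A L v * gz μ v) (Ioi 0) ∧
      qS s e l μ = 1 / s ^ 2 + ∫ v in Ioi (0 : ℝ), ww s A L v * gz μ v := by
  obtain ⟨C', hC', hb⟩ := hb
  obtain ⟨C'', hC'', hg⟩ := kc_growth (l := l) hs he 10
  have hZm : Measurable (fun p : E (n + 1) × E (n + 1) => ‖p.1 - p.2‖ ^ 2) :=
    Continuous.measurable (by fun_prop)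
  have hZ0 : ∀ᵐ p ∂(μ.prod μ), 0 < ‖p.1 - p.2‖ ^ 2 := by
    filter_upwards [hd] with p hp
    have : 0 < ‖p.1 - p.2‖ := norm_pos_iff.2 (sub_ne_zero.2 hp)
    positivity
  have hZ10 : ∀ᵐ p ∂(μ.prod μ), ‖p.1 - p.2‖ ^ 2 ≤ 10 := by
    filter_upwards [S12_prod hT] with p hp
    have h1 := norm_sub_le p.1 p.2
    have h2 := norm_nonneg (p.1 - p.2)
    nlinarith [sq_nonneg (‖p.1‖ - ‖p.2‖), hp.1.2, hp.2.2, norm_nonneg p.1, norm_nonneg p.2]
  obtain ⟨-, r1, r2⟩ := S12_rep (P := μ.prod μ) hZm hZ0 (s := s) (e := e) (l := l) (A := A) (L := L)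
    hint (G := fun p => C' * (C'' * (kc s e l (‖p.1 - p.2‖ ^ 2) + C'')))
    (((hi.add (integrable_const C'')).const_mul C'').const_mul C')
    (by
      filter_upwards [hZ0, hZ10] with p hp0 hp10
      exact (hb _ hp0).trans (mul_le_mul_of_nonneg_left (hg _ hp0 hp10).1 hC'.le))
  have hgz : ∀ v ∈ Ioi (0:ℝ), (∫ p, Real.exp (-v * ‖p.1 - p.2‖ ^ 2) ∂(μ.prod μ)) = gz μ v := by
    intro v hv
    obtain ⟨i0, -⟩ := S12_ints hn hσ (S12_thin' hT) (le_of_lt (mem_Ioi.1 hv))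
    rw [integral_prod _ i0]
    rfl
  constructor
  · refine r1.congr_fun ?_ measurableSet_Ioi
    intro v hv
    simp only
    rw [hgz v hv]
  · have h1 : qS s e l μ = ∫ p, kc s e l (‖p.1 - p.2‖ ^ 2) ∂(μ.prod μ) := by
      rw [integral_prod _ hi]
      rfl
    rw [h1, r2]
    congr 1
    refine setIntegral_congr_fun measurableSet_Ioi ?_
    intro v hv
    simp only
    rw [hgz v hv]

private theorem S12_S0 (hn : 1 ≤ n) {σ : Measure (E (n + 1))} (hσ : SphM σ) {δ : ℝ}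
    {μ : Measure (E (n + 1))} [IsProbabilityMeasure μ] (hT : Thin δ μ)
    {M s e l A L : ℝ} (hs : 0 < s) (hsM : s ≤ M) {k0 : ℕ} (hk0 : M / 2 ≤ k0)
    (hneg : Integrable (fun y => ((1 - y 0)⁻¹) ^ (k0 + 1)) σ)
    (hint : ∀ z : ℝ, 0 < z → IntegrableOn (fun v => ww s A L v * Real.exp (-v * z)) (Ioi 0) ∧
        1 / s ^ 2 + ∫ v in Ioi (0 : ℝ), ww s A L v * Real.exp (-v * z) = kc s e l z)
    (hb : ∃ C' : ℝ, 0 < C' ∧ ∀ Z : ℝ, 0 < Z →
        ∫ v in Ioi (0 : ℝ), |ww s A L v| * Real.exp (-v * Z) ≤ C' * (Z ^ (-s / 2) * (1 + |Real.log Z|))) :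
    IntegrableOn (fun v => ww s A L v * h0 σ μ v) (Ioi 0) ∧
      (∫ x, ∫ z, (∫ y, kc s e l (‖x‖ ^ 2 + ‖z‖ ^ 2 - 2 * (‖x‖ * ‖z‖) * y 0) ∂σ) ∂μ ∂μ) =
        1 / s ^ 2 + ∫ v in Ioi (0 : ℝ), ww s A L v * h0 σ μ v := by
  have : IsProbabilityMeasure σ := ⟨hσ.1⟩
  obtain ⟨C', hC', hb⟩ := hb
  set P := (μ.prod μ).prod σ with hP
  set Z : (E (n + 1) × E (n + 1)) × E (n + 1) → ℝ :=
    fun p => ‖p.1.1‖ ^ 2 + ‖p.1.2‖ ^ 2 - 2 * (‖p.1.1‖ * ‖p.1.2‖) * p.2 0 with hZdef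
  have hc0 := S12_c0 (n := n)
  have hZc : Continuous Z := by
    have h1 : Continuous (fun p : (E (n + 1) × E (n + 1)) × E (n + 1) => p.2 0) :=
      hc0.comp continuous_snd
    simp only [hZdef]
    fun_prop
  have hae : ∀ᵐ p ∂P, 0 < 1 - p.2 0 ∧ 1 - p.2 0 ≤ 2 ∧ 1 - p.2 0 ≤ Z p ∧ Z p ≤ 10 := by
    have a1 := Measure.quasiMeasurePreserving_fst (μ := μ.prod μ) (ν := σ) |>.ae (S12_prod hT)
    have a2 := Measure.quasiMeasurePreserving_snd (μ := μ.prod μ) (ν := σ) |>.ae (sph_lt hn hσ)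
    have a3 := Measure.quasiMeasurePreserving_snd (μ := μ.prod μ) (ν := σ) |>.ae (sph_abs hσ)
    filter_upwards [a1, a2, a3] with p h1 h2 h3
    obtain ⟨⟨h11, h12⟩, h13, h14⟩ := h1
    have h3' := abs_le.1 h3
    have hx : 0 ≤ ‖p.1.1‖ := norm_nonneg _
    have hz : 0 ≤ ‖p.1.2‖ := norm_nonneg _
    have hpr : 9 / 10 ≤ ‖p.1.1‖ * ‖p.1.2‖ := by
      have h5 : (9 / 10 : ℝ) ^ 2 ≤ (‖p.1.1‖ * ‖p.1.2‖) ^ 2 := by
        rw [mul_pow]
        nlinarith
      exact (sq_le_sq₀ (by norm_num) (mul_nonneg hx hz)).1 h5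
    have hpr2 : ‖p.1.1‖ * ‖p.1.2‖ ≤ 11 / 10 := by nlinarith [sq_nonneg (‖p.1.1‖ - ‖p.1.2‖)]
    have ht : 0 < 1 - p.2 0 := by linarith
    refine ⟨ht, by linarith [h3'.1], ?_, ?_⟩
    · have e1 : Z p = (‖p.1.1‖ - ‖p.1.2‖) ^ 2 + 2 * (‖p.1.1‖ * ‖p.1.2‖) * (1 - p.2 0) := by
        simp only [hZdef]
        ring
      rw [e1]
      nlinarith [sq_nonneg (‖p.1.1‖ - ‖p.1.2‖), mul_le_mul_of_nonneg_right hpr ht.le]
    · have e2 : Z p ≤ ‖p.1.1‖ ^ 2 + ‖p.1.2‖ ^ 2 + 2 * (‖p.1.1‖ * ‖p.1.2‖) := by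
        have : -(2 * (‖p.1.1‖ * ‖p.1.2‖) * p.2 0) ≤ 2 * (‖p.1.1‖ * ‖p.1.2‖) := by
          nlinarith [mul_nonneg hx hz, h3'.1]
        simp only [hZdef]
        linarith
      linarith
  have hZ0 : ∀ᵐ p ∂P, 0 < Z p := by
    filter_upwards [hae] with p hp
    linarith [hp.1, hp.2.2.1]
  obtain ⟨r0, r1, r2⟩ := S12_rep (P := P) hZc.measurable hZ0 (s := s) (e := e) (l := l) (A := A)
    (L := L) hint
    (G := fun p => C' * (((2 : ℝ) ^ k0 + 1) * 23 * ((1 - p.2 0)⁻¹) ^ (k0 + 1)))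
    (((hneg.comp_snd (μ.prod μ)).const_mul (((2 : ℝ) ^ k0 + 1) * 23)).const_mul C')
    (by
      filter_upwards [hae] with p hp
      have hpos : 0 < Z p := by linarith [hp.1, hp.2.2.1]
      refine (hb _ hpos).trans (mul_le_mul_of_nonneg_left ?_ hC'.le)
      exact S12_num hk0 hs hsM hp.1 hp.2.1 hp.2.2.1 hp.2.2.2)
  have hh0 : ∀ v ∈ Ioi (0:ℝ), (∫ p, Real.exp (-v * Z p) ∂P) = h0 σ μ v := by
    intro v hv
    have hv0 : 0 ≤ v := le_of_lt (mem_Ioi.1 hv)
    obtain ⟨-, i1, -⟩ := S12_ints hn hσ (S12_thin' hT) hv0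
    have hI : Integrable (fun p => Real.exp (-v * Z p)) P := by
      refine Integrable.of_bound (Continuous.aestronglyMeasurable
        (Real.continuous_exp.comp (continuous_const.mul hZc))) 1 ?_
      filter_upwards [hZ0] with p hp
      rw [Real.norm_eq_abs, abs_of_pos (Real.exp_pos _)]
      refine Real.exp_le_one_iff.2 ?_
      have : 0 ≤ v * Z p := mul_nonneg hv0 hp.le
      linarith
    rw [hP, integral_prod _ hI]
    have e1 : (fun p : E (n + 1) × E (n + 1) => ∫ y, Real.exp (-v * Z (p, y)) ∂σ) =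
        fun p => gE v p.1 p.2 * zS σ (2 * v * (‖p.1‖ * ‖p.2‖)) := by
      funext p
      unfold gE zS
      rw [← integral_const_mul]
      refine integral_congr_ae (Eventually.of_forall fun y => ?_)
      simp only [hZdef]
      rw [← Real.exp_add]
      congr 1
      ring
    rw [e1, integral_prod _ i1]
    rfl
  constructor
  · refine r1.congr_fun ?_ measurableSet_Ioi
    intro v hv
    simp only
    rw [hh0 v hv]
  · have h1 : (∫ x, ∫ z, (∫ y, kc s e l (‖x‖ ^ 2 + ‖z‖ ^ 2 - 2 * (‖x‖ * ‖z‖) * y 0) ∂σ) ∂μ ∂μ) =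
        ∫ p, kc s e l (Z p) ∂P := by
      rw [hP, integral_prod _ r0, integral_prod _ r0.integral_prod_left]
    rw [h1, r2]
    congr 1
    refine setIntegral_congr_fun measurableSet_Ioi ?_
    intro v hv
    simp only
    rw [hh0 v hv]

/-- the four parts for one measure -/
private theorem S12_parts (hn : 1 ≤ n) {σ : Measure (E (n + 1))} (hσ : SphM σ) {δ : ℝ}
    {μ : Measure (E (n + 1))} [IsProbabilityMeasure μ] (hT : Thin δ μ)
    (hd : ∀ᵐ z ∂(μ.prod μ), z.1 ≠ z.2) {M s e l A L : ℝ} (hs : 0 < s) (hsM : s ≤ M) (he : 0 < e)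
    {k0 : ℕ} (hk0 : M / 2 ≤ k0)
    (hneg : Integrable (fun y => ((1 - y 0)⁻¹) ^ (k0 + 1)) σ)
    (hi : Integrable (fun z : E (n + 1) × E (n + 1) => kc s e l (‖z.1 - z.2‖ ^ 2)) (μ.prod μ))
    (hint : ∀ z : ℝ, 0 < z → IntegrableOn (fun v => ww s A L v * Real.exp (-v * z)) (Ioi 0) ∧
        1 / s ^ 2 + ∫ v in Ioi (0 : ℝ), ww s A L v * Real.exp (-v * z) = kc s e l z)
    (hb : ∃ C' : ℝ, 0 < C' ∧ ∀ Z : ℝ, 0 < Z →
        ∫ v in Ioi (0 : ℝ), |ww s A L v| * Real.exp (-v * Z) ≤ C' * (Z ^ (-s / 2) * (1 + |Real.log Z|))) :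
    IntegrableOn (fun v => ww s A L v * h1 σ μ v) (Ioi 0) ∧
    IntegrableOn (fun v => ww s A L v * h2 σ μ v) (Ioi 0) ∧
    qS s e l μ = (∫ x, ∫ z, (∫ y, kc s e l (‖x‖ ^ 2 + ‖z‖ ^ 2 - 2 * (‖x‖ * ‖z‖) * y 0) ∂σ) ∂μ ∂μ) +
      (∫ v in Ioi (0 : ℝ), ww s A L v * h1 σ μ v) + ∫ v in Ioi (0 : ℝ), ww s A L v * h2 σ μ v := by
  have hT' := S12_thin' hT
  obtain ⟨g1, g2⟩ := S12_qS hn hσ hT hd hs he hi hint hb
  obtain ⟨g3, g4⟩ := S12_S0 (e := e) (l := l) hn hσ hT hs hsM hk0 hneg hint hb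
  have hsplit : ∀ v ∈ Ioi (0:ℝ), gz μ v = h0 σ μ v + h1 σ μ v + h2 σ μ v := fun v hv =>
    gz_split hn hσ hT' (le_of_lt (mem_Ioi.1 hv))
  have hn1 : ∀ v ∈ Ioi (0:ℝ), 0 ≤ h1 σ μ v := fun v hv => h1_nonneg hn hσ hT' (le_of_lt (mem_Ioi.1 hv))
  have hn2 : ∀ v ∈ Ioi (0:ℝ), 0 ≤ h2 σ μ v := fun v hv =>
    (h2_nonneg hn hσ hT' (le_of_lt (mem_Ioi.1 hv))).1
  have hbes := bes_sphere hn hσ
  have hn0 : ∀ v ∈ Ioi (0:ℝ), 0 ≤ h0 σ μ v := by
    intro v _
    unfold h0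
    refine integral_nonneg fun x => integral_nonneg fun y => ?_
    exact mul_nonneg (Real.exp_pos _).le (hbes.pos _).le
  have hm2 : AEStronglyMeasurable (fun v => ww s A L v * h2 σ μ v) (volume.restrict (Ioi 0)) := by
    apply AEStronglyMeasurable.mul (S12_meas_ww s A L).aestronglyMeasurable
    apply ContinuousOn.aestronglyMeasurable _ measurableSet_Ioi
    intro v hv
    obtain ⟨h', hh', -⟩ := h2_diff hn hσ hT' (mem_Ioi.1 hv)
    exact hh'.continuousAt.continuousWithinAt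
  have i2 : IntegrableOn (fun v => ww s A L v * h2 σ μ v) (Ioi 0) := by
    refine Integrable.mono g1 hm2 ?_
    refine (ae_restrict_iff' measurableSet_Ioi).2 (Eventually.of_forall fun v hv => ?_)
    rw [norm_mul, norm_mul, Real.norm_eq_abs (h2 σ μ v), Real.norm_eq_abs (gz μ v)]
    refine mul_le_mul_of_nonneg_left ?_ (norm_nonneg _)
    have a0 := hn0 v hv
    have a1 := hn1 v hv
    have a2 := hn2 v hv
    rw [abs_of_nonneg a2, hsplit v hv, abs_of_nonneg (by linarith)]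
    linarith
  have i1 : IntegrableOn (fun v => ww s A L v * h1 σ μ v) (Ioi 0) := by
    refine IntegrableOn.congr_fun ((g1.sub g3).sub i2) ?_ measurableSet_Ioi
    intro v hv
    simp only [Pi.sub_apply]
    rw [hsplit v hv]
    ring
  refine ⟨i1, i2, ?_⟩
  have e1 : ∫ v in Ioi (0 : ℝ), ww s A L v * gz μ v = (∫ v in Ioi (0 : ℝ), ww s A L v * h0 σ μ v) +
      (∫ v in Ioi (0 : ℝ), ww s A L v * h1 σ μ v) + ∫ v in Ioi (0 : ℝ), ww s A L v * h2 σ μ v := by
    have e2 := integral_add g3 i1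
    have e3 := integral_add (g3.add i1) i2
    simp only [Pi.add_apply] at e3
    rw [← e2, ← e3]
    refine setIntegral_congr_fun measurableSet_Ioi ?_
    intro v hv
    simp only
    rw [hsplit v hv]
    ring
  rw [g2, g4, e1]
  ring

end aux2

theorem perturb (M : ℝ) (hM : 1 ≤ M) : ∃ δ0 : ℝ, 0 < δ0 ∧ ∃ n1 : ℕ, ∀ n ≥ n1,
    ∀ σ : Measure (E (n + 1)), SphM σ → ∀ s : ℝ, 0 < s → s ≤ M →
      ∀ (δ : ℝ) (μ : Measure (E (n + 1))), Thin δ μ → δ ≤ δ0 →
        (∀ᵐ z ∂(μ.prod μ), z.1 ≠ z.2) →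
        Integrable (fun z : E (n + 1) × E (n + 1) => kc s (eS σ s) (lS σ s) (‖z.1 - z.2‖ ^ 2)) (μ.prod μ) →
        0 ≤ qS s (eS σ s) (lS σ s) μ := by
  obtain ⟨Cp, hCp, n2, hpar⟩ := par_sphere M hM
  obtain ⟨C5, hC5, hlap⟩ := laplace_kc M hM
  obtain ⟨Λ, C6, hΛ, hC6, n6, hbase⟩ := base_fun M C5 hM hC5
  obtain ⟨n7, hzero⟩ := base_zero M hM
  obtain ⟨C8, hC8, hhe⟩ := he_bound Λ hΛ
  obtain ⟨C9, hC9, hh1⟩ := h1_bound Λ hΛ
  obtain ⟨δr, hδr0, hδr1, n11, hrad⟩ := rad_energy M hM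
  obtain ⟨Ck, hCk, nk, hneg⟩ := neg_mom (⌈M⌉₊ + 1)
  set b := Real.exp (-2 * Λ) / 2 with hb
  have hb0 : 0 < b := by rw [hb]; positivity
  set K1 := C9 * (b⁻¹ * (C6 * C5)) with hK1
  set K2 := 4 / 3 * (2 * C8 / b) * Λ * (C6 * C5) with hK2
  have hK1p : 0 < K1 := by rw [hK1]; positivity
  have hK2p : 0 < K2 := by rw [hK2]; positivity
  set K := K1 + K2 + 1 with hK
  have hKp : 0 < K := by rw [hK]; positivity
  refine ⟨min δr (1 / (128 * K)), lt_min hδr0 (by positivity),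
    1 + n2 + n6 + n7 + n11 + nk + ⌈128 * K⌉₊, ?_⟩
  intro n hn σ hσ s hs hsM δ μ hT hδ hd hi
  have hn1 : 1 ≤ n := by omega
  have hPar := hpar n (by omega) σ hσ s hs hsM
  have hepos := par_e hPar
  obtain ⟨A, L, hA, hAC, hLC, hl1, hl2, hl3, hl4⟩ := hlap _ _ _ _ hPar
  have : IsProbabilityMeasure μ := ⟨hT.prob⟩
  have hT' := S12_thin' hT
  obtain ⟨i1, i2, hq⟩ := S12_parts hn1 hσ hT hd hs hsM hepos (k0 := ⌈M⌉₊)
    (by have := Nat.le_ceil M; linarith) (hneg n (by omega) σ hσ).1 hi hl1 hl3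
  obtain ⟨b1, b2, b3, b4, b5, b6⟩ := hbase n (by omega) σ hσ s A L hs hsM hA hLC
  have hS0 := hrad n (by omega) σ hσ s hs hsM δ μ hT (hδ.trans (min_le_left _ _))
  have hvE : 0 ≤ vE μ := by
    unfold vE
    exact integral_nonneg fun x => sq_nonneg _
  have hnr : (0:ℝ) < (n : ℝ) + 1 := by positivity
  have hδ0 := hT.d0
  have hexpL : 0 < Real.exp L := Real.exp_pos L
  have hLΛ : Real.exp L ≤ Λ := by linarith
  -- integrability of `|ww| bS` on `(0, Λ]`
  have iB : IntegrableOn (fun v => |ww s A L v| * bS σ v) (Ioc 0 Λ) := by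
    have h1 : IntegrableOn (fun v => |ww s A L v * bS σ v|) (Ioc 0 Λ) :=
      (b4.mono_set Ioc_subset_Ioi_self).abs
    refine h1.congr_fun ?_ measurableSet_Ioc
    intro v hv
    simp only
    rw [abs_mul, abs_of_pos (b3 v hv.1)]
  have hB0 : 0 ≤ ∫ v in Ioc 0 Λ, |ww s A L v| * bS σ v :=
    setIntegral_nonneg measurableSet_Ioc fun v hv => mul_nonneg (abs_nonneg _) (b3 v hv.1).le
  have hB1 : (∫ v in Ioc 0 Λ, |ww s A L v| * bS σ v) ≤ C6 * C5 :=
    b6.trans (mul_le_mul_of_nonneg_left hAC hC6.le)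
  -- the part of degree one
  have hS1 : -(K1 * δ * vE μ) ≤ ∫ v in Ioi (0 : ℝ), ww s A L v * h1 σ μ v := by
    have hle : ∀ v ∈ Ioi (0:ℝ), (Ioc 0 Λ).indicator
        (fun v => -(C9 * b⁻¹ * δ * vE μ * (|ww s A L v| * bS σ v))) v ≤ ww s A L v * h1 σ μ v := by
      intro v hv
      have hv0 : 0 < v := hv
      have hh10 := h1_nonneg hn1 hσ hT' hv0.le
      by_cases hvΛ : v ≤ Λ
      · rw [indicator_of_mem (show v ∈ Ioc 0 Λ from ⟨hv0, hvΛ⟩)]
        have c1 := hh1 n hn1 σ hσ δ μ hT v hv0.le hvΛ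
        obtain ⟨b', -, -, c2⟩ := b2 v hv0 hvΛ
        have c3 : v ≤ b⁻¹ * bS σ v := by
          rw [inv_mul_eq_div, le_div_iff₀ hb0]
          linarith
        have c4 : h1 σ μ v ≤ C9 * b⁻¹ * δ * vE μ * bS σ v := by
          refine c1.trans ?_
          have : C9 * δ * vE μ * v ≤ C9 * δ * vE μ * (b⁻¹ * bS σ v) :=
            mul_le_mul_of_nonneg_left c3 (by positivity)
          linarith
        have c5 : -(|ww s A L v| * h1 σ μ v) ≤ ww s A L v * h1 σ μ v := by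
          have := mul_le_mul_of_nonneg_right (neg_abs_le (ww s A L v)) hh10
          linarith
        have c6 : |ww s A L v| * h1 σ μ v ≤ |ww s A L v| * (C9 * b⁻¹ * δ * vE μ * bS σ v) :=
          mul_le_mul_of_nonneg_left c4 (abs_nonneg _)
        linarith
      · rw [indicator_of_notMem (fun h => hvΛ h.2)]
        apply mul_nonneg _ hh10
        unfold ww
        apply mul_nonneg
        · exact mul_nonneg hA.le (Real.rpow_nonneg hv0.le _)
        · have : L ≤ Real.log v := by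
            rw [Real.le_log_iff_exp_le hv0]
            linarith
          linarith
    have hint1 : IntegrableOn (fun v => -(C9 * b⁻¹ * δ * vE μ * (|ww s A L v| * bS σ v))) (Ioc 0 Λ) :=
      (iB.const_mul _).neg
    have hint2 : IntegrableOn ((Ioc 0 Λ).indicator
        (fun v => -(C9 * b⁻¹ * δ * vE μ * (|ww s A L v| * bS σ v)))) (Ioi 0) := by
      rw [integrableOn_indicator_iff measurableSet_Ioc]
      exact hint1.mono_set inter_subset_left
    have h3 := setIntegral_mono_on hint2 i1 measurableSet_Ioi hle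
    rw [setIntegral_indicator measurableSet_Ioc, inter_eq_right.2 Ioc_subset_Ioi_self,
      integral_neg, integral_const_mul] at h3
    refine le_trans ?_ h3
    rw [neg_le_neg_iff, hK1]
    have : C9 * b⁻¹ * δ * vE μ * (∫ v in Ioc 0 Λ, |ww s A L v| * bS σ v) ≤
        C9 * b⁻¹ * δ * vE μ * (C6 * C5) := mul_le_mul_of_nonneg_left hB1 (by positivity)
    linarith
  -- the part of degree at least two
  set r := 2 * (C8 * (δ + 1 / ((n : ℝ) + 1)) * vE μ) with hr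
  have hr0 : 0 ≤ r := by rw [hr]; positivity
  have hS2 : -(K2 * (δ + 1 / ((n : ℝ) + 1)) * vE μ) ≤ ∫ v in Ioi (0 : ℝ), ww s A L v * h2 σ μ v := by
    have h3 := cheb (s := s) hA b1 hb0 hr0 (h := h2 σ μ) (B := bS σ)
      (fun v hv => (h2_nonneg hn1 hσ hT' hv.le).1) b3
      (by
        intro v hv hvΛ
        obtain ⟨h', c1, c2⟩ := h2_diff hn1 hσ hT' hv
        refine ⟨h', c1, ?_⟩
        have c3 := hhe n hn1 σ hσ δ μ hT v hv.le hvΛ
        have c4 : 2 * v ^ 2 * he σ μ v ≤ r * v ^ 2 := by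
          have := mul_le_mul_of_nonneg_left c3 (show 0 ≤ 2 * v ^ 2 by positivity)
          rw [hr]
          linarith
        linarith)
      (by
        intro v hv hvΛ
        obtain ⟨b', c1, c2, c3⟩ := b2 v hv hvΛ
        exact ⟨b', c1, c2, c3⟩)
      i2 b4 (hzero n (by omega) σ hσ s A L hs hsM hA hl2 hl4) b5
    refine le_trans ?_ h3
    rw [neg_le_neg_iff]
    have : 4 / 3 * (r / b) * Λ * (∫ v in Ioc 0 Λ, |ww s A L v| * bS σ v) ≤
        4 / 3 * (r / b) * Λ * (C6 * C5) := mul_le_mul_of_nonneg_left hB1 (by positivity)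
    refine this.trans (le_of_eq ?_)
    rw [hK2, hr]
    ring
  -- sum
  have hδK : K * δ ≤ 1 / 128 := by
    have h1 := hδ.trans (min_le_right _ _)
    rw [le_div_iff₀ (by positivity)] at h1
    linarith
  have hnK : K * (1 / ((n : ℝ) + 1)) ≤ 1 / 128 := by
    have h1 : 128 * K ≤ (n : ℝ) + 1 := by
      have h2 := Nat.le_ceil (128 * K)
      have h3 : ((⌈128 * K⌉₊ : ℕ) : ℝ) ≤ (n : ℝ) := by
        exact_mod_cast (by omega : ⌈128 * K⌉₊ ≤ n)
      linarith
    rw [mul_one_div, div_le_iff₀ hnr]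
    linarith
  rw [hq]
  have hfin : K1 * δ * vE μ + K2 * (δ + 1 / ((n : ℝ) + 1)) * vE μ ≤ (1 / 32) * vE μ := by
    rw [← add_mul]
    apply mul_le_mul_of_nonneg_right _ hvE
    have h1 : 0 ≤ 1 / ((n : ℝ) + 1) := by positivity
    have h2 : K1 * δ + K2 * (δ + 1 / ((n : ℝ) + 1)) ≤ K * δ + K * (1 / ((n : ℝ) + 1)) := by
      rw [hK]
      nlinarith [mul_nonneg hK1p.le h1]
    linarith
  linarith

end Pool.Agent.Lib.MP_6cd19d_an.SH
end
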