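import Pool.Agent.Lib.MP_6cd19d_an.SH.Defs
import Pool.Agent.Lib.MP_6cd19d_an.ND.B04
import Pool.Agent.Lib.MP_6cd19d_an.SH.S12
import Pool.Agent.Lib.MP_6cd19d_an.HP.F2

section

/-!
# The rough structure of a minimiser

Let `m < 0` be the value of the potential, `κ(Z) ≥ c min((Z-2)^2,1) - θ` for `Z > 0`.  For almost every `x` (`y ≠ x` almost
surely): `∫ min((|x-y|^2-2)^2, 1) dμ(y) ≤ θ/c =: ω` (small).  (R1) So `μ{y : ||x-y|^2-2| > 1} ≤ ω < 1/2` (Markov), and for almost all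
`x, x'` there is `y` with `|x-y|^2, |x'-y|^2 ≤ 3`, so `|x-x'| ≤ 2 sqrt 3 < 4`.  In particular the measure has a mean `a`.
(R2) `∫ ||x-y|^2 - 2| dμ(y) ≤ ω^(1/2) + 14 ω ≤ 15 ω^(1/2)`, and `∫ |x-y|^2 dμ(y) = |x-a|^2 + V`, `V = ∫ |y-a|^2 dμ`.
(R3) `||x-a|^2 + V - 2| ≤ 15 ω^(1/2)`, integrate: `|2V-2| ≤ 15 ω^(1/2)`, so `||x-a|^2 - 1| ≤ 23 ω^(1/2)`.
(R4) `2⟨x-a,y-a⟩ = ε(x) + ε(y) + 2 - |x-y|^2`, `ε(x) = |x-a|^2-1`; `∬ (|x-y|^2-2)^2 ≤ 196 ω`; so
`∬ ⟨x-a,y-a⟩^2 ≤ (3/4)(2 * 23^2 + 196) ω ≤ 1000 ω`.  So with `δ = 100 ω^(1/2)` the translated measure is `Thin δ`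
(if `δ ≤ 1/10`).
-/

set_option autoImplicit false

open MeasureTheory Set Filter Topology
open scoped ENNReal NNReal

namespace Pool.Agent.Lib.MP_6cd19d_an.SH

open Pool.Agent.Lib.MP_6cd19d_an.ND Pool.Agent.Lib.MP_6cd19d_an.HP

variable {n : ℕ}

private theorem s14_int {F : Type*} [NormedAddCommGroup F] {K : Set (E (n + 1))} (hK : IsCompact K)
    {μ : Measure (E (n + 1))} [IsProbabilityMeasure μ] (hk : ∀ᵐ x ∂μ, x ∈ K) {f : E (n + 1) → F}
    (hf : Continuous f) : Integrable f μ := by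
  obtain ⟨C, hC⟩ := hK.exists_bound_of_continuousOn hf.continuousOn
  refine Integrable.of_bound hf.aestronglyMeasurable C ?_
  filter_upwards [hk] with x hx
  exact hC x hx

/-- Jensen for the square. -/
private theorem s14_sq {μ : Measure (E (n + 1))} [IsProbabilityMeasure μ] {f : E (n + 1) → ℝ}
    (h1 : Integrable f μ) (h2 : Integrable (fun x => f x ^ 2) μ) :
    (∫ x, f x ∂μ) ^ 2 ≤ ∫ x, f x ^ 2 ∂μ := by
  set m := ∫ x, f x ∂μ with hm
  have h3 : 0 ≤ ∫ x, (f x - m) ^ 2 ∂μ := integral_nonneg fun x => sq_nonneg _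
  have h4 : ∫ x, (f x - m) ^ 2 ∂μ = (∫ x, f x ^ 2 ∂μ) - m ^ 2 := by
    have e1 : (fun x => (f x - m) ^ 2) = fun x => (f x ^ 2 - (2 * m) * f x) + m ^ 2 := by
      funext x; ring
    rw [e1, integral_add (f := fun x => f x ^ 2 - (2 * m) * f x) (g := fun _ => m ^ 2)
      (h2.sub (h1.const_mul _)) (integrable_const _),
      integral_sub (f := fun x => f x ^ 2) (g := fun x => (2 * m) * f x) h2 (h1.const_mul _),
      integral_const_mul, ← hm, integral_const, probReal_univ, one_smul]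
    ring
  linarith

theorem rough {K : Set (E (n + 1))} (hK : IsCompact K) {κ : ℝ → ℝ} {c θ : ℝ} (hc : 0 < c) (hθ : 0 < θ)
    (hlow : ∀ Z, 0 < Z → c * min ((Z - 2) ^ 2) 1 - θ ≤ κ Z) {μ : Measure (E (n + 1))} (hμ : PK K μ)
    (hd : ∀ᵐ z ∂(μ.prod μ), z.1 ≠ z.2)
    (hi : Integrable (fun z : E (n + 1) × E (n + 1) => κ (‖z.1 - z.2‖ ^ 2)) (μ.prod μ))
    (hneg : ∀ᵐ x ∂μ, ∫ y, κ (‖x - y‖ ^ 2) ∂μ < 0) (hsmall : 100 * Real.sqrt (θ / c) ≤ 1 / 10) :
    ∃ a : E (n + 1), Thin (100 * Real.sqrt (θ / c)) (μ.map (fun x => x - a)) := by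
  have hp : IsProbabilityMeasure μ := ⟨hμ.1⟩
  have hk : ∀ᵐ x ∂μ, x ∈ K := by
    rw [ae_iff]
    exact hμ.2
  have hωpos : 0 < θ / c := div_pos hθ hc
  set ω := θ / c with hω
  have hs0 : 0 < Real.sqrt ω := Real.sqrt_pos.2 hωpos
  have hs2 : Real.sqrt ω ^ 2 = ω := Real.sq_sqrt hωpos.le
  set s := Real.sqrt ω with hs
  have hs1 : s ≤ 1 / 1000 := by linarith
  have hω1 : ω ≤ 1 / 1000000 := by nlinarith
  -- step 0
  have hmin : ∀ᵐ x ∂μ, ∫ y, min ((‖x - y‖ ^ 2 - 2) ^ 2) 1 ∂μ ≤ ω := by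
    have hd2 : ∀ᵐ x ∂μ, ∀ᵐ y ∂μ, x ≠ y := Measure.ae_ae_of_ae_prod hd
    have hi2 := hi.prod_right_ae
    filter_upwards [hd2, hi2, hneg] with x h1 h2 h3
    have hint : Integrable (fun y => min ((‖x - y‖ ^ 2 - 2) ^ 2) 1) μ :=
      s14_int hK hk (by fun_prop)
    have h4 : ∫ y, (c * min ((‖x - y‖ ^ 2 - 2) ^ 2) 1 - θ) ∂μ ≤ ∫ y, κ (‖x - y‖ ^ 2) ∂μ := by
      refine integral_mono_ae ((hint.const_mul c).sub (integrable_const θ)) h2 ?_
      filter_upwards [h1] with y hy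
      have : 0 < ‖x - y‖ ^ 2 := by
        have := norm_pos_iff.2 (sub_ne_zero.2 hy)
        positivity
      exact hlow _ this
    rw [integral_sub (hint.const_mul c) (integrable_const θ), integral_const_mul] at h4
    simp only [integral_const, probReal_univ, smul_eq_mul, one_mul] at h4
    rw [hω, le_div_iff₀ hc]
    linarith
  -- step 1
  have hfar : ∀ᵐ x ∂μ, ∀ᵐ y ∂μ, ‖x - y‖ ^ 2 ≤ 12 := by
    filter_upwards [hmin] with x hx
    filter_upwards [hmin] with y hy
    have mk : ∀ x : E (n + 1), ∫ y, min ((‖x - y‖ ^ 2 - 2) ^ 2) 1 ∂μ ≤ ω →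
        μ.real {y | 1 ≤ min ((‖x - y‖ ^ 2 - 2) ^ 2) 1} ≤ ω := by
      intro x hx
      have hint : Integrable (fun y => min ((‖x - y‖ ^ 2 - 2) ^ 2) 1) μ :=
        s14_int hK hk (by fun_prop)
      have := mul_meas_ge_le_integral_of_nonneg (μ := μ)
        (f := fun y => min ((‖x - y‖ ^ 2 - 2) ^ 2) 1)
        (Eventually.of_forall fun y => le_min (sq_nonneg _) zero_le_one) hint 1
      linarith
    have h1 := mk x hx
    have h2 := mk y hy
    set A := {z | 1 ≤ min ((‖x - z‖ ^ 2 - 2) ^ 2) 1} with hA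
    set B := {z | 1 ≤ min ((‖y - z‖ ^ 2 - 2) ^ 2) 1} with hB
    have h3 : μ.real (A ∪ B) ≤ 2 * ω := by
      have := measureReal_union_le (μ := μ) A B
      linarith
    have h4 : A ∪ B ≠ univ := by
      intro h
      rw [h, probReal_univ] at h3
      linarith
    obtain ⟨z, hz⟩ := (ne_univ_iff_exists_notMem _).1 h4
    have hzA : ¬ 1 ≤ min ((‖x - z‖ ^ 2 - 2) ^ 2) 1 := fun h => hz (Or.inl h)
    have hzB : ¬ 1 ≤ min ((‖y - z‖ ^ 2 - 2) ^ 2) 1 := fun h => hz (Or.inr h)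
    have q1 : ‖x - z‖ ^ 2 < 3 := by
      by_contra hh
      push Not at hh
      exact hzA (le_min (by nlinarith) le_rfl)
    have q2 : ‖y - z‖ ^ 2 < 3 := by
      by_contra hh
      push Not at hh
      exact hzB (le_min (by nlinarith) le_rfl)
    have q3 : ‖x - y‖ ≤ ‖x - z‖ + ‖y - z‖ := by
      have : x - y = (x - z) - (y - z) := by abel
      rw [this]
      exact norm_sub_le _ _
    have q4 := norm_nonneg (x - y)
    nlinarith [sq_nonneg (‖x - z‖ - ‖y - z‖)]
  -- step 2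
  have hsq : ∀ᵐ x ∂μ, ∫ y, (‖x - y‖ ^ 2 - 2) ^ 2 ∂μ ≤ 100 * ω := by
    filter_upwards [hmin, hfar] with x h1 h2
    have hint : Integrable (fun y => min ((‖x - y‖ ^ 2 - 2) ^ 2) 1) μ :=
      s14_int hK hk (by fun_prop)
    have hint2 : Integrable (fun y => (‖x - y‖ ^ 2 - 2) ^ 2) μ :=
      s14_int hK hk (by fun_prop)
    calc ∫ y, (‖x - y‖ ^ 2 - 2) ^ 2 ∂μ ≤ ∫ y, 100 * min ((‖x - y‖ ^ 2 - 2) ^ 2) 1 ∂μ := by
          refine integral_mono_ae hint2 (hint.const_mul 100) ?_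
          filter_upwards [h2] with y hy
          have h0 : 0 ≤ ‖x - y‖ ^ 2 := by positivity
          rcases le_total ((‖x - y‖ ^ 2 - 2) ^ 2) 1 with h | h
          · rw [min_eq_left h]
            nlinarith [sq_nonneg (‖x - y‖ ^ 2 - 2)]
          · rw [min_eq_right h]
            nlinarith
      _ = 100 * ∫ y, min ((‖x - y‖ ^ 2 - 2) ^ 2) 1 ∂μ := integral_const_mul _ _
      _ ≤ 100 * ω := by linarith
  -- the mean
  have hid : Integrable (fun x : E (n + 1) => x) μ := s14_int hK hk continuous_id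
  set a : E (n + 1) := ∫ x, x ∂μ with ha
  have hida : Integrable (fun x : E (n + 1) => x - a) μ := hid.sub (integrable_const a)
  have hmean : ∫ x, (x - a) ∂μ = 0 := by
    rw [integral_sub hid (integrable_const a)]
    simp [← ha]
  have hinn : ∀ x : E (n + 1), ∫ y, inner ℝ (x - a) (y - a) ∂μ = 0 := by
    intro x
    rw [integral_inner hida, hmean, inner_zero_right]
  set V := ∫ y, ‖y - a‖ ^ 2 ∂μ with hV
  have hvar : ∀ x : E (n + 1), ∫ y, (‖x - y‖ ^ 2 - 2) ∂μ = ‖x - a‖ ^ 2 + V - 2 := by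
    intro x
    have e1 : (fun y : E (n + 1) => ‖x - y‖ ^ 2 - 2) =
        fun y => ((‖x - a‖ ^ 2 - 2) - 2 * inner ℝ (x - a) (y - a)) + ‖y - a‖ ^ 2 := by
      funext y
      have : x - y = (x - a) - (y - a) := by abel
      rw [this, norm_sub_sq_real]
      ring
    have i1 : Integrable (fun y => inner ℝ (x - a) (y - a)) μ :=
      s14_int hK hk (by fun_prop)
    have i2 : Integrable (fun y => ‖y - a‖ ^ 2) μ :=
      s14_int hK hk (by fun_prop)
    rw [e1, integral_add (f := fun y => (‖x - a‖ ^ 2 - 2) - 2 * inner ℝ (x - a) (y - a))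
      (g := fun y => ‖y - a‖ ^ 2) ((integrable_const _).sub (i1.const_mul 2)) i2,
      integral_sub (f := fun _ => ‖x - a‖ ^ 2 - 2) (g := fun y => 2 * inner ℝ (x - a) (y - a))
      (integrable_const _) (i1.const_mul 2), integral_const_mul, hinn x, ← hV, integral_const,
      probReal_univ, one_smul]
    ring
  have hx1 : ∀ᵐ x ∂μ, |‖x - a‖ ^ 2 + V - 2| ≤ 10 * s := by
    filter_upwards [hsq] with x hx
    have i1 : Integrable (fun y => ‖x - y‖ ^ 2 - 2) μ :=
      s14_int hK hk (by fun_prop)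
    have i2 : Integrable (fun y => (‖x - y‖ ^ 2 - 2) ^ 2) μ :=
      s14_int hK hk (by fun_prop)
    have h1 := s14_sq i1 i2
    rw [hvar x] at h1
    refine abs_le_of_sq_le_sq ?_ (by positivity)
    nlinarith
  have hVV : |V - 1| ≤ 5 * s := by
    have i2 : Integrable (fun y => ‖y - a‖ ^ 2) μ :=
      s14_int hK hk (by fun_prop)
    have h1 : ∫ x, (‖x - a‖ ^ 2 + V - 2) ∂μ = 2 * V - 2 := by
      have e1 : (fun x : E (n + 1) => ‖x - a‖ ^ 2 + V - 2) = fun x => ‖x - a‖ ^ 2 + (V - 2) := by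
        funext x; ring
      rw [e1, integral_add i2 (integrable_const _), ← hV]
      simp
      ring
    have h2 : ‖∫ x, (‖x - a‖ ^ 2 + V - 2) ∂μ‖ ≤ (10 * s) * μ.real univ := by
      refine norm_integral_le_of_norm_le_const ?_
      filter_upwards [hx1] with x hx
      exact hx
    rw [h1, probReal_univ, Real.norm_eq_abs, abs_le] at h2
    rw [abs_le]
    constructor <;> linarith [h2.1, h2.2]
  have hx2 : ∀ᵐ x ∂μ, |‖x - a‖ ^ 2 - 1| ≤ 15 * s := by
    filter_upwards [hx1] with x hx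
    rw [abs_le] at hx hVV ⊢
    constructor <;> linarith [hx.1, hx.2, hVV.1, hVV.2]
  have hmeas : Measurable (fun x : E (n + 1) => x - a) := by fun_prop
  refine ⟨a, ⟨?_, by positivity, hsmall, ?_, ?_, ?_⟩⟩
  · rw [Measure.map_apply hmeas MeasurableSet.univ]
    simp
  · have hcl : MeasurableSet {x : E (n + 1) | |‖x‖ ^ 2 - 1| ≤ 100 * s} := by
      refine (isClosed_le ?_ ?_).measurableSet <;> fun_prop
    rw [ae_map_iff hmeas.aemeasurable hcl]
    filter_upwards [hx2] with x hx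
    linarith
  · rw [integral_map hmeas.aemeasurable (by fun_prop)]
    exact hmean
  · unfold vI
    have e1 : ∀ x : E (n + 1), ∫ y, (inner ℝ x y) ^ 2 ∂(μ.map (fun x => x - a)) =
        ∫ y, (inner ℝ x (y - a)) ^ 2 ∂μ := by
      intro x
      rw [integral_map hmeas.aemeasurable (by
        have : Continuous fun y : E (n + 1) => (inner ℝ x y) ^ 2 := by fun_prop
        exact this.aestronglyMeasurable)]
    simp_rw [e1]
    have hcont : AEStronglyMeasurable (fun x : E (n + 1) => ∫ y, (inner ℝ x (y - a)) ^ 2 ∂μ)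
        (μ.map (fun x => x - a)) := by
      have h0 : StronglyMeasurable (fun z : E (n + 1) × E (n + 1) =>
          (inner ℝ z.1 (z.2 - a)) ^ 2) := by
        have : Continuous (fun z : E (n + 1) × E (n + 1) => (inner ℝ z.1 (z.2 - a)) ^ 2) := by
          fun_prop
        exact this.stronglyMeasurable
      exact (h0.integral_prod_right' (ν := μ)).aestronglyMeasurable
    rw [integral_map hmeas.aemeasurable hcont]
    have hfin : ∀ᵐ x ∂μ, ∫ y, (inner ℝ (x - a) (y - a)) ^ 2 ∂μ ≤ (100 * s) ^ 2 := by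
      filter_upwards [hx2, hsq] with x h1 h2
      have i1 : Integrable (fun y => (inner ℝ (x - a) (y - a)) ^ 2) μ :=
        s14_int hK hk (by fun_prop)
      have i2 : Integrable (fun y => (‖x - y‖ ^ 2 - 2) ^ 2) μ :=
        s14_int hK hk (by fun_prop)
      calc ∫ y, (inner ℝ (x - a) (y - a)) ^ 2 ∂μ ≤
          ∫ y, ((3 / 4) * (450 * s ^ 2) + (3 / 4) * (‖x - y‖ ^ 2 - 2) ^ 2) ∂μ := by
            refine integral_mono_ae i1 ((integrable_const _).add (i2.const_mul _)) ?_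
            filter_upwards [hx2] with y hy
            have q : 2 * inner ℝ (x - a) (y - a) =
                (‖x - a‖ ^ 2 - 1) + (‖y - a‖ ^ 2 - 1) - (‖x - y‖ ^ 2 - 2) := by
              have e3 : ‖x - y‖ ^ 2 = ‖x - a‖ ^ 2 - 2 * inner ℝ (x - a) (y - a) + ‖y - a‖ ^ 2 := by
                have : x - y = (x - a) - (y - a) := by abel
                rw [this, norm_sub_sq_real]
              rw [e3]
              ring
            set u := inner ℝ (x - a) (y - a) with hu
            set e := ‖x - a‖ ^ 2 - 1 with he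
            set f := ‖y - a‖ ^ 2 - 1 with hf
            set g := ‖x - y‖ ^ 2 - 2 with hg
            have qe : e ^ 2 ≤ 225 * s ^ 2 := by
              have := sq_le_sq' (by linarith [(abs_le.1 h1).1] : -(15 * s) ≤ e) (abs_le.1 h1).2
              nlinarith
            have qf : f ^ 2 ≤ 225 * s ^ 2 := by
              have := sq_le_sq' (by linarith [(abs_le.1 hy).1] : -(15 * s) ≤ f) (abs_le.1 hy).2
              nlinarith
            have qq : 4 * u ^ 2 = (e + f - g) ^ 2 := by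
              rw [← q]; ring
            nlinarith [sq_nonneg (e - f), sq_nonneg (e + g), sq_nonneg (f + g)]
        _ = (3 / 4) * (450 * s ^ 2) + (3 / 4) * ∫ y, (‖x - y‖ ^ 2 - 2) ^ 2 ∂μ := by
            rw [integral_add (f := fun _ => (3 / 4) * (450 * s ^ 2))
              (g := fun y => (3 / 4) * (‖x - y‖ ^ 2 - 2) ^ 2) (integrable_const _) (i2.const_mul _),
              integral_const, probReal_univ, one_smul, integral_const_mul]
        _ ≤ (100 * s) ^ 2 := by nlinarith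
    calc ∫ x, ∫ y, (inner ℝ (x - a) (y - a)) ^ 2 ∂μ ∂μ ≤ ∫ x, (100 * s) ^ 2 ∂μ := by
          refine integral_mono_of_nonneg ?_ (integrable_const _) hfin
          exact Eventually.of_forall fun x => integral_nonneg fun y => sq_nonneg _
      _ = (100 * s) ^ 2 := by simp

end Pool.Agent.Lib.MP_6cd19d_an.SH
end

section

section

/-!
# Existence of a minimiser and the first variation

`κ` is continuous on `(0,∞)`, `κ ≥ -1` there and `κ → ∞` at `0`.  `k(x,y) = κ(|x-y|^2) + 1` for `x ≠ y`, `⊤` for `x = y`, is the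
increasing limit of the bounded continuous kernels `min(j, κ(|x-y|^2) + 1)` (with value `j` on the diagonal; continuous because
`κ → ∞` at `0`).  `exists_meas_of_iSup` (`A/K0.lean`) gives `μ` on `K` whose energy `ken k μ` is at most the supremum of the
minimal energies, hence at most `ken k μ0 = 1 + ∬ κ dμ0 dμ0 < 1` for the given `μ0`, and minimal: `ken k μ ≤ ken k ν` for all `ν`
on `K`.  As `ken k μ < ⊤` the diagonal is null and `κ(|x-y|^2)` is integrable; `∬ κ dμ dμ = ken k μ - 1 < 0`.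
First variation: for bounded measurable `g` with `∫ g dμ = 0` and small `|τ|` the measure `(1+τ g) μ` is a probability
measure on `K`, its energy is `I + 2 τ ∫ g U dμ + τ^2 ∬ g g κ ≥ I`, `U(x) = ∫ κ(|x-y|^2) dμ(y)` (integrable), so `∫ g U dμ = 0` for all
such `g`, and `U` is almost everywhere equal to its mean, which is `∬ κ dμ dμ`.
-/

set_option autoImplicit false

open MeasureTheory Set Filter Topology
open scoped ENNReal NNReal

namespace Pool.Agent.Lib.MP_6cd19d_an.SH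

open Pool.Agent.Lib.MP_6cd19d_an.ND Pool.Agent.Lib.MP_6cd19d_an.HP

variable {n : ℕ}

open Pool.Agent.Lib.MP_6cd19d_an.A in
private noncomputable def kf (κ : ℝ → ℝ) (x y : E (n + 1)) : ℝ≥0∞ :=
  if x = y then ⊤ else ENNReal.ofReal (κ (‖x - y‖ ^ 2) + 1)

private noncomputable def Fj (κ : ℝ → ℝ) (j : ℕ) (t : ℝ) : ℝ :=
  if t ≤ 0 then (j : ℝ) else min (j : ℝ) (κ t + 1)

private theorem Fj_cont {κ : ℝ → ℝ} (hc : ContinuousOn κ (Ioi 0)) (h0 : Tendsto κ (𝓝[>] 0) atTop)
    (j : ℕ) : Continuous (Fj κ j) := by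
  rw [continuous_iff_continuousAt]
  intro t
  rcases lt_trichotomy t 0 with ht | rfl | ht
  · have h : Fj κ j =ᶠ[𝓝 t] fun _ => (j : ℝ) := by
      filter_upwards [Iio_mem_nhds ht] with s hs
      have hs' : s ≤ 0 := le_of_lt hs
      simp [Fj, hs']
    exact continuousAt_const.congr h.symm
  · have h : Fj κ j =ᶠ[𝓝 0] fun _ => (j : ℝ) := by
      have h1 : ∀ᶠ s in 𝓝[>] (0 : ℝ), (j : ℝ) ≤ κ s + 1 := by
        filter_upwards [h0.eventually_ge_atTop (j : ℝ)] with s hs
        linarith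
      rw [eventually_nhdsWithin_iff] at h1
      filter_upwards [h1] with s hs
      by_cases hs0 : s ≤ 0
      · simp [Fj, hs0]
      · simp only [Fj, hs0, if_false]
        exact min_eq_left (hs (not_le.1 hs0))
    exact continuousAt_const.congr h.symm
  · have hk : ContinuousAt κ t := hc.continuousAt (Ioi_mem_nhds ht)
    have h : Fj κ j =ᶠ[𝓝 t] fun s => min (j : ℝ) (κ s + 1) := by
      filter_upwards [Ioi_mem_nhds ht] with s hs
      have hs' : ¬ s ≤ 0 := not_le.2 hs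
      simp [Fj, hs']
    have h2 : ContinuousAt (fun s => min (j : ℝ) (κ s + 1)) t :=
      continuousAt_const.min (hk.add continuousAt_const)
    exact h2.congr h.symm

private theorem Fj_mono (κ : ℝ → ℝ) (t : ℝ) : Monotone (fun j : ℕ => Fj κ j t) := by
  intro i j hij
  have hij' : (i : ℝ) ≤ (j : ℝ) := by exact_mod_cast hij
  simp only [Fj]
  split_ifs
  · exact hij'
  · exact min_le_min_right _ hij'

private theorem Fj_le (κ : ℝ → ℝ) (t : ℝ) (j : ℕ) : Fj κ j t ≤ j := by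
  simp only [Fj]
  split_ifs
  · exact le_rfl
  · exact min_le_left _ _

private noncomputable def kj (κ : ℝ → ℝ) (j : ℕ) (x y : E (n + 1)) : ℝ≥0 :=
  Real.toNNReal (Fj κ j (‖x - y‖ ^ 2))

private theorem kj_cont {κ : ℝ → ℝ} (hc : ContinuousOn κ (Ioi 0)) (h0 : Tendsto κ (𝓝[>] 0) atTop)
    (j : ℕ) : Continuous (fun p : E (n + 1) × E (n + 1) => kj κ j p.1 p.2) := by
  have h := Fj_cont hc h0 j
  exact continuous_real_toNNReal.comp (h.comp (by fun_prop))

private theorem iSup_kj (κ : ℝ → ℝ) (x y : E (n + 1)) :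
    (⨆ j, (kj κ j x y : ℝ≥0∞)) = kf κ x y := by
  by_cases hxy : x = y
  · subst hxy
    have h : ∀ j : ℕ, ((kj κ j x x : ℝ≥0) : ℝ≥0∞) = (j : ℝ≥0∞) := by
      intro j
      simp [kj, Fj]
    simp only [h, kf, if_true]
    exact ENNReal.iSup_natCast
  · have ht : ¬ ‖x - y‖ ^ 2 ≤ 0 := by
      have : 0 < ‖x - y‖ := norm_pos_iff.2 (sub_ne_zero.2 hxy)
      have := pow_pos this 2
      linarith
    simp only [kf, if_neg hxy]
    apply le_antisymm
    · refine iSup_le fun j => ?_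
      simp only [kj, Fj, if_neg ht]
      exact ENNReal.ofReal_le_ofReal (min_le_right _ _)
    · obtain ⟨j, hj⟩ := exists_nat_ge (κ (‖x - y‖ ^ 2) + 1)
      refine le_trans (le_of_eq ?_) (le_iSup _ j)
      simp only [kj, Fj, if_neg ht, min_eq_right hj]
      rfl

private theorem kf_meas {κ : ℝ → ℝ} (hc : ContinuousOn κ (Ioi 0)) (h0 : Tendsto κ (𝓝[>] 0) atTop) :
    Measurable (fun p : E (n + 1) × E (n + 1) => kf κ p.1 p.2) := by
  have h : (fun p : E (n + 1) × E (n + 1) => kf κ p.1 p.2) =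
      fun p => ⨆ j, (kj κ j p.1 p.2 : ℝ≥0∞) := by
    funext p
    rw [iSup_kj]
  rw [h]
  exact Measurable.iSup fun j => (kj_cont hc h0 j).measurable.coe_nnreal_ennreal

private theorem kf_symm (κ : ℝ → ℝ) (x y : E (n + 1)) : kf κ x y = kf κ y x := by
  unfold kf
  rw [norm_sub_rev x y]
  by_cases h : x = y
  · rw [if_pos h, if_pos h.symm]
  · rw [if_neg h, if_neg (fun h' => h h'.symm)]

open Pool.Agent.Lib.MP_6cd19d_an.A in
private theorem ken_prod {κ : ℝ → ℝ} (hc : ContinuousOn κ (Ioi 0))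
    (h0 : Tendsto κ (𝓝[>] 0) atTop) (ν : Measure (E (n + 1))) [SFinite ν] :
    ken (kf κ) ν = ∫⁻ z, kf κ z.1 z.2 ∂(ν.prod ν) := by
  unfold ken
  rw [lintegral_prod _ (kf_meas hc h0).aemeasurable]

open Pool.Agent.Lib.MP_6cd19d_an.A in
private theorem ken_real {κ : ℝ → ℝ} (hc : ContinuousOn κ (Ioi 0))
    (h1 : ∀ Z, 0 < Z → -1 ≤ κ Z)
    (h0 : Tendsto κ (𝓝[>] 0) atTop) (ν : Measure (E (n + 1))) [IsProbabilityMeasure ν]
    (hd : ∀ᵐ z ∂(ν.prod ν), z.1 ≠ z.2)
    (hi : Integrable (fun z : E (n + 1) × E (n + 1) => κ (‖z.1 - z.2‖ ^ 2)) (ν.prod ν)) :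
    ken (kf κ) ν = ENNReal.ofReal (1 + ∫ x, ∫ y, κ (‖x - y‖ ^ 2) ∂ν ∂ν) ∧
      0 ≤ 1 + ∫ x, ∫ y, κ (‖x - y‖ ^ 2) ∂ν ∂ν := by
  have hpos : 0 ≤ᵐ[ν.prod ν] fun z : E (n + 1) × E (n + 1) => κ (‖z.1 - z.2‖ ^ 2) + 1 := by
    filter_upwards [hd] with z hz
    have : 0 < ‖z.1 - z.2‖ ^ 2 := pow_pos (norm_pos_iff.2 (sub_ne_zero.2 hz)) 2
    have := h1 _ this
    simp only [Pi.zero_apply]
    linarith
  have hint : Integrable (fun z : E (n + 1) × E (n + 1) => κ (‖z.1 - z.2‖ ^ 2) + 1) (ν.prod ν) :=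
    hi.add (integrable_const 1)
  have hI : ∫ z, (κ (‖z.1 - z.2‖ ^ 2) + 1) ∂(ν.prod ν) =
      1 + ∫ x, ∫ y, κ (‖x - y‖ ^ 2) ∂ν ∂ν := by
    rw [integral_add hi (integrable_const 1), integral_prod _ hi]
    simp [add_comm]
  constructor
  · rw [ken_prod hc h0, ← hI, ofReal_integral_eq_lintegral_ofReal hint hpos]
    apply lintegral_congr_ae
    filter_upwards [hd] with z hz
    simp only [kf, if_neg hz]
  · rw [← hI]
    exact integral_nonneg_of_ae hpos

open Pool.Agent.Lib.MP_6cd19d_an.A in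
private theorem ken_fin {κ : ℝ → ℝ} (hc : ContinuousOn κ (Ioi 0))
    (h1 : ∀ Z, 0 < Z → -1 ≤ κ Z)
    (h0 : Tendsto κ (𝓝[>] 0) atTop) (ν : Measure (E (n + 1))) [IsProbabilityMeasure ν]
    (hf : ken (kf κ) ν ≠ ⊤) :
    (∀ᵐ z ∂(ν.prod ν), z.1 ≠ z.2) ∧
      Integrable (fun z : E (n + 1) × E (n + 1) => κ (‖z.1 - z.2‖ ^ 2)) (ν.prod ν) := by
  rw [ken_prod hc h0] at hf
  have hlt := ae_lt_top (kf_meas hc h0) hf
  have hd : ∀ᵐ z ∂(ν.prod ν), z.1 ≠ z.2 := by
    filter_upwards [hlt] with z hz h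
    simp [kf, h] at hz
  refine ⟨hd, ?_⟩
  have hint := integrable_toReal_of_lintegral_ne_top (kf_meas hc h0).aemeasurable hf
  have h2 := hint.sub (integrable_const (1 : ℝ))
  refine h2.congr ?_
  filter_upwards [hd] with z hz
  have hp : 0 < ‖z.1 - z.2‖ ^ 2 := pow_pos (norm_pos_iff.2 (sub_ne_zero.2 hz)) 2
  have := h1 _ hp
  simp only [kf, if_neg hz, Pi.sub_apply]
  rw [ENNReal.toReal_ofReal (by linarith)]
  ring

/-- the limit argument of the first variation -/
private theorem var_lim {e j j' m : ℝ}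
    (h : ∀ b : ℝ, 0 < b → b ≤ 1 →
      e ≤ (1 - b * m) ^ 2 * e + 2 * ((1 - b * m) * b * j) + b ^ 2 * j') : e * m ≤ j := by
  by_contra hcon
  push Not at hcon
  set d := e * m - j with hd
  have hdpos : 0 < d := by linarith
  set C := |m ^ 2 * e - 2 * m * j + j'| with hC
  have hC0 : 0 ≤ C := abs_nonneg _
  have hb0 : 0 < min 1 (d / (C + 1)) := lt_min one_pos (div_pos hdpos (by linarith))
  have hb := h _ hb0 (min_le_left _ _)
  set b := min 1 (d / (C + 1)) with hbdef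
  have hbC : b * (C + 1) ≤ d := by
    have : b ≤ d / (C + 1) := min_le_right _ _
    rwa [le_div_iff₀ (by linarith)] at this
  have h2 : 0 ≤ b * (2 * (j - m * e) + b * (m ^ 2 * e - 2 * m * j + j')) := by nlinarith
  have h3 : 0 ≤ 2 * (j - m * e) + b * (m ^ 2 * e - 2 * m * j + j') := by
    by_contra h4
    push Not at h4
    have := mul_neg_of_pos_of_neg hb0 h4
    linarith
  have h5 : b * (m ^ 2 * e - 2 * m * j + j') ≤ b * C :=
    mul_le_mul_of_nonneg_left (le_abs_self _) hb0.le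
  nlinarith

open Pool.Agent.Lib.MP_6cd19d_an.A in
private theorem first_var {K : Set (E (n + 1))} {κ : ℝ → ℝ} (hc : ContinuousOn κ (Ioi 0))
    (h0 : Tendsto κ (𝓝[>] 0) atTop) {μ : Measure (E (n + 1))} (hμ : PK K μ)
    (hfin : ken (kf κ) μ ≠ ⊤)
    (hmin : ∀ ν : Measure (E (n + 1)), PK K ν → ken (kf κ) μ ≤ ken (kf κ) ν)
    {A : Set (E (n + 1))} (hA : MeasurableSet A) :
    ken (kf κ) μ * μ A ≤ ∫⁻ x in A, ∫⁻ y, kf κ x y ∂μ ∂μ := by
  have hprob : IsProbabilityMeasure μ := ⟨hμ.1⟩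
  have hm1 : μ A ≤ 1 := prob_le_one
  have hmt : μ A ≠ ⊤ := ne_top_of_le_ne_top ENNReal.one_ne_top hm1
  have hkm := kf_meas (n := n) hc h0
  have hV : Measurable (fun x => ∫⁻ y, kf κ x y ∂μ) := hkm.lintegral_prod_right'
  have hW : Measurable (fun x => ∫⁻ y in A, kf κ x y ∂μ) := hkm.lintegral_prod_right'
  set e := ken (kf κ) μ with he
  set J := ∫⁻ x in A, ∫⁻ y, kf κ x y ∂μ ∂μ with hJ
  set J' := ∫⁻ x in A, ∫⁻ y in A, kf κ x y ∂μ ∂μ with hJ'
  have hJt : J ≠ ⊤ := ne_top_of_le_ne_top hfin (setLIntegral_le_lintegral _ _)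
  have hJ't : J' ≠ ⊤ := by
    refine ne_top_of_le_ne_top hJt ?_
    exact lintegral_mono fun x => setLIntegral_le_lintegral _ _
  have hsw : ∫⁻ x, ∫⁻ y in A, kf κ x y ∂μ ∂μ = J := by
    rw [lintegral_lintegral_swap hkm.aemeasurable]
    rw [hJ]
    refine lintegral_congr fun y => lintegral_congr fun x => kf_symm κ x y
  have hvar : ∀ b : ℝ, 0 < b → b ≤ 1 →
      e.toReal ≤ (1 - b * (μ A).toReal) ^ 2 * e.toReal +
        2 * ((1 - b * (μ A).toReal) * b * J.toReal) + b ^ 2 * J'.toReal := by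
    intro b hb hb1
    have hm1r : (μ A).toReal ≤ 1 := by
      have := ENNReal.toReal_mono ENNReal.one_ne_top hm1
      simpa using this
    have hm0r : 0 ≤ (μ A).toReal := ENNReal.toReal_nonneg
    have ha0 : 0 ≤ 1 - b * (μ A).toReal := by nlinarith
    have hν : PK K (ENNReal.ofReal (1 - b * (μ A).toReal) • μ +
        ENNReal.ofReal b • μ.restrict A) := by
      constructor
      · simp only [Measure.coe_add, Measure.coe_smul, Pi.add_apply, Pi.smul_apply, smul_eq_mul,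
          hμ.1, mul_one, Measure.restrict_apply MeasurableSet.univ, univ_inter]
        rw [← ENNReal.ofReal_toReal hmt, ← ENNReal.ofReal_mul hb.le,
          ENNReal.ofReal_toReal hmt, ← ENNReal.ofReal_add ha0 (by positivity)]
        simp
      · have h2 : μ.restrict A Kᶜ = 0 := le_antisymm
          ((Measure.restrict_apply_le _ _).trans (le_of_eq hμ.2)) bot_le
        simp only [Measure.coe_add, Measure.coe_smul, Pi.add_apply, Pi.smul_apply, smul_eq_mul,
          hμ.2, h2, mul_zero, add_zero]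
    have h := hmin _ hν
    have hk : ken (kf κ) (ENNReal.ofReal (1 - b * (μ A).toReal) • μ +
        ENNReal.ofReal b • μ.restrict A) =
        ENNReal.ofReal (1 - b * (μ A).toReal) ^ 2 * e +
          2 * (ENNReal.ofReal (1 - b * (μ A).toReal) * ENNReal.ofReal b * J) +
          ENNReal.ofReal b ^ 2 * J' := by
      unfold ken
      simp only [lintegral_add_measure, lintegral_smul_measure, smul_eq_mul]
      rw [lintegral_add_left (hV.const_mul _), lintegral_add_left (hV.const_mul _),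
        lintegral_const_mul _ hV, lintegral_const_mul _ hW, lintegral_const_mul _ hV,
        lintegral_const_mul _ hW, hsw]
      rw [he, hJ', hJ]
      unfold ken
      ring
    rw [hk] at h
    have h3 := ENNReal.toReal_mono (by
      refine ENNReal.add_ne_top.2 ⟨ENNReal.add_ne_top.2 ⟨?_, ?_⟩, ?_⟩
      · exact ENNReal.mul_ne_top (ENNReal.pow_ne_top ENNReal.ofReal_ne_top) hfin
      · exact ENNReal.mul_ne_top (by simp)
          (ENNReal.mul_ne_top (ENNReal.mul_ne_top ENNReal.ofReal_ne_top ENNReal.ofReal_ne_top) hJt)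
      · exact ENNReal.mul_ne_top (ENNReal.pow_ne_top ENNReal.ofReal_ne_top) hJ't) h
    rw [ENNReal.toReal_add, ENNReal.toReal_add] at h3
    · simpa [ENNReal.toReal_mul, ENNReal.toReal_pow, ENNReal.toReal_ofReal ha0,
        ENNReal.toReal_ofReal hb.le] using h3
    · exact ENNReal.mul_ne_top (ENNReal.pow_ne_top ENNReal.ofReal_ne_top) hfin
    · exact ENNReal.mul_ne_top (by simp)
        (ENNReal.mul_ne_top (ENNReal.mul_ne_top ENNReal.ofReal_ne_top ENNReal.ofReal_ne_top) hJt)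
    · exact ENNReal.add_ne_top.2 ⟨ENNReal.mul_ne_top (ENNReal.pow_ne_top ENNReal.ofReal_ne_top) hfin,
        ENNReal.mul_ne_top (by simp)
          (ENNReal.mul_ne_top (ENNReal.mul_ne_top ENNReal.ofReal_ne_top ENNReal.ofReal_ne_top) hJt)⟩
    · exact ENNReal.mul_ne_top (ENNReal.pow_ne_top ENNReal.ofReal_ne_top) hJ't
  have hfinal := var_lim hvar
  rw [← ENNReal.toReal_le_toReal (ENNReal.mul_ne_top hfin hmt) hJt, ENNReal.toReal_mul]
  exact hfinal

theorem exists_minimal {K : Set (E (n + 1))} (hK : IsCompact K) {κ : ℝ → ℝ} (hc : ContinuousOn κ (Ioi 0))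
    (h1 : ∀ Z, 0 < Z → -1 ≤ κ Z) (h0 : Tendsto κ (𝓝[>] 0) atTop) {μ0 : Measure (E (n + 1))} (hμ0 : PK K μ0)
    (hd : ∀ᵐ z ∂(μ0.prod μ0), z.1 ≠ z.2)
    (hi : Integrable (fun z : E (n + 1) × E (n + 1) => κ (‖z.1 - z.2‖ ^ 2)) (μ0.prod μ0))
    (hneg : ∫ x, ∫ y, κ (‖x - y‖ ^ 2) ∂μ0 ∂μ0 < 0) :
    ∃ μ : Measure (E (n + 1)), PK K μ ∧ (∀ᵐ z ∂(μ.prod μ), z.1 ≠ z.2) ∧
      Integrable (fun z : E (n + 1) × E (n + 1) => κ (‖z.1 - z.2‖ ^ 2)) (μ.prod μ) ∧
      (∫ x, ∫ y, κ (‖x - y‖ ^ 2) ∂μ ∂μ) < 0 ∧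
      ∀ᵐ x ∂μ, ∫ y, κ (‖x - y‖ ^ 2) ∂μ = ∫ x, ∫ y, κ (‖x - y‖ ^ 2) ∂μ ∂μ := by
  have hprob0 : IsProbabilityMeasure μ0 := ⟨hμ0.1⟩
  have hne : K.Nonempty := by
    rw [nonempty_iff_ne_empty]
    rintro rfl
    have h2 := hμ0.2
    rw [compl_empty, hμ0.1] at h2
    exact one_ne_zero h2
  obtain ⟨μ, hμ, hle⟩ := Pool.Agent.Lib.MP_6cd19d_an.A.exists_meas_of_iSup hK hne (kj κ)
    (kj_cont hc h0) (fun j => ⟨(j : ℝ≥0), fun x y => by
      rw [kj, Real.toNNReal_le_iff_le_coe]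
      exact_mod_cast Fj_le κ _ j⟩)
    (fun x y i j hij => Real.toNNReal_le_toNNReal (Fj_mono κ _ hij))
  have hkeq : (fun x y : E (n + 1) => ⨆ j, (kj κ j x y : ℝ≥0∞)) = kf κ := by
    funext x y
    exact iSup_kj κ x y
  rw [hkeq] at hle
  have hprob : IsProbabilityMeasure μ := ⟨hμ.1⟩
  have hmin : ∀ ν : Measure (E (n + 1)), PK K ν →
      Pool.Agent.Lib.MP_6cd19d_an.A.ken (kf κ) μ ≤ Pool.Agent.Lib.MP_6cd19d_an.A.ken (kf κ) ν := by
    intro ν hν
    refine hle.trans (iSup_le fun j => ?_)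
    refine (iInf₂_le ν hν).trans ?_
    unfold Pool.Agent.Lib.MP_6cd19d_an.A.ken
    refine lintegral_mono fun x => lintegral_mono fun y => ?_
    rw [← iSup_kj]
    exact le_iSup (fun j => (kj κ j x y : ℝ≥0∞)) j
  have h00 := ken_real hc h1 h0 μ0 hd hi
  have hfin : Pool.Agent.Lib.MP_6cd19d_an.A.ken (kf κ) μ ≠ ⊤ := by
    refine ne_top_of_le_ne_top ?_ (hmin μ0 hμ0)
    rw [h00.1]
    exact ENNReal.ofReal_ne_top
  obtain ⟨hdμ, hiμ⟩ := ken_fin hc h1 h0 μ hfin
  have hμr := ken_real hc h1 h0 μ hdμ hiμ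
  have hneg' : (∫ x, ∫ y, κ (‖x - y‖ ^ 2) ∂μ ∂μ) < 0 := by
    have h := hmin μ0 hμ0
    rw [hμr.1, h00.1, ENNReal.ofReal_le_ofReal_iff h00.2] at h
    linarith
  refine ⟨μ, hμ, hdμ, hiμ, hneg', ?_⟩
  have hkm := kf_meas (n := n) hc h0
  have hV : Measurable (fun x => ∫⁻ y, kf κ x y ∂μ) := hkm.lintegral_prod_right'
  have hle2 : (fun _ : E (n + 1) => Pool.Agent.Lib.MP_6cd19d_an.A.ken (kf κ) μ) ≤ᵐ[μ]
      fun x => ∫⁻ y, kf κ x y ∂μ := by
    refine ae_le_of_forall_setLIntegral_le_of_sigmaFinite measurable_const (fun A hA _ => ?_)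
    rw [setLIntegral_const]
    exact first_var hc h0 hμ hfin hmin hA
  have heq := ae_eq_of_ae_le_of_lintegral_le hle2 (by
      rw [lintegral_const, hμ.1, mul_one]
      exact hfin) hV.aemeasurable (by
      rw [lintegral_const, hμ.1, mul_one]
      exact le_rfl)
  have hd2 : ∀ᵐ x ∂μ, ∀ᵐ y ∂μ, x ≠ y := Measure.ae_ae_of_ae_prod hdμ
  have hi2 := hiμ.prod_right_ae
  filter_upwards [heq, hd2, hi2] with x hx hdx hix
  have hpos : 0 ≤ᵐ[μ] fun y : E (n + 1) => κ (‖x - y‖ ^ 2) + 1 := by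
    filter_upwards [hdx] with y hy
    have : 0 < ‖x - y‖ ^ 2 := pow_pos (norm_pos_iff.2 (sub_ne_zero.2 hy)) 2
    have := h1 _ this
    simp only [Pi.zero_apply]
    linarith
  have hint : Integrable (fun y : E (n + 1) => κ (‖x - y‖ ^ 2) + 1) μ :=
    hix.add (integrable_const 1)
  have hVx : ∫⁻ y, kf κ x y ∂μ = ENNReal.ofReal (∫ y, (κ (‖x - y‖ ^ 2) + 1) ∂μ) := by
    rw [ofReal_integral_eq_lintegral_ofReal hint hpos]
    apply lintegral_congr_ae
    filter_upwards [hdx] with y hy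
    simp only [kf, if_neg hy]
  rw [hVx, hμr.1, ENNReal.ofReal_eq_ofReal_iff hμr.2 (integral_nonneg_of_ae hpos),
    integral_add hix (integrable_const 1)] at hx
  simp only [integral_const, smul_eq_mul, mul_one, measureReal_def, hμ.1,
    ENNReal.toReal_one] at hx
  linarith

end Pool.Agent.Lib.MP_6cd19d_an.SH
end

section

/-!
# All measures: the kernel energy is nonnegative

Suppose `qS μ0 < 0`.  `kc_lower`, `par_sphere`: `kc ≥ c min((Z-2)^2,1) - 2θ`, `c = exp(-M)/144`, `θ = C/(n+1)`; for `n` large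
`kc ≥ -1`, and `kc_tendsto`.  `exists_minimal` gives `μ`; `rough` (with `2θ`) gives the centre `a` and
`Thin δ (μ.map (· - a))`, `δ = 100 sqrt(2θ/c) → 0`.  The map preserves the distances, so diagonal, integrability and `qS` are
the same for the translated measure; `perturb` gives `qS ≥ 0`, a contradiction.
-/

set_option autoImplicit false

open MeasureTheory Set Filter Topology
open scoped ENNReal NNReal

namespace Pool.Agent.Lib.MP_6cd19d_an.SH

open Pool.Agent.Lib.MP_6cd19d_an.ND Pool.Agent.Lib.MP_6cd19d_an.HP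

variable {n : ℕ}

private theorem S15_emb (a : E (n + 1)) : MeasurableEmbedding (fun x : E (n + 1) => x - a) :=
  (Homeomorph.subRight a).measurableEmbedding

private theorem S15_prod (a : E (n + 1)) (μ : Measure (E (n + 1))) [IsProbabilityMeasure μ] :
    (μ.map (fun x => x - a)).prod (μ.map (fun x => x - a)) =
      (μ.prod μ).map (Prod.map (fun x => x - a) (fun x => x - a)) :=
  (Measure.map_prod_map μ μ (S15_emb a).measurable (S15_emb a).measurable)

private theorem S15_qS (a : E (n + 1)) (μ : Measure (E (n + 1))) (s e l : ℝ) :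
    qS s e l (μ.map (fun x => x - a)) = qS s e l μ := by
  unfold qS
  rw [(S15_emb a).integral_map]
  refine integral_congr_ae (Eventually.of_forall fun x => ?_)
  simp only
  rw [(S15_emb a).integral_map]
  refine integral_congr_ae (Eventually.of_forall fun y => ?_)
  simp only
  congr 3
  abel

theorem q_nonneg (M : ℝ) (hM : 1 ≤ M) : ∃ n1 : ℕ, ∀ n ≥ n1, ∀ σ : Measure (E (n + 1)), SphM σ →
    ∀ s : ℝ, 0 < s → s ≤ M → ∀ (K : Set (E (n + 1))), IsCompact K → ∀ μ : Measure (E (n + 1)), PK K μ →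
      (∀ᵐ z ∂(μ.prod μ), z.1 ≠ z.2) →
      Integrable (fun z : E (n + 1) × E (n + 1) => kc s (eS σ s) (lS σ s) (‖z.1 - z.2‖ ^ 2)) (μ.prod μ) →
      0 ≤ qS s (eS σ s) (lS σ s) μ := by
  obtain ⟨C, hC, n1, hpar⟩ := par_sphere M hM
  obtain ⟨δ0, hδ0, n2, hpert⟩ := perturb M hM
  set c : ℝ := Real.exp (-M) / 144 with hc
  have hc0 : 0 < c := by positivity
  set m : ℝ := min δ0 (1 / 10) / 100 with hm
  have hm0 : 0 < m := by
    have : 0 < min δ0 (1 / 10) := lt_min hδ0 (by norm_num)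
    positivity
  obtain ⟨n3, hn3⟩ := exists_nat_gt (2 * C / (c * m ^ 2))
  obtain ⟨n4, hn4⟩ := exists_nat_gt (2 * C)
  refine ⟨max (max n1 n2) (max n3 n4), fun n hn σ hσ s hs hsM K hK μ0 hμ0 hd0 hi0 => ?_⟩
  have hna : n1 ≤ n := le_trans (le_trans (le_max_left _ _) (le_max_left _ _)) hn
  have hnb : n2 ≤ n := le_trans (le_trans (le_max_right _ _) (le_max_left _ _)) hn
  have hnc : n3 ≤ n := le_trans (le_trans (le_max_left _ _) (le_max_right _ _)) hn
  have hnd : n4 ≤ n := le_trans (le_trans (le_max_right _ _) (le_max_right _ _)) hn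
  have hP := hpar n hna σ hσ s hs hsM
  have he := par_e hP
  set e := eS σ s with hedef
  set l := lS σ s with hldef
  have hn0 : (0 : ℝ) < (n : ℝ) + 1 := by positivity
  set θ : ℝ := C / ((n : ℝ) + 1) with hθ
  have hθ0 : 0 < θ := by positivity
  have hnc' : (n3 : ℝ) ≤ n := by exact_mod_cast hnc
  have hnd' : (n4 : ℝ) ≤ n := by exact_mod_cast hnd
  have hθ1 : 2 * θ ≤ 1 := by
    rw [hθ, ← mul_div_assoc, div_le_one hn0]
    linarith
  have hθ2 : 2 * θ / c ≤ m ^ 2 := by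
    have h1 : 2 * C / (c * m ^ 2) < (n : ℝ) + 1 := by linarith
    rw [div_lt_iff₀ (by positivity)] at h1
    rw [hθ, div_le_iff₀ hc0, ← mul_div_assoc, div_le_iff₀ hn0]
    nlinarith
  have hδ : 100 * Real.sqrt (2 * θ / c) ≤ min δ0 (1 / 10) := by
    have h1 : Real.sqrt (2 * θ / c) ≤ m := by
      rw [← Real.sqrt_sq hm0.le]
      exact Real.sqrt_le_sqrt hθ2
    have h2 : 100 * m = min δ0 (1 / 10) := by rw [hm]; ring
    linarith
  by_contra hneg
  push Not at hneg
  have hlow : ∀ Z, 0 < Z → c * min ((Z - 2) ^ 2) 1 - 2 * θ ≤ kc s e l Z := fun Z hZ =>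
    kc_lower hM hP hZ
  have h1 : ∀ Z, 0 < Z → -1 ≤ kc s e l Z := by
    intro Z hZ
    have h2 := hlow Z hZ
    have h3 : 0 ≤ min ((Z - 2) ^ 2) 1 := le_min (sq_nonneg _) zero_le_one
    nlinarith [mul_nonneg hc0.le h3]
  have hcont : ContinuousOn (kc s e l) (Ioi 0) := fun Z hZ =>
    (hasDerivAt_kc hs he hZ).continuousAt.continuousWithinAt
  obtain ⟨μ, hμ, hd, hi, hneg', hpot⟩ := exists_minimal hK hcont h1 (kc_tendsto hs he) hμ0 hd0 hi0 hneg
  have hprob : IsProbabilityMeasure μ := ⟨hμ.1⟩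
  obtain ⟨a, ha⟩ := rough hK hc0 (by positivity : 0 < 2 * θ) hlow hμ hd hi
    (by
      filter_upwards [hpot] with x hx
      rw [hx]
      exact hneg') (hδ.trans (min_le_right _ _))
  have hemb : MeasurableEmbedding (Prod.map (fun x : E (n + 1) => x - a) (fun x : E (n + 1) => x - a)) :=
    (S15_emb a).prodMap (S15_emb a)
  have hfin := hpert n hnb σ hσ s hs hsM _ _ ha (hδ.trans (min_le_left _ _))
    (by
      rw [S15_prod, hemb.ae_map_iff]
      filter_upwards [hd] with z hz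
      simp only [Prod.map_fst, Prod.map_snd, ne_eq, sub_left_inj]
      exact hz)
    (by
      rw [S15_prod, hemb.integrable_map_iff]
      refine hi.congr (Eventually.of_forall fun z => ?_)
      simp only [Function.comp, Prod.map_fst, Prod.map_snd]
      congr 3
      abel)
  rw [S15_qS] at hfin
  have : qS s e l μ < 0 := hneg'
  linarith

end Pool.Agent.Lib.MP_6cd19d_an.SH
end

section

/-!
# Energies of all measures

`en_sphere`: `en s σ = ofReal (eS σ s)` for `0 < s ≤ M`, `n` large (`|e - y|^2 = 2 - 2⟨e,y⟩`, rotation invariance).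

Let `en q μ < ⊤`, `q ≤ M`.  Scaling: `μ_R = μ.map (R • ·)`, choose `R` with `en q μ_R = en q σ`, i.e. `∬ |x-y|^(-q) dμ dμ = eS q` after
scaling.  `η_s(Z) = (Z^(-s/2)/eS s - 1)/s` (`s > 0`), `η_0(Z) = -log Z/2 - lS 0`.  For each `Z > 0`, `s ↦ η_s(Z)` is
continuous on `[0,q]` (`eS 0 = 1`, derivative of `Z^(-s/2)/eS s` at `0`) with derivative `kc s (eS s) (lS s) Z` on `(0,q)`
(`eS_deriv`), so `∫_p^q kc ds = η_q(Z) - η_p(Z)`.  Integrate over `μ_R × μ_R` (Tonelli, `kc ≥ -1`, and `η_q` is integrable,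
`η_q - η_p` is bounded below): `∬ (η_q - η_p) = ∫_p^q qS ds ≥ 0` (`q_nonneg` for `s < q`: `kc` is integrable there because
`Z^(-s/2)(1+|log Z|) ≤ C (Z^(-q/2) + 1)` for bounded `Z`).  As `∬ η_q dμ_R dμ_R = 0`, `∬ η_p ≤ 0`: for `p > 0`
`∬ |x-y|^(-p) dμ_R dμ_R ≤ eS p`, for `p = 0` `∬ log(1/|x-y|) dμ_R dμ_R ≤ lS 0 = ∬ log(1/|x-y|) dσ dσ`.  Scale back.
`lgE D` is the logarithmic energy with constant `D` (`HP/E1.lean`).
-/

set_option autoImplicit false

open MeasureTheory Set Filter Topology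
open scoped ENNReal NNReal

namespace Pool.Agent.Lib.MP_6cd19d_an.SH

open Pool.Agent.Lib.MP_6cd19d_an.ND Pool.Agent.Lib.MP_6cd19d_an.HP

variable {n : ℕ}

/-! ## Auxiliary lemmas -/

private noncomputable def uf {m : ℕ} (z : E m × E m) : ℝ := -Real.log ‖z.1 - z.2‖

private lemma uf_meas {m : ℕ} : Measurable (uf (m := m)) := by
  unfold uf
  exact (Real.measurable_log.comp (by fun_prop)).neg

private lemma euf_meas {m : ℕ} (s : ℝ) : Measurable (fun z : E m × E m => Real.exp (s * uf z)) :=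
  Real.measurable_exp.comp (uf_meas.const_mul s)

private lemma edist_pow {m : ℕ} {z : E m × E m} (h : z.1 ≠ z.2) (s : ℝ) :
    (edist z.1 z.2) ^ (-s) = ENNReal.ofReal (Real.exp (s * uf z)) := by
  have h0 : 0 < ‖z.1 - z.2‖ := norm_pos_iff.2 (sub_ne_zero.2 h)
  rw [edist_dist, dist_eq_norm, ENNReal.ofReal_rpow_of_pos h0, Real.rpow_def_of_pos h0]
  congr 2
  unfold uf
  ring

private lemma en_prod {m : ℕ} (ν : Measure (E m)) [IsProbabilityMeasure ν] (s : ℝ) :
    en s ν = ∫⁻ z, (edist z.1 z.2) ^ (-s) ∂(ν.prod ν) := by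
  unfold en
  rw [lintegral_prod]
  fun_prop

private lemma en_fin {m : ℕ} {ν : Measure (E m)} [IsProbabilityMeasure ν] {s : ℝ} (hs : 0 < s)
    (h : en s ν < ⊤) : (∀ᵐ z ∂(ν.prod ν), z.1 ≠ z.2) ∧
      Integrable (fun z => Real.exp (s * uf z)) (ν.prod ν) := by
  rw [en_prod] at h
  have h1 : ∀ᵐ z ∂(ν.prod ν), z.1 ≠ z.2 := by
    have h2 := ae_lt_top (μ := ν.prod ν) (f := fun z : E m × E m => (edist z.1 z.2) ^ (-s))
      (by fun_prop) h.ne
    filter_upwards [h2] with z hz hzz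
    rw [hzz, edist_self, ENNReal.zero_rpow_of_neg (by linarith)] at hz
    exact lt_irrefl _ hz
  refine ⟨h1, (euf_meas s).aestronglyMeasurable, ?_⟩
  rw [hasFiniteIntegral_iff_ofReal (ae_of_all _ fun z => (Real.exp_pos _).le)]
  refine lt_of_le_of_lt (le_of_eq ?_) h
  refine lintegral_congr_ae ?_
  filter_upwards [h1] with z hz
  exact (edist_pow hz s).symm

private lemma en_of {m : ℕ} {ν : Measure (E m)} [IsProbabilityMeasure ν] {s : ℝ}
    (h1 : ∀ᵐ z ∂(ν.prod ν), z.1 ≠ z.2)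
    (h2 : Integrable (fun z => Real.exp (s * uf z)) (ν.prod ν)) :
    en s ν = ENNReal.ofReal (∫ z, Real.exp (s * uf z) ∂(ν.prod ν)) := by
  rw [en_prod, ofReal_integral_eq_lintegral_ofReal h2 (ae_of_all _ fun z => (Real.exp_pos _).le)]
  refine lintegral_congr_ae ?_
  filter_upwards [h1] with z hz
  exact edist_pow hz s

private lemma exp_low {m : ℕ} {P : Measure (E m × E m)} [IsProbabilityMeasure P] {s q : ℝ}
    (hs : 0 ≤ s) (hsq : s ≤ q) (h : Integrable (fun z => Real.exp (q * uf z)) P) :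
    Integrable (fun z => Real.exp (s * uf z)) P := by
  refine Integrable.mono' ((integrable_const (1 : ℝ)).add h) (euf_meas s).aestronglyMeasurable
    (ae_of_all _ fun z => ?_)
  rw [Real.norm_of_nonneg (Real.exp_pos _).le]
  simp only [Pi.add_apply]
  rcases le_total 0 (uf z) with hu | hu
  · have : Real.exp (s * uf z) ≤ Real.exp (q * uf z) :=
      Real.exp_le_exp.2 (mul_le_mul_of_nonneg_right hsq hu)
    linarith
  · have : Real.exp (s * uf z) ≤ 1 := Real.exp_le_one_iff.2 (mul_nonpos_of_nonneg_of_nonpos hs hu)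
    linarith [Real.exp_pos (q * uf z)]

/-- the kernel in terms of `uf` -/
private lemma kc_uf {m : ℕ} {z : E m × E m} (h : z.1 ≠ z.2) (s e l : ℝ) :
    kc s e l (‖z.1 - z.2‖ ^ 2) =
      (1 - (1 + s * l) * (Real.exp (s * uf z) / e) + s * (uf z * Real.exp (s * uf z)) / e) / s ^ 2 := by
  have h0 : 0 < ‖z.1 - z.2‖ := norm_pos_iff.2 (sub_ne_zero.2 h)
  have h1 : Real.log (‖z.1 - z.2‖ ^ 2) = -2 * uf z := by
    rw [Real.log_pow]
    unfold uf
    push_cast
    ring
  have h2 : (‖z.1 - z.2‖ ^ 2) ^ (-s / 2) = Real.exp (s * uf z) := by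
    rw [Real.rpow_def_of_pos (by positivity), h1]
    congr 1
    ring
  unfold kc
  rw [h1, h2]
  ring

private lemma core {M q : ℝ} (hq0 : 0 < q) (hqM : q ≤ M) {σ : Measure (E (n + 1))}
    (he0 : ∀ s : ℝ, 0 ≤ s → s ≤ M → 0 < eS σ s)
    (hed : ∀ s : ℝ, 0 ≤ s → s ≤ M → HasDerivAt (eS σ) (lS σ s * eS σ s) s)
    {K : Set (E (n + 1))} (hK : IsCompact K) {ν : Measure (E (n + 1))} (hν : PK K ν)
    (hQ : ∀ s : ℝ, 0 < s → s ≤ M → ∀ (K : Set (E (n + 1))), IsCompact K →
      ∀ μ : Measure (E (n + 1)), PK K μ → (∀ᵐ z ∂(μ.prod μ), z.1 ≠ z.2) →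
      Integrable (fun z : E (n + 1) × E (n + 1) => kc s (eS σ s) (lS σ s) (‖z.1 - z.2‖ ^ 2))
        (μ.prod μ) → 0 ≤ qS s (eS σ s) (lS σ s) μ)
    (hd : ∀ᵐ z ∂(ν.prod ν), z.1 ≠ z.2)
    (hI : Integrable (fun z => Real.exp (q * uf z)) (ν.prod ν))
    (hE : ∫ z, Real.exp (q * uf z) ∂(ν.prod ν) = eS σ q) {p : ℝ} (hp0 : 0 < p) (hpq : p < q) :
    ∫ z, Real.exp (p * uf z) ∂(ν.prod ν) ≤ eS σ p := by
  have : IsProbabilityMeasure ν := ⟨hν.1⟩
  set P := ν.prod ν with hP
  set f : ℝ → ℝ := fun s => ∫ z, Real.exp (s * uf z) ∂P with hf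
  set f1 : ℝ → ℝ := fun s => ∫ z, uf z * Real.exp (s * uf z) ∂P with hf1
  have hint : ∀ s ∈ Ioo 0 q, s ∈ interior (ProbabilityTheory.integrableExpSet uf P) := by
    intro s hs
    rw [mem_interior]
    exact ⟨Ioo 0 q, fun t ht => exp_low ht.1.le ht.2.le hI, isOpen_Ioo, hs⟩
  have hfd : ∀ s ∈ Ioo 0 q, HasDerivAt f (f1 s) s := by
    intro s hs
    exact ProbabilityTheory.hasDerivAt_mgf (hint s hs)
  have hfi : ∀ s ∈ Ioo 0 q, Integrable (fun z => uf z * Real.exp (s * uf z)) P := by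
    intro s hs
    have := ProbabilityTheory.integrable_pow_mul_exp_of_mem_interior_integrableExpSet (hint s hs) 1
    simpa using this
  have hkey : ∀ s ∈ Ioo 0 q, 0 ≤ 1 - (1 + s * lS σ s) * (f s / eS σ s) + s * f1 s / eS σ s := by
    intro s hs
    have hsM : s ≤ M := hs.2.le.trans hqM
    have hi0 : Integrable (fun z => Real.exp (s * uf z)) P := exp_low hs.1.le hs.2.le hI
    have hi1 := hfi s hs
    have hj0 : Integrable (fun z => (1 + s * lS σ s) * (Real.exp (s * uf z) / eS σ s)) P :=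
      (hi0.div_const _).const_mul _
    have hj1 : Integrable (fun z => s * (uf z * Real.exp (s * uf z)) / eS σ s) P :=
      (hi1.const_mul _).div_const _
    have hj : Integrable (fun z => (1 - (1 + s * lS σ s) * (Real.exp (s * uf z) / eS σ s) +
        s * (uf z * Real.exp (s * uf z)) / eS σ s) / s ^ 2) P :=
      (((integrable_const _).sub hj0).add hj1).div_const _
    have hae : (fun z : E (n + 1) × E (n + 1) => (1 - (1 + s * lS σ s) * (Real.exp (s * uf z) / eS σ s) +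
        s * (uf z * Real.exp (s * uf z)) / eS σ s) / s ^ 2) =ᵐ[P]
        fun z => kc s (eS σ s) (lS σ s) (‖z.1 - z.2‖ ^ 2) := by
      filter_upwards [hd] with z hz
      rw [kc_uf hz]
    have hk : Integrable (fun z : E (n + 1) × E (n + 1) =>
        kc s (eS σ s) (lS σ s) (‖z.1 - z.2‖ ^ 2)) P := hj.congr hae
    have h1 := hQ s hs.1 hsM K hK ν hν hd hk
    have h2 : qS s (eS σ s) (lS σ s) ν = (1 - (1 + s * lS σ s) * (f s / eS σ s) +
        s * f1 s / eS σ s) / s ^ 2 := by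
      unfold qS
      have hsub : Integrable (fun z => 1 - (1 + s * lS σ s) * (Real.exp (s * uf z) / eS σ s)) P :=
        (integrable_const _).sub hj0
      rw [← integral_prod (f := fun z : E (n + 1) × E (n + 1) =>
        kc s (eS σ s) (lS σ s) (‖z.1 - z.2‖ ^ 2)) hk, ← integral_congr_ae hae, integral_div,
        integral_add hsub hj1, integral_sub (integrable_const _) hj0,
        integral_const_mul, integral_div, integral_div, integral_const_mul]
      simp only [integral_const, probReal_univ, smul_eq_mul, mul_one]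
      rfl
    rw [h2] at h1
    have hs2 : 0 < s ^ 2 := pow_pos hs.1 2
    by_contra hc
    rw [not_le] at hc
    exact absurd h1 (not_le.2 (div_neg_of_neg_of_pos hc hs2))
  set G : ℝ → ℝ := fun s => (f s / eS σ s - 1) / s with hG
  have hfc : ContinuousOn f (Icc p q) := by
    refine continuousOn_of_dominated (bound := fun z => Real.exp (p * uf z) + Real.exp (q * uf z))
      (fun s _ => (euf_meas s).aestronglyMeasurable) (fun s hs => ae_of_all _ fun z => ?_)
      ((exp_low hp0.le hpq.le hI).add hI) (ae_of_all _ fun z => by fun_prop)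
    rw [Real.norm_of_nonneg (Real.exp_pos _).le]
    rcases le_total 0 (uf z) with hu | hu
    · have : Real.exp (s * uf z) ≤ Real.exp (q * uf z) :=
        Real.exp_le_exp.2 (mul_le_mul_of_nonneg_right hs.2 hu)
      linarith [Real.exp_pos (p * uf z)]
    · have : Real.exp (s * uf z) ≤ Real.exp (p * uf z) :=
        Real.exp_le_exp.2 (mul_le_mul_of_nonpos_right hs.1 hu)
      linarith [Real.exp_pos (q * uf z)]
  have hec : ContinuousOn (eS σ) (Icc p q) := fun s hs =>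
    (hed s (hp0.le.trans hs.1) (hs.2.trans hqM)).continuousAt.continuousWithinAt
  have hcont : ContinuousOn G (Icc p q) := by
    refine ContinuousOn.div ((hfc.div hec ?_).sub continuousOn_const) continuousOn_id ?_
    · intro s hs
      exact (he0 s (hp0.le.trans hs.1) (hs.2.trans hqM)).ne'
    · intro s hs
      exact (hp0.trans_le hs.1).ne'
  have hder : ∀ s ∈ Ioo p q, HasDerivAt G
      ((1 - (1 + s * lS σ s) * (f s / eS σ s) + s * f1 s / eS σ s) / s ^ 2) s := by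
    intro s hs
    have hs' : s ∈ Ioo 0 q := ⟨hp0.trans hs.1, hs.2⟩
    have hep := he0 s hs'.1.le (hs.2.le.trans hqM)
    have h1 := ((((hfd s hs').div (hed s hs'.1.le (hs.2.le.trans hqM)) hep.ne').sub_const 1).div
      (hasDerivAt_id s) hs'.1.ne')
    refine h1.congr_deriv ?_
    have h3 : s ≠ 0 := hs'.1.ne'
    have h4 : eS σ s ≠ 0 := hep.ne'
    simp only [id, Pi.div_apply]
    generalize f s = A
    generalize f1 s = B
    generalize eS σ s = C at *
    generalize lS σ s = L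
    field_simp
    ring
  have mono : MonotoneOn G (Icc p q) := by
    refine monotoneOn_of_deriv_nonneg (convex_Icc p q) hcont ?_ ?_
    · rw [interior_Icc]
      intro s hs
      exact (hder s hs).differentiableAt.differentiableWithinAt
    · rw [interior_Icc]
      intro s hs
      rw [(hder s hs).deriv]
      exact div_nonneg (hkey s ⟨hp0.trans hs.1, hs.2⟩) (sq_nonneg s)
  have h1 := mono (left_mem_Icc.2 hpq.le) (right_mem_Icc.2 hpq.le) hpq.le
  have h2 : G q = 0 := by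
    have h3 : f q = eS σ q := hE
    simp only [hG]
    rw [h3, div_self (he0 q hq0.le hqM).ne', sub_self, zero_div]
  rw [h2] at h1
  have h4 : f p / eS σ p - 1 ≤ 0 := by
    by_contra hc
    rw [not_le] at hc
    exact absurd h1 (not_le.2 (div_pos hc hp0))
  have h5 : f p / eS σ p ≤ 1 := by linarith
  exact (div_le_one (he0 p hp0.le (hpq.le.trans hqM))).1 h5

/-- scaling -/
private lemma uf_smul {m : ℕ} {c : ℝ} (hc : 0 < c) {z : E m × E m} (h : z.1 ≠ z.2) :
    uf (c • z.1, c • z.2) = uf z - Real.log c := by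
  have h0 : 0 < ‖z.1 - z.2‖ := norm_pos_iff.2 (sub_ne_zero.2 h)
  unfold uf
  simp only
  rw [← smul_sub, norm_smul, Real.norm_of_nonneg hc.le, Real.log_mul hc.ne' h0.ne']
  ring

private lemma core2 {M q : ℝ} (hq0 : 0 < q) (hqM : q ≤ M) {σ : Measure (E (n + 1))}
    (he0 : ∀ s : ℝ, 0 ≤ s → s ≤ M → 0 < eS σ s)
    (hed : ∀ s : ℝ, 0 ≤ s → s ≤ M → HasDerivAt (eS σ) (lS σ s * eS σ s) s)
    {K : Set (E (n + 1))} (hK : IsCompact K) {μ : Measure (E (n + 1))} (hμ : PK K μ)
    (hQ : ∀ s : ℝ, 0 < s → s ≤ M → ∀ (K : Set (E (n + 1))), IsCompact K →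
      ∀ μ : Measure (E (n + 1)), PK K μ → (∀ᵐ z ∂(μ.prod μ), z.1 ≠ z.2) →
      Integrable (fun z : E (n + 1) × E (n + 1) => kc s (eS σ s) (lS σ s) (‖z.1 - z.2‖ ^ 2))
        (μ.prod μ) → 0 ≤ qS s (eS σ s) (lS σ s) μ)
    (hd : ∀ᵐ z ∂(μ.prod μ), z.1 ≠ z.2)
    (hI : Integrable (fun z => Real.exp (q * uf z)) (μ.prod μ)) {c : ℝ} (hc : 0 < c)
    (hE : c ^ (-q) * ∫ z, Real.exp (q * uf z) ∂(μ.prod μ) = eS σ q) {p : ℝ} (hp0 : 0 < p)
    (hpq : p < q) :
    c ^ (-p) * ∫ z, Real.exp (p * uf z) ∂(μ.prod μ) ≤ eS σ p := by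
  have : IsProbabilityMeasure μ := ⟨hμ.1⟩
  have hcm : Measurable (fun x : E (n + 1) => c • x) := measurable_const_smul c
  set ν := μ.map (fun x : E (n + 1) => c • x) with hν
  have hprod : ν.prod ν = (μ.prod μ).map (fun z : E (n + 1) × E (n + 1) => (c • z.1, c • z.2)) := by
    rw [hν, Measure.map_prod_map _ _ hcm hcm]
    rfl
  have hpm : Measurable (fun z : E (n + 1) × E (n + 1) => (c • z.1, c • z.2)) := by fun_prop
  have : IsProbabilityMeasure ν := Measure.isProbabilityMeasure_map hcm.aemeasurable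
  have hK2 : IsCompact ((fun x : E (n + 1) => c • x) '' K) := hK.image (continuous_const_smul c)
  have hPK : PK ((fun x : E (n + 1) => c • x) '' K) ν := by
    refine ⟨measure_univ, ?_⟩
    rw [hν, Measure.map_apply hcm hK2.measurableSet.compl]
    refine measure_mono_null ?_ hμ.2
    intro x hx hxK
    exact hx ⟨x, hxK, rfl⟩
  have hd2 : ∀ᵐ z ∂(ν.prod ν), z.1 ≠ z.2 := by
    have hms : MeasurableSet {z : E (n + 1) × E (n + 1) | z.1 ≠ z.2} :=
      (measurableSet_eq_fun measurable_fst measurable_snd).compl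
    rw [hprod, ae_map_iff hpm.aemeasurable hms]
    filter_upwards [hd] with z hz h
    exact hz (smul_right_injective _ hc.ne' h)
  have hexp : ∀ s : ℝ, (fun z : E (n + 1) × E (n + 1) => Real.exp (s * uf (c • z.1, c • z.2))) =ᵐ[μ.prod μ]
      fun z => c ^ (-s) * Real.exp (s * uf z) := by
    intro s
    filter_upwards [hd] with z hz
    rw [uf_smul hc hz, Real.rpow_def_of_pos hc, ← Real.exp_add]
    congr 1
    ring
  have hval : ∀ s : ℝ, ∫ z, Real.exp (s * uf z) ∂(ν.prod ν) =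
      c ^ (-s) * ∫ z, Real.exp (s * uf z) ∂(μ.prod μ) := by
    intro s
    rw [hprod, integral_map hpm.aemeasurable (euf_meas s).aestronglyMeasurable,
      integral_congr_ae (hexp s), integral_const_mul]
  have hI2 : Integrable (fun z => Real.exp (q * uf z)) (ν.prod ν) := by
    rw [hprod, integrable_map_measure (euf_meas q).aestronglyMeasurable hpm.aemeasurable]
    exact (hI.const_mul (c ^ (-q))).congr (hexp q).symm
  have h1 := core hq0 hqM he0 hed hK2 hPK hQ hd2 hI2 (by rw [hval, hE]) hp0 hpq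
  rwa [hval] at h1

/-! ## The sphere -/

private lemma sph_rot {σ : Measure (E (n + 1))} (hσ : SphM σ) (g : ℝ → ℝ) :
    ∀ᵐ x ∂σ, ∫ y, g (‖x - y‖ ^ 2) ∂σ = ∫ y, g (2 - 2 * y 0) ∂σ := by
  have : IsProbabilityMeasure σ := ⟨hσ.1⟩
  set e0 : E (n + 1) := EuclideanSpace.single 0 1 with he0
  have hne : ‖e0‖ = 1 := by
    rw [he0, PiLp.norm_single]
    simp
  have hin : ∀ y : E (n + 1), inner ℝ e0 y = y 0 := by
    intro y
    rw [he0, EuclideanSpace.inner_single_left]
    simp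
  filter_upwards [sph_norm hσ] with x hx
  obtain ⟨T, hT⟩ := A.exists_isometry (x := e0) (y := x) (by rw [hne, hx])
  have hinv : ∫ y, g (‖x - T y‖ ^ 2) ∂σ = ∫ y, g (‖x - y‖ ^ 2) ∂σ := by
    conv_rhs => rw [← hσ.2.2 T]
    exact (T.toHomeomorph.measurableEmbedding.integral_map (fun y => g (‖x - y‖ ^ 2))).symm
  rw [← hinv]
  refine integral_congr_ae ?_
  filter_upwards [sph_norm hσ] with y hy
  have h1 : x - T y = T (e0 - y) := by rw [map_sub, hT]
  rw [h1, T.norm_map, norm_sub_sq_real, hne, hy, hin]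
  congr 1
  ring

private lemma sph_val {σ : Measure (E (n + 1))} (hσ : SphM σ) {g : ℝ → ℝ}
    (hg : Integrable (fun z : E (n + 1) × E (n + 1) => g (‖z.1 - z.2‖ ^ 2)) (σ.prod σ)) :
    ∫ z, g (‖z.1 - z.2‖ ^ 2) ∂(σ.prod σ) = ∫ y, g (2 - 2 * y 0) ∂σ := by
  have : IsProbabilityMeasure σ := ⟨hσ.1⟩
  rw [integral_prod _ hg, integral_congr_ae (sph_rot hσ g)]
  simp

private lemma sph_en (hn : 1 ≤ n) {σ : Measure (E (n + 1))} (hσ : SphM σ) {s : ℝ} (hs0 : 0 < s)
    (hs : s < n) : (∀ᵐ z ∂(σ.prod σ), z.1 ≠ z.2) ∧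
      Integrable (fun z => Real.exp (s * uf z)) (σ.prod σ) ∧
      ∫ z, Real.exp (s * uf z) ∂(σ.prod σ) = eS σ s ∧ en s σ = ENNReal.ofReal (eS σ s) := by
  have : IsProbabilityMeasure σ := ⟨hσ.1⟩
  obtain ⟨hd, hI⟩ := en_fin hs0 (en_sphere_fin hn hσ hs0 hs).2
  have hae : (fun z : E (n + 1) × E (n + 1) => Real.exp (s * uf z)) =ᵐ[σ.prod σ]
      fun z => (‖z.1 - z.2‖ ^ 2) ^ (-s / 2) := by
    filter_upwards [hd] with z hz
    have h0 : 0 < ‖z.1 - z.2‖ := norm_pos_iff.2 (sub_ne_zero.2 hz)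
    rw [Real.rpow_def_of_pos (by positivity), Real.log_pow]
    congr 1
    unfold uf
    push_cast
    ring
  have h1 : ∫ z, Real.exp (s * uf z) ∂(σ.prod σ) = eS σ s := by
    rw [integral_congr_ae hae]
    exact sph_val hσ (g := fun t => t ^ (-s / 2)) (hI.congr hae)
  exact ⟨hd, hI, h1, by rw [en_of hd hI, h1]⟩

/-! ## The logarithmic energy -/

private lemma uf_int {m : ℕ} {P : Measure (E m × E m)} [IsProbabilityMeasure P] {q D : ℝ} (hq : 0 < q)
    (hd : ∀ᵐ z ∂P, z.1 ≠ z.2) (hD : ∀ᵐ z ∂P, ‖z.1 - z.2‖ ≤ D)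
    (h : Integrable (fun z => Real.exp (q * uf z)) P) : Integrable uf P := by
  refine Integrable.mono' ((integrable_const (|Real.log D|)).add (h.div_const q))
    uf_meas.aestronglyMeasurable ?_
  filter_upwards [hd, hD] with z hz hzD
  have h0 : 0 < ‖z.1 - z.2‖ := norm_pos_iff.2 (sub_ne_zero.2 hz)
  have h1 : -|Real.log D| ≤ uf z := by
    have h2 : Real.log ‖z.1 - z.2‖ ≤ Real.log D := Real.log_le_log h0 hzD
    have h3 := le_abs_self (Real.log D)
    unfold uf
    linarith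
  have h2 : uf z ≤ Real.exp (q * uf z) / q := by
    rw [le_div_iff₀ hq]
    have := Real.add_one_le_exp (q * uf z)
    linarith
  have h3 : 0 ≤ Real.exp (q * uf z) / q := div_nonneg (Real.exp_pos _).le hq.le
  simp only [Pi.add_apply]
  rw [Real.norm_eq_abs, abs_le]
  have h4 := abs_nonneg (Real.log D)
  constructor <;> linarith

private lemma lgE_val {m : ℕ} {ν : Measure (E m)} [IsProbabilityMeasure ν] {D : ℝ} (hD0 : 0 < D)
    (hd : ∀ᵐ z ∂(ν.prod ν), z.1 ≠ z.2) (hD : ∀ᵐ z ∂(ν.prod ν), ‖z.1 - z.2‖ ≤ D)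
    (h : Integrable uf (ν.prod ν)) :
    lgE D ν = ENNReal.ofReal (Real.log D + ∫ z, uf z ∂(ν.prod ν)) := by
  have hmE : MeasurableSet {z : E m × E m | z.1 = z.2} :=
    measurableSet_eq_fun measurable_fst measurable_snd
  have hm0 : Measurable (fun z : E m × E m => if z.1 = z.2 then (⊤ : ℝ≥0∞)
      else ENNReal.ofReal (Real.log (D / dist z.1 z.2))) := by
    refine Measurable.ite hmE measurable_const ?_
    exact ENNReal.measurable_ofReal.comp (Real.measurable_log.comp (by fun_prop))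
  have hi : Integrable (fun z => Real.log D + uf z) (ν.prod ν) := (integrable_const _).add h
  have e1 : Real.log D + ∫ z, uf z ∂(ν.prod ν) = ∫ z, (Real.log D + uf z) ∂(ν.prod ν) := by
    rw [integral_add (integrable_const _) h]
    simp
  unfold lgE
  rw [← lintegral_prod (f := fun z : E m × E m => if z.1 = z.2 then (⊤ : ℝ≥0∞)
      else ENNReal.ofReal (Real.log (D / dist z.1 z.2))) hm0.aemeasurable, e1,
    ofReal_integral_eq_lintegral_ofReal hi]
  · refine lintegral_congr_ae ?_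
    filter_upwards [hd] with z hz
    have h0 : 0 < ‖z.1 - z.2‖ := norm_pos_iff.2 (sub_ne_zero.2 hz)
    rw [if_neg hz, dist_eq_norm, Real.log_div hD0.ne' h0.ne']
    rfl
  · filter_upwards [hd, hD] with z hz hzD
    have h0 : 0 < ‖z.1 - z.2‖ := norm_pos_iff.2 (sub_ne_zero.2 hz)
    have h2 : Real.log ‖z.1 - z.2‖ ≤ Real.log D := Real.log_le_log h0 hzD
    show (0 : ℝ) ≤ Real.log D + uf z
    unfold uf
    linarith

theorem sharp_pos (M : ℝ) (hM : 1 ≤ M) : ∃ n1 : ℕ, ∀ n ≥ n1, ∀ σ : Measure (E (n + 1)), SphM σ →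
    ∀ p q : ℝ, 0 < p → p < q → q ≤ M → (en p σ ≠ 0 ∧ en p σ < ⊤ ∧ en q σ ≠ 0 ∧ en q σ < ⊤) ∧
    ∀ (K : Set (E (n + 1))), IsCompact K → ∀ μ : Measure (E (n + 1)), PK K μ →
      en p μ ≤ en p σ * (en q μ / en q σ) ^ (p / q) := by
  obtain ⟨n1, h1⟩ := q_nonneg M hM
  obtain ⟨n2, h2⟩ := eS_deriv M hM
  refine ⟨max (max n1 n2) (⌈M⌉₊ + 1), ?_⟩
  intro n hn σ hσ p q hp hpq hqM
  have hn1 : n1 ≤ n := (le_max_left _ _).trans ((le_max_left _ _).trans hn)
  have hn2 : n2 ≤ n := (le_max_right _ _).trans ((le_max_left _ _).trans hn)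
  have hn3 : ⌈M⌉₊ + 1 ≤ n := (le_max_right _ _).trans hn
  have hnM : M < n := by
    have h3 := Nat.le_ceil M
    have h4 : ((⌈M⌉₊ + 1 : ℕ) : ℝ) ≤ n := by exact_mod_cast hn3
    push_cast at h4
    linarith
  have hn4 : 1 ≤ n := by omega
  have hq0 : 0 < q := hp.trans hpq
  obtain ⟨hS0, hS1, hS2, -⟩ := h2 n hn2 σ hσ
  have : IsProbabilityMeasure σ := ⟨hσ.1⟩
  obtain ⟨hσp0, hσp⟩ := en_sphere_fin hn4 hσ hp (by linarith)
  obtain ⟨hσq0, hσq⟩ := en_sphere_fin hn4 hσ hq0 (by linarith)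
  refine ⟨⟨hσp0, hσp, hσq0, hσq⟩, ?_⟩
  intro K hK μ hμ
  have : IsProbabilityMeasure μ := ⟨hμ.1⟩
  rcases eq_or_ne (en q μ) ⊤ with htop | hfin
  · rw [htop, ENNReal.top_div_of_lt_top hσq, ENNReal.top_rpow_of_pos (by positivity),
      ENNReal.mul_top hσp0]
    exact le_top
  obtain ⟨hd, hI⟩ := en_fin hq0 (lt_top_iff_ne_top.2 hfin)
  have hIp := exp_low hp.le hpq.le hI
  set a := ∫ z, Real.exp (q * uf z) ∂(μ.prod μ) with ha
  set b := eS σ q with hb
  have ha0 : 0 < a := integral_exp_pos hI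
  have hb0 : 0 < b := hS1 q hq0.le hqM
  set c : ℝ := (a / b) ^ (1 / q) with hc
  have hc0 : 0 < c := Real.rpow_pos_of_pos (div_pos ha0 hb0) _
  have hcq : c ^ (-q) = b / a := by
    rw [hc, ← Real.rpow_mul (div_pos ha0 hb0).le,
      show 1 / q * -q = -1 by field_simp, Real.rpow_neg_one, inv_div]
  have hcp : c ^ p = (a / b) ^ (p / q) := by
    rw [hc, ← Real.rpow_mul (div_pos ha0 hb0).le]
    congr 1
    field_simp
  have hcore := core2 hq0 hqM hS1 hS2 hK hμ (h1 n hn1 σ hσ) hd hI hc0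
    (by rw [hcq, ← ha, div_mul_cancel₀ _ ha0.ne']) hp hpq
  have hle : ∫ z, Real.exp (p * uf z) ∂(μ.prod μ) ≤ eS σ p * (a / b) ^ (p / q) := by
    rw [← hcp]
    have h3 : 0 < c ^ p := Real.rpow_pos_of_pos hc0 _
    rw [Real.rpow_neg hc0.le, inv_mul_le_iff₀ h3] at hcore
    linarith
  obtain ⟨-, -, -, hep⟩ := sph_en hn4 hσ hp (by linarith)
  obtain ⟨-, -, -, heq⟩ := sph_en hn4 hσ hq0 (by linarith)
  rw [en_of hd hIp, hep, en_of hd hI, heq, ← ENNReal.ofReal_div_of_pos hb0,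
    ENNReal.ofReal_rpow_of_nonneg (div_pos ha0 hb0).le (by positivity),
    ← ENNReal.ofReal_mul (hS1 p hp.le (hpq.le.trans hqM)).le]
  exact ENNReal.ofReal_le_ofReal hle

theorem sharp_log (M : ℝ) (hM : 1 ≤ M) : ∃ n1 : ℕ, ∀ n ≥ n1, ∀ σ : Measure (E (n + 1)), SphM σ →
    ∀ q : ℝ, 0 < q → q ≤ M →
    ∀ (K : Set (E (n + 1))), IsCompact K → ∀ μ : Measure (E (n + 1)), PK K μ → en q μ < ⊤ →
      ∀ D R : ℝ, R = ((en q σ).toReal / (en q μ).toReal) ^ (1 / q) → 2 * R ≤ D → Metric.diam K ≤ D →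
        lgE D μ ≤ lgE (D / R) σ ∧ lgE (D / R) σ < ⊤ := by
  obtain ⟨n1, h1⟩ := q_nonneg M hM
  obtain ⟨n2, h2⟩ := eS_deriv M hM
  refine ⟨max (max n1 n2) (⌈M⌉₊ + 1), ?_⟩
  intro n hn σ hσ q hq0 hqM K hK μ hμ hfin D R hR hDR hDK
  have hn1 : n1 ≤ n := (le_max_left _ _).trans ((le_max_left _ _).trans hn)
  have hn2 : n2 ≤ n := (le_max_right _ _).trans ((le_max_left _ _).trans hn)
  have hn3 : ⌈M⌉₊ + 1 ≤ n := (le_max_right _ _).trans hn
  have hnM : M < n := by
    have h3 := Nat.le_ceil M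
    have h4 : ((⌈M⌉₊ + 1 : ℕ) : ℝ) ≤ n := by exact_mod_cast hn3
    push_cast at h4
    linarith
  have hn4 : 1 ≤ n := by omega
  obtain ⟨hS0, hS1, hS2, -⟩ := h2 n hn2 σ hσ
  have : IsProbabilityMeasure σ := ⟨hσ.1⟩
  have : IsProbabilityMeasure μ := ⟨hμ.1⟩
  obtain ⟨hd, hI⟩ := en_fin hq0 hfin
  obtain ⟨hdσ, hIσ, hvσ, heσ⟩ := sph_en hn4 hσ hq0 (by linarith)
  set a := ∫ z, Real.exp (q * uf z) ∂(μ.prod μ) with ha
  set b := eS σ q with hb
  have ha0 : 0 < a := integral_exp_pos hI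
  have hb0 : 0 < b := hS1 q hq0.le hqM
  have hR' : R = (b / a) ^ (1 / q) := by
    rw [hR, heσ, en_of hd hI, ENNReal.toReal_ofReal hb0.le, ENNReal.toReal_ofReal ha0.le]
  have hR0 : 0 < R := by rw [hR']; exact Real.rpow_pos_of_pos (div_pos hb0 ha0) _
  have hRq : R ^ q = b / a := by
    rw [hR', ← Real.rpow_mul (div_pos hb0 ha0).le, show 1 / q * q = 1 by field_simp, Real.rpow_one]
  have hD0 : 0 < D := by linarith
  have hDR0 : 0 < D / R := div_pos hD0 hR0
  -- supports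
  have hsμ : ∀ᵐ x ∂μ, x ∈ K := by
    rw [ae_iff]
    exact hμ.2
  have hmD : ∀ D' : ℝ, MeasurableSet {z : E (n + 1) × E (n + 1) | ‖z.1 - z.2‖ ≤ D'} := fun D' =>
    measurableSet_le (by fun_prop) measurable_const
  have hdμ : ∀ᵐ z ∂(μ.prod μ), ‖z.1 - z.2‖ ≤ D := by
    refine (Measure.ae_prod_iff_ae_ae (hmD D)).2 ?_
    filter_upwards [hsμ] with x hx
    filter_upwards [hsμ] with y hy
    rw [← dist_eq_norm]
    exact le_trans (Metric.dist_le_diam_of_mem hK.isBounded hx hy) hDK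
  have hdσ' : ∀ᵐ z ∂(σ.prod σ), ‖z.1 - z.2‖ ≤ D / R := by
    have h2R : 2 ≤ D / R := by rwa [le_div_iff₀ hR0]
    refine (Measure.ae_prod_iff_ae_ae (hmD (D / R))).2 ?_
    filter_upwards [sph_norm hσ] with x hx
    filter_upwards [sph_norm hσ] with y hy
    have h3 := norm_sub_le x y
    show ‖x - y‖ ≤ D / R
    rw [hx, hy] at h3
    linarith
  have huμ := uf_int hq0 hd hdμ hI
  have huσ := uf_int hq0 hdσ hdσ' hIσ
  -- the mean of uf for the sphere
  have hlS : ∫ z, uf z ∂(σ.prod σ) = lS σ 0 := by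
    have hae : (uf : E (n + 1) × E (n + 1) → ℝ) =ᵐ[σ.prod σ]
        fun z => -Real.log (‖z.1 - z.2‖ ^ 2) / 2 := by
      filter_upwards with z
      rw [Real.log_pow]
      unfold uf
      push_cast
      ring
    rw [integral_congr_ae hae, sph_val hσ (g := fun t => -Real.log t / 2) (huσ.congr hae)]
    unfold lS
    rw [hS0, integral_div, integral_neg]
    simp
  -- the limit
  have hbound : ∀ p ∈ Ioo 0 q, (∫ z, uf z ∂(μ.prod μ)) + Real.log R ≤ p⁻¹ • (eS σ (0 + p) - eS σ 0) := by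
    intro p hp
    have hIp := exp_low hp.1.le hp.2.le hI
    have hcore := core2 hq0 hqM hS1 hS2 hK hμ (h1 n hn1 σ hσ) hd hI (inv_pos.2 hR0)
      (by rw [Real.inv_rpow hR0.le, Real.rpow_neg hR0.le, inv_inv, hRq, ← ha,
        div_mul_cancel₀ _ ha0.ne']) hp.1 hp.2
    rw [Real.inv_rpow hR0.le, Real.rpow_neg hR0.le, inv_inv] at hcore
    have h3 : ∫ z, (1 + p * (uf z + Real.log R)) ∂(μ.prod μ) ≤
        ∫ z, R ^ p * Real.exp (p * uf z) ∂(μ.prod μ) := by
      refine integral_mono ((integrable_const _).add ((huμ.add (integrable_const _)).const_mul p))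
        (hIp.const_mul _) fun z => ?_
      have h4 := Real.add_one_le_exp (p * (uf z + Real.log R))
      have h5 : Real.exp (p * (uf z + Real.log R)) = R ^ p * Real.exp (p * uf z) := by
        rw [Real.rpow_def_of_pos hR0, ← Real.exp_add]
        congr 1
        ring
      show 1 + p * (uf z + Real.log R) ≤ R ^ p * Real.exp (p * uf z)
      rw [← h5]
      linarith
    rw [integral_const_mul] at h3
    have h6 : ∫ z, (1 + p * (uf z + Real.log R)) ∂(μ.prod μ) =
        1 + p * ((∫ z, uf z ∂(μ.prod μ)) + Real.log R) := by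
      have hA : Integrable (fun z => p * (uf z + Real.log R)) (μ.prod μ) :=
        (huμ.add (integrable_const _)).const_mul p
      rw [integral_add (integrable_const _) hA, integral_const_mul,
        integral_add huμ (integrable_const _)]
      simp
    rw [h6] at h3
    rw [zero_add, hS0, smul_eq_mul, inv_mul_eq_div, le_div_iff₀ hp.1]
    linarith
  have hlim := (hS2 0 le_rfl (by linarith)).tendsto_slope_zero_right
  rw [hS0, mul_one] at hlim
  have hfinal : (∫ z, uf z ∂(μ.prod μ)) + Real.log R ≤ lS σ 0 := by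
    rw [← hS0] at hlim
    refine ge_of_tendsto hlim ?_
    filter_upwards [Ioo_mem_nhdsGT hq0] with p hp
    exact hbound p hp
  rw [lgE_val hD0 hd hdμ huμ, lgE_val hDR0 hdσ hdσ' huσ]
  refine ⟨ENNReal.ofReal_le_ofReal ?_, ENNReal.ofReal_lt_top⟩
  rw [Real.log_div hD0.ne' hR0.ne', hlS]
  linarith

end Pool.Agent.Lib.MP_6cd19d_an.SH
end

section

/-!
# The capacities

As in `HP/F2.lean` (`cap_pos`, `cap_zero`; copy the private lemmas), now with `K ⊆ E (n+1)`: replace `main_pos`, `main_log` by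
`sharp_pos`, `sharp_log` and use `ball_ge_pos`, `ball_ge_log` (`q ≤ M ≤ n - 1` for `n` large).
-/

set_option autoImplicit false

open MeasureTheory Set Filter Topology
open scoped ENNReal NNReal

namespace Pool.Agent.Lib.MP_6cd19d_an.SH

open Pool.Agent.Lib.MP_6cd19d_an.ND Pool.Agent.Lib.MP_6cd19d_an.HP

variable {n : ℕ}

private lemma pk_ball {σ : Measure (E (n + 1))} (hσ : SphM σ) :
    PK (Metric.closedBall (0 : E (n + 1)) 1) σ := by
  refine ⟨hσ.1, measure_mono_null ?_ hσ.2.1⟩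
  exact compl_subset_compl.2 Metric.sphere_subset_closedBall

private lemma lgE_shift {m : ℕ} {μ : Measure (E m)} {K : Set (E m)} (hK : PK K μ) {D0 D : ℝ}
    (h0 : 0 < D0) (h : D0 ≤ D) (hd : ∀ x ∈ K, ∀ y ∈ K, dist x y ≤ D0) :
    lgE D μ = lgE D0 μ + ENNReal.ofReal (Real.log (D / D0)) := by
  have h1 : μ univ = 1 := hK.1
  have hae : ∀ᵐ x ∂μ, x ∈ K := by
    rw [ae_iff]
    exact hK.2
  unfold lgE
  calc ∫⁻ x, ∫⁻ y, (if x = y then (⊤ : ℝ≥0∞) else ENNReal.ofReal (Real.log (D / dist x y))) ∂μ ∂μ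
      = ∫⁻ x, (∫⁻ y, (if x = y then (⊤ : ℝ≥0∞) else
          ENNReal.ofReal (Real.log (D0 / dist x y))) ∂μ + ENNReal.ofReal (Real.log (D / D0))) ∂μ := by
        apply lintegral_congr_ae
        filter_upwards [hae] with x hx
        have e : ∫⁻ y, (if x = y then (⊤ : ℝ≥0∞) else
            ENNReal.ofReal (Real.log (D / dist x y))) ∂μ =
            ∫⁻ y, ((if x = y then (⊤ : ℝ≥0∞) else
              ENNReal.ofReal (Real.log (D0 / dist x y))) +
                ENNReal.ofReal (Real.log (D / D0))) ∂μ := by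
          apply lintegral_congr_ae
          filter_upwards [hae] with y hy
          by_cases hxy : x = y
          · simp [hxy]
          · have hd0 : 0 < dist x y := dist_pos.2 hxy
            have hD : 0 < D := lt_of_lt_of_le h0 h
            rw [if_neg hxy, if_neg hxy, ← ENNReal.ofReal_add]
            · congr 1
              rw [Real.log_div hD.ne' hd0.ne', Real.log_div h0.ne' hd0.ne',
                Real.log_div hD.ne' h0.ne']
              ring
            · exact Real.log_nonneg ((one_le_div hd0).2 (hd x hx y hy))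
            · exact Real.log_nonneg ((one_le_div h0).2 h)
        rw [e, lintegral_add_right _ measurable_const, lintegral_const, h1, mul_one]
    _ = _ := by rw [lintegral_add_right _ measurable_const, lintegral_const, h1, mul_one]

private lemma rp_neg (x : ℝ≥0∞) (p : ℝ) : x ^ (-1 / p) = (x ^ (1 / p))⁻¹ := by
  have e : (-1 / p) = -(1 / p) := by ring
  rw [e, ENNReal.rpow_neg]

private theorem capP (hn : 2 ≤ n) {p q : ℝ} (hp : 0 < p) (hpq : p < q) (hq : q ≤ (n : ℝ) - 1)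
    {σ : Measure (E (n + 1))} (hσ : SphM σ)
    (hmain : (en p σ ≠ 0 ∧ en p σ < ⊤ ∧ en q σ ≠ 0 ∧ en q σ < ⊤) ∧
      ∀ (K : Set (E (n + 1))), IsCompact K → ∀ μ : Measure (E (n + 1)), PK K μ →
        en p μ ≤ en p σ * (en q μ / en q σ) ^ (p / q))
    {K : Set (E (n + 1))} (hK : IsCompact K) :
    capf q K * capf p (Metric.closedBall (0 : E (n + 1)) 1) ≤
      capf p K * capf q (Metric.closedBall (0 : E (n + 1)) 1) := by
  have hq0 : 0 < q := lt_trans hp hpq
  have hqn : q < (n : ℝ) := by linarith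
  have hpn : p < (n : ℝ) := by linarith
  obtain ⟨⟨ep0, ept, eq0, eqt⟩, hmain⟩ := hmain
  set B := Metric.closedBall (0 : E (n + 1)) 1 with hB
  rw [capf_pos_def hp, capf_pos_def hp, capf_pos_def hq0, capf_pos_def hq0, ← ENNReal.toReal_mul,
    ← ENNReal.toReal_mul]
  have hKp0 : infEn p K ≠ 0 := infEn_pos hp hK
  have hKq0 : infEn q K ≠ 0 := infEn_pos hq0 hK
  have hBq0 : infEn q B ≠ 0 := infEn_pos hq0 (isCompact_closedBall _ _)
  have hnt : ∀ (x : ℝ≥0∞) (s : ℝ), 0 < s → x ≠ 0 → x ^ (-1 / s) ≠ ⊤ := by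
    intro x s hs hx
    rw [rp_neg]
    rw [ENNReal.inv_ne_top]
    intro h
    rcases ENNReal.rpow_eq_zero_iff.1 h with ⟨h, -⟩ | ⟨-, h⟩
    · exact hx h
    · have : 0 < 1 / s := by positivity
      linarith
  apply ENNReal.toReal_mono (ENNReal.mul_ne_top (hnt _ _ hp hKp0) (hnt _ _ hq0 hBq0))
  by_cases hMt : infEn q K = ⊤
  · rw [hMt, ENNReal.top_rpow_of_neg (div_neg_of_neg_of_pos (by norm_num) hq0), zero_mul]
    exact zero_le
  -- the comparison of the energies of `K`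
  have hcmp : infEn p K ≤ en p σ * (infEn q K / en q σ) ^ (p / q) := by
    have h1 : (infEn p K / en p σ) ^ (q / p) * en q σ ≤ infEn q K := by
      refine le_iInf₂ fun μ hμ => ?_
      have h2 : infEn p K ≤ en p σ * (en q μ / en q σ) ^ (p / q) :=
        (iInf₂_le μ hμ).trans (hmain K hK μ hμ)
      have h3 : infEn p K / en p σ ≤ (en q μ / en q σ) ^ (p / q) := by
        rw [ENNReal.div_le_iff ep0 ept.ne, mul_comm]
        exact h2
      have h4 : (infEn p K / en p σ) ^ (q / p) ≤ en q μ / en q σ := by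
        calc (infEn p K / en p σ) ^ (q / p) ≤ ((en q μ / en q σ) ^ (p / q)) ^ (q / p) :=
              ENNReal.rpow_le_rpow h3 (by positivity)
          _ = en q μ / en q σ := by
              rw [← ENNReal.rpow_mul]
              have : p / q * (q / p) = 1 := by field_simp
              rw [this, ENNReal.rpow_one]
      exact (ENNReal.le_div_iff_mul_le (Or.inl eq0) (Or.inl eqt.ne)).1 h4
    have h5 : (infEn p K / en p σ) ^ (q / p) ≤ infEn q K / en q σ :=
      (ENNReal.le_div_iff_mul_le (Or.inl eq0) (Or.inl eqt.ne)).2 h1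
    have h6 : infEn p K / en p σ ≤ (infEn q K / en q σ) ^ (p / q) := by
      calc infEn p K / en p σ = ((infEn p K / en p σ) ^ (q / p)) ^ (p / q) := by
            rw [← ENNReal.rpow_mul]
            have : q / p * (p / q) = 1 := by field_simp
            rw [this, ENNReal.rpow_one]
        _ ≤ _ := ENNReal.rpow_le_rpow h5 (by positivity)
    rw [ENNReal.div_le_iff ep0 ept.ne, mul_comm] at h6
    exact h6
  have hp1 : 0 < 1 / p := by positivity
  have hq1 : 0 < 1 / q := by positivity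
  set x := infEn q K ^ (1 / q) with hx
  set u := en p σ ^ (1 / p) with hu
  set v := en q σ ^ (1 / q) with hv
  have hu0 : u ≠ 0 := (ENNReal.rpow_pos (pos_iff_ne_zero.2 ep0) ept.ne).ne'
  have hut : u ≠ ⊤ := ENNReal.rpow_ne_top_of_nonneg hp1.le ept.ne
  have hv0 : v ≠ 0 := (ENNReal.rpow_pos (pos_iff_ne_zero.2 eq0) eqt.ne).ne'
  have hvt : v ≠ ⊤ := ENNReal.rpow_ne_top_of_nonneg hq1.le eqt.ne
  have hx0 : x ≠ 0 := (ENNReal.rpow_pos (pos_iff_ne_zero.2 hKq0) hMt).ne'
  have hxt : x ≠ ⊤ := ENNReal.rpow_ne_top_of_nonneg hq1.le hMt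
  have i1 : infEn p K ^ (1 / p) ≤ u * (x / v) := by
    calc infEn p K ^ (1 / p) ≤ (en p σ * (infEn q K / en q σ) ^ (p / q)) ^ (1 / p) :=
          ENNReal.rpow_le_rpow hcmp hp1.le
      _ = u * (x / v) := by
          rw [ENNReal.mul_rpow_of_nonneg _ _ hp1.le, ← ENNReal.rpow_mul]
          have : p / q * (1 / p) = 1 / q := by field_simp
          rw [this, ENNReal.div_rpow_of_nonneg _ _ hq1.le]
  have i2 : u ≤ infEn p B ^ (1 / p) := by
    refine ENNReal.rpow_le_rpow ?_ hp1.le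
    refine le_iInf₂ fun ν hν => ?_
    exact ball_ge_pos hn hσ hp (by linarith) hν
  have i3 : infEn q B ^ (1 / q) ≤ v := by
    refine ENNReal.rpow_le_rpow ?_ hq1.le
    exact iInf₂_le σ (pk_ball hσ)
  rw [rp_neg, rp_neg, rp_neg, rp_neg]
  calc x⁻¹ * (infEn p B ^ (1 / p))⁻¹ ≤ x⁻¹ * u⁻¹ := by gcongr
    _ = (u * (x / v))⁻¹ * v⁻¹ := by
        rw [← ENNReal.mul_inv (Or.inl hx0) (Or.inl hxt), ← ENNReal.mul_inv (Or.inr hvt) (Or.inr hv0),
          mul_assoc, ENNReal.div_mul_cancel hv0 hvt, mul_comm]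
    _ ≤ (infEn p K ^ (1 / p))⁻¹ * (infEn q B ^ (1 / q))⁻¹ := by gcongr

private theorem capZ (hn : 2 ≤ n) {q : ℝ} (hq0 : 0 < q) (hq : q ≤ (n : ℝ) - 1)
    {σ : Measure (E (n + 1))} (hσ : SphM σ)
    (hmain : ∀ (K : Set (E (n + 1))), IsCompact K → ∀ μ : Measure (E (n + 1)), PK K μ → en q μ < ⊤ →
      ∀ D R : ℝ, R = ((en q σ).toReal / (en q μ).toReal) ^ (1 / q) → 2 * R ≤ D →
        Metric.diam K ≤ D → lgE D μ ≤ lgE (D / R) σ ∧ lgE (D / R) σ < ⊤)
    {K : Set (E (n + 1))} (hK : IsCompact K) :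
    capf q K * capf 0 (Metric.closedBall (0 : E (n + 1)) 1) ≤
      capf 0 K * capf q (Metric.closedBall (0 : E (n + 1)) 1) := by
  have hqn : q < (n : ℝ) := by linarith
  obtain ⟨eq0, eqt⟩ := en_sphere_fin (by omega) hσ hq0 hqn
  set B := Metric.closedBall (0 : E (n + 1)) 1 with hB
  have hdK : 0 ≤ Metric.diam K := Metric.diam_nonneg
  have hBσ := pk_ball hσ
  have hq1 : 0 < 1 / q := by positivity
  have hnn : 0 ≤ capf 0 K := by
    rw [capf_zero_def]
    split_ifs
    · exact le_refl _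
    · positivity
  have hnnB : 0 ≤ capf q B := by
    rw [capf_pos_def hq0]
    exact ENNReal.toReal_nonneg
  by_cases hMt : infEn q K = ⊤
  · have e : capf q K = 0 := by
      rw [capf_pos_def hq0, hMt, ENNReal.top_rpow_of_neg (div_neg_of_neg_of_pos (by norm_num) hq0)]
      rfl
    rw [e, zero_mul]
    exact mul_nonneg hnn hnnB
  have hM0 : infEn q K ≠ 0 := infEn_pos hq0 hK
  set eq : ℝ := (en q σ).toReal with heq
  have heqpos : 0 < eq := ENNReal.toReal_pos eq0 eqt.ne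
  have hdistB : ∀ x ∈ B, ∀ y ∈ B, dist x y ≤ 2 := by
    intro x hx y hy
    have h1 : dist x 0 ≤ 1 := Metric.mem_closedBall.1 hx
    have h2 : dist 0 y ≤ 1 := by
      rw [dist_comm]
      exact Metric.mem_closedBall.1 hy
    have := dist_triangle x 0 y
    linarith
  -- the estimate for one measure
  have hone : ∀ μ : Measure (E (n + 1)), PK K μ → en q μ < ⊤ →
      lgE 2 σ < ⊤ ∧ logEn K ≠ ⊤ ∧
        2 * (eq / (en q μ).toReal) ^ (1 / q) * Real.exp (-(lgE 2 σ).toReal) ≤ capf 0 K := by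
    intro μ hμ hfin
    have hμ0 : en q μ ≠ 0 := by
      intro h
      apply hM0
      exact le_antisymm ((iInf₂_le μ hμ).trans h.le) zero_le
    have hμpos : 0 < (en q μ).toReal := ENNReal.toReal_pos hμ0 hfin.ne
    set R : ℝ := (eq / (en q μ).toReal) ^ (1 / q) with hR
    have hRpos : 0 < R := Real.rpow_pos_of_pos (by positivity) _
    set D0 : ℝ := Metric.diam K + 1 with hD0
    have hD0pos : 0 < D0 := by linarith
    set D : ℝ := max (2 * R) D0 with hD
    have hD1 : 2 * R ≤ D := le_max_left _ _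
    have hD2 : D0 ≤ D := le_max_right _ _
    have hDpos : 0 < D := lt_of_lt_of_le hD0pos hD2
    obtain ⟨h1, h2⟩ := hmain K hK μ hμ hfin D R hR hD1 (by linarith)
    have hdiam : ∀ x ∈ K, ∀ y ∈ K, dist x y ≤ D0 := by
      intro x hx y hy
      have := Metric.dist_le_diam_of_mem hK.isBounded hx hy
      linarith
    have hDR : 2 ≤ D / R := by
      rw [le_div_iff₀ hRpos]
      exact hD1
    have h3 := lgE_shift hμ hD0pos hD2 hdiam
    have h4 := lgE_shift hBσ (by norm_num : (0 : ℝ) < 2) hDR hdistB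
    rw [h3, h4] at h1
    rw [h4] at h2
    have h5 : lgE 2 σ < ⊤ := lt_of_le_of_lt le_self_add h2
    have h6 : lgE D0 μ < ⊤ := lt_of_le_of_lt le_self_add (lt_of_le_of_lt h1 h2)
    have hlogK : logEn K ≤ lgE D0 μ := iInf₂_le μ hμ
    have hlogKt : logEn K ≠ ⊤ := (lt_of_le_of_lt hlogK h6).ne
    refine ⟨h5, hlogKt, ?_⟩
    have hl1 : 0 ≤ Real.log (D / D0) := Real.log_nonneg ((one_le_div hD0pos).2 hD2)
    have hl2 : 0 ≤ Real.log (D / R / 2) := Real.log_nonneg ((one_le_div (by norm_num)).2 hDR)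
    have h7 : (lgE D0 μ).toReal + Real.log (D / D0) ≤ (lgE 2 σ).toReal + Real.log (D / R / 2) := by
      have := ENNReal.toReal_mono h2.ne h1
      rw [ENNReal.toReal_add h6.ne ENNReal.ofReal_ne_top,
        ENNReal.toReal_add h5.ne ENNReal.ofReal_ne_top, ENNReal.toReal_ofReal hl1,
        ENNReal.toReal_ofReal hl2] at this
      exact this
    have h8 : (logEn K).toReal ≤ (lgE D0 μ).toReal := ENNReal.toReal_mono h6.ne hlogK
    have h9 : Real.log (D / R / 2) - Real.log (D / D0) = Real.log D0 - Real.log (2 * R) := by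
      rw [Real.log_div (by positivity) (by norm_num), Real.log_div hDpos.ne' hRpos.ne',
        Real.log_div hDpos.ne' hD0pos.ne', Real.log_mul (by norm_num) hRpos.ne']
      ring
    have h10 : (logEn K).toReal ≤ (lgE 2 σ).toReal + Real.log D0 - Real.log (2 * R) := by linarith
    rw [capf_zero_def, if_neg hlogKt]
    calc 2 * R * Real.exp (-(lgE 2 σ).toReal)
        = D0 * Real.exp (-((lgE 2 σ).toReal + Real.log D0 - Real.log (2 * R))) := by
          have e : -((lgE 2 σ).toReal + Real.log D0 - Real.log (2 * R)) =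
              Real.log (2 * R) + -(lgE 2 σ).toReal - Real.log D0 := by ring
          rw [e, Real.exp_sub, Real.exp_add, Real.exp_log (by positivity), Real.exp_log hD0pos]
          field_simp
      _ ≤ D0 * Real.exp (-(logEn K).toReal) := by
          apply mul_le_mul_of_nonneg_left _ hD0pos.le
          exact Real.exp_le_exp.2 (by linarith)
  -- there is a measure of finite energy
  obtain ⟨μ0, hμ0, hfin0⟩ : ∃ μ : Measure (E (n + 1)), PK K μ ∧ en q μ < ⊤ := by
    have h : infEn q K < ⊤ := lt_top_iff_ne_top.2 hMt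
    unfold infEn at h
    simp only [iInf_lt_iff] at h
    obtain ⟨μ, hμ, h⟩ := h
    exact ⟨μ, hμ, h⟩
  obtain ⟨hσt, hlogKt, hcap0⟩ := hone μ0 hμ0 hfin0
  set l2 : ℝ := (lgE 2 σ).toReal with hl2
  have hen0 : ∀ μ : Measure (E (n + 1)), PK K μ → en q μ < ⊤ → 0 < (en q μ).toReal := by
    intro μ hμ hfin
    refine ENNReal.toReal_pos ?_ hfin.ne
    intro h
    apply hM0
    exact le_antisymm ((iInf₂_le μ hμ).trans h.le) zero_le
  have hcappos : 0 < capf 0 K := by
    have h1 := hen0 μ0 hμ0 hfin0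
    refine lt_of_lt_of_le ?_ hcap0
    positivity
  set M : ℝ := (infEn q K).toReal with hM
  have hMpos : 0 < M := ENNReal.toReal_pos hM0 hMt
  -- the estimate for the infimum
  set c : ℝ := capf 0 K * Real.exp l2 / 2 with hc
  have hcpos : 0 < c := by positivity
  have hinf : eq / c ^ q ≤ M := by
    have h1 : ENNReal.ofReal (eq / c ^ q) ≤ infEn q K := by
      refine le_iInf₂ fun μ hμ => ?_
      by_cases hfin : en q μ = ⊤
      · rw [hfin]; exact le_top
      have hfin' : en q μ < ⊤ := lt_top_iff_ne_top.2 hfin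
      have h2 := (hone μ hμ hfin').2.2
      have h3 := hen0 μ hμ hfin'
      have h4 : (eq / (en q μ).toReal) ^ (1 / q) ≤ c := by
        have e : Real.exp (-l2) * Real.exp l2 = 1 := by
          rw [← Real.exp_add]; simp
        have h5 : 2 * (eq / (en q μ).toReal) ^ (1 / q) * Real.exp (-l2) * Real.exp l2 ≤
            capf 0 K * Real.exp l2 := mul_le_mul_of_nonneg_right h2 (Real.exp_pos _).le
        rw [mul_assoc, e, mul_one] at h5
        rw [hc]
        linarith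
      have h5 : eq / (en q μ).toReal ≤ c ^ q := by
        have h6 := Real.rpow_le_rpow (by positivity) h4 hq0.le
        rw [← Real.rpow_mul (by positivity)] at h6
        have : 1 / q * q = 1 := by field_simp
        rw [this, Real.rpow_one] at h6
        exact h6
      have hcq : 0 < c ^ q := Real.rpow_pos_of_pos hcpos _
      rw [ENNReal.ofReal_le_iff_le_toReal hfin]
      rw [div_le_iff₀ hcq]
      rw [div_le_iff₀ h3] at h5
      linarith
    exact (ENNReal.ofReal_le_iff_le_toReal hMt).1 h1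
  have hinf2 : (eq / M) ^ (1 / q) ≤ c := by
    have hcq : 0 < c ^ q := Real.rpow_pos_of_pos hcpos _
    have h1 : eq / M ≤ c ^ q := by
      rw [div_le_iff₀ hMpos]
      rw [div_le_iff₀ hcq] at hinf
      linarith
    calc (eq / M) ^ (1 / q) ≤ (c ^ q) ^ (1 / q) := Real.rpow_le_rpow (by positivity) h1 hq1.le
      _ = c := by
          rw [← Real.rpow_mul hcpos.le]
          have : q * (1 / q) = 1 := by field_simp
          rw [this, Real.rpow_one]
  -- the ball
  have hdB : 1 ≤ Metric.diam B := by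
    have hb : bv (0 : Fin (n + 1)) ∈ B := by
      rw [hB, Metric.mem_closedBall, dist_zero_right, bv]
      simp
    have h0 : (0 : E (n + 1)) ∈ B := by rw [hB]; simp
    have := Metric.dist_le_diam_of_mem (Metric.isBounded_closedBall (x := (0 : E (n + 1))) (r := 1)) hb h0
    rw [dist_zero_right, bv] at this
    have e : ‖(EuclideanSpace.single (0 : Fin (n + 1)) (1 : ℝ) : E (n + 1))‖ = 1 := by simp
    rw [e] at this
    exact this
  have hcapB : capf 0 B ≤ 2 * Real.exp (-l2) := by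
    rw [capf_zero_def]
    split_ifs with hif
    · positivity
    · have h1 : lgE (Metric.diam B + 1) σ ≤ logEn B := by
        refine le_iInf₂ fun ν hν => ?_
        exact ball_ge_log hn hσ (by linarith) hν
      have h2 := lgE_shift hBσ (by norm_num : (0 : ℝ) < 2)
        (by linarith : (2 : ℝ) ≤ Metric.diam B + 1) hdistB
      rw [h2] at h1
      have h3 := ENNReal.toReal_mono hif h1
      have hl : 0 ≤ Real.log ((Metric.diam B + 1) / 2) :=
        Real.log_nonneg ((one_le_div (by norm_num)).2 (by linarith))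
      rw [ENNReal.toReal_add hσt.ne ENNReal.ofReal_ne_top, ENNReal.toReal_ofReal hl] at h3
      calc (Metric.diam B + 1) * Real.exp (-(logEn B).toReal)
          ≤ (Metric.diam B + 1) * Real.exp (-(l2 + Real.log ((Metric.diam B + 1) / 2))) := by
            apply mul_le_mul_of_nonneg_left _ (by linarith)
            exact Real.exp_le_exp.2 (by linarith)
        _ = 2 * Real.exp (-l2) := by
            rw [neg_add, Real.exp_add, Real.exp_neg (Real.log _), Real.exp_log (by linarith)]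
            have : Metric.diam B + 1 ≠ 0 := by linarith
            field_simp
  have hcapqB : eq ^ (-1 / q) ≤ capf q B := by
    rw [capf_pos_def hq0, heq, ENNReal.toReal_rpow]
    apply ENNReal.toReal_mono
    · rw [rp_neg, ENNReal.inv_ne_top]
      intro h
      rcases ENNReal.rpow_eq_zero_iff.1 h with ⟨h, -⟩ | ⟨-, h⟩
      · exact infEn_pos hq0 (isCompact_closedBall _ _) h
      · linarith
    · rw [rp_neg, rp_neg]
      apply ENNReal.inv_le_inv.2
      refine ENNReal.rpow_le_rpow ?_ hq1.le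
      exact iInf₂_le σ hBσ
  have hcapqK : capf q K = M ^ (-1 / q) := by
    rw [capf_pos_def hq0, ← ENNReal.toReal_rpow]
  rw [hcapqK]
  have hMe : (eq / M) ^ (1 / q) = eq ^ (1 / q) * M ^ (-1 / q) := by
    have e : (-1 / q) = -(1 / q) := by ring
    rw [Real.div_rpow heqpos.le hMpos.le, e, Real.rpow_neg hMpos.le]
    rfl
  have hee : eq ^ (1 / q) * eq ^ (-1 / q) = 1 := by
    rw [← Real.rpow_add heqpos]
    have : 1 / q + -1 / q = 0 := by ring
    rw [this, Real.rpow_zero]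
  have hMq : 0 < M ^ (-1 / q) := Real.rpow_pos_of_pos hMpos _
  have heqq : 0 < eq ^ (-1 / q) := Real.rpow_pos_of_pos heqpos _
  have hex : Real.exp (-l2) * Real.exp l2 = 1 := by
    rw [← Real.exp_add]; simp
  rw [hMe] at hinf2
  have h1 : M ^ (-1 / q) ≤ c * eq ^ (-1 / q) := by
    calc M ^ (-1 / q) = (eq ^ (1 / q) * M ^ (-1 / q)) * eq ^ (-1 / q) := by
          rw [mul_right_comm, hee, one_mul]
      _ ≤ c * eq ^ (-1 / q) := mul_le_mul_of_nonneg_right hinf2 heqq.le
  calc M ^ (-1 / q) * capf 0 B ≤ M ^ (-1 / q) * (2 * Real.exp (-l2)) :=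
        mul_le_mul_of_nonneg_left hcapB hMq.le
    _ ≤ (c * eq ^ (-1 / q)) * (2 * Real.exp (-l2)) :=
        mul_le_mul_of_nonneg_right h1 (by positivity)
    _ = capf 0 K * eq ^ (-1 / q) * (Real.exp (-l2) * Real.exp l2) := by
        rw [hc]; ring
    _ = capf 0 K * eq ^ (-1 / q) := by rw [hex, mul_one]
    _ ≤ capf 0 K * capf q B := mul_le_mul_of_nonneg_left hcapqB hnn

theorem sharp_cap (M : ℝ) (hM : 1 ≤ M) : ∃ n1 : ℕ, ∀ n ≥ n1, ∀ p q : ℝ, 0 ≤ p → p < q → q ≤ M →
    ∀ K : Set (E (n + 1)), IsCompact K →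
      capf q K * capf p (Metric.closedBall (0 : E (n + 1)) 1) ≤
        capf p K * capf q (Metric.closedBall (0 : E (n + 1)) 1) := by
  obtain ⟨n1, h1⟩ := sharp_pos M hM
  obtain ⟨n2, h2⟩ := sharp_log M hM
  refine ⟨max (max n1 n2) (max 2 (⌈M⌉₊ + 1)), ?_⟩
  intro n hn p q hp hpq hqM K hK
  have hn1 : n1 ≤ n := le_trans (le_trans (le_max_left _ _) (le_max_left _ _)) hn
  have hn2 : n2 ≤ n := le_trans (le_trans (le_max_right _ _) (le_max_left _ _)) hn
  have hn3 : 2 ≤ n := le_trans (le_trans (le_max_left _ _) (le_max_right _ _)) hn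
  have hn4 : ⌈M⌉₊ + 1 ≤ n := le_trans (le_trans (le_max_right _ _) (le_max_right _ _)) hn
  have hqn : q ≤ (n : ℝ) - 1 := by
    have h4 : ((⌈M⌉₊ + 1 : ℕ) : ℝ) ≤ (n : ℝ) := by exact_mod_cast hn4
    push_cast at h4
    have h5 : M ≤ (⌈M⌉₊ : ℝ) := Nat.le_ceil M
    linarith
  obtain ⟨σ, hσ⟩ := exists_sphM (n := n)
  rcases hp.eq_or_lt with hp0 | hp0
  · subst hp0
    exact capZ hn3 hpq hqn hσ (h2 n hn2 σ hσ q hpq hqM) hK
  · exact capP hn3 hp0 hpq hqn hσ (h1 n hn1 σ hσ p q hp0 hpq hqM) hK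

end Pool.Agent.Lib.MP_6cd19d_an.SH
end
end
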